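import Pool.Agent.H460U.TR.Defs

/-! Task AG of project TR (helper460): the rotation operators are in the algebra. -/

set_option autoImplicit false

open MeasureTheory Complex Filter
open scoped ComplexConjugate Matrix Topology InnerProductSpace

namespace Pool.Agent.H460U

noncomputable section

namespace AGaux

theorem alg (a b K : M2) (w v0 v1 : ℂ) (hab : w • b = a * K) (ha : aᴴ * a = 1)
    (hb : bᴴ * b = 1) (j : Fin 2) :
    conj (a 0 j) * (w * v0) + conj (a 1 j) * (w * v1) =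
      (conj (b 0 0) * v0 + conj (b 1 0) * v1) * K j 0 +
        (conj (b 0 1) * v0 + conj (b 1 1) * v1) * K j 1 := by
  have hb' : b * bᴴ = 1 := mul_eq_one_comm.mp hb
  have h1 : w • (1 : M2) = (a * K) * bᴴ := by
    rw [← hab, Matrix.smul_mul, hb']
  have h2 : w • aᴴ = K * bᴴ := by
    calc w • aᴴ = aᴴ * (w • (1 : M2)) := by rw [Matrix.mul_smul, Matrix.mul_one]
      _ = (aᴴ * a) * (K * bᴴ) := by rw [h1]; simp only [Matrix.mul_assoc]
      _ = K * bᴴ := by rw [ha, Matrix.one_mul]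
  have e0 : w * conj (a 0 j) = K j 0 * conj (b 0 0) + K j 1 * conj (b 0 1) := by
    have := congrFun (congrFun h2 j) 0
    simpa [Matrix.mul_apply, Fin.sum_univ_two, Matrix.conjTranspose_apply] using this
  have e1 : w * conj (a 1 j) = K j 0 * conj (b 1 0) + K j 1 * conj (b 1 1) := by
    have := congrFun (congrFun h2 j) 1
    simpa [Matrix.mul_apply, Fin.sum_univ_two, Matrix.conjTranspose_apply] using this
  linear_combination v0 * e0 + v1 * e1

theorem entry_le (a : M2) (ha : aᴴ * a = 1) (i j : Fin 2) : ‖a i j‖ ≤ 1 := by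
  have h := congrFun (congrFun ha j) j
  simp only [Matrix.mul_apply, Fin.sum_univ_two, Matrix.conjTranspose_apply, Matrix.one_apply_eq]
    at h
  have h1 : ((‖a 0 j‖ ^ 2 + ‖a 1 j‖ ^ 2 : ℝ) : ℂ) = 1 := by
    rw [← h]
    have e : ∀ z : ℂ, star z * z = ((‖z‖ ^ 2 : ℝ) : ℂ) := by
      intro z
      rw [Complex.star_def, mul_comm, Complex.mul_conj, Complex.normSq_eq_norm_sq]
    rw [e, e]; push_cast; ring
  have h2 : ‖a 0 j‖ ^ 2 + ‖a 1 j‖ ^ 2 = 1 := by exact_mod_cast h1
  have h3 : ‖a i j‖ ^ 2 ≤ 1 := by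
    fin_cases i
    · simp only [Fin.zero_eta]; nlinarith [sq_nonneg ‖a 1 j‖]
    · simp only [Fin.mk_one]; nlinarith [sq_nonneg ‖a 0 j‖]
  have h4 := norm_nonneg (a i j)
  nlinarith

theorem memLp_mul {φ f : X → ℂ} (hm : AEStronglyMeasurable φ mu) (hb : ∀ᵐ x ∂mu, ‖φ x‖ ≤ 1)
    (hf : MemLp f 2 mu) : MemLp (fun x => conj (φ x) * f x) 2 mu := by
  refine hf.of_le ?_ ?_
  · exact (Complex.continuous_conj.comp_aestronglyMeasurable hm).mul hf.1
  · filter_upwards [hb] with x hx
    rw [norm_mul, RCLike.norm_conj]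
    exact mul_le_of_le_one_left (norm_nonneg _) hx

theorem an_congr {f g : X → ℂ} (h : f =ᵐ[mu] g) (hf : An f) : An g := by
  intro n hn
  rw [← hf n hn]
  unfold fourierCoeff
  refine integral_congr_ae ?_
  filter_upwards [h] with x hx
  rw [hx]

theorem integrable_fc {f : X → ℂ} (hf : MemLp f 2 mu) (n : ℤ) :
    Integrable (fun x => fourier n x • f x) mu := by
  have hi : Integrable f mu := hf.integrable (by norm_num)
  refine hi.mono ((fourier n).continuous.aestronglyMeasurable.smul hf.1) ?_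
  refine Eventually.of_forall fun x => ?_
  rw [norm_smul]
  have : ‖(fourier n x : ℂ)‖ = 1 := by
    rw [fourier_apply]; exact Circle.norm_coe _
  rw [this, one_mul]

theorem an_add {f g : X → ℂ} (hf : MemLp f 2 mu) (hg : MemLp g 2 mu) (h1 : An f) (h2 : An g) :
    An (fun x => f x + g x) := by
  intro n hn
  have e1 := h1 n hn
  have e2 := h2 n hn
  unfold fourierCoeff at e1 e2 ⊢
  simp only [smul_add]
  rw [integral_add (integrable_fc hf (-n)) (integrable_fc hg (-n)), e1, e2, add_zero]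

theorem bd_of_cont {f : X → ℂ} (hf : Continuous f) : Bd f := by
  obtain ⟨C, hC⟩ := isCompact_univ.exists_bound_of_continuousOn (f := f) hf.continuousOn
  exact ⟨hf.aestronglyMeasurable, C, Eventually.of_forall fun x => hC x (Set.mem_univ _)⟩

end AGaux

open AGaux in
theorem t_AG (h1 : S_PAN) (h2 : S_H1) (h3 : S_H2) : S_AG := by
  intro ν N Φ hP hΦ k g hg A hA f f' hG j
  have hT : MeasurePreserving (fun x : X => x + g) mu mu := measurePreserving_add_right mu g
  have hent : ∀ i l, ∀ᵐ x ∂mu, ‖Φ x i l‖ ≤ 1 := by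
    intro i l
    filter_upwards [hΦ.unit] with x hx
    exact entry_le _ hx i l
  -- the analytic functions
  have hmem : ∀ l, MemLp (fun x => conj (Φ x 0 l) * f x + conj (Φ x 1 l) * f' x) 2 mu := by
    intro l
    exact (memLp_mul (hΦ.meas 0 l) (hent 0 l) (Lp.memLp f)).add
      (memLp_mul (hΦ.meas 1 l) (hent 1 l) (Lp.memLp f'))
  have hmemT : ∀ l, MemLp (fun x => conj (Φ (x + g) 0 l) * f (x + g)
      + conj (Φ (x + g) 1 l) * f' (x + g)) 2 mu := fun l =>
    (hmem l).comp_measurePreserving hT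
  have hanT : ∀ l, An (fun x => conj (Φ (x + g) 0 l) * f (x + g)
      + conj (Φ (x + g) 1 l) * f' (x + g)) := fun l => h3 _ g (hG l)
  have hK := h1 ν N hP.pos k g
  have hprod : ∀ l, MemLp (fun x => (conj (Φ (x + g) 0 l) * f (x + g)
      + conj (Φ (x + g) 1 l) * f' (x + g)) *
      ((PP ν N k x).adjugate * PP ν N k (x + g)) j l) 2 mu ∧
      An (fun x => (conj (Φ (x + g) 0 l) * f (x + g)
      + conj (Φ (x + g) 1 l) * f' (x + g)) *
      ((PP ν N k x).adjugate * PP ν N k (x + g)) j l) := fun l =>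
    h2 _ _ (hmemT l) (hanT l) (bd_of_cont (hK j l).1) (hK j l).2
  have hsum := an_add (hprod 0).1 (hprod 1).1 (hprod 0).2 (hprod 1).2
  refine an_congr ?_ hsum
  have hu' : ∀ᵐ x ∂mu, (Φ (x + g))ᴴ * Φ (x + g) = 1 :=
    Filter.Tendsto.eventually (p := fun y : X => (Φ y)ᴴ * Φ y = 1)
      hT.quasiMeasurePreserving.tendsto_ae hΦ.unit
  filter_upwards [hΦ.unit, hu', hΦ.inv k g hg, hA f, hA f'] with x a1 a2 a3 a4 a5
  have key := alg (Φ x) (Φ (x + g)) _ (ww ν N k g x) (f (x + g)) (f' (x + g)) a3 a1 a2 j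
  have key2 := congrArg₂ (fun u v : ℂ => conj (Φ x 0 j) * u + conj (Φ x 1 j) * v) a4 a5
  exact (key2.trans key).symm

end

end Pool.Agent.H460U
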