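import Pool.Agent.H460U.TR.Defs3

/-! AG3 (helper142): the rotation operators are in the algebra. -/

set_option autoImplicit false

open MeasureTheory Complex Filter
open scoped ComplexConjugate Matrix Topology InnerProductSpace

namespace Pool.Agent.H460U

namespace AG3

theorem An_congr {f g : X → ℂ} (h : f =ᵐ[mu] g) (hf : An f) : An g := by
  intro n hn
  rw [← hf n hn]
  unfold fourierCoeff
  apply integral_congr_ae
  filter_upwards [h] with x hx
  rw [hx]

theorem norm_four (n : ℤ) (x : X) : ‖(fourier n x : ℂ)‖ = 1 := by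
  rw [fourier_apply]
  exact Circle.norm_coe _

theorem An_sum (F : Fin 3 → X → ℂ) (hF : ∀ l, MemLp (F l) 2 mu) (hA : ∀ l, An (F l)) :
    An (fun x => ∑ l, F l x) := by
  intro n hn
  unfold fourierCoeff
  simp only [Finset.smul_sum]
  rw [integral_finset_sum]
  · apply Finset.sum_eq_zero
    intro l _
    exact hA l n hn
  · intro l _
    have h1 : Integrable (F l) mu := (hF l).integrable one_le_two
    exact h1.bdd_mul (c := 1) (fourier (-n)).continuous.aestronglyMeasurable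
      (Eventually.of_forall fun x => (norm_four _ x).le)

theorem entry {A : M3} (hA : Aᴴ * A = 1) (i j : Fin 3) : ‖A i j‖ ≤ 1 := by
  apply entry_norm_bound_of_unitary
  rw [Matrix.mem_unitaryGroup_iff']
  exact hA

theorem memH (Φ : X → M3) (hm : ∀ i j, AEStronglyMeasurable (fun x => Φ x i j) mu)
    (hu : ∀ᵐ x ∂mu, (Φ x)ᴴ * Φ x = 1) (f : Fin 3 → L2) (j : Fin 3) :
    MemLp (fun x => ∑ i : Fin 3, conj (Φ x i j) * f i x) 2 mu := by
  have key : ∀ i : Fin 3, MemLp (fun x => conj (Φ x i j) * f i x) 2 mu := by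
    intro i
    have h0 : MemLp (fun x => f i x) 2 mu := Lp.memLp (f i)
    have h1 : AEStronglyMeasurable (fun x => conj (Φ x i j) * f i x) mu :=
      (Complex.continuous_conj.comp_aestronglyMeasurable (hm i j)).mul h0.1
    have h2 : ∀ᵐ x ∂mu, ‖conj (Φ x i j) * f i x‖ ≤ ‖f i x‖ := by
      filter_upwards [hu] with x hx
      rw [norm_mul, RCLike.norm_conj]
      exact mul_le_of_le_one_left (norm_nonneg _) (entry hx i j)
    exact MemLp.mono h0 h1 h2
  have hs : (fun x => ∑ i : Fin 3, conj (Φ x i j) * f i x) =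
      fun x => conj (Φ x 0 j) * f 0 x + conj (Φ x 1 j) * f 1 x + conj (Φ x 2 j) * f 2 x := by
    funext x
    rw [Fin.sum_univ_three]
  rw [hs]
  exact ((key 0).add (key 1)).add (key 2)

theorem bdK {K : X → ℂ} (hK : Continuous K) : Bd K := by
  refine ⟨hK.aestronglyMeasurable, ?_⟩
  obtain ⟨C, hC⟩ := isCompact_univ.exists_bound_of_continuousOn hK.continuousOn
  exact ⟨C, Eventually.of_forall fun x => hC x (Set.mem_univ _)⟩

theorem alg (U V K : M3) (w : ℂ) (v : Fin 3 → ℂ) (hU : Uᴴ * U = 1) (hV : Vᴴ * V = 1)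
    (h : w • V = U * K) (j : Fin 3) :
    ∑ i : Fin 3, conj (U i j) * (w * v i) = ∑ l : Fin 3, (∑ i : Fin 3, conj (V i l) * v i) * K j l := by
  have hV' : V * Vᴴ = 1 := mul_eq_one_comm.1 hV
  have h1 : Uᴴ *ᵥ (w • v) = K *ᵥ (Vᴴ *ᵥ v) := by
    have e1 : w • v = (w • V) *ᵥ (Vᴴ *ᵥ v) := by
      rw [Matrix.smul_mulVec, Matrix.mulVec_mulVec, hV', Matrix.one_mulVec]
    rw [e1, h, Matrix.mulVec_mulVec, ← Matrix.mul_assoc, hU, Matrix.one_mul]
  have h2 := congrFun h1 j
  simp only [Matrix.mulVec, dotProduct, Matrix.conjTranspose_apply, Pi.smul_apply,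
    smul_eq_mul, Complex.star_def] at h2
  rw [h2]
  exact Finset.sum_congr rfl fun l _ => mul_comm _ _

end AG3

open AG3

theorem t_AG3 (hPAN : S_PAN3) (h1 : S_H1) (h2 : S_H2) : S_AG3 := by
  intro p m t N Φ hpar hΦ k g hg A hA f hf j
  have hpos := hpar.pos
  have hK := hPAN p N hpos k g
  have hmp : MeasurePreserving (fun x : X => x + g) mu mu := measurePreserving_add_right mu g
  -- the functions `h_l (x + g) K_{jl} (x)`
  have hF : ∀ l : Fin 3,
      MemLp (fun x => (∑ i : Fin 3, conj (Φ (x + g) i l) * f i (x + g)) *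
        ((PP3 p N k x).adjugate * PP3 p N k (x + g)) j l) 2 mu ∧
      An (fun x => (∑ i : Fin 3, conj (Φ (x + g) i l) * f i (x + g)) *
        ((PP3 p N k x).adjugate * PP3 p N k (x + g)) j l) := by
    intro l
    apply h1
    · exact (memH Φ hΦ.meas hΦ.unit f l).comp_measurePreserving hmp
    · exact h2 _ g (hf l)
    · exact bdK (hK j l).1
    · exact (hK j l).2
  have hsum := An_sum _ (fun l => (hF l).1) (fun l => (hF l).2)
  have hu' : ∀ᵐ x ∂mu, (Φ (x + g))ᴴ * Φ (x + g) = 1 := by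
    have h := hmp.quasiMeasurePreserving.ae hΦ.unit
    exact h
  have hAf : ∀ᵐ x ∂mu, ∀ i : Fin 3, A (f i) x = ww3 m t N k g x * f i (x + g) := by
    rw [ae_all_iff]
    intro i
    exact hA (f i)
  have hu0 : ∀ᵐ x ∂mu, (Φ x)ᴴ * Φ x = 1 := hΦ.unit
  have hinv : ∀ᵐ x ∂mu, ww3 m t N k g x • Φ (x + g) =
      Φ x * ((PP3 p N k x).adjugate * PP3 p N k (x + g)) := hΦ.inv k g hg
  have hfin : ∀ᵐ x ∂mu, (∑ l : Fin 3, (∑ i : Fin 3, conj (Φ (x + g) i l) * f i (x + g)) *
        ((PP3 p N k x).adjugate * PP3 p N k (x + g)) j l) =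
      (∑ i : Fin 3, conj (Φ x i j) * A (f i) x) := by
    filter_upwards [hu0, hu', hinv, hAf] with x hx1 hx2 hx3 hx4
    rw [← alg (Φ x) (Φ (x + g)) _ (ww3 m t N k g x) (fun i => f i (x + g)) hx1 hx2 hx3 j]
    exact Finset.sum_congr rfl fun i _ => by rw [hx4 i]
  exact An_congr hfin hsum

end Pool.Agent.H460U
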