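import Pool.Agent.H460U.TR.Defs3

/-! AP: polynomial approximation of the branch. -/

set_option autoImplicit false

open MeasureTheory Complex Filter
open scoped ComplexConjugate Matrix Topology InnerProductSpace

namespace Pool.Agent.H460U

noncomputable section

namespace AP



lemma norm_rt (ξ : ℂ) : ‖rt ξ‖ = 1 := by
  unfold rt
  rw [mul_comm]
  exact Complex.norm_exp_ofReal_mul_I _

lemma norm_rt_inv (ξ : ℂ) : ‖(rt ξ)⁻¹‖ = 1 := by
  rw [norm_inv, norm_rt, inv_one]

lemma rt_cont (ξ : ℂ) (h1 : ‖ξ‖ = 1) (h2 : ξ ≠ -1) : ContinuousAt (fun z : ℂ => (rt z)⁻¹) ξ := by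
  have hs : ξ ∈ slitPlane := by
    rw [Complex.mem_slitPlane_iff]
    by_contra hcon
    push Not at hcon
    obtain ⟨h3, h4⟩ := hcon
    apply h2
    have h5 : ξ = (ξ.re : ℂ) := by
      apply Complex.ext
      · simp
      · simp [h4]
    rw [h5, Complex.norm_real, Real.norm_eq_abs, abs_of_nonpos h3] at h1
    rw [h5]
    have : ξ.re = -1 := by linarith
    rw [this]
    simp
  have h3 : ContinuousAt (fun z : ℂ => rt z) ξ := by
    unfold rt
    apply ContinuousAt.cexp
    apply ContinuousAt.mul continuousAt_const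
    apply Complex.continuous_ofReal.continuousAt.comp'
    exact (Complex.continuousAt_arg hs).div_const _
  refine h3.inv₀ ?_
  intro h
  have := norm_rt ξ
  rw [h, norm_zero] at this
  exact zero_ne_one this

/-- the cut-off branch -/
def al (n : ℕ) (z : ℂ) : ℂ := (rt z)⁻¹ * ((min 1 ((n : ℝ) * ‖z + 1‖) : ℝ) : ℂ)

lemma al_norm (n : ℕ) (z : ℂ) : ‖al n z‖ = min 1 ((n : ℝ) * ‖z + 1‖) := by
  unfold al
  rw [norm_mul, norm_rt_inv, one_mul, Complex.norm_real, Real.norm_eq_abs, abs_of_nonneg]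
  exact le_min zero_le_one (by positivity)

lemma al_le (n : ℕ) (z : ℂ) : ‖al n z‖ ≤ 1 := by
  rw [al_norm]
  exact min_le_left _ _

lemma al_cont (n : ℕ) (z : ℂ) (hz : ‖z‖ = 1) : ContinuousAt (al n) z := by
  by_cases h : z = -1
  · subst h
    have h0 : al n (-1) = 0 := by
      rw [← norm_eq_zero, al_norm]
      simp
    rw [ContinuousAt, h0]
    have h1 : Tendsto (fun z : ℂ => (n : ℝ) * ‖z + 1‖) (𝓝 (-1)) (𝓝 0) := by
      have h2 : Continuous (fun z : ℂ => (n : ℝ) * ‖z + 1‖) := by fun_prop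
      have h3 := h2.tendsto (-1)
      simpa using h3
    refine squeeze_zero_norm (fun z => ?_) h1
    rw [al_norm]
    exact min_le_right _ _
  · unfold al
    refine (rt_cont z hz h).mul ?_
    apply Complex.continuous_ofReal.continuousAt.comp'
    fun_prop

/-- the cut-off branch on the additive circle -/
def fn (n : ℕ) : C(AddCircle (1 : ℝ), ℂ) where
  toFun x := al n (AddCircle.toCircle x : ℂ)
  continuous_toFun := by
    rw [continuous_iff_continuousAt]
    intro x
    have h1 : ContinuousAt (al n) (AddCircle.toCircle x : ℂ) := al_cont n _ (Circle.norm_coe _)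
    have h2 : Continuous (fun x : AddCircle (1 : ℝ) => (AddCircle.toCircle x : ℂ)) :=
      continuous_subtype_val.comp AddCircle.continuous_toCircle
    exact ContinuousAt.comp (f := fun x : AddCircle (1 : ℝ) => (AddCircle.toCircle x : ℂ)) h1
      h2.continuousAt

lemma exists_poly (f : C(AddCircle (1 : ℝ), ℂ)) (ε : ℝ) (hε : 0 < ε) :
    ∃ (d : ℕ) (P : Polynomial ℂ), P.natDegree ≤ 2 * d ∧
      ∀ x : AddCircle (1 : ℝ), ‖P.eval (AddCircle.toCircle x : ℂ) *
        (AddCircle.toCircle x : ℂ)⁻¹ ^ d - f x‖ < ε := by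
  have h1 : f ∈ closure ((Submodule.span ℂ (Set.range (@fourier (1 : ℝ))) :
      Submodule ℂ C(AddCircle (1 : ℝ), ℂ)) : Set C(AddCircle (1 : ℝ), ℂ)) := by
    have h2 : f ∈ (Submodule.span ℂ (Set.range (@fourier (1 : ℝ)))).topologicalClosure := by
      rw [span_fourier_closure_eq_top]
      trivial
    exact h2
  obtain ⟨g, hg, hfg⟩ := Metric.mem_closure_iff.mp h1 ε hε
  obtain ⟨c, hc⟩ := (Finsupp.mem_span_range_iff_exists_finsupp).mp hg
  set d : ℕ := c.support.sup Int.natAbs with hd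
  have hdle : ∀ n ∈ c.support, -(d : ℤ) ≤ n ∧ n ≤ d := by
    intro n hn
    have : n.natAbs ≤ d := Finset.le_sup (f := Int.natAbs) hn
    omega
  refine ⟨d, ∑ n ∈ c.support, Polynomial.C (c n) * Polynomial.X ^ (n + d).toNat, ?_, ?_⟩
  · apply Polynomial.natDegree_sum_le_of_forall_le
    intro n hn
    refine (Polynomial.natDegree_C_mul_X_pow_le _ _).trans ?_
    have := hdle n hn
    omega
  · intro x
    set ξ : ℂ := (AddCircle.toCircle x : ℂ) with hξ
    have hξ0 : ξ ≠ 0 := by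
      intro h
      have h3 : ‖ξ‖ = 1 := Circle.norm_coe _
      rw [h, norm_zero] at h3
      exact zero_ne_one h3
    have h4 : (∑ n ∈ c.support, Polynomial.C (c n) * Polynomial.X ^ (n + d).toNat).eval ξ *
        ξ⁻¹ ^ d = g x := by
      rw [← hc, Polynomial.eval_finsetSum, Finset.sum_mul, Finsupp.sum, ContinuousMap.sum_apply]
      apply Finset.sum_congr rfl
      intro n hn
      have h5 := hdle n hn
      rw [Polynomial.eval_mul, Polynomial.eval_C, Polynomial.eval_pow, Polynomial.eval_X,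
        ContinuousMap.smul_apply, fourier_apply, AddCircle.toCircle_zsmul, smul_eq_mul, mul_assoc]
      congr 1
      rw [Circle.coe_zpow, ← hξ, ← zpow_natCast, Int.toNat_of_nonneg (by omega),
        zpow_add₀ hξ0, zpow_natCast, inv_pow]
      field_simp
    rw [h4]
    have h6 : dist (f x) (g x) ≤ dist f g := ContinuousMap.dist_apply_le_dist x
    rw [← dist_eq_norm, dist_comm]
    exact lt_of_le_of_lt h6 hfg

end AP

theorem t_AP : S_AP := by
  choose d P hd hP using fun n : ℕ => AP.exists_poly (AP.fn n) (1 / ((n : ℝ) + 3)) (by positivity)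
  have hsurj : ∀ ξ : ℂ, ‖ξ‖ = 1 → ∃ x : AddCircle (1 : ℝ), (AddCircle.toCircle x : ℂ) = ξ := by
    intro ξ hξ
    obtain ⟨x, hx⟩ := (AddCircle.homeomorphCircle (T := (1 : ℝ)) one_ne_zero).surjective
      ⟨ξ, mem_sphere_zero_iff_norm.mpr hξ⟩
    refine ⟨x, ?_⟩
    rw [AddCircle.homeomorphCircle_apply] at hx
    rw [hx]
  have hu : ∀ n : ℕ, 0 < 1 - 2 / ((n : ℝ) + 3) := by
    intro n
    have h1 : (0 : ℝ) < (n : ℝ) + 3 := by positivity
    rw [sub_pos, div_lt_one h1]
    have : (0 : ℝ) ≤ n := Nat.cast_nonneg n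
    linarith
  refine ⟨d, fun n => Polynomial.C ((1 - 2 / ((n : ℝ) + 3) : ℝ) : ℂ) * P n, ?_, ?_, ?_⟩
  · intro n
    refine (Polynomial.natDegree_C_mul_le _ _).trans (hd n)
  · intro n ξ hξ
    obtain ⟨x, hx⟩ := hsurj ξ hξ
    have h1 := hP n x
    rw [hx] at h1
    have h2 : ‖AP.fn n x‖ ≤ 1 := AP.al_le n _
    have h3 : ‖(P n).eval ξ‖ ≤ 1 + 1 / ((n : ℝ) + 3) := by
      have h4 : ‖(P n).eval ξ * ξ⁻¹ ^ d n‖ = ‖(P n).eval ξ‖ := by
        rw [norm_mul, norm_pow, norm_inv, hξ]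
        simp
      rw [← h4]
      have h5 : ‖(P n).eval ξ * ξ⁻¹ ^ d n‖ ≤ ‖(P n).eval ξ * ξ⁻¹ ^ d n - AP.fn n x‖ + ‖AP.fn n x‖ := by
        have := norm_add_le ((P n).eval ξ * ξ⁻¹ ^ d n - AP.fn n x) (AP.fn n x)
        rwa [sub_add_cancel] at this
      linarith
    rw [Polynomial.eval_mul, Polynomial.eval_C, norm_mul, Complex.norm_real, Real.norm_eq_abs,
      abs_of_pos (hu n)]
    have h6 : (1 - 2 / ((n : ℝ) + 3)) * ‖(P n).eval ξ‖ ≤
        (1 - 2 / ((n : ℝ) + 3)) * (1 + 1 / ((n : ℝ) + 3)) :=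
      mul_le_mul_of_nonneg_left h3 (hu n).le
    refine lt_of_le_of_lt h6 ?_
    have h7 : (0 : ℝ) < 1 / ((n : ℝ) + 3) := by positivity
    have h8 : 2 / ((n : ℝ) + 3) = 2 * (1 / ((n : ℝ) + 3)) := by ring
    rw [h8]
    nlinarith
  · intro ξ hξ hne
    obtain ⟨x, hx⟩ := hsurj ξ hξ
    have hlim0 : Tendsto (fun n : ℕ => 1 / ((n : ℝ) + 3)) atTop (𝓝 0) := by
      have h1 : Tendsto (fun n : ℕ => (n : ℝ) + 3) atTop atTop :=
        tendsto_atTop_add_const_right _ _ tendsto_natCast_atTop_atTop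
      have h2 := h1.inv_tendsto_atTop
      refine h2.congr (fun n => ?_)
      rw [Pi.inv_apply, one_div]
    have hfn : Tendsto (fun n : ℕ => AP.fn n x) atTop (𝓝 (rt ξ)⁻¹) := by
      have hpos : 0 < ‖ξ + 1‖ := by
        rw [norm_pos_iff]
        intro h
        exact hne (eq_neg_of_add_eq_zero_left h)
      obtain ⟨N, hN⟩ := exists_nat_gt (1 / ‖ξ + 1‖)
      refine tendsto_const_nhds.congr' ?_
      filter_upwards [eventually_ge_atTop N] with n hn
      show (rt ξ)⁻¹ = AP.al n (AddCircle.toCircle x : ℂ)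
      rw [hx]
      unfold AP.al
      have h1 : (1 : ℝ) ≤ (n : ℝ) * ‖ξ + 1‖ := by
        have h2 : 1 / ‖ξ + 1‖ < n := lt_of_lt_of_le hN (by exact_mod_cast hn)
        rw [div_lt_iff₀ hpos] at h2
        exact h2.le
      rw [min_eq_left h1]
      simp
    have hdiff : Tendsto (fun n : ℕ => (P n).eval ξ * ξ⁻¹ ^ d n - AP.fn n x) atTop (𝓝 0) := by
      refine squeeze_zero_norm (fun n => ?_) hlim0
      have h1 := hP n x
      rw [hx] at h1
      exact h1.le
    have hsum : Tendsto (fun n : ℕ => (P n).eval ξ * ξ⁻¹ ^ d n) atTop (𝓝 (rt ξ)⁻¹) := by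
      have h1 := hdiff.add hfn
      simpa using h1
    have hc : Tendsto (fun n : ℕ => ((1 - 2 / ((n : ℝ) + 3) : ℝ) : ℂ)) atTop (𝓝 1) := by
      have h1 : Tendsto (fun n : ℕ => (1 - 2 * (1 / ((n : ℝ) + 3)) : ℝ)) atTop (𝓝 (1 - 2 * 0)) :=
        tendsto_const_nhds.sub (hlim0.const_mul 2)
      have h2 := (Complex.continuous_ofReal.tendsto _).comp h1
      simp only [mul_zero, sub_zero, Complex.ofReal_one] at h2
      refine h2.congr (fun n => ?_)
      simp only [Function.comp_apply]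
      congr 2
      ring
    have hfin := hc.mul hsum
    rw [one_mul] at hfin
    refine hfin.congr (fun n => ?_)
    rw [Polynomial.eval_mul, Polynomial.eval_C, mul_assoc]

end

end Pool.Agent.H460U
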