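import Pool.Agent.H460U.TR.Defs

/-! task AU -/

set_option autoImplicit false

open MeasureTheory Complex Filter
open scoped ComplexConjugate Matrix Topology InnerProductSpace

namespace Pool.Agent.H460U

noncomputable section

theorem AU_shift (h : X → ℂ) (m n : ℤ) :
    fourierCoeff (fun x => e m x * h x) n = fourierCoeff h (n - m) := by
  unfold fourierCoeff e
  congr 1
  funext x
  rw [smul_eq_mul, smul_eq_mul, show -(n - m) = -n + m by ring, fourier_add]
  ring

theorem AU_congr {f g : X → ℂ} (h : f =ᵐ[mu] g) (hg : An g) : An f := fun n hn => by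
  rw [fourierCoeff_congr_ae h]
  exact hg n hn

theorem AU_e (m n : ℤ) : fourierCoeff (fun x : X => e m x) n = if n = m then 1 else 0 := by
  have := congrFun (fourierCoeff_fourier (T := 1) m) n
  rw [Pi.single_apply] at this
  exact this

theorem t_AU : S_AU := by
  intro Φ hm hu
  refine ⟨fun A hA f g hfg j => ?_, fun A hA hin => ?_⟩
  · have h1 : (fun x => conj (Φ x 0 j) * (A f) x + conj (Φ x 1 j) * (A g) x) =ᵐ[mu]
        fun x => e 1 x * (conj (Φ x 0 j) * f x + conj (Φ x 1 j) * g x) := by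
      filter_upwards [hA f, hA g] with x h1 h2
      rw [h1, h2]
      ring
    refine AU_congr h1 (fun n hn => ?_)
    rw [AU_shift]
    exact hfg j (n - 1) (by omega)
  · have hent : ∀ᵐ x ∂mu, (conj (Φ x 0 0) * Φ x 0 0 + conj (Φ x 1 0) * Φ x 1 0 = 1) ∧
        (conj (Φ x 0 1) * Φ x 0 0 + conj (Φ x 1 1) * Φ x 1 0 = 0) := by
      filter_upwards [hu] with x hx
      have h1 := congrFun (congrFun hx 0) 0
      have h2 := congrFun (congrFun hx 1) 0
      rw [Matrix.mul_apply, Fin.sum_univ_two] at h1 h2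
      simp only [Matrix.conjTranspose_apply, Matrix.one_apply, if_true] at h1 h2
      exact ⟨h1, h2⟩
    have hb : ∀ᵐ x ∂mu, ‖Φ x 0 0‖ ≤ 1 ∧ ‖Φ x 1 0‖ ≤ 1 := by
      filter_upwards [hent] with x hx
      have h1 := hx.1
      rw [mul_comm, Complex.mul_conj, mul_comm (conj (Φ x 1 0)), Complex.mul_conj,
        Complex.normSq_eq_norm_sq, Complex.normSq_eq_norm_sq] at h1
      have h2 : ‖Φ x 0 0‖ ^ 2 + ‖Φ x 1 0‖ ^ 2 = 1 := by exact_mod_cast h1
      constructor
      · nlinarith [norm_nonneg (Φ x 0 0), sq_nonneg (‖Φ x 1 0‖)]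
      · nlinarith [norm_nonneg (Φ x 1 0), sq_nonneg (‖Φ x 0 0‖)]
    have hL0 : MemLp (fun x => Φ x 0 0) 2 mu :=
      MemLp.of_bound (hm 0 0) 1 (hb.mono fun x hx => hx.1)
    have hL1 : MemLp (fun x => Φ x 1 0) 2 mu :=
      MemLp.of_bound (hm 1 0) 1 (hb.mono fun x hx => hx.2)
    let f : L2 := hL0.toLp _
    let g : L2 := hL1.toLp _
    have hf : (f : X → ℂ) =ᵐ[mu] fun x => Φ x 0 0 := hL0.coeFn_toLp
    have hg : (g : X → ℂ) =ᵐ[mu] fun x => Φ x 1 0 := hL1.coeFn_toLp
    have hGP : GP Φ f g := by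
      intro j
      fin_cases j
      · have h1 : (fun x => conj (Φ x 0 0) * f x + conj (Φ x 1 0) * g x) =ᵐ[mu]
            fun x => e 0 x := by
          filter_upwards [hf, hg, hent] with x h1 h2 h3
          rw [h1, h2, h3.1]
          exact fourier_zero.symm
        refine AU_congr h1 (fun n hn => ?_)
        rw [AU_e, if_neg (by omega)]
      · have h1 : (fun x => conj (Φ x 0 1) * f x + conj (Φ x 1 1) * g x) =ᵐ[mu]
            fun _ => 0 := by
          filter_upwards [hf, hg, hent] with x h1 h2 h3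
          rw [h1, h2, h3.2]
        refine AU_congr h1 (fun n hn => ?_)
        simp [fourierCoeff]
    have h1 := hin f g hGP 0 (-1) (by omega)
    have h2 : (fun x => conj (Φ x 0 0) * (A f) x + conj (Φ x 1 0) * (A g) x) =ᵐ[mu]
        fun x => e (-1) x := by
      filter_upwards [hA f, hA g, hf, hg, hent] with x h1 h2 h3 h4 h5
      rw [h1, h2, h3, h4]
      linear_combination (e (-1) x) * h5.1
    rw [fourierCoeff_congr_ae h2, AU_e, if_pos rfl] at h1
    exact one_ne_zero h1

end

end Pool.Agent.H460U
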