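import Pool.Agent.H460U.TR.Defs3

/-! Project TR, part 2 (helper460), task AU3: `z` is in the algebra, `1/z` is not. -/

set_option autoImplicit false

open MeasureTheory Complex Filter
open scoped ComplexConjugate Matrix Topology InnerProductSpace

namespace Pool.Agent.H460U

namespace AU3

theorem fc_congr (f g : X → ℂ) (h : f =ᵐ[mu] g) (n : ℤ) : fourierCoeff f n = fourierCoeff g n := by
  unfold fourierCoeff
  apply integral_congr_ae
  filter_upwards [h] with x hx
  rw [hx]

theorem fc_shift (f : X → ℂ) (m n : ℤ) :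
    fourierCoeff (fun x => e m x * f x) n = fourierCoeff f (n - m) := by
  unfold fourierCoeff
  congr 1
  funext t
  unfold e
  rw [smul_eq_mul, smul_eq_mul, ← mul_assoc, ← fourier_add]
  congr 3
  ring

theorem int_fourier (n : ℤ) (hn : n ≠ 0) : ∫ t : X, (fourier n t : ℂ) ∂mu = 0 :=
  integral_eq_zero_of_add_right_eq_neg (μ := mu)
    (fourier_add_half_inv_index hn (by norm_num))

theorem fc_const (c : ℂ) (n : ℤ) : fourierCoeff (fun _ : X => c) n = if n = 0 then c else 0 := by
  unfold fourierCoeff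
  by_cases hn : n = 0
  · subst hn
    simp
  · rw [if_neg hn]
    simp only [smul_eq_mul]
    rw [integral_mul_const, int_fourier (-n) (neg_ne_zero.2 hn), zero_mul]

theorem entry (A : M3) (h : Aᴴ * A = 1) (j k : Fin 3) :
    ∑ i : Fin 3, conj (A i j) * A i k = if j = k then 1 else 0 := by
  have h1 := congrFun (congrFun h j) k
  rw [Matrix.mul_apply, Matrix.one_apply] at h1
  rw [← h1]
  rfl

theorem bound (A : M3) (h : Aᴴ * A = 1) (i k : Fin 3) : ‖A i k‖ ≤ 1 := by
  have h1 := entry A h k k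
  rw [if_pos rfl] at h1
  have h2 : ∑ i : Fin 3, ‖A i k‖ ^ 2 = 1 := by
    have h3 : ((∑ i : Fin 3, ‖A i k‖ ^ 2 : ℝ) : ℂ) = 1 := by
      rw [← h1]
      push_cast
      refine Finset.sum_congr rfl fun i _ => ?_
      rw [mul_comm, Complex.mul_conj, Complex.normSq_eq_norm_sq]
      push_cast
      rfl
    exact_mod_cast h3
  have h4 : ‖A i k‖ ^ 2 ≤ ∑ i : Fin 3, ‖A i k‖ ^ 2 :=
    Finset.single_le_sum (f := fun i => ‖A i k‖ ^ 2) (fun i _ => by positivity)
      (Finset.mem_univ i)
  rw [h2] at h4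
  have h5 : 0 ≤ ‖A i k‖ := norm_nonneg _
  nlinarith

end AU3

open AU3 in
theorem t_AU3 (_ : S_H1) : S_AU3 := by
  intro Φ hm hu
  refine ⟨fun A hA => ?_, fun A hA hin => ?_⟩
  · intro f hf j n hn
    have h1 : (fun x => ∑ i : Fin 3, conj (Φ x i j) * (A (f i) : X → ℂ) x) =ᵐ[mu]
        fun x => e 1 x * ∑ i : Fin 3, conj (Φ x i j) * f i x := by
      have h2 : ∀ᵐ x ∂mu, ∀ i : Fin 3, (A (f i) : X → ℂ) x = e 1 x * f i x :=
        ae_all_iff.2 fun i => hA (f i)
      filter_upwards [h2] with x hx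
      rw [Finset.mul_sum]
      refine Finset.sum_congr rfl fun i _ => ?_
      rw [hx i]
      ring
    rw [fc_congr _ _ h1, fc_shift]
    exact hf j (n - 1) (by omega)
  · have hLp : ∀ i : Fin 3, MemLp (fun x => Φ x i 0) 2 mu := fun i => by
      refine MemLp.of_bound (hm i 0) 1 ?_
      filter_upwards [hu] with x hx
      exact bound _ hx i 0
    set f : Fin 3 → L2 := fun i => (hLp i).toLp _ with hf
    have hfc : ∀ᵐ x ∂mu, ∀ i : Fin 3, (f i : X → ℂ) x = Φ x i 0 :=
      ae_all_iff.2 fun i => (hLp i).coeFn_toLp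
    have hsum : ∀ j : Fin 3, (fun x => ∑ i : Fin 3, conj (Φ x i j) * f i x) =ᵐ[mu]
        fun _ => if j = 0 then 1 else 0 := by
      intro j
      filter_upwards [hfc, hu] with x hx hx2
      rw [← entry _ hx2 j 0]
      exact Finset.sum_congr rfl fun i _ => by rw [hx i]
    have hG : GP3 Φ f := by
      intro j n hn
      rw [fc_congr _ _ (hsum j), fc_const, if_neg hn.ne]
    have h3 := hin f hG 0 (-1) (by norm_num)
    have h1 : (fun x => ∑ i : Fin 3, conj (Φ x i 0) * (A (f i) : X → ℂ) x) =ᵐ[mu]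
        fun x => e (-1) x * 1 := by
      have h2 : ∀ᵐ x ∂mu, ∀ i : Fin 3, (A (f i) : X → ℂ) x = e (-1) x * f i x :=
        ae_all_iff.2 fun i => hA (f i)
      filter_upwards [h2, hsum 0] with x hx hx2
      rw [if_pos rfl] at hx2
      rw [← hx2, Finset.mul_sum]
      refine Finset.sum_congr rfl fun i _ => ?_
      rw [hx i]
      ring
    rw [fc_congr _ _ h1, fc_shift, fc_const] at h3
    norm_num at h3

end Pool.Agent.H460U
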