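import Pool.Agent.H460U.TR.Defs

/-! Task BH2 (helper372): simply invariant subspaces (Beurling - Helson). -/

set_option autoImplicit false

open MeasureTheory Complex Filter
open scoped ComplexConjugate Matrix Topology InnerProductSpace BoundedContinuousFunction

namespace Pool.Agent.H460U

noncomputable section

namespace BH2

lemma e_norm (n : ℤ) (x : X) : ‖e n x‖ = 1 := by
  unfold e
  rw [fourier_apply]
  exact Circle.norm_coe _

lemma e_cont (n : ℤ) : Continuous (e n) := (fourier n).continuous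

lemma e_add (m n : ℤ) (x : X) : e (m + n) x = e m x * e n x := fourier_add

lemma e_conj (n : ℤ) (x : X) : e (-n) x = conj (e n x) := fourier_neg

lemma e_uni (n : ℤ) : Uni (e n) := ⟨(e_cont n).aestronglyMeasurable, ae_of_all _ (e_norm n)⟩

lemma mul_memLp (w : X → ℂ) (hw : Uni w) (f : L2) : MemLp (fun x => w x * f x) 2 mu := by
  refine MemLp.mono (Lp.memLp f) (hw.1.mul (Lp.aestronglyMeasurable f)) ?_
  filter_upwards [hw.2] with x hx
  rw [norm_mul, hx, one_mul]

/-- multiplication by a unimodular function -/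
def mulw (w : X → ℂ) (hw : Uni w) : L2 →ₗᵢ[ℂ] L2 where
  toFun f := (mul_memLp w hw f).toLp _
  map_add' f g := by
    apply Lp.ext
    filter_upwards [(mul_memLp w hw (f + g)).coeFn_toLp, Lp.coeFn_add f g,
      Lp.coeFn_add ((mul_memLp w hw f).toLp _) ((mul_memLp w hw g).toLp _),
      (mul_memLp w hw f).coeFn_toLp, (mul_memLp w hw g).coeFn_toLp] with x h1 h2 h3 h4 h5
    rw [h1, h3, Pi.add_apply, h4, h5, h2, Pi.add_apply]
    ring
  map_smul' c f := by
    apply Lp.ext
    filter_upwards [(mul_memLp w hw (c • f)).coeFn_toLp, Lp.coeFn_smul c f,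
      Lp.coeFn_smul c ((mul_memLp w hw f).toLp _),
      (mul_memLp w hw f).coeFn_toLp] with x h1 h2 h3 h4
    rw [h1, RingHom.id_apply, h3, Pi.smul_apply, h4, h2, Pi.smul_apply, smul_eq_mul, smul_eq_mul]
    ring
  norm_map' f := by
    change ‖(mul_memLp w hw f).toLp _‖ = ‖f‖
    rw [Lp.norm_toLp, Lp.norm_def]
    congr 1
    refine eLpNorm_congr_norm_ae ?_
    filter_upwards [hw.2] with x hx
    rw [norm_mul, hx, one_mul]

lemma mulw_coe (w : X → ℂ) (hw : Uni w) (f : L2) :
    (mulw w hw f : X → ℂ) =ᵐ[mu] fun x => w x * f x := (mul_memLp w hw f).coeFn_toLp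

/-- multiplication by `e n` -/
def me (n : ℤ) : L2 →ₗᵢ[ℂ] L2 := mulw (e n) (e_uni n)

lemma me_coe (n : ℤ) (f : L2) : (me n f : X → ℂ) =ᵐ[mu] fun x => e n x * f x := mulw_coe _ _ _

lemma me_mem (M : Submodule ℂ L2) (hz : ZInv M 1) : ∀ (n : ℕ) (f : L2), f ∈ M → me n f ∈ M := by
  intro n
  induction n with
  | zero =>
    intro f hf
    have : me ((0 : ℕ) : ℤ) f = f := by
      apply Lp.ext
      filter_upwards [me_coe ((0 : ℕ) : ℤ) f] with x hx
      rw [hx]
      have : e ((0 : ℕ) : ℤ) x = 1 := by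
        unfold e
        simp
      rw [this, one_mul]
    rw [this]
    exact hf
  | succ n ih =>
    intro f hf
    refine hz _ (ih f hf) _ ?_
    filter_upwards [me_coe ((n + 1 : ℕ) : ℤ) f, me_coe (n : ℤ) f] with x h1 h2
    rw [h1, h2, ← mul_assoc, ← e_add]
    congr 2
    push_cast
    ring

lemma inner_eq (φ f : L2) (n : ℤ) :
    ⟪φ, me n f⟫_ℂ = ∫ x, e n x * (conj (φ x) * f x) ∂mu := by
  rw [L2.inner_def]
  refine integral_congr_ae ?_
  filter_upwards [me_coe n f] with x hx
  rw [hx, RCLike.inner_apply]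
  ring

lemma coeff_eq (φ f : L2) (n : ℤ) :
    fourierCoeff (fun x => conj (φ x) * f x) (-n) = ⟪φ, me n f⟫_ℂ := by
  rw [inner_eq, fourierCoeff]
  refine integral_congr_ae (ae_of_all _ fun x => ?_)
  simp only [neg_neg, smul_eq_mul]
  rfl

/-- a function whose measure has the Fourier coefficients of the Haar measure is constant -/
lemma unimod (φ : L2) (h : ∀ n : ℤ, n ≠ 0 → ∫ x, e n x * (conj (φ x) * φ x) ∂mu = 0)
    (h0 : ∫ x, conj (φ x) * φ x ∂mu = 1) : ∀ᵐ x ∂mu, ‖φ x‖ = 1 := by
  have hq : ∀ x, conj (φ x) * φ x = ((‖φ x‖ ^ 2 : ℝ) : ℂ) := by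
    intro x
    rw [mul_comm, Complex.mul_conj, Complex.normSq_eq_norm_sq]
  have hint : Integrable (fun x => ‖φ x‖ ^ 2) mu := (Lp.memLp φ).integrable_norm_pow (by norm_num)
  have hintC : Integrable (fun x => conj (φ x) * φ x) mu := by
    simp only [hq]
    exact hint.ofReal
  -- the functional
  have hFint : ∀ F : C(X, ℂ), Integrable (fun x => F x * (conj (φ x) * φ x)) mu := by
    intro F
    refine Integrable.mono' (hintC.norm.const_mul ‖F‖) ?_ (ae_of_all _ fun x => ?_)
    · exact F.continuous.aestronglyMeasurable.mul hintC.aestronglyMeasurable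
    · rw [norm_mul]
      exact mul_le_mul_of_nonneg_right (F.norm_coe_le_norm x) (norm_nonneg _)
  have hFint' : ∀ F : C(X, ℂ), Integrable (fun x => F x) mu := fun F =>
    F.continuous.integrable_of_hasCompactSupport (HasCompactSupport.of_compactSpace _)
  let Λ₁ : C(X, ℂ) →L[ℂ] ℂ := LinearMap.mkContinuous
    { toFun := fun F => ∫ x, F x * (conj (φ x) * φ x) ∂mu
      map_add' := fun F G => by
        rw [← integral_add (hFint F) (hFint G)]
        refine integral_congr_ae (ae_of_all _ fun x => ?_)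
        simp only [ContinuousMap.add_apply]
        ring
      map_smul' := fun c F => by
        rw [RingHom.id_apply, smul_eq_mul, ← integral_const_mul]
        refine integral_congr_ae (ae_of_all _ fun x => ?_)
        simp only [ContinuousMap.smul_apply, smul_eq_mul]
        ring } (∫ x, ‖conj (φ x) * φ x‖ ∂mu) (fun F => by
      refine (norm_integral_le_of_norm_le (hintC.norm.const_mul ‖F‖) (ae_of_all _ fun x => ?_)).trans
        (le_of_eq ?_)
      · rw [norm_mul]
        exact mul_le_mul_of_nonneg_right (F.norm_coe_le_norm x) (norm_nonneg _)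
      · rw [integral_const_mul, mul_comm])
  let Λ₂ : C(X, ℂ) →L[ℂ] ℂ := LinearMap.mkContinuous
    { toFun := fun F => ∫ x, F x ∂mu
      map_add' := fun F G => by
        rw [← integral_add (hFint' F) (hFint' G)]
        rfl
      map_smul' := fun c F => by
        rw [RingHom.id_apply, smul_eq_mul, ← integral_const_mul]
        rfl } 1 (fun F => by
      have h1 := norm_integral_le_of_norm_le_const (μ := mu) (f := fun x => F x) (C := ‖F‖)
        (ae_of_all _ fun x => F.norm_coe_le_norm x)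
      simpa [mul_comm] using h1)
  have hdense : Dense (Submodule.span ℂ (Set.range (@fourier 1)) : Set C(X, ℂ)) :=
    (Submodule.dense_iff_topologicalClosure_eq_top).2 span_fourier_closure_eq_top
  have hΛ : Λ₁ = Λ₂ := by
    refine ContinuousLinearMap.ext_on hdense ?_
    rintro F ⟨n, rfl⟩
    change ∫ x, (fourier n x) * (conj (φ x) * φ x) ∂mu = ∫ x, fourier n x ∂mu
    rcases eq_or_ne n 0 with hn | hn
    · rw [hn]
      simp only [fourier_zero, one_mul]
      rw [h0]
      simp
    · rw [show (∫ x, (fourier n x) * (conj (φ x) * φ x) ∂mu) =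
        ∫ x, e n x * (conj (φ x) * φ x) ∂mu from rfl, h n hn]
      exact (integral_eq_zero_of_add_right_eq_neg (fourier_add_half_inv_index hn one_pos)).symm
  -- equality of measures
  have hfin : ∫⁻ x, ENNReal.ofReal (‖φ x‖ ^ 2) ∂mu ≠ ⊤ := by
    have := hint.lintegral_lt_top
    exact this.ne
  have hmeas : AEMeasurable (fun x => ENNReal.ofReal (‖φ x‖ ^ 2)) mu :=
    ((Lp.aestronglyMeasurable φ).norm.aemeasurable.pow_const 2).ennreal_ofReal
  haveI : IsFiniteMeasure (mu.withDensity (fun x => ENNReal.ofReal (‖φ x‖ ^ 2))) :=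
    isFiniteMeasure_withDensity hfin
  have hμ : mu.withDensity (fun x => ENNReal.ofReal (‖φ x‖ ^ 2)) = mu := by
    refine ext_of_forall_integral_eq_of_IsFiniteMeasure fun F => ?_
    rw [integral_withDensity_eq_integral_toReal_smul₀ hmeas
      (ae_of_all _ fun x => ENNReal.ofReal_lt_top)]
    let Fc : C(X, ℂ) := ⟨fun x => ((F x : ℝ) : ℂ), Complex.continuous_ofReal.comp F.continuous⟩
    have h1 : Λ₁ Fc = Λ₂ Fc := by rw [hΛ]
    have h2 : Λ₁ Fc = ((∫ x, (ENNReal.ofReal (‖φ x‖ ^ 2)).toReal • F x ∂mu : ℝ) : ℂ) := by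
      rw [← integral_complex_ofReal]
      refine integral_congr_ae (ae_of_all _ fun x => ?_)
      change ((F x : ℝ) : ℂ) * (conj (φ x) * φ x) =
        (((ENNReal.ofReal (‖φ x‖ ^ 2)).toReal • F x : ℝ) : ℂ)
      rw [hq, ENNReal.toReal_ofReal (by positivity), smul_eq_mul]
      push_cast
      ring
    have h3 : Λ₂ Fc = ((∫ x, F x ∂mu : ℝ) : ℂ) := by
      rw [← integral_complex_ofReal]
      rfl
    rw [h2, h3] at h1
    exact_mod_cast h1
  have h5 : (fun x => ENNReal.ofReal (‖φ x‖ ^ 2)) =ᵐ[mu] 1 := by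
    refine (withDensity_eq_iff (g := 1) hmeas aemeasurable_one hfin).1 ?_
    rw [withDensity_one]
    exact hμ
  filter_upwards [h5] with x hx
  have h6 : ‖φ x‖ ^ 2 = 1 := by
    have := congrArg ENNReal.toReal hx
    rwa [ENNReal.toReal_ofReal (by positivity), Pi.one_apply, ENNReal.toReal_one] at this
  have h7 : 0 ≤ ‖φ x‖ := norm_nonneg _
  nlinarith

end BH2

open BH2 in
theorem t_BH2 : S_BH2 := by
  intro M hM hz hn
  -- a function which is in `M` but not in `zM`
  unfold ZInv at hn
  push Not at hn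
  obtain ⟨f0, hf0, h0, hh0, hh0M⟩ := hn
  set K : Submodule ℂ L2 := M.map (me 1).toLinearMap with hK
  have hKcl : IsClosed (K : Set L2) := by
    rw [hK, Submodule.map_coe]
    exact (me 1).isometry.isClosedEmbedding.isClosedMap _ hM
  haveI : CompleteSpace K := hKcl.completeSpace_coe
  obtain ⟨w, hwK, hw⟩ := Submodule.HasOrthogonalProjection.exists_orthogonal (K := K) f0
  have hKM : K ≤ M := by
    rintro g ⟨f, hf, rfl⟩
    have := me_mem M hz 1 f hf
    simpa using this
  have hf0K : f0 ∉ K := by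
    rintro ⟨g, hg, hgf⟩
    apply hh0M
    have : h0 = g := by
      apply Lp.ext
      have hgf' : me 1 g = f0 := hgf
      have h1 := me_coe 1 g
      rw [hgf'] at h1
      filter_upwards [hh0, h1] with x hx1 hx2
      rw [hx1, hx2, ← mul_assoc, ← e_add]
      have : e (-1 + 1) x = 1 := by
        unfold e
        simp
      rw [this, one_mul]
    rw [this]
    exact hg
  have hne : f0 - w ≠ 0 := fun h => hf0K (by rw [sub_eq_zero.1 h]; exact hwK)
  have hnpos : 0 < ‖f0 - w‖ := norm_pos_iff.2 hne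
  set φ : L2 := ((‖f0 - w‖⁻¹ : ℝ) : ℂ) • (f0 - w) with hφ
  have hφM : φ ∈ M := M.smul_mem _ (M.sub_mem hf0 (hKM hwK))
  have hφK : φ ∈ Kᗮ := Kᗮ.smul_mem _ hw
  have hφn : ‖φ‖ = 1 := by
    rw [hφ, norm_smul, Complex.norm_real, norm_inv, norm_norm, inv_mul_cancel₀ hnpos.ne']
  -- orthogonality
  have horth : ∀ f ∈ M, ∀ n : ℕ, ⟪φ, me ((n + 1 : ℕ) : ℤ) f⟫_ℂ = 0 := by
    intro f hf n
    have h1 : me ((n + 1 : ℕ) : ℤ) f ∈ K := by
      refine ⟨me n f, me_mem M hz n f hf, ?_⟩
      apply Lp.ext
      change (me 1 (me n f) : X → ℂ) =ᵐ[mu] _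
      filter_upwards [me_coe 1 (me n f), me_coe (n : ℤ) f, me_coe ((n + 1 : ℕ) : ℤ) f]
        with x h1 h2 h3
      rw [h1, h2, h3, ← mul_assoc, ← e_add]
      congr 2
      push_cast
      ring
    exact (Submodule.mem_orthogonal' K φ).1 hφK _ h1
  -- |φ| = 1
  have hpos : ∀ n : ℕ, ∫ x, e ((n + 1 : ℕ) : ℤ) x * (conj (φ x) * φ x) ∂mu = 0 := by
    intro n
    rw [← inner_eq]
    exact horth φ hφM n
  have huni : ∀ᵐ x ∂mu, ‖φ x‖ = 1 := by
    refine unimod φ ?_ ?_
    · intro n hn
      rcases lt_or_gt_of_ne hn with h | h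
      · obtain ⟨m, hm⟩ := Int.eq_ofNat_of_zero_le (by omega : 0 ≤ -n - 1)
        have h1 := hpos m
        have h2 : n = -((m + 1 : ℕ) : ℤ) := by push_cast; omega
        rw [h2]
        have h3 : ∫ x, e (-((m + 1 : ℕ) : ℤ)) x * (conj (φ x) * φ x) ∂mu =
            conj (∫ x, e ((m + 1 : ℕ) : ℤ) x * (conj (φ x) * φ x) ∂mu) := by
          rw [← integral_conj]
          refine integral_congr_ae (ae_of_all _ fun x => ?_)
          simp only [e_conj, map_mul, Complex.conj_conj]
          ring
        rw [h3, h1, map_zero]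
      · obtain ⟨m, hm⟩ := Int.eq_ofNat_of_zero_le (by omega : 0 ≤ n - 1)
        have h2 : n = ((m + 1 : ℕ) : ℤ) := by push_cast; omega
        rw [h2]
        exact hpos m
    · have h1 : ⟪φ, φ⟫_ℂ = 1 := by
        rw [inner_self_eq_norm_sq_to_K, hφn]
        simp
      rw [L2.inner_def] at h1
      rw [← h1]
      refine integral_congr_ae (ae_of_all _ fun x => ?_)
      simp only [RCLike.inner_apply]
      ring
  have hUni : Uni φ := ⟨Lp.aestronglyMeasurable φ, huni⟩
  refine ⟨φ, hUni, fun f => ⟨fun hf => ?_, fun hf => ?_⟩⟩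
  · intro n hn
    obtain ⟨m, hm⟩ := Int.eq_ofNat_of_zero_le (by omega : 0 ≤ -n - 1)
    have h2 : n = -((m + 1 : ℕ) : ℤ) := by push_cast; omega
    rw [h2, coeff_eq]
    exact horth f hf m
  · -- the converse
    have hUc : Uni (fun x => conj (φ x)) :=
      ⟨(Complex.continuous_conj.comp_aestronglyMeasurable hUni.1), by
        filter_upwards [huni] with x hx
        rw [RCLike.norm_conj, hx]⟩
    set h : L2 := mulw (fun x => conj (φ x)) hUc f with hh
    have hhc := mulw_coe (fun x => conj (φ x)) hUc f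
    rw [← hh] at hhc
    have hcoef : ∀ n : ℤ, n < 0 → fourierCoeff (h : X → ℂ) n = 0 := by
      intro n hn
      rw [← hf n hn]
      unfold fourierCoeff
      refine integral_congr_ae ?_
      filter_upwards [hhc] with x hx
      rw [hx]
    have hfh : mulw φ hUni h = f := by
      apply Lp.ext
      filter_upwards [mulw_coe φ hUni h, hhc, huni] with x h1 h2 h3
      rw [h1, h2, ← mul_assoc, Complex.mul_conj, Complex.normSq_eq_norm_sq, h3]
      simp
    have hsum := (hasSum_fourier_series_L2 h).mapL (mulw φ hUni).toContinuousLinearMap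
    have hfM : (mulw φ hUni).toContinuousLinearMap h ∈ M := by
      refine hM.mem_of_tendsto hsum (Eventually.of_forall fun s => ?_)
      refine M.sum_mem fun n _ => ?_
      rcases lt_or_ge n 0 with hn | hn
      · rw [hcoef n hn, zero_smul, map_zero]
        exact M.zero_mem
      · rw [map_smul]
        refine M.smul_mem _ ?_
        obtain ⟨m, rfl⟩ := Int.eq_ofNat_of_zero_le hn
        have h4 : (mulw φ hUni).toContinuousLinearMap (fourierLp 2 (m : ℤ)) = me m φ := by
          apply Lp.ext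
          change (mulw φ hUni (fourierLp 2 (m : ℤ)) : X → ℂ) =ᵐ[mu] _
          filter_upwards [mulw_coe φ hUni (fourierLp 2 (m : ℤ)), me_coe (m : ℤ) φ,
            coeFn_fourierLp 2 (m : ℤ)] with x h1 h2 h3
          rw [h1, h2, h3, mul_comm]
          rfl
        rw [h4]
        exact me_mem M hz m φ hφM
    have : (mulw φ hUni).toContinuousLinearMap h = f := hfh
    rw [this] at hfM
    exact hfM

end

end Pool.Agent.H460U
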