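import Pool.Agent.H460U.TR.Defs

/-! Project TR: inner divisors of `bl ^ m`. -/

set_option autoImplicit false

open MeasureTheory Complex Filter
open scoped ComplexConjugate Matrix Topology InnerProductSpace

namespace Pool.Agent.H460U

noncomputable section

lemma DIV_coeff_e (k n : ℤ) : fourierCoeff (e k) n = if n = k then 1 else 0 := by
  have h1 : fourierCoeff (e k) n = (Pi.single k (1:ℂ) : ℤ → ℂ) n :=
    congrFun (fourierCoeff_fourier (T := 1) k) n
  rw [h1, Pi.single_apply]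

lemma DIV_norm_e (k : ℤ) (x : X) : ‖e k x‖ = 1 := by
  unfold e
  rw [fourier_apply, Circle.norm_coe]

lemma DIV_cont_e (k : ℤ) : Continuous (e k) := (fourier (T := 1) k).continuous

lemma DIV_e_pow (k : ℕ) (x : X) : e (k : ℤ) x = (e 1 x) ^ k := by
  unfold e
  simp only [fourier_apply]
  rw [← Circle.coe_pow, ← AddCircle.toCircle_nsmul]
  simp

lemma DIV_e_add (a b : ℤ) (x : X) : e (a + b) x = e a x * e b x := by
  unfold e; exact fourier_add

lemma DIV_conj_e (a : ℤ) (x : X) : conj (e a x) = e (-a) x := by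
  unfold e; exact fourier_neg.symm

lemma DIV_e_zero (x : X) : e 0 x = 1 := by
  unfold e; exact fourier_zero

lemma DIV_int {f : X → ℂ} (hf : MemLp f 2 mu) : Integrable f mu := hf.integrable (by norm_num)

lemma DIV_bdd {f : X → ℂ} (hf : Continuous f) : ∃ C : ℝ, ∀ x, ‖f x‖ ≤ C := by
  obtain ⟨C, hC⟩ := (isCompact_range hf).isBounded.exists_norm_le
  exact ⟨C, fun x => hC _ ⟨x, rfl⟩⟩

lemma DIV_memLp_cont {f : X → ℂ} (hf : Continuous f) : MemLp f 2 mu := by
  obtain ⟨C, hC⟩ := DIV_bdd hf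
  exact MemLp.of_bound hf.aestronglyMeasurable C (Eventually.of_forall hC)

lemma DIV_Bd_cont {f : X → ℂ} (hf : Continuous f) : Bd f := by
  obtain ⟨C, hC⟩ := DIV_bdd hf
  exact ⟨hf.aestronglyMeasurable, C, Eventually.of_forall hC⟩

/-- a function with finitely many nonzero coefficients is a polynomial -/
lemma DIV_poly (q : X → ℂ) (m : ℕ) (hq : MemLp q 2 mu) (hA : An q)
    (hm : ∀ n : ℤ, (m : ℤ) < n → fourierCoeff q n = 0) :
    ∃ P : Polynomial ℂ, ∀ᵐ x ∂mu, q x = P.eval (e 1 x) := by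
  let f : ℕ → X → ℂ := fun k x => (-(fourierCoeff q (k:ℤ))) * e (k:ℤ) x
  have hfc : ∀ k, Continuous (f k) := fun k => by
    exact continuous_const.mul (DIV_cont_e _)
  let r : X → ℂ := q + ∑ k ∈ Finset.range (m+1), f k
  have hr : MemLp r 2 mu := by
    apply hq.add
    apply memLp_finsetSum'
    intro k _
    exact DIV_memLp_cont (hfc k)
  have hc : ∀ n, fourierCoeff r n = 0 := by
    intro n
    have h1 : fourierCoeff r n = fourierCoeff q n +
        ∑ k ∈ Finset.range (m+1), (-(fourierCoeff q (k:ℤ))) * (if n = (k:ℤ) then 1 else 0) := by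
      have a1 : fourierCoeff r = fourierCoeff q + fourierCoeff (∑ k ∈ Finset.range (m+1), f k) := by
        apply fourierCoeff.add (DIV_int hq)
        apply DIV_int
        apply memLp_finsetSum'
        intro k _
        exact DIV_memLp_cont (hfc k)
      have a2 : fourierCoeff (∑ k ∈ Finset.range (m+1), f k) =
          ∑ k ∈ Finset.range (m+1), fourierCoeff (f k) := by
        apply fourierCoeff.sum
        intro k _
        exact DIV_int (DIV_memLp_cont (hfc k))
      rw [a1, a2, Pi.add_apply, Finset.sum_apply]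
      congr 1
      apply Finset.sum_congr rfl
      intro k _
      have a3 : fourierCoeff (f k) n = (-(fourierCoeff q (k:ℤ))) * fourierCoeff (e (k:ℤ)) n :=
        fourierCoeff.const_mul _ _ _
      rw [a3, DIV_coeff_e]
    rw [h1]
    by_cases hn : n < 0
    · rw [hA n hn, zero_add]
      apply Finset.sum_eq_zero
      intro k _
      rw [if_neg (by omega), mul_zero]
    · by_cases hn2 : (m:ℤ) < n
      · rw [hm n hn2, zero_add]
        apply Finset.sum_eq_zero
        intro k hk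
        rw [Finset.mem_range] at hk
        rw [if_neg (by omega), mul_zero]
      · push Not at hn hn2
        obtain ⟨j, rfl⟩ := Int.eq_ofNat_of_zero_le hn
        rw [Finset.sum_eq_single j]
        · simp
        · intro k _ hkj
          rw [if_neg (by exact_mod_cast hkj.symm), mul_zero]
        · intro hj
          exfalso; apply hj; rw [Finset.mem_range]; omega
  have hz : hr.toLp r = 0 := by
    apply (fourierBasis (T := 1)).repr.injective
    rw [map_zero]
    ext n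
    rw [fourierBasis_repr, fourierCoeff_congr_ae hr.coeFn_toLp, hc n]
    rfl
  have hz2 : r =ᵐ[mu] 0 := (MemLp.toLp_eq_toLp_iff hr MemLp.zero').1
    (by rw [hz]; exact (MemLp.toLp_zero _).symm)
  refine ⟨∑ k ∈ Finset.range (m+1), Polynomial.monomial k (fourierCoeff q (k:ℤ)), ?_⟩
  filter_upwards [hz2] with x hx
  have h2 : r x = q x + ∑ k ∈ Finset.range (m+1), f k x := by
    simp only [r, Pi.add_apply, Finset.sum_apply]
  rw [h2] at hx
  rw [Polynomial.eval_finsetSum]
  have h3 : ∑ k ∈ Finset.range (m+1), f k x =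
      - ∑ k ∈ Finset.range (m+1), Polynomial.eval (e 1 x)
        (Polynomial.monomial k (fourierCoeff q (k:ℤ))) := by
    rw [← Finset.sum_neg_distrib]
    apply Finset.sum_congr rfl
    intro k _
    simp only [f]
    rw [Polynomial.eval_monomial, DIV_e_pow]
    ring
  rw [h3] at hx
  simp only [Pi.zero_apply] at hx
  linear_combination hx

lemma DIV_coeff_conj (h : X → ℂ) (m n : ℤ) :
    fourierCoeff (fun x => e m x * conj (h x)) n = conj (fourierCoeff h (m - n)) := by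
  unfold fourierCoeff
  rw [← integral_conj]
  apply integral_congr_ae
  apply Eventually.of_forall
  intro x
  have h1 : (fourier (-n) x : ℂ) = e (-n) x := rfl
  have h2 : (fourier (-(m-n)) x : ℂ) = e (-(m-n)) x := rfl
  simp only [smul_eq_mul]
  rw [h1, h2, map_mul, DIV_conj_e, ← mul_assoc, ← DIV_e_add]
  congr 2
  ring

lemma DIV_coeff_poly (P : Polynomial ℂ) (n : ℤ) :
    fourierCoeff (fun x => P.eval (e 1 x)) n =
      ∑ k ∈ Finset.range (P.natDegree + 1), P.coeff k * (if n = (k:ℤ) then 1 else 0) := by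
  have h1 : (fun x => P.eval (e 1 x)) =
      ∑ k ∈ Finset.range (P.natDegree + 1), (fun x => P.coeff k * e (k:ℤ) x) := by
    funext x
    rw [Finset.sum_apply, Polynomial.eval_eq_sum_range]
    apply Finset.sum_congr rfl
    intro k _
    rw [DIV_e_pow]
  rw [h1, fourierCoeff.sum, Finset.sum_apply]
  · apply Finset.sum_congr rfl
    intro k _
    rw [fourierCoeff.const_mul, ← DIV_coeff_e]
  · intro k _
    apply DIV_int
    apply DIV_memLp_cont
    exact continuous_const.mul (DIV_cont_e _)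

lemma DIV_An_poly (P : Polynomial ℂ) : An (fun x => P.eval (e 1 x)) := by
  intro n hn
  rw [DIV_coeff_poly]
  apply Finset.sum_eq_zero
  intro k _
  rw [if_neg (by omega), mul_zero]

lemma DIV_poly_zero (P : Polynomial ℂ) (h : ∀ᵐ x ∂mu, P.eval (e 1 x) = 0) : P = 0 := by
  ext j
  rw [Polynomial.coeff_zero]
  by_cases hj : P.natDegree < j
  · exact Polynomial.coeff_eq_zero_of_natDegree_lt hj
  · have h1 := DIV_coeff_poly P (j:ℤ)
    have h2 : fourierCoeff (fun x => P.eval (e 1 x)) (j:ℤ) = 0 := by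
      have : (fun x => P.eval (e 1 x)) =ᵐ[mu] (fun _ => (0:ℂ)) := h
      rw [fourierCoeff_congr_ae this]
      simp [fourierCoeff]
    rw [h2, Finset.sum_eq_single j] at h1
    · simpa using h1.symm
    · intro k _ hkj
      rw [if_neg (by exact_mod_cast hkj.symm), mul_zero]
    · intro hj'
      exfalso; apply hj'; rw [Finset.mem_range]; omega

lemma DIV_w_ne (x : X) : (1 - 1 / 2 * e 1 x : ℂ) ≠ 0 := by
  intro h
  have h1 : (1:ℂ) = 1 / 2 * e 1 x := by linear_combination h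
  have h2 := congrArg norm h1
  rw [norm_mul, DIV_norm_e] at h2
  norm_num at h2

/-- one factor -/
lemma DIV_half (hH1 : S_H1) (B C : X → ℂ) (m : ℕ) (hB : Uni B) (hBA : An B) (hC : Uni C)
    (hCA : An C) (hBC : ∀ᵐ x ∂mu, B x * C x = bl x ^ m) :
    ∃ P : Polynomial ℂ, ∀ᵐ x ∂mu, B x * (1 - 1 / 2 * e 1 x) ^ m = P.eval (e 1 x) := by
  let P0 : Polynomial ℂ := (1 - Polynomial.C (1/2) * Polynomial.X) ^ m
  have hP0 : ∀ x : X, P0.eval (e 1 x) = (1 - 1 / 2 * e 1 x) ^ m := by
    intro x; simp [P0]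
  have hc : Continuous (fun x : X => P0.eval (e 1 x)) := by
    exact P0.continuous.comp (DIV_cont_e 1)
  have hg : Bd (fun x => P0.eval (e 1 x)) := DIV_Bd_cont hc
  have hu : ∀ f : X → ℂ, Uni f → MemLp f 2 mu := by
    intro f hf
    exact MemLp.of_bound hf.1 1 (by filter_upwards [hf.2] with x hx; exact hx.le)
  obtain ⟨b1, b2⟩ := hH1 B _ (hu B hB) hBA hg (DIV_An_poly P0)
  obtain ⟨c1, c2⟩ := hH1 C _ (hu C hC) hCA hg (DIV_An_poly P0)
  have key : (fun x => B x * P0.eval (e 1 x)) =ᵐ[mu]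
      (fun x => e (m:ℤ) x * conj (C x * P0.eval (e 1 x))) := by
    filter_upwards [hBC, hC.2] with x hx hCx
    rw [hP0, map_mul, map_pow, map_sub, map_mul, map_one, DIV_conj_e]
    have hz : e 1 x * e (-1) x = 1 := by
      rw [← DIV_e_add]; exact DIV_e_zero x
    have hCC : C x * conj (C x) = 1 := by
      rw [Complex.mul_conj, Complex.normSq_eq_norm_sq, hCx]; norm_num
    have hB' : B x = bl x ^ m * conj (C x) := by
      rw [← hx, mul_assoc, hCC, mul_one]
    have hw := DIV_w_ne x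
    rw [hB', DIV_e_pow]
    have h1 : bl x ^ m * (1 - 1 / 2 * e 1 x) ^ m = (e 1 x - 1 / 2) ^ m := by
      rw [← mul_pow]; congr 1; unfold bl; exact div_mul_cancel₀ _ hw
    have h2 : (e 1 x) ^ m * (1 - conj (1 / 2 : ℂ) * e (-1) x) ^ m = (e 1 x - 1 / 2) ^ m := by
      rw [← mul_pow]; congr 1
      have : conj (1 / 2 : ℂ) = 1 / 2 := by
        have h := Complex.conj_ofReal (1 / 2)
        push_cast at h
        exact h
      rw [this]
      linear_combination (-(1/2 : ℂ)) * hz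
    linear_combination conj (C x) * h1 - conj (C x) * h2
  obtain ⟨P, hP⟩ := DIV_poly _ m b1 b2 (by
    intro n hn
    rw [fourierCoeff_congr_ae key, DIV_coeff_conj, c2 _ (by omega), map_zero])
  refine ⟨P, ?_⟩
  filter_upwards [hP] with x hx
  rw [← hx, hP0]

lemma DIV_e_half : e 1 (((1 / 2 : ℝ) : X)) = -1 := by
  unfold e
  rw [fourier_coe_apply]
  have : (2 * (Real.pi : ℂ) * Complex.I * ((1 : ℤ) : ℂ) * (((1 / 2 : ℝ)) : ℂ) / ((1 : ℝ) : ℂ)) =
      Real.pi * Complex.I := by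
    push_cast; ring
  rw [this]
  exact Complex.exp_pi_mul_I

lemma DIV_e_0 : e 1 (0 : X) = 1 := by
  unfold e; exact fourier_eval_zero 1

theorem t_DIV (hH1 : S_H1) (_hH4 : S_H4) : S_DIV := by
  intro B C m hB hBA hC hCA hBC
  obtain ⟨P, hP⟩ := DIV_half hH1 B C m hB hBA hC hCA hBC
  obtain ⟨R, hR⟩ := DIV_half hH1 C B m hC hCA hB hBA (by
    filter_upwards [hBC] with x hx; rw [mul_comm]; exact hx)
  -- the polynomial identity
  have hPR : P * R = ((1 - Polynomial.C (1/2) * Polynomial.X) ^ m) *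
      (Polynomial.X - Polynomial.C (1/2)) ^ m := by
    rw [← sub_eq_zero]
    apply DIV_poly_zero
    filter_upwards [hP, hR, hBC] with x h1 h2 h3
    rw [Polynomial.eval_sub, Polynomial.eval_mul, ← h1, ← h2]
    simp only [Polynomial.eval_mul, Polynomial.eval_pow, Polynomial.eval_sub,
      Polynomial.eval_one, Polynomial.eval_C, Polynomial.eval_X]
    have hw := DIV_w_ne x
    have h4 : bl x ^ m * (1 - 1 / 2 * e 1 x) ^ m = (e 1 x - 1 / 2) ^ m := by
      rw [← mul_pow]; congr 1; unfold bl; exact div_mul_cancel₀ _ hw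
    rw [← h4, ← h3]
    ring
  have hp0 : (1 - Polynomial.C (1/2 : ℂ) * Polynomial.X) =
      Polynomial.C (-(1/2) : ℂ) * (Polynomial.X - Polynomial.C (2:ℂ)) := by
    rw [mul_sub, ← Polynomial.C_mul]
    have : (-(1/2) * 2 : ℂ) = -1 := by norm_num
    rw [this]
    simp only [Polynomial.C_neg, Polynomial.C_1]
    ring
  have hdvd : P ∣ (Polynomial.X - Polynomial.C (2:ℂ)) ^ m *
      (Polynomial.X - Polynomial.C (1/2 : ℂ)) ^ m := by
    refine ⟨R * Polynomial.C ((-2) ^ m), ?_⟩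
    rw [← mul_assoc, hPR, hp0, mul_pow, ← Polynomial.C_pow]
    have : (Polynomial.C ((-(1/2)) ^ m) * (Polynomial.X - Polynomial.C 2) ^ m *
        (Polynomial.X - Polynomial.C (1 / 2)) ^ m * Polynomial.C ((-2) ^ m) : Polynomial ℂ) =
        Polynomial.C ((-(1/2)) ^ m * (-2) ^ m) * ((Polynomial.X - Polynomial.C 2) ^ m *
        (Polynomial.X - Polynomial.C (1 / 2)) ^ m) := by
      rw [Polynomial.C_mul]; ring
    have h9 : ((-(1/2) : ℂ)) ^ m * (-2) ^ m = 1 := by rw [← mul_pow]; norm_num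
    rw [this, h9, Polynomial.C_1, one_mul]
  obtain ⟨d1, d2, hd1, hd2, hd⟩ := exists_dvd_and_dvd_of_dvd_mul hdvd
  obtain ⟨a, ha, hda⟩ := (dvd_prime_pow (Polynomial.prime_X_sub_C (2:ℂ)) m).1 hd1
  obtain ⟨i, hi, hdi⟩ := (dvd_prime_pow (Polynomial.prime_X_sub_C (1/2:ℂ)) m).1 hd2
  obtain ⟨u, hu⟩ := (hda.mul_mul hdi).symm
  obtain ⟨c, hc, hcu⟩ := Polynomial.isUnit_iff.1 u.isUnit
  have hPe : ∀ z : ℂ, P.eval z = (z - 2) ^ a * (z - 1/2) ^ i * c := by
    intro z
    rw [hd, ← hu, ← hcu]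
    simp
  -- absolute values
  have habs : ∀ x : X, ‖P.eval (e 1 x)‖ = ‖(1 - 1 / 2 * e 1 x : ℂ)‖ ^ m := by
    have hcont1 : Continuous (fun x : X => ‖P.eval (e 1 x)‖) :=
      (P.continuous.comp (DIV_cont_e 1)).norm
    have hcont2 : Continuous (fun x : X => ‖(1 - 1 / 2 * e 1 x : ℂ)‖ ^ m) := by
      have := DIV_cont_e 1
      fun_prop
    have hae : (fun x : X => ‖P.eval (e 1 x)‖) =ᵐ[mu]
        (fun x : X => ‖(1 - 1 / 2 * e 1 x : ℂ)‖ ^ m) := by
      filter_upwards [hP, hB.2] with x h1 h2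
      rw [← h1, norm_mul, h2, one_mul, norm_pow]
    exact fun x => congrFun ((Continuous.ae_eq_iff_eq mu hcont1 hcont2).1 hae) x
  have e1 := habs 0
  have e2 := habs (((1 / 2 : ℝ) : X))
  rw [DIV_e_0, hPe] at e1
  rw [DIV_e_half, hPe] at e2
  have n1 : ‖((1:ℂ) - 2)‖ = 1 := by norm_num
  have n2 : ‖((1:ℂ) - 1/2)‖ = 1/2 := by norm_num
  have n3 : ‖(1 - 1/2 * 1 : ℂ)‖ = 1/2 := by norm_num
  have n4 : ‖((-1:ℂ) - 2)‖ = 3 := by norm_num
  have n5 : ‖((-1:ℂ) - 1/2)‖ = 3/2 := by norm_num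
  have n6 : ‖(1 - 1/2 * (-1) : ℂ)‖ = 3/2 := by norm_num
  rw [norm_mul, norm_mul, norm_pow, norm_pow, n1, n2, n3, one_pow, one_mul] at e1
  rw [norm_mul, norm_mul, norm_pow, norm_pow, n4, n5, n6] at e2
  have hai : a + i = m := by
    have h3 : (3:ℝ) ^ (a + i) = 3 ^ m := by
      have q1 : ((3:ℝ)/2) ^ i = 3 ^ i * (1/2) ^ i := by rw [← mul_pow]; norm_num
      have q2 : ((3:ℝ)/2) ^ m = 3 ^ m * (1/2) ^ m := by rw [← mul_pow]; norm_num
      rw [q1, q2, ← e1] at e2
      have q3 : (0:ℝ) < (1/2) ^ i * ‖c‖ := by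
        rw [e1]; positivity
      have q4 : (3:ℝ) ^ (a + i) * ((1/2) ^ i * ‖c‖) = 3 ^ m * ((1/2) ^ i * ‖c‖) := by
        rw [pow_add]; linarith
      exact mul_right_cancel₀ q3.ne' q4
    exact Nat.pow_right_injective (le_refl 2 |>.trans (by norm_num : 2 ≤ 3))
      (by exact_mod_cast h3)
  refine ⟨i, c * (-2) ^ a, hi, ?_, ?_⟩
  · rw [norm_mul, norm_pow, norm_neg, Complex.norm_ofNat]
    have q5 : (1/2:ℝ) ^ i * (‖c‖ * 2 ^ a) = (1/2) ^ i := by
      have q6 : ((1:ℝ)/2) ^ m = (1/2) ^ a * (1/2) ^ i := by rw [← hai, pow_add]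
      have q7 : ((1:ℝ)/2) ^ a * 2 ^ a = 1 := by rw [← mul_pow]; norm_num
      calc (1/2:ℝ) ^ i * (‖c‖ * 2 ^ a) = ((1/2:ℝ) ^ i * ‖c‖) * 2 ^ a := by ring
        _ = (1/2) ^ i * ((1/2) ^ a * 2 ^ a) := by rw [e1, q6]; ring
        _ = (1/2) ^ i := by rw [q7, mul_one]
    have q8 : ((1:ℝ)/2) ^ i ≠ 0 := by positivity
    exact mul_left_cancel₀ q8 (by rw [q5, mul_one])
  · filter_upwards [hP] with x hx
    have hw := DIV_w_ne x
    rw [hPe] at hx
    have h2 : (e 1 x - 2) ^ a = (-2) ^ a * (1 - 1 / 2 * e 1 x) ^ a := by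
      rw [← mul_pow]; congr 1; ring
    have h4 : bl x ^ i * (1 - 1 / 2 * e 1 x) ^ i = (e 1 x - 1 / 2) ^ i := by
      rw [← mul_pow]; congr 1; unfold bl; exact div_mul_cancel₀ _ hw
    rw [h2, ← h4] at hx
    have hw2 : (1 - 1 / 2 * e 1 x : ℂ) ^ m ≠ 0 := pow_ne_zero _ hw
    apply mul_right_cancel₀ hw2
    rw [hx, ← hai, pow_add]
    ring

end

end Pool.Agent.H460U
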