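import Pool.Agent.H460U.TR.Defs

set_option autoImplicit false

open MeasureTheory Complex Filter
open scoped ComplexConjugate Matrix Topology InnerProductSpace

namespace Pool.Agent.H460U

namespace E1

theorem sqa : ((Real.sqrt (3/8) : ℝ) : ℂ) * ((Real.sqrt (3/8) : ℝ) : ℂ) = 3 / 8 := by
  rw [← Complex.ofReal_mul, Real.mul_self_sqrt (by norm_num)]
  push_cast
  ring

theorem sqb : ((Real.sqrt (5/8) : ℝ) : ℂ) * ((Real.sqrt (5/8) : ℝ) : ℂ) = 5 / 8 := by
  rw [← Complex.ofReal_mul, Real.mul_self_sqrt (by norm_num)]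
  push_cast
  ring

theorem detV : Vm.det = 1 := by
  unfold Vm
  rw [Matrix.det_fin_two_of]
  linear_combination sqa + sqb

/-- the trace identity -/
theorem tr (a b x y z p : ℂ) (ha : a * a = 3 / 8) (hb : b * b = 5 / 8) (hp : p = a * b) :
    ((((!![a, -b; b, a] * !![x, y; y, z] * !![a, -b; b, a]ᵀ) *
      (!![a, -b; b, a]ᵀ * !![x, y; y, z] * !![a, -b; b, a]) * !![x, y; y, z] *
      (!![a, -b; b, a]ᵀ * !![x, y; y, z] * !![a, -b; b, a]) *
      (!![a, -b; b, a] * !![x, y; y, z] * !![a, -b; b, a]ᵀ) : M2) 0 0 +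
      ((!![a, -b; b, a] * !![x, y; y, z] * !![a, -b; b, a]ᵀ) *
      (!![a, -b; b, a]ᵀ * !![x, y; y, z] * !![a, -b; b, a]) * !![x, y; y, z] *
      (!![a, -b; b, a]ᵀ * !![x, y; y, z] * !![a, -b; b, a]) *
      (!![a, -b; b, a] * !![x, y; y, z] * !![a, -b; b, a]ᵀ) : M2) 1 1) / 2) =
      (15 * ((x + z) / 2) * (x * z - y * y) ^ 2 - 10 * ((x + z) / 2) ^ 3 * (x * z - y * y)
        + 3 * ((x + z) / 2) ^ 5) / 8 := by
  have hp2 : p ^ 2 = 15 / 64 := by
    rw [hp]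
    linear_combination (b * b) * ha + 3 / 8 * hb
  have hA : (!![a, -b; b, a] * !![x, y; y, z] * !![a, -b; b, a]ᵀ : M2) =
      !![3 / 8 * x - 2 * p * y + 5 / 8 * z, p * (x - z) - 1 / 4 * y;
        p * (x - z) - 1 / 4 * y, 5 / 8 * x + 2 * p * y + 3 / 8 * z] := by
    rw [hp]
    ext i j
    fin_cases i <;> fin_cases j <;>
      simp [Matrix.mul_apply, Fin.sum_univ_two, Matrix.transpose_apply]
    · linear_combination x * ha + z * hb
    · linear_combination y * ha - y * hb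
    · linear_combination y * ha - y * hb
    · linear_combination x * hb + z * ha
  have hB : (!![a, -b; b, a]ᵀ * !![x, y; y, z] * !![a, -b; b, a] : M2) =
      !![3 / 8 * x + 2 * p * y + 5 / 8 * z, -p * (x - z) - 1 / 4 * y;
        -p * (x - z) - 1 / 4 * y, 5 / 8 * x - 2 * p * y + 3 / 8 * z] := by
    rw [hp]
    ext i j
    fin_cases i <;> fin_cases j <;>
      simp [Matrix.mul_apply, Fin.sum_univ_two, Matrix.transpose_apply]
    · linear_combination x * ha + z * hb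
    · linear_combination y * ha - y * hb
    · linear_combination y * ha - y * hb
    · linear_combination x * hb + z * ha
  rw [hA, hB]
  simp only [Matrix.mul_apply, Fin.sum_univ_two, Matrix.of_apply, Matrix.cons_val_zero,
    Matrix.cons_val_one, Matrix.cons_val', Matrix.cons_val_fin_one]
  linear_combination ((1/128) * z ^ 5 + (1/2) * z ^ 5 * p ^ 2 + (17/16) * y ^ 2 * z ^ 3 + (4/1) * y ^ 2 * z ^ 3 * p ^ 2 + (33/8) * y ^ 4 * z ^ 1 + (8/1) * y ^ 4 * z ^ 1 * p ^ 2 + (-131/128) * x ^ 1 * z ^ 4 + (-3/2) * x ^ 1 * z ^ 4 * p ^ 2 + (-81/16) * x ^ 1 * y ^ 2 * z ^ 2 + (-4/1) * x ^ 1 * y ^ 2 * z ^ 2 * p ^ 2 + (33/8) * x ^ 1 * y ^ 4 + (8/1) * x ^ 1 * y ^ 4 * p ^ 2 + (65/64) * x ^ 2 * z ^ 3 + (1/1) * x ^ 2 * z ^ 3 * p ^ 2 + (-81/16) * x ^ 2 * y ^ 2 * z ^ 1 + (-4/1) * x ^ 2 * y ^ 2 * z ^ 1 * p ^ 2 + (65/64) * x ^ 3 * z ^ 2 + (1/1) * x ^ 3 * z ^ 2 * p ^ 2 + (17/16) * x ^ 3 * y ^ 2 + (4/1) * x ^ 3 * y ^ 2 * p ^ 2 + (-131/128)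 * x ^ 4 * z ^ 1 + (-3/2) * x ^ 4 * z ^ 1 * p ^ 2 + (1/128) * x ^ 5 + (1/2) * x ^ 5 * p ^ 2) * hp2

end E1

theorem t_E1 : S_E1 := by
  intro n ξ
  have key : ∀ n, (ell n ξ)ᵀ = ell n ξ ∧ (ell n ξ).det = ξ ^ (5 ^ n) := by
    intro n
    induction n with
    | zero =>
      constructor
      · unfold ell
        ext i j
        fin_cases i <;> fin_cases j <;> rfl
      · unfold ell
        rw [Matrix.det_fin_two_of]
        ring
    | succ n ih =>
      obtain ⟨h1, h2⟩ := ih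
      constructor
      · unfold ell
        simp only [Matrix.transpose_mul, Matrix.transpose_transpose, h1, Matrix.mul_assoc]
      · unfold ell
        simp only [Matrix.det_mul, Matrix.det_transpose, E1.detV, h2, one_mul, mul_one]
        rw [pow_succ 5 n]
        ring
  refine ⟨(key n).1, (key n).2, ?_⟩
  obtain ⟨h1, h2⟩ := key n
  set x := ell n ξ 0 0 with hx
  set y := ell n ξ 0 1 with hy
  set z := ell n ξ 1 1 with hz
  have h10 : ell n ξ 1 0 = y := by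
    have := congrFun (congrFun h1 0) 1
    rw [Matrix.transpose_apply] at this
    exact this
  have hM : ell n ξ = !![x, y; y, z] := by
    ext i j
    fin_cases i <;> fin_cases j
    · rfl
    · rfl
    · exact h10
    · rfl
  have hD : ξ ^ (5 ^ n) = x * z - y * y := by
    rw [← h2, hM, Matrix.det_fin_two_of]
  have h3 := E1.tr ((Real.sqrt (3/8) : ℝ) : ℂ) ((Real.sqrt (5/8) : ℝ) : ℂ) x y z _ E1.sqa E1.sqb rfl
  have hta : ta n ξ = (x + z) / 2 := rfl
  rw [hta, hD, ← h3]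
  unfold ta
  rw [ell, hM]
  rfl

end Pool.Agent.H460U
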