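import Pool.Agent.H460U.TR.Defs

set_option autoImplicit false

open MeasureTheory Complex Filter
open scoped ComplexConjugate Matrix Topology InnerProductSpace

namespace Pool.Agent.H460U

namespace E2

theorem mulU (A B : M2) (hA : Aᴴ * A = 1) (hB : Bᴴ * B = 1) : (A * B)ᴴ * (A * B) = 1 := by
  rw [Matrix.conjTranspose_mul, Matrix.mul_assoc, ← Matrix.mul_assoc Aᴴ, hA, Matrix.one_mul, hB]

theorem sqa : ((Real.sqrt (3/8) : ℝ) : ℂ) * ((Real.sqrt (3/8) : ℝ) : ℂ) = 3 / 8 := by
  rw [← Complex.ofReal_mul, Real.mul_self_sqrt (by norm_num)]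
  push_cast
  ring

theorem sqb : ((Real.sqrt (5/8) : ℝ) : ℂ) * ((Real.sqrt (5/8) : ℝ) : ℂ) = 5 / 8 := by
  rw [← Complex.ofReal_mul, Real.mul_self_sqrt (by norm_num)]
  push_cast
  ring

theorem V1 : Vmᴴ * Vm = 1 := by
  have ha := sqa
  have hb := sqb
  unfold Vm
  ext i j
  fin_cases i <;> fin_cases j <;>
    simp only [Matrix.mul_apply, Fin.sum_univ_two, Matrix.conjTranspose_apply, Matrix.of_apply,
      Matrix.cons_val_zero, Matrix.cons_val_one, Matrix.cons_val', Matrix.cons_val_fin_one,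
      Fin.zero_eta, Fin.mk_one, Matrix.one_apply_eq, ne_eq, zero_ne_one, one_ne_zero,
      not_false_eq_true, Matrix.one_apply_ne, map_neg, Complex.star_def, Complex.conj_ofReal]
  · linear_combination ha + hb
  · ring
  · ring
  · linear_combination ha + hb

theorem V2 : (Vmᵀ)ᴴ * Vmᵀ = 1 := by
  have ha := sqa
  have hb := sqb
  unfold Vm
  ext i j
  fin_cases i <;> fin_cases j <;>
    simp only [Matrix.mul_apply, Fin.sum_univ_two, Matrix.conjTranspose_apply, Matrix.of_apply,
      Matrix.transpose_apply,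
      Matrix.cons_val_zero, Matrix.cons_val_one, Matrix.cons_val', Matrix.cons_val_fin_one,
      Fin.zero_eta, Fin.mk_one, Matrix.one_apply_eq, ne_eq, zero_ne_one, one_ne_zero,
      not_false_eq_true, Matrix.one_apply_ne, map_neg, Complex.star_def, Complex.conj_ofReal]
  · linear_combination ha + hb
  · ring
  · ring
  · linear_combination ha + hb

end E2

theorem t_E2 : S_E2 := by
  intro n ξ hξ
  have h : conj ξ * ξ = 1 := by
    rw [← Complex.normSq_eq_conj_mul_self, Complex.normSq_eq_norm_sq, hξ]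
    norm_num
  induction n with
  | zero =>
    unfold ell
    ext i j
    fin_cases i <;> fin_cases j <;>
      simp only [Matrix.mul_apply, Fin.sum_univ_two, Matrix.conjTranspose_apply, Matrix.of_apply,
        Matrix.cons_val_zero, Matrix.cons_val_one, Matrix.cons_val', Matrix.cons_val_fin_one,
        Fin.zero_eta, Fin.mk_one, Matrix.one_apply_eq, ne_eq, zero_ne_one, one_ne_zero,
        not_false_eq_true, Matrix.one_apply_ne, Complex.star_def, map_div₀, map_add, map_sub,
        map_one, Complex.conj_ofNat]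
    · linear_combination 1 / 2 * h
    · linear_combination -(1 / 2) * h
    · linear_combination -(1 / 2) * h
    · linear_combination 1 / 2 * h
  | succ n ih =>
    unfold ell
    have hA : (Vm * ell n ξ * Vmᵀ)ᴴ * (Vm * ell n ξ * Vmᵀ) = 1 :=
      E2.mulU _ _ (E2.mulU _ _ E2.V1 ih) E2.V2
    have hB : (Vmᵀ * ell n ξ * Vm)ᴴ * (Vmᵀ * ell n ξ * Vm) = 1 :=
      E2.mulU _ _ (E2.mulU _ _ E2.V2 ih) E2.V1
    exact E2.mulU _ _ (E2.mulU _ _ (E2.mulU _ _ (E2.mulU _ _ hA hB) ih) hB) hA

end Pool.Agent.H460U
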