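import Pool.Agent.H460U.TR.Defs

set_option autoImplicit false

open MeasureTheory Complex Filter
open scoped ComplexConjugate Matrix Topology InnerProductSpace

namespace Pool.Agent.H460U

namespace E3

def PolyM (F : ℂ → M2) : Prop :=
  ∃ p : Fin 2 → Fin 2 → Polynomial ℂ, ∀ i j ξ, F ξ i j = (p i j).eval ξ

theorem mul (F G : ℂ → M2) (hF : PolyM F) (hG : PolyM G) : PolyM (fun ξ => F ξ * G ξ) := by
  obtain ⟨p, hp⟩ := hF
  obtain ⟨q, hq⟩ := hG
  refine ⟨fun i j => p i 0 * q 0 j + p i 1 * q 1 j, fun i j ξ => ?_⟩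
  simp only [Matrix.mul_apply, Fin.sum_univ_two, hp, hq, Polynomial.eval_add, Polynomial.eval_mul]

theorem cst (C : M2) : PolyM (fun _ => C) :=
  ⟨fun i j => Polynomial.C (C i j), fun i j ξ => by simp⟩

end E3

theorem t_E3 : S_E3 := by
  intro n
  have key : E3.PolyM (ell n) := by
    induction n with
    | zero =>
      refine ⟨fun i j => if i = j then Polynomial.C (1 / 2) * (1 + Polynomial.X) else
        Polynomial.C (1 / 2) * (1 - Polynomial.X), fun i j ξ => ?_⟩
      unfold ell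
      fin_cases i <;> fin_cases j <;> simp <;> ring
    | succ n ih =>
      have hA : E3.PolyM (fun ξ => Vm * ell n ξ * Vmᵀ) :=
        E3.mul _ _ (E3.mul _ _ (E3.cst _) ih) (E3.cst _)
      have hB : E3.PolyM (fun ξ => Vmᵀ * ell n ξ * Vm) :=
        E3.mul _ _ (E3.mul _ _ (E3.cst _) ih) (E3.cst _)
      exact E3.mul _ _ (E3.mul _ _ (E3.mul _ _ (E3.mul _ _ hA hB) ih) hB) hA
  exact key

end Pool.Agent.H460U
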