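import Pool.Agent.H460U.TR.Defs

set_option autoImplicit false

open MeasureTheory Complex Filter
open scoped ComplexConjugate Matrix Topology InnerProductSpace

namespace Pool.Agent.H460U

theorem t_E4 (h1 : S_E1) (h2 : S_E2) : S_E4 := by
  intro n ξ hξ
  obtain ⟨-, hdet, hrec⟩ := h1 n ξ
  have hU := h2 n ξ hξ
  obtain ⟨M, hM⟩ : ∃ M : M2, M = ell n ξ := ⟨_, rfl⟩
  obtain ⟨D, hD⟩ : ∃ D : ℂ, D = ξ ^ (5 ^ n) := ⟨_, rfl⟩
  obtain ⟨t, ht⟩ : ∃ t : ℂ, t = ta n ξ := ⟨_, rfl⟩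
  have htd : t = (M 0 0 + M 1 1) / 2 := by rw [ht, hM]; rfl
  rw [← hM] at hU hdet
  rw [← hD] at hdet
  rw [← hD, ← ht] at hrec
  rw [← hD, ← ht]
  have hDn : ‖D‖ = 1 := by rw [hD, norm_pow, hξ, one_pow]
  have hadj : M.adjugate = D • Mᴴ := by
    calc M.adjugate = (Mᴴ * M) * M.adjugate := by rw [hU, Matrix.one_mul]
      _ = Mᴴ * (M * M.adjugate) := by rw [Matrix.mul_assoc]
      _ = Mᴴ * (M.det • 1) := by rw [Matrix.mul_adjugate]
      _ = D • Mᴴ := by rw [hdet, Matrix.mul_smul, Matrix.mul_one]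
  rw [Matrix.adjugate_fin_two] at hadj
  have e00 : M 1 1 = D * conj (M 0 0) := by
    have := congrFun (congrFun hadj 0) 0
    simpa [Matrix.conjTranspose_apply] using this
  have e11 : M 0 0 = D * conj (M 1 1) := by
    have := congrFun (congrFun hadj 1) 1
    simpa [Matrix.conjTranspose_apply] using this
  have hct : D * conj t = t := by
    rw [htd]
    simp only [map_div₀, map_add, map_ofNat]
    linear_combination (-(1 : ℂ) / 2) * e00 - (1 : ℂ) / 2 * e11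
  have hsq : t ^ 2 = (‖t‖ : ℂ) ^ 2 * D := by
    rw [← Complex.mul_conj' t]
    linear_combination (-t) * hct
  -- norms of the entries
  have n00 : ‖M 0 0‖ ≤ 1 := by
    have := congrFun (congrFun hU 0) 0
    rw [Matrix.mul_apply, Fin.sum_univ_two, Matrix.conjTranspose_apply,
      Matrix.conjTranspose_apply, Matrix.one_apply_eq] at this
    have h3 : ((‖M 0 0‖ ^ 2 + ‖M 1 0‖ ^ 2 : ℝ) : ℂ) = 1 := by
      push_cast
      rw [← this, ← Complex.conj_mul', ← Complex.conj_mul']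
      rfl
    have h4 : ‖M 0 0‖ ^ 2 + ‖M 1 0‖ ^ 2 = 1 := by exact_mod_cast h3
    nlinarith [norm_nonneg (M 0 0), sq_nonneg ‖M 1 0‖]
  have n11 : ‖M 1 1‖ ≤ 1 := by
    have := congrFun (congrFun hU 1) 1
    rw [Matrix.mul_apply, Fin.sum_univ_two, Matrix.conjTranspose_apply,
      Matrix.conjTranspose_apply, Matrix.one_apply_eq] at this
    have h3 : ((‖M 0 1‖ ^ 2 + ‖M 1 1‖ ^ 2 : ℝ) : ℂ) = 1 := by
      push_cast
      rw [← this, ← Complex.conj_mul', ← Complex.conj_mul']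
      rfl
    have h4 : ‖M 0 1‖ ^ 2 + ‖M 1 1‖ ^ 2 = 1 := by exact_mod_cast h3
    nlinarith [norm_nonneg (M 1 1), sq_nonneg ‖M 0 1‖]
  have htn : ‖t‖ ≤ 1 := by
    rw [htd, norm_div]
    have := norm_add_le (M 0 0) (M 1 1)
    have h2' : ‖(2 : ℂ)‖ = 2 := by simp
    rw [h2']
    linarith
  refine ⟨hsq, htn, ?_⟩
  have hrec2 : ta (n + 1) ξ = t * D ^ 2 *
      (((15 - 10 * ‖t‖ ^ 2 + 3 * ‖t‖ ^ 4) / 8 : ℝ) : ℂ) := by
    rw [hrec]
    push_cast
    have h4 : t ^ 4 = (‖t‖ : ℂ) ^ 4 * D ^ 2 := by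
      calc t ^ 4 = (t ^ 2) ^ 2 := by ring
        _ = (‖t‖ : ℂ) ^ 4 * D ^ 2 := by rw [hsq]; ring
    linear_combination (-(10 : ℂ) / 8 * t * D) * hsq + (3 : ℂ) / 8 * t * h4
  rw [hrec2, norm_mul, norm_mul, norm_pow, hDn, Complex.norm_real, Real.norm_eq_abs, abs_of_nonneg]
  · ring
  · have h0 := norm_nonneg t
    have h1' : ‖t‖ ^ 2 ≤ 1 := by nlinarith
    have h2' : 0 ≤ ‖t‖ ^ 4 := by positivity
    linarith

end Pool.Agent.H460U
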