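import Pool.Agent.H460U.TR.Defs

/-! Task E5: convergence of the trace. -/

set_option autoImplicit false

open MeasureTheory Complex Filter
open scoped ComplexConjugate Matrix Topology InnerProductSpace

namespace Pool.Agent.H460U

theorem E5_ell_cont (n : ℕ) : Continuous (fun ξ : ℂ => ell n ξ) := by
  induction n with
  | zero =>
    refine continuous_matrix ?_
    intro i j
    fin_cases i <;> fin_cases j <;> simp only [ell] <;> simp <;> fun_prop
  | succ n ih =>
    have h1 : Continuous (fun ξ : ℂ => Vm * ell n ξ * Vmᵀ) :=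
      (continuous_const.matrix_mul ih).matrix_mul continuous_const
    have h2 : Continuous (fun ξ : ℂ => Vmᵀ * ell n ξ * Vm) :=
      (continuous_const.matrix_mul ih).matrix_mul continuous_const
    exact (((h1.matrix_mul h2).matrix_mul ih).matrix_mul h2).matrix_mul h1

theorem E5_ta_cont (n : ℕ) : Continuous (fun ξ : ℂ => ta n ξ) := by
  unfold ta
  have h := E5_ell_cont n
  exact ((h.matrix_elem 0 0).add (h.matrix_elem 1 1)).div_const 2

theorem E5_ta_zero (ξ : ℂ) : ta 0 ξ = (1 + ξ) / 2 := by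
  simp [ta, ell]

/-- the iteration converges -/
theorem E5_iter (t : ℕ → ℝ) (h0 : 0 < t 0) (h1 : ∀ n, t n ≤ 1)
    (hs : ∀ n, t (n + 1) = (15 * t n - 10 * t n ^ 3 + 3 * t n ^ 5) / 8) :
    Tendsto t atTop (𝓝 1) := by
  have key : ∀ s : ℝ, 0 < s → s ≤ 1 →
      s + s * (1 - s) / 2 ≤ (15 * s - 10 * s ^ 3 + 3 * s ^ 5) / 8 := by
    intro s hs0 hs1
    have e : (15 * s - 10 * s ^ 3 + 3 * s ^ 5) / 8 - (s + s * (1 - s) / 2) =
        s * (1 - s) * ((1 + s) * (7 - 3 * s ^ 2) - 4) / 8 := by ring
    have h3 : 0 ≤ (1 + s) * (7 - 3 * s ^ 2) - 4 := by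
      have : s ^ 2 ≤ 1 := by nlinarith
      nlinarith
    have h4 : 0 ≤ s * (1 - s) := mul_nonneg hs0.le (by linarith)
    have h5 := mul_nonneg h4 h3
    linarith
  have hge : ∀ n, t 0 ≤ t n := by
    intro n
    induction n with
    | zero => exact le_refl _
    | succ n ih =>
      have h2 := key (t n) (lt_of_lt_of_le h0 ih) (h1 n)
      rw [hs]
      have h3 : 0 ≤ t n * (1 - t n) / 2 := by
        have := mul_nonneg (le_of_lt (lt_of_lt_of_le h0 ih)) (sub_nonneg.2 (h1 n))
        linarith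
      linarith
  have hdec : ∀ n, 1 - t n ≤ (1 - t 0 / 2) ^ n := by
    intro n
    induction n with
    | zero => simp; linarith
    | succ n ih =>
      have h2 := key (t n) (lt_of_lt_of_le h0 (hge n)) (h1 n)
      have h3 : 1 - t (n + 1) ≤ (1 - t n) * (1 - t 0 / 2) := by
        rw [hs]
        have h4 : 0 ≤ (t n - t 0) * (1 - t n) :=
          mul_nonneg (sub_nonneg.2 (hge n)) (sub_nonneg.2 (h1 n))
        nlinarith
      refine h3.trans ?_
      rw [pow_succ]
      have h5 : 0 ≤ 1 - t 0 / 2 := by linarith [h1 0]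
      exact mul_le_mul_of_nonneg_right ih h5
  have hpow : Tendsto (fun n : ℕ => (1 - t 0 / 2) ^ n) atTop (𝓝 0) :=
    tendsto_pow_atTop_nhds_zero_of_lt_one (by linarith [h1 0]) (by linarith)
  have hlow : Tendsto (fun n : ℕ => 1 - (1 - t 0 / 2) ^ n) atTop (𝓝 1) := by
    have := hpow.const_sub 1
    rwa [sub_zero] at this
  exact tendsto_of_tendsto_of_tendsto_of_le_of_le hlow tendsto_const_nhds
    (fun n => by have := hdec n; simp only; linarith) h1

theorem E5_bl_eq {x : X} (h : bl x = -1) : e 1 x = -1 := by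
  unfold bl at h
  have hn : ‖e 1 x‖ = 1 := by
    unfold e
    rw [fourier_apply]
    exact Circle.norm_coe _
  have hd : (1 - 1 / 2 * e 1 x) ≠ 0 := by
    intro h0
    have h2 : e 1 x = 2 := by linear_combination (-2 : ℂ) * h0
    rw [h2] at hn
    norm_num at hn
  rw [div_eq_iff hd] at h
  linear_combination 2 * h

theorem E5_sub (x y : X) (hx : e 1 x = -1) (hy : e 1 y = -1) : x = y := by
  unfold e at hx hy
  rw [fourier_one] at hx hy
  have h : x.toCircle = y.toCircle := by
    apply Subtype.ext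
    exact hx.trans hy.symm
  exact AddCircle.injective_toCircle one_ne_zero h

theorem E5_single (x : X) : mu {x} = 0 := by
  have h1 : (volume : Measure X) {x} = 0 := by
    rw [← Metric.closedBall_zero, AddCircle.volume_closedBall]
    simp
  have h2 : (volume : Measure X) = ENNReal.ofReal 1 • mu := AddCircle.volume_eq_smul_haarAddCircle
  rw [h2, ENNReal.ofReal_one, one_smul] at h1
  exact h1

theorem E5_ae : ∀ᵐ x ∂mu, bl x ≠ -1 := by
  have hs : Set.Subsingleton {x : X | bl x = -1} := fun x hx y hy =>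
    E5_sub x y (E5_bl_eq hx) (E5_bl_eq hy)
  have h0 : mu {x : X | bl x = -1} = 0 := by
    rcases hs.eq_empty_or_singleton with h | ⟨x, h⟩
    · rw [h, measure_empty]
    · rw [h]
      exact E5_single x
  rw [ae_iff]
  simpa using h0

theorem t_E5 (h4 : S_E4) (hH : S_H4) : S_E5 := by
  unfold S_E5
  have hint : ∫ _ : X, (1 : ℝ) ∂mu = 1 := by simp
  have hmain : Tendsto (fun n => ∫ x : X, ‖ta n (bl x)‖ ∂mu) atTop
      (𝓝 (∫ _ : X, (1 : ℝ) ∂mu)) := ?_
  · rwa [hint] at hmain
  refine tendsto_integral_of_dominated_convergence (fun _ => (1 : ℝ)) ?_ ?_ ?_ ?_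
  · intro n
    exact (((E5_ta_cont n).comp hH.1).norm).aestronglyMeasurable
  · exact integrable_const _
  · intro n
    refine Eventually.of_forall fun x => ?_
    rw [norm_norm]
    exact (h4 n (bl x) (hH.2.1 x)).2.1
  · filter_upwards [E5_ae] with x hx
    refine E5_iter (fun n => ‖ta n (bl x)‖) ?_ (fun n => (h4 n (bl x) (hH.2.1 x)).2.1)
      (fun n => (h4 n (bl x) (hH.2.1 x)).2.2)
    rw [norm_pos_iff, E5_ta_zero]
    intro h0
    apply hx
    linear_combination 2 * h0

end Pool.Agent.H460U
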