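import Pool.Agent.H460U.TR.Defs

set_option autoImplicit false

open MeasureTheory Complex Filter
open scoped ComplexConjugate Matrix Topology InnerProductSpace

namespace Pool.Agent.H460U

namespace E6

theorem cont_ell (n : ℕ) : Continuous (ell n) := by
  induction n with
  | zero =>
    refine continuous_matrix fun i j => ?_
    fin_cases i <;> fin_cases j <;> simp [ell] <;> fun_prop
  | succ n ih =>
    have hA : Continuous fun ξ => Vm * ell n ξ * Vmᵀ :=
      (continuous_const.matrix_mul ih).matrix_mul continuous_const
    have hB : Continuous fun ξ => Vmᵀ * ell n ξ * Vm :=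
      (continuous_const.matrix_mul ih).matrix_mul continuous_const
    exact (((hA.matrix_mul hB).matrix_mul ih).matrix_mul hB).matrix_mul hA

theorem cont_ta (n : ℕ) : Continuous (ta n) := by
  have h := cont_ell n
  exact ((h.matrix_elem 0 0).add (h.matrix_elem 1 1)).div_const 2

theorem nontriv : Nontrivial X := by
  refine ⟨⟨0, ((1 / 2 : ℝ) : X), fun h => ?_⟩⟩
  have h1 := (AddCircle.coe_eq_zero_iff (1 : ℝ)).1 h.symm
  obtain ⟨m, hm⟩ := h1
  rw [zsmul_eq_mul, mul_one] at hm
  have h2 : ((2 * m : ℤ) : ℝ) = ((1 : ℤ) : ℝ) := by push_cast; linarith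
  have h3 : 2 * m = 1 := by exact_mod_cast h2
  omega

theorem null_of_subsingleton (S : Set X) (hS : S.Subsingleton) : mu S = 0 := by
  haveI := nontriv
  exact hS.measure_zero mu

end E6

theorem t_E6 (hE4 : S_E4) (hH4 : S_H4) : S_E6 := by
  intro n
  have hc : Continuous fun x : X => ta n (bl x) := (E6.cont_ta n).comp hH4.1
  have hset : MeasurableSet {x : X | ta n (bl x) = 0} :=
    (isClosed_singleton.preimage hc).measurableSet
  have hm : Measurable (tt n) := by
    unfold tt
    exact Measurable.ite hset measurable_const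
      (hc.measurable.div (Complex.measurable_ofReal.comp hc.norm.measurable))
  refine ⟨⟨hm.aestronglyMeasurable, Eventually.of_forall fun x => ?_⟩, ?_⟩
  · unfold tt
    split_ifs with h
    · exact norm_one
    · rw [norm_div, Complex.norm_real, norm_norm, div_self (norm_ne_zero_iff.2 h)]
  · have hzero : ∀ n (ξ : ℂ), ‖ξ‖ = 1 → ta n ξ = 0 → ta 0 ξ = 0 := by
      intro n ξ hξ
      induction n with
      | zero => exact id
      | succ n ih =>
        intro h
        apply ih
        obtain ⟨-, h2, h3⟩ := hE4 n ξ hξ
        rw [h, norm_zero] at h3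
        have h0 := norm_nonneg (ta n ξ)
        set t := ‖ta n ξ‖ with ht
        have h5 : 0 < 15 - 10 * t ^ 2 + 3 * t ^ 4 := by
          have h6 : t ^ 2 ≤ 1 := pow_le_one₀ h0 h2
          have h7 : 0 ≤ t ^ 4 := by positivity
          linarith
        have h8 : t * (15 - 10 * t ^ 2 + 3 * t ^ 4) = 0 := by linarith
        have h9 : t = 0 := by
          rcases mul_eq_zero.1 h8 with h | h
          · exact h
          · exact absurd h h5.ne'
        exact norm_eq_zero.1 h9
    have hta0 : ∀ ξ : ℂ, ta 0 ξ = (1 + ξ) / 2 := by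
      intro ξ
      unfold ta ell
      simp only [Matrix.of_apply, Matrix.cons_val_zero, Matrix.cons_val_one, Matrix.cons_val',
        Matrix.cons_val_fin_one]
      ring
    have hsub : {x : X | ta n (bl x) = 0} ⊆ {x : X | e 1 x = -1} := by
      intro x hx
      have h1 := hzero n (bl x) (hH4.2.1 x) hx
      rw [hta0] at h1
      have h2 : bl x = -1 := by linear_combination 2 * h1
      unfold bl at h2
      by_cases hd : (1 : ℂ) - 1 / 2 * e 1 x = 0
      · rw [hd, div_zero] at h2
        exact absurd h2 (by norm_num)
      · rw [div_eq_iff hd] at h2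
        show e 1 x = -1
        linear_combination 2 * h2
    have hss : {x : X | e 1 x = -1}.Subsingleton := by
      intro x hx y hy
      have hx' : e 1 x = -1 := hx
      have hy' : e 1 y = -1 := hy
      unfold e at hx' hy'
      rw [fourier_one] at hx' hy'
      exact AddCircle.injective_toCircle (one_ne_zero) (Circle.ext (hx'.trans hy'.symm))
    have hnull : mu {x : X | ta n (bl x) = 0} = 0 :=
      measure_mono_null hsub (E6.null_of_subsingleton _ hss)
    have hae : ∀ᵐ x ∂mu, ¬ ta n (bl x) = 0 := by
      rw [ae_iff]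
      simpa using hnull
    filter_upwards [hae] with x hx
    have h1 := (hE4 n (bl x) (hH4.2.1 x)).1
    have h2 : ((‖ta n (bl x)‖ : ℝ) : ℂ) ≠ 0 := by
      rw [Complex.ofReal_ne_zero]
      exact norm_ne_zero_iff.2 hx
    unfold tt
    rw [if_neg hx, div_pow, h1, mul_comm, mul_div_assoc, div_self (pow_ne_zero 2 h2), mul_one]

end Pool.Agent.H460U
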