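import Pool.Agent.H460U.TR.Defs

set_option autoImplicit false

open MeasureTheory Complex Filter
open scoped ComplexConjugate Matrix Topology InnerProductSpace

namespace Pool.Agent.H460U

namespace E7

theorem cont_ell (n : ℕ) : Continuous (ell n) := by
  induction n with
  | zero =>
    refine continuous_matrix fun i j => ?_
    fin_cases i <;> fin_cases j <;> simp [ell] <;> fun_prop
  | succ n ih =>
    have hA : Continuous fun ξ => Vm * ell n ξ * Vmᵀ :=
      (continuous_const.matrix_mul ih).matrix_mul continuous_const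
    have hB : Continuous fun ξ => Vmᵀ * ell n ξ * Vm :=
      (continuous_const.matrix_mul ih).matrix_mul continuous_const
    exact (((hA.matrix_mul hB).matrix_mul ih).matrix_mul hB).matrix_mul hA

theorem cont_ta (n : ℕ) : Continuous (ta n) := by
  have h := cont_ell n
  exact ((h.matrix_elem 0 0).add (h.matrix_elem 1 1)).div_const 2

theorem sub_one (z : ℂ) : ‖z - 1‖ ^ 2 = ‖z‖ ^ 2 + 1 - 2 * z.re := by
  rw [Complex.sq_norm, Complex.sq_norm, Complex.normSq_apply, Complex.normSq_apply]
  simp only [Complex.sub_re, Complex.sub_im, Complex.one_re, Complex.one_im]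
  ring

theorem unit_col (L : M2) (hL : Lᴴ * L = 1) : ‖L 0 0‖ ^ 2 + ‖L 1 0‖ ^ 2 = 1 ∧
    ‖L 0 1‖ ^ 2 + ‖L 1 1‖ ^ 2 = 1 := by
  have h0 := congrFun (congrFun hL 0) 0
  have h1 := congrFun (congrFun hL 1) 1
  simp only [Matrix.mul_apply, Fin.sum_univ_two, Matrix.conjTranspose_apply, Complex.star_def,
    Matrix.one_apply_eq] at h0 h1
  rw [← Complex.normSq_eq_conj_mul_self, ← Complex.normSq_eq_conj_mul_self,
    Complex.normSq_eq_norm_sq, Complex.normSq_eq_norm_sq] at h0 h1
  exact ⟨by exact_mod_cast h0, by exact_mod_cast h1⟩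

end E7

theorem t_E7 (hE2 : S_E2) (hE5 : S_E5) (hH4 : S_H4) : S_E7 := by
  have hd : ∀ n, dist1 n = 4 - 4 * ∫ x : X, ‖ta n (bl x)‖ ∂mu := by
    intro n
    have hc : Continuous fun x : X => ta n (bl x) := (E7.cont_ta n).comp hH4.1
    have pt : ∀ x : X, (∑ i : Fin 2, ∑ j : Fin 2,
        ‖(tt n x)⁻¹ * ell n (bl x) i j - (1 : M2) i j‖ ^ 2) = 4 - 4 * ‖ta n (bl x)‖ := by
      intro x
      obtain ⟨hU0, hU1⟩ := E7.unit_col _ (hE2 n (bl x) (hH4.2.1 x))
      have ht : ‖(tt n x)⁻¹‖ = 1 := by
        rw [norm_inv]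
        unfold tt
        split_ifs with h
        · rw [norm_one, inv_one]
        · rw [norm_div, Complex.norm_real, norm_norm, div_self (norm_ne_zero_iff.2 h), inv_one]
      have hta : (tt n x)⁻¹ * ta n (bl x) = ((‖ta n (bl x)‖ : ℝ) : ℂ) := by
        unfold tt
        split_ifs with h
        · rw [h, mul_zero, norm_zero, Complex.ofReal_zero]
        · have h2 : ((‖ta n (bl x)‖ : ℝ) : ℂ) ≠ 0 := by
            rw [Complex.ofReal_ne_zero]
            exact norm_ne_zero_iff.2 h
          rw [inv_div, div_mul_cancel₀ _ h]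
      set c := (tt n x)⁻¹ with hcdef
      set L := ell n (bl x) with hL
      have hta' : c * L 0 0 + c * L 1 1 = 2 * ((‖ta n (bl x)‖ : ℝ) : ℂ) := by
        rw [← hta]
        unfold ta
        rw [← hL]
        ring
      have hre : (c * L 0 0).re + (c * L 1 1).re = 2 * ‖ta n (bl x)‖ := by
        have h1 := congrArg Complex.re hta'
        rw [Complex.add_re] at h1
        rw [h1]
        simp
      rw [Fin.sum_univ_two, Fin.sum_univ_two, Fin.sum_univ_two]
      rw [Matrix.one_apply_eq, Matrix.one_apply_eq, Matrix.one_apply_ne (by decide),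
        Matrix.one_apply_ne (by decide), sub_zero, sub_zero, E7.sub_one, E7.sub_one,
        norm_mul, norm_mul, norm_mul, norm_mul, ht, one_mul, one_mul, one_mul, one_mul]
      linarith
    unfold dist1
    simp_rw [pt]
    have hint : Integrable (fun x : X => ‖ta n (bl x)‖) mu :=
      hc.norm.integrable_of_hasCompactSupport (HasCompactSupport.of_compactSpace _)
    rw [integral_sub (integrable_const _) (hint.const_mul 4), integral_const,
      integral_const_mul]
    simp
  intro ε hε
  have hlim : Tendsto (fun n => 4 - 4 * ∫ x : X, ‖ta n (bl x)‖ ∂mu) atTop (𝓝 (4 - 4 * 1)) :=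
    tendsto_const_nhds.sub (hE5.const_mul 4)
  have h0 : (4 : ℝ) - 4 * 1 < ε := by linarith
  obtain ⟨n, hn⟩ := (hlim.eventually (gt_mem_nhds h0)).exists
  exact ⟨n, by rw [hd n]; exact hn.le⟩

end Pool.Agent.H460U
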