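import Pool.Agent.H460U.TR.Defs

set_option autoImplicit false

open MeasureTheory Complex Filter
open scoped ComplexConjugate Matrix Topology InnerProductSpace

namespace Pool.Agent.H460U

lemma ERG_trans (f : X → ℂ) (g : X) (n : ℤ) :
    fourierCoeff (fun x => f (x + g)) n = fourier n g * fourierCoeff f n := by
  unfold fourierCoeff
  have h1 : ∀ t : X, fourier (-n) t • f (t + g) =
      (fun s : X => fourier n g • (fourier (-n) s • f s)) (t + g) := by
    intro t
    have h2 : (fourier (-n) (t + g) : ℂ) = fourier (-n) t * fourier (-n) g := by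
      simp [fourier_apply, smul_add, AddCircle.toCircle_add]
    have h3 : (fourier n g : ℂ) * fourier (-n) g = 1 := by
      rw [← fourier_add]
      simp
    simp only [smul_eq_mul]
    rw [h2]
    calc fourier (-n) t * f (t + g) = (fourier n g * fourier (-n) g) * (fourier (-n) t * f (t + g)) := by
          rw [h3, one_mul]
      _ = _ := by ring
  simp_rw [h1]
  have h4 := integral_add_right_eq_self (μ := (AddCircle.haarAddCircle : Measure X))
    (fun s : X => (fourier n g : ℂ) • (fourier (-n) s • f s)) g
  rw [h4, integral_smul, smul_eq_mul]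

lemma ERG_ne (n : ℤ) (hn : n ≠ 0) (N : ℕ) (hN : n.natAbs < N) :
    (fourier n (((1 / (N : ℝ) : ℝ)) : X) : ℂ) ≠ 1 := by
  rw [fourier_coe_apply]
  intro h
  rw [Complex.exp_eq_one_iff] at h
  obtain ⟨m, hm⟩ := h
  have hN0 : (N : ℂ) ≠ 0 := by
    have : N ≠ 0 := by omega
    exact_mod_cast this
  have hpi : (2 * (Real.pi : ℂ) * I) ≠ 0 := by
    simp [Real.pi_ne_zero]
  have h1 : (n : ℂ) = m * N := by
    have h2 : (2 * (Real.pi : ℂ) * I) * ((n : ℂ) / N) = (2 * (Real.pi : ℂ) * I) * m := by
      have : (2 * (Real.pi : ℂ) * I) * ((n : ℂ) / N) =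
          2 * (Real.pi : ℂ) * I * n * ((1 / (N : ℝ) : ℝ) : ℂ) / ((1 : ℝ) : ℂ) := by
        push_cast
        ring
      rw [this, hm]
      ring
    have h3 := mul_left_cancel₀ hpi h2
    rw [div_eq_iff hN0] at h3
    exact h3
  have h2 : n = m * N := by exact_mod_cast h1
  have h3 : n.natAbs = m.natAbs * N := by
    rw [h2, Int.natAbs_mul, Int.natAbs_natCast]
  rcases Nat.eq_zero_or_pos m.natAbs with h4 | h4
  · rw [h4, zero_mul] at h3
    exact hn (Int.natAbs_eq_zero.mp h3)
  · have : N ≤ m.natAbs * N := Nat.le_mul_of_pos_left N h4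
    omega

theorem t_ERG : S_ERG := by
  classical
  intro N hN0 hNp hNd E hE hinv
  set f : X → ℂ := E.indicator (fun _ => (1 : ℂ)) with hf
  have hNk : ∀ k, 2 ^ k ≤ N k := by
    intro k
    induction k with
    | zero => rw [hN0]; simp
    | succ k ih =>
      have := Nat.le_of_dvd (hNp (k + 1)) (hNd k)
      rw [pow_succ]
      omega
  have hper : ∀ k, N k • (((1 / (N k : ℝ) : ℝ)) : X) = 0 := by
    intro k
    have h1 : N k • (((1 / (N k : ℝ) : ℝ)) : X) = ((N k • (1 / (N k : ℝ)) : ℝ) : X) := by
      rw [AddCircle.coe_nsmul]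
    rw [h1]
    have h2 : (N k • (1 / (N k : ℝ)) : ℝ) = 1 := by
      have : (N k : ℝ) ≠ 0 := by
        have := hNp k
        positivity
      rw [nsmul_eq_mul]
      field_simp
    rw [h2]
    exact AddCircle.coe_period 1
  have hcoef : ∀ n : ℤ, n ≠ 0 → fourierCoeff f n = 0 := by
    intro n hn
    have hk : n.natAbs < N n.natAbs := lt_of_lt_of_le Nat.lt_two_pow_self (hNk _)
    set k := n.natAbs with hkdef
    set g : X := (((1 / (N k : ℝ) : ℝ)) : X) with hg
    have h1 := ERG_trans f g n
    have h2 : fourierCoeff (fun x => f (x + g)) n = fourierCoeff f n := by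
      unfold fourierCoeff
      apply integral_congr_ae
      filter_upwards [hinv k g (hper k)] with x hx
      have : f (x + g) = f x := by
        simp only [hf, Set.indicator]
        by_cases h : x ∈ E
        · rw [if_pos h, if_pos (hx.mpr h)]
        · rw [if_neg h, if_neg (fun h' => h (hx.mp h'))]
      simp only [this]
    rw [h2] at h1
    have h3 := ERG_ne n hn (N k) hk
    have h4 : (1 - fourier n g) * fourierCoeff f n = 0 := by
      rw [sub_mul, one_mul, ← h1, sub_self]
    rcases mul_eq_zero.mp h4 with h5 | h5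
    · exact absurd (sub_eq_zero.mp h5).symm h3
    · exact h5
  have hmem : MemLp f 2 mu := by
    apply MemLp.indicator hE
    exact memLp_const 1
  set F : L2 := hmem.toLp f with hF
  have hFf : (F : X → ℂ) =ᵐ[mu] f := hmem.coeFn_toLp
  have hFc : ∀ n, fourierCoeff (F : X → ℂ) n = fourierCoeff f n := by
    intro n
    unfold fourierCoeff
    apply integral_congr_ae
    filter_upwards [hFf] with x hx
    simp only [hx]
  set c := fourierCoeff f 0 with hc
  have hFG : F = c • (fourierLp 2 0 : L2) := by
    apply (fourierBasis (T := (1 : ℝ))).repr.injective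
    ext i
    rw [map_smul, fourierBasis_repr, hFc]
    have h1 : (fourierBasis (T := (1 : ℝ))).repr (fourierLp 2 0) = lp.single 2 0 (1 : ℂ) := by
      rw [← coe_fourierBasis (T := (1 : ℝ))]
      exact HilbertBasis.repr_self _ _
    rw [h1]
    by_cases hi : i = 0
    · subst hi
      simp [hc]
    · rw [hcoef i hi]
      simp [hi]
  have hfc : ∀ᵐ x ∂mu, f x = c := by
    have h1 : (F : X → ℂ) =ᵐ[mu] fun x => c * fourier 0 x := by
      rw [hFG]
      filter_upwards [Lp.coeFn_smul c (fourierLp 2 0 : L2), coeFn_fourierLp 2 0 (T := (1 : ℝ))]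
        with x h2 h3
      rw [h2, Pi.smul_apply, h3, smul_eq_mul]
    filter_upwards [hFf, h1] with x h2 h3
    rw [← h2, h3]
    simp
  by_cases hc1 : c = 1
  · right
    have : ∀ᵐ x ∂mu, x ∈ E := by
      filter_upwards [hfc] with x hx
      by_contra h
      simp only [hf, Set.indicator, if_neg h] at hx
      rw [hc1] at hx
      exact zero_ne_one hx
    exact this
  · left
    have : ∀ᵐ x ∂mu, x ∉ E := by
      filter_upwards [hfc] with x hx h
      simp only [hf, Set.indicator, if_pos h] at hx
      exact hc1 hx.symm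
    rw [ae_iff] at this
    simpa using this

end Pool.Agent.H460U
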