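import Pool.Agent.H460U.TR.Defs

/-! Task FA: the quotient of the translates of `φ²`. -/

set_option autoImplicit false

open MeasureTheory Complex Filter
open scoped ComplexConjugate Matrix Topology InnerProductSpace

namespace Pool.Agent.H460U

noncomputable section

namespace FA

lemma pow_sub_one_le (u : ℂ) (hu : ‖u‖ = 1) (n : ℕ) : ‖u ^ n - 1‖ ≤ n * ‖u - 1‖ := by
  induction n with
  | zero => simp
  | succ n ih =>
    have : u ^ (n + 1) - 1 = u ^ n * (u - 1) + (u ^ n - 1) := by ring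
    rw [this]
    refine (norm_add_le _ _).trans ?_
    rw [norm_mul, norm_pow, hu, one_pow, one_mul]
    push_cast
    linarith

lemma zpow_sub_one_le (u : ℂ) (hu : ‖u‖ = 1) (n : ℤ) : ‖u ^ n - 1‖ ≤ |(n : ℝ)| * ‖u - 1‖ := by
  have hu0 : u ≠ 0 := by
    rintro rfl
    simp at hu
  obtain ⟨m, rfl | rfl⟩ := n.eq_nat_or_neg
  · simpa using pow_sub_one_le u hu m
  · have h1 : u ^ (-(m : ℤ)) - 1 = u ^ (-(m : ℤ)) * (1 - u ^ m) := by
      rw [mul_sub, mul_one, zpow_neg, zpow_natCast, inv_mul_cancel₀ (pow_ne_zero _ hu0)]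
    rw [h1, norm_mul, norm_zpow, hu, one_zpow, one_mul, norm_sub_rev]
    simpa using pow_sub_one_le u hu m

lemma prod_sub_one_le (s : Finset ℕ) (u : ℕ → ℂ) (hu : ∀ j, ‖u j‖ = 1) :
    ‖∏ j ∈ s, u j - 1‖ ≤ ∑ j ∈ s, ‖u j - 1‖ := by
  classical
  induction s using Finset.induction_on with
  | empty => simp
  | insert a s ha ih =>
    rw [Finset.prod_insert ha, Finset.sum_insert ha]
    have : u a * ∏ j ∈ s, u j - 1 = u a * (∏ j ∈ s, u j - 1) + (u a - 1) := by ring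
    rw [this]
    refine (norm_add_le _ _).trans ?_
    rw [norm_mul, hu, one_mul]
    linarith

lemma norm_coe_le (r : ℝ) : ‖(r : X)‖ ≤ |r| := by
  rw [UnitAddCircle.norm_eq]
  simpa using round_le r 0

lemma e_add (n : ℤ) (x y : X) : e n (x + y) = e n x * e n y := by
  unfold e
  rw [fourier_apply, fourier_apply, fourier_apply, smul_add, AddCircle.toCircle_add,
    Circle.coe_mul]

lemma e_norm (n : ℤ) (x : X) : ‖e n x‖ = 1 := by
  unfold e
  rw [fourier_apply, Circle.norm_coe]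

lemma DD_eq (ν N : ℕ → ℕ) (x : X) (K : ℕ) :
    DD ν N K x = ∏ j ∈ Finset.range K, bl (N j • x) ^ (5 ^ (ν j)) := by
  induction K with
  | zero => simp [DD]
  | succ K ih =>
    rw [Finset.prod_range_succ, DD, ih, mul_comm]

end FA

set_option maxHeartbeats 4000000 in
open FA in
theorem t_FA (hTD : S_TD) (hH4 : S_H4) : S_FA := by
  intro ν N hP φ hφ hR k
  obtain ⟨_, hbl1, _, hblL⟩ := hH4
  have hbl0 : ∀ x, bl x ≠ 0 := fun x h => by
    have := hbl1 x
    rw [h, norm_zero] at this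
    exact zero_ne_one this
  obtain ⟨s, Ψ, i, hΨ, hi, hrep⟩ := hR (k + 1)
  obtain ⟨_, _, _, _, hTT, _, _⟩ := hTD ν N hP.pos (k + 1)
  set g : X := ((1 / (2 * (N k : ℝ)) : ℝ) : X) with hg
  set E : ℕ → ℤ := fun j => 2 * (i j : ℤ) - (5 : ℤ) ^ (ν j) with hE
  have hNk : (0 : ℝ) < N k := by exact_mod_cast hP.pos k
  -- the formula for `φ²`
  have hform : ∀ᵐ x ∂mu, φ x ^ 2 = (e s x) ^ 2 * (Ψ (N (k + 1) • x)) ^ 2 *
      ∏ j ∈ Finset.range (k + 1), bl (N j • x) ^ (E j) := by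
    filter_upwards [hrep, hTT] with x h1 h2
    have hD0 : DD ν N (k + 1) x ≠ 0 := by
      rw [DD_eq]
      exact Finset.prod_ne_zero_iff.2 fun j _ => pow_ne_zero _ (hbl0 _)
    have h3 : DD ν N (k + 1) x * φ x ^ 2 = (e s x * Ψ (N (k + 1) • x) *
        ∏ j ∈ Finset.range (k + 1), bl (N j • x) ^ (i j)) ^ 2 := by
      rw [← h2, ← h1]
      ring
    apply mul_left_cancel₀ hD0
    rw [h3]
    have h4 : DD ν N (k + 1) x * ∏ j ∈ Finset.range (k + 1), bl (N j • x) ^ (E j) =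
        ∏ j ∈ Finset.range (k + 1), (bl (N j • x) ^ (i j)) ^ 2 := by
      rw [DD_eq, ← Finset.prod_mul_distrib]
      refine Finset.prod_congr rfl fun j _ => ?_
      rw [← zpow_natCast, ← zpow_natCast, ← zpow_natCast, ← zpow_mul, ← zpow_add₀ (hbl0 _)]
      congr 1
      simp only [hE]
      push_cast
      ring
    rw [mul_pow, mul_pow, ← Finset.prod_pow]
    calc _ = (e s x) ^ 2 * (Ψ (N (k + 1) • x)) ^ 2 *
        ∏ j ∈ Finset.range (k + 1), (bl (N j • x) ^ (i j)) ^ 2 := rfl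
      _ = _ := by rw [← h4]; ring
  have hshift : ∀ᵐ x ∂mu, φ (x + g) ^ 2 = (e s (x + g)) ^ 2 *
      (Ψ (N (k + 1) • (x + g))) ^ 2 *
      ∏ j ∈ Finset.range (k + 1), bl (N j • (x + g)) ^ (E j) := by
    have hsh := (measurePreserving_add_right mu g).quasiMeasurePreserving.ae hform
    exact hsh
  -- arithmetic of `g`
  have hgn : ∀ n : ℕ, n • g = (((n : ℝ) * (1 / (2 * (N k : ℝ))) : ℝ) : X) := by
    intro n
    rw [hg, ← AddCircle.coe_nsmul, nsmul_eq_mul]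
  have hg1 : N (k + 1) • g = 0 := by
    obtain ⟨m, hm⟩ := hP.dvd k
    rw [hgn, hm]
    have : (((2 * N k * m : ℕ) : ℝ) * (1 / (2 * (N k : ℝ)))) = ((m : ℤ) : ℝ) * 1 := by
      push_cast
      field_simp
    rw [this, ← zsmul_eq_mul]
    exact AddCircle.coe_eq_zero_iff 1 |>.2 ⟨m, rfl⟩
  have hgk : N k • g = ((1 / 2 : ℝ) : X) := by
    rw [hgn]
    congr 1
    field_simp
  have hE0 : E k ≠ 0 := by
    intro h
    have h1 : (5 : ℤ) ^ (ν k) = 2 * (i k : ℤ) := by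
      simp only [hE] at h
      linarith
    have h2 : Odd ((5 : ℤ) ^ (ν k)) := Odd.pow (by decide)
    rw [h1] at h2
    exact (Int.not_odd_iff_even.2 (even_two_mul _)) h2
  have hEj : ∀ j, |((E j : ℤ) : ℝ)| ≤ (5 : ℝ) ^ (ν j) := by
    intro j
    have h1 : (i j : ℝ) ≤ (5 : ℝ) ^ (ν j) := by exact_mod_cast hi j
    have h2 : (0 : ℝ) ≤ (i j : ℝ) := Nat.cast_nonneg _
    simp only [hE]
    push_cast
    rw [abs_le]
    constructor <;> linarith
  refine ⟨E k, (e s g) ^ 2, hE0, by rw [norm_pow, e_norm, one_pow], ?_⟩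
  filter_upwards [hform, hshift, hφ.2] with x h1 h2 h3
  have hq0 : ∀ j, ‖bl (N j • (x + g)) / bl (N j • x)‖ = 1 := fun j => by
    rw [norm_div, hbl1, hbl1, div_one]
  have h4 : φ (x + g) ^ 2 = (e s g) ^ 2 *
      (bl (N k • x + ((1 / 2 : ℝ) : X)) / bl (N k • x)) ^ (E k) * (φ x) ^ 2 *
      ∏ j ∈ Finset.range k, (bl (N j • (x + g)) / bl (N j • x)) ^ (E j) := by
    rw [h2, h1, smul_add (N (k + 1)), hg1, add_zero, e_add, Finset.prod_range_succ,
      Finset.prod_range_succ, smul_add (N k) x g, hgk]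
    have h5 : ∏ j ∈ Finset.range k, (bl (N j • (x + g)) / bl (N j • x)) ^ (E j) =
        (∏ j ∈ Finset.range k, bl (N j • (x + g)) ^ (E j)) /
          ∏ j ∈ Finset.range k, bl (N j • x) ^ (E j) := by
      rw [← Finset.prod_div_distrib]
      exact Finset.prod_congr rfl fun j _ => div_zpow _ _ _
    have h6 : ∏ j ∈ Finset.range k, bl (N j • x) ^ (E j) ≠ 0 :=
      Finset.prod_ne_zero_iff.2 fun j _ => zpow_ne_zero _ (hbl0 _)
    have h7 : bl (N k • x) ^ (E k) ≠ 0 := zpow_ne_zero _ (hbl0 _)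
    rw [h5, div_zpow]
    field_simp
  have h5 : φ (x + g) ^ 2 - (e s g) ^ 2 *
      (bl (N k • x + ((1 / 2 : ℝ) : X)) / bl (N k • x)) ^ (E k) * (φ x) ^ 2 =
      ((e s g) ^ 2 * (bl (N k • x + ((1 / 2 : ℝ) : X)) / bl (N k • x)) ^ (E k) * (φ x) ^ 2) *
      (∏ j ∈ Finset.range k, (bl (N j • (x + g)) / bl (N j • x)) ^ (E j) - 1) := by
    rw [h4]
    ring
  have h6 : ‖(e s g) ^ 2 * (bl (N k • x + ((1 / 2 : ℝ) : X)) / bl (N k • x)) ^ (E k) *
      (φ x) ^ 2‖ = 1 := by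
    rw [norm_mul, norm_mul, norm_pow, norm_pow, e_norm, h3, norm_zpow, norm_div, hbl1, hbl1]
    simp
  rw [h5, norm_mul, h6, one_mul]
  have h7 : ‖∏ j ∈ Finset.range k, (bl (N j • (x + g)) / bl (N j • x)) ^ (E j) - 1‖ ≤
      ∑ j ∈ Finset.range k, ‖(bl (N j • (x + g)) / bl (N j • x)) ^ (E j) - 1‖ :=
    prod_sub_one_le _ _ fun j => by rw [norm_zpow, hq0, one_zpow]
  have h8 : ∀ j, ‖(bl (N j • (x + g)) / bl (N j • x)) ^ (E j) - 1‖ ≤
      (5 : ℝ) ^ (ν j) * (20 * ((N j : ℝ) * (1 / (2 * (N k : ℝ))))) := by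
    intro j
    refine (zpow_sub_one_le _ (hq0 j) _).trans ?_
    refine mul_le_mul (hEj j) ?_ (norm_nonneg _) (by positivity)
    have h9 : bl (N j • (x + g)) / bl (N j • x) - 1 =
        (bl (N j • (x + g)) - bl (N j • x)) / bl (N j • x) := by
      rw [sub_div, div_self (hbl0 _)]
    rw [h9, norm_div, hbl1, div_one]
    refine (hblL _ _).trans ?_
    refine mul_le_mul_of_nonneg_left ?_ (by norm_num)
    rw [smul_add, add_sub_cancel_left, hgn]
    refine (norm_coe_le _).trans ?_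
    rw [abs_of_nonneg (by positivity)]
  have h9 := hP.growth k
  have h9' : (2 : ℝ) ^ k * (∑ j ∈ Finset.range k, (5 : ℝ) ^ (ν j) * (N j : ℝ) * 20) ≤ N k := by
    exact_mod_cast h9
  calc ‖∏ j ∈ Finset.range k, (bl (N j • (x + g)) / bl (N j • x)) ^ (E j) - 1‖
      ≤ ∑ j ∈ Finset.range k, (5 : ℝ) ^ (ν j) * (20 * ((N j : ℝ) * (1 / (2 * (N k : ℝ))))) :=
        h7.trans (Finset.sum_le_sum fun j _ => h8 j)
    _ = (∑ j ∈ Finset.range k, (5 : ℝ) ^ (ν j) * (N j : ℝ) * 20) * (1 / (2 * (N k : ℝ))) := by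
        rw [Finset.sum_mul]
        exact Finset.sum_congr rfl fun j _ => by ring
    _ ≤ (1 / 2 : ℝ) ^ k := by
        set S : ℝ := ∑ j ∈ Finset.range k, (5 : ℝ) ^ (ν j) * (N j : ℝ) * 20 with hS
        have h2k : (0 : ℝ) < 2 ^ k := by positivity
        rw [one_div_pow, mul_one_div, div_le_div_iff₀ (by positivity) h2k]
        rw [mul_comm S, one_mul]
        linarith

end

end Pool.Agent.H460U
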