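import Pool.Agent.H460U.TR.Defs

set_option autoImplicit false

open MeasureTheory Complex Filter
open scoped ComplexConjugate Matrix Topology InnerProductSpace

namespace Pool.Agent.H460U

noncomputable section

theorem t_FINAL (h : S_L2) : S_FINAL := by
  classical
  obtain ⟨Alg, U, V, hU, hV, hUA, hVA, hcl, htr⟩ := h
  let W : L2 ≃ₗᵢ[ℂ] lZ := (fourierBasis (T := (1 : ℝ))).repr
  let WL : L2 →L[ℂ] lZ := (W.toContinuousLinearEquiv : L2 →L[ℂ] lZ)
  let WI : lZ →L[ℂ] L2 := (W.symm.toContinuousLinearEquiv : lZ →L[ℂ] L2)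
  have hWI : ∀ y, WL (WI y) = y := fun y => W.apply_symm_apply y
  have hIW : ∀ y, WI (WL y) = y := fun y => W.symm_apply_apply y
  let c : (lZ →L[ℂ] lZ) → (L2 →L[ℂ] L2) := fun T => WI.comp (T.comp WL)
  let d : (L2 →L[ℂ] L2) → (lZ →L[ℂ] lZ) := fun A => WL.comp (A.comp WI)
  have hcapp : ∀ T x, c T x = WI (T (WL x)) := fun T x => rfl
  have hdapp : ∀ A x, d A x = WL (A (WI x)) := fun A x => rfl
  have hcd : ∀ A, c (d A) = A := by
    intro A
    ext1 x
    rw [hcapp, hdapp, hIW, hIW]
  have hcmul : ∀ S T, c (S * T) = c S * c T := by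
    intro S T
    ext1 x
    change WI ((S * T) (WL x)) = c S (c T x)
    rw [hcapp, hcapp, hWI]
    rfl
  have hcadd : ∀ S T, c (S + T) = c S + c T := by
    intro S T
    ext1 x
    change WI ((S + T) (WL x)) = c S x + c T x
    rw [hcapp, hcapp, ContinuousLinearMap.add_apply, map_add]
  have hcsub : ∀ S T, c S - c T = c (S - T) := by
    intro S T
    ext1 x
    change c S x - c T x = WI ((S - T) (WL x))
    rw [hcapp, hcapp, ContinuousLinearMap.sub_apply, map_sub]
  have hcalg : ∀ r : ℂ, c (algebraMap ℂ (lZ →L[ℂ] lZ) r) = algebraMap ℂ (L2 →L[ℂ] L2) r := by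
    intro r
    ext1 x
    rw [hcapp, Algebra.algebraMap_eq_smul_one, Algebra.algebraMap_eq_smul_one]
    change WI (r • (WL x)) = r • x
    rw [map_smul, hIW]
  let Alg' : Subalgebra ℂ (lZ →L[ℂ] lZ) :=
    { carrier := {T | c T ∈ Alg}
      mul_mem' := by
        intro a b ha hb
        change c (a * b) ∈ Alg
        rw [hcmul]
        exact Alg.mul_mem ha hb
      add_mem' := by
        intro a b ha hb
        change c (a + b) ∈ Alg
        rw [hcadd]
        exact Alg.add_mem ha hb
      algebraMap_mem' := by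
        intro r
        change c _ ∈ Alg
        rw [hcalg]
        exact Alg.algebraMap_mem r }
  have hmem : ∀ T, T ∈ Alg' ↔ c T ∈ Alg := fun T => Iff.rfl
  have hdmem : ∀ A, A ∈ Alg → d A ∈ Alg' := by
    intro A hA
    rw [hmem, hcd]
    exact hA
  have hUn : ∀ n : ℤ, U (fourierLp 2 n) = fourierLp 2 (n + 1) := by
    intro n
    apply Lp.ext
    filter_upwards [hU (fourierLp 2 n), coeFn_fourierLp (T := (1 : ℝ)) 2 n,
      coeFn_fourierLp (T := (1 : ℝ)) 2 (n + 1)] with x h1 h2 h3
    rw [h1, h2, h3, e, add_comm n 1, fourier_add]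
  refine ⟨Alg', d U, ?_, hdmem U hUA, ?_, ?_, ?_⟩
  · intro n
    rw [hdapp]
    have h1 : WI (lp.single 2 n (1 : ℂ)) = fourierLp 2 n := by
      have := (fourierBasis (T := (1 : ℝ))).repr_symm_single n
      rw [coe_fourierBasis] at this
      exact this
    have h2 : WL (fourierLp 2 (n + 1)) = lp.single 2 (n + 1) (1 : ℂ) := by
      have := (fourierBasis (T := (1 : ℝ))).repr_self (n + 1)
      rw [coe_fourierBasis] at this
      exact this
    rw [h1, hUn, h2]
  · intro T hT
    rw [hmem]
    apply hcl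
    intro F ε hε
    obtain ⟨S, hS, hS2⟩ := hT (F.image (fun p => (WL p.1, WL p.2))) ε hε
    refine ⟨c S, hS, ?_⟩
    intro p hp
    have h1 := hS2 (WL p.1, WL p.2) (Finset.mem_image_of_mem _ hp)
    rw [hcsub, hcapp]
    have h2 : ⟪WI ((T - S) (WL p.1)), p.2⟫_ℂ = ⟪(T - S) (WL p.1), WL p.2⟫_ℂ := by
      have h3 := W.inner_map_map (WI ((T - S) (WL p.1))) p.2
      rw [← h3]
      congr 1
      exact (W.apply_symm_apply _)
    rw [h2]
    exact h1
  · intro M hM hinv
    let M' : Submodule ℂ L2 := M.comap (W.toLinearEquiv : L2 →ₗ[ℂ] lZ)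
    have hM'mem : ∀ f, f ∈ M' ↔ WL f ∈ M := fun f => Iff.rfl
    have hM' : IsClosed (M' : Set L2) := hM.preimage W.continuous
    rcases htr M' hM' (by
      intro A hA f hf
      rw [hM'mem] at hf ⊢
      have := hinv (d A) (hdmem A hA) (WL f) hf
      rw [hdapp, hIW] at this
      exact this) with h0 | h1
    · left
      rw [Submodule.eq_bot_iff]
      intro y hy
      have h2 : WI y ∈ M' := by
        rw [hM'mem, hWI]
        exact hy
      rw [h0, Submodule.mem_bot] at h2
      rw [← hWI y, h2, map_zero]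
    · right
      rw [Submodule.eq_top_iff']
      intro y
      have h2 : WI y ∈ M' := by
        rw [h1]
        exact Submodule.mem_top
      rw [hM'mem, hWI] at h2
      exact h2
  · intro htop
    apply hVA
    have : d V ∈ Alg' := by
      rw [htop]
      exact Algebra.mem_top
    rw [hmem, hcd] at this
    exact this

end

end Pool.Agent.H460U
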