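import Pool.Agent.H460U.TR.Defs

/-! GL: the coefficients are continuous linear functionals -/

set_option autoImplicit false

open MeasureTheory Complex Filter
open scoped ComplexConjugate Matrix Topology InnerProductSpace

namespace Pool.Agent.H460U

theorem GL_bound (A : M2) (hA : Aᴴ * A = 1) (i j : Fin 2) : ‖A i j‖ ≤ 1 := by
  have h1 : (Aᴴ * A) j j = 1 := by rw [hA]; simp
  rw [Matrix.mul_apply, Fin.sum_univ_two, Matrix.conjTranspose_apply,
    Matrix.conjTranspose_apply, Complex.star_def, Complex.conj_mul',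
    Complex.conj_mul'] at h1
  have h2 : ‖A 0 j‖ ^ 2 + ‖A 1 j‖ ^ 2 = 1 := by exact_mod_cast h1
  have h3 : ‖A i j‖ ^ 2 ≤ 1 := by
    fin_cases i
    · show ‖A 0 j‖ ^ 2 ≤ 1
      nlinarith [sq_nonneg ‖A 1 j‖]
    · show ‖A 1 j‖ ^ 2 ≤ 1
      nlinarith [sq_nonneg ‖A 0 j‖]
  nlinarith [norm_nonneg (A i j)]

theorem t_GL : S_GL := by
  intro Φ hm hu j n
  have hmem : ∀ i, MemLp (fun x => e n x * Φ x i j) 2 mu := by
    intro i
    refine MemLp.of_bound ?_ 1 ?_
    · exact ((fourier n).continuous.aestronglyMeasurable).mul (hm i j)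
    · filter_upwards [hu] with x hx
      rw [norm_mul]
      have h1 : ‖e n x‖ = 1 := by
        unfold e
        rw [fourier_apply]
        exact Circle.norm_coe _
      rw [h1, one_mul]
      exact GL_bound _ hx i j
  refine ⟨(hmem 0).toLp _, (hmem 1).toLp _, ?_⟩
  intro f g
  rw [L2.inner_def, L2.inner_def, ← integral_add (L2.integrable_inner _ f)
    (L2.integrable_inner _ g)]
  unfold fourierCoeff
  apply integral_congr_ae
  filter_upwards [MemLp.coeFn_toLp (hmem 0), MemLp.coeFn_toLp (hmem 1)] with x hx hy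
  rw [hx, hy]
  simp only [RCLike.inner_apply, map_mul, smul_eq_mul, e, fourier_neg]
  ring

end Pool.Agent.H460U
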