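import Pool.Agent.H460U.TR.Defs

/-! Task H1 of helper460's project TR (by helper747): products of analytic functions. -/

set_option autoImplicit false

open MeasureTheory Complex Filter
open scoped ComplexConjugate Matrix Topology InnerProductSpace ENNReal

namespace Pool.Agent.H460U

theorem t_H1 : S_H1 := by
  intro f g hf hfa hg hga
  obtain ⟨hgm, C, hC⟩ := hg
  have hgtop : MemLp g ⊤ mu := memLp_top_of_bound hgm C hC
  have hfg : MemLp (fun x => f x * g x) 2 mu := by
    have h := MemLp.mul (p := 2) (q := ⊤) (r := 2) hgtop hf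
    exact h
  refine ⟨hfg, fun m hm => ?_⟩
  -- the auxiliary element
  have hg2 : MemLp g 2 mu := hgtop.mono_exponent le_top
  have hfm : AEStronglyMeasurable (fun x : X => conj ((fourier (-m) x : ℂ) * g x)) mu := by
    have h1 : AEStronglyMeasurable (fun x : X => (fourier (-m) x : ℂ) * g x) mu :=
      ((fourier (-m)).continuous.aestronglyMeasurable).mul hgm
    exact (Complex.continuous_conj.comp_aestronglyMeasurable h1)
  have ham : MemLp (fun x : X => conj ((fourier (-m) x : ℂ) * g x)) 2 mu := by
    refine hg2.of_le hfm ?_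
    filter_upwards with x
    rw [RCLike.norm_conj, norm_mul]
    have : ‖(fourier (-m) x : ℂ)‖ = 1 := by
      rw [fourier_apply]
      exact Circle.norm_coe _
    rw [this, one_mul]
  set A : L2 := ham.toLp _ with hA
  set F : L2 := hf.toLp f with hF
  have hAe : (A : X → ℂ) =ᵐ[mu] fun x : X => conj ((fourier (-m) x : ℂ) * g x) :=
    ham.coeFn_toLp
  have hFe : (F : X → ℂ) =ᵐ[mu] f := hf.coeFn_toLp
  have hinner : ⟪A, F⟫_ℂ = fourierCoeff (fun x => f x * g x) m := by
    rw [L2.inner_def]
    unfold fourierCoeff
    refine integral_congr_ae ?_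
    filter_upwards [hAe, hFe] with x h1 h2
    rw [h1, h2]
    simp only [RCLike.inner_apply, Complex.conj_conj, smul_eq_mul]
    ac_rfl
  have hsum := (fourierBasis (T := (1 : ℝ))).hasSum_inner_mul_inner A F
  have hF0 : ∀ n : ℤ, n < 0 → ⟪fourierBasis (T := (1 : ℝ)) n, F⟫_ℂ = 0 := by
    intro n hn
    rw [← HilbertBasis.repr_apply_apply, fourierBasis_repr]
    have : fourierCoeff (F : X → ℂ) n = fourierCoeff f n := by
      unfold fourierCoeff
      refine integral_congr_ae ?_
      filter_upwards [hFe] with x h1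
      rw [h1]
    rw [this]
    exact hfa n hn
  have hA0 : ∀ n : ℤ, 0 ≤ n → ⟪A, fourierBasis (T := (1 : ℝ)) n⟫_ℂ = 0 := by
    intro n hn
    rw [← inner_conj_symm, ← HilbertBasis.repr_apply_apply, fourierBasis_repr]
    have h1 : fourierCoeff (A : X → ℂ) n = conj (fourierCoeff g (m - n)) := by
      unfold fourierCoeff
      rw [← integral_conj]
      refine integral_congr_ae ?_
      filter_upwards [hAe] with x h1
      rw [h1]
      have h2 : (fourier (-(m - n)) x : ℂ) = fourier n x * fourier (-m) x := by
        have e : -(m - n) = n + -m := by ring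
        rw [e, fourier_add]
      rw [h2]
      have h3 : (fourier (-n) x : ℂ) = conj (fourier n x : ℂ) := fourier_neg
      rw [h3]
      simp only [smul_eq_mul, map_mul]
      rw [mul_assoc]
    rw [h1, hga (m - n) (by omega)]
    simp
  have hzero : (fun i : ℤ => ⟪A, fourierBasis (T := (1 : ℝ)) i⟫_ℂ *
      ⟪fourierBasis (T := (1 : ℝ)) i, F⟫_ℂ) = fun _ => 0 := by
    funext n
    rcases lt_or_ge n 0 with hn | hn
    · rw [hF0 n hn, mul_zero]
    · rw [hA0 n hn, zero_mul]
  rw [hzero] at hsum
  have := hsum.unique hasSum_zero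
  rw [← hinner]
  exact this

end Pool.Agent.H460U
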