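import Pool.Agent.H460U.TR.Defs

set_option autoImplicit false

open MeasureTheory Complex Filter
open scoped ComplexConjugate Matrix Topology InnerProductSpace

namespace Pool.Agent.H460U

noncomputable section

/-- multiplication by `N` preserves the Haar measure of the circle (helper944) -/
theorem H3_mp (N : ℕ) (hN : 0 < N) : MeasurePreserving (fun x : X => N • x) mu mu := by
  have h := Measure.measurePreserving_zsmul (mu : Measure X) (n := (N : ℤ)) (by exact_mod_cast hN.ne')
  have e : (fun g : X => (N : ℤ) • g) = fun x : X => N • x := by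
    funext x
    exact natCast_zsmul x N
  rwa [e] at h

theorem t_H3 : S_H3 := by
  intro f N hN hf
  have hmp := H3_mp N hN
  refine ⟨fun n => ?_, fun m hm => ?_⟩
  · unfold fourierCoeff
    have hg : AEStronglyMeasurable (fun y : X => fourier (-n) y • f y) mu :=
      ((map_continuous (fourier (-n))).aestronglyMeasurable).smul hf.1
    have h1 : ∫ y : X, fourier (-n) y • f y ∂mu = ∫ x : X, fourier (-n) (N • x) • f (N • x) ∂mu := by
      have h2 := integral_map (μ := mu) (φ := fun x : X => N • x) hmp.measurable.aemeasurable
        (f := fun y : X => fourier (-n) y • f y) (by rw [hmp.map_eq]; exact hg)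
      rw [hmp.map_eq] at h2
      exact h2
    rw [h1]
    refine integral_congr_ae (Eventually.of_forall fun x => ?_)
    simp only
    congr 1
    rw [fourier_apply, fourier_apply]
    congr 2
    rw [← natCast_zsmul x N, ← mul_smul]
    congr 1
    ring
  · set I : ℂ := fourierCoeff (fun x : X => f (N • x)) m with hI
    set h : X := (((N : ℝ)⁻¹ : ℝ) : X) with hh
    have hN0 : (N : ℝ) ≠ 0 := by exact_mod_cast hN.ne'
    have hNh : N • h = 0 := by
      rw [hh, ← AddCircle.coe_nsmul, nsmul_eq_mul, mul_inv_cancel₀ hN0]
      exact AddCircle.coe_period 1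
    have e1 : I = ∫ x : X, fourier (-m) x • f (N • x) ∂mu := rfl
    have e2 : I = (fourier (-m) h : ℂ) * I := by
      have h3 : ∫ x : X, (fourier (-m) (x + h) : ℂ) • f (N • (x + h)) ∂mu =
          ∫ x : X, fourier (-m) x • f (N • x) ∂mu :=
        integral_add_right_eq_self (μ := mu) (fun x : X => (fourier (-m) x : ℂ) • f (N • x)) h
      have h4 : ∀ x : X, (fourier (-m) (x + h) : ℂ) • f (N • (x + h)) =
          (fourier (-m) h : ℂ) * ((fourier (-m) x : ℂ) • f (N • x)) := by
        intro x
        rw [smul_add, hNh, add_zero, fourier_apply, fourier_apply, fourier_apply, smul_add,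
          AddCircle.toCircle_add, Circle.coe_mul, smul_eq_mul, smul_eq_mul]
        ring
      simp_rw [h4] at h3
      rw [integral_const_mul, ← e1] at h3
      exact h3.symm
    have hne : (fourier (-m) h : ℂ) ≠ 1 := by
      intro hc
      rw [fourier_apply] at hc
      have h5 : AddCircle.toCircle ((-m) • h : X) = AddCircle.toCircle (0 : X) := by
        rw [AddCircle.toCircle_zero]
        apply Circle.ext
        rw [Circle.coe_one]
        exact hc
      have h6 := AddCircle.injective_toCircle (T := (1 : ℝ)) one_ne_zero h5
      rw [hh, ← AddCircle.coe_zsmul, AddCircle.coe_eq_zero_iff] at h6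
      obtain ⟨k, hk⟩ := h6
      apply hm
      refine ⟨-k, ?_⟩
      rw [zsmul_eq_mul, zsmul_eq_mul, mul_one] at hk
      have h7 : (m : ℝ) = N * (-k : ℤ) := by
        push_cast at hk ⊢
        rw [hk]
        field_simp
      exact_mod_cast h7
    have e3 : ((fourier (-m) h : ℂ) - 1) * I = 0 := by linear_combination -e2
    rcases mul_eq_zero.1 e3 with h8 | h8
    · exact absurd (sub_eq_zero.1 h8) hne
    · exact h8

end

end Pool.Agent.H460U
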