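import Pool.Agent.H460U.TR.Defs

set_option autoImplicit false

open MeasureTheory Complex Filter
open scoped ComplexConjugate Matrix Topology InnerProductSpace

namespace Pool.Agent.H460U

noncomputable section

namespace H4

lemma e_norm (n : ℤ) (x : X) : ‖e n x‖ = 1 := by
  unfold e
  rw [fourier_apply]
  exact Circle.norm_coe _

lemma e_cont (n : ℤ) : Continuous (e n) := (fourier n).continuous

lemma den_ne (x : X) : (1 - 1 / 2 * e 1 x) ≠ 0 := by
  intro h
  have h1 : e 1 x = 2 := by linear_combination (-2) * h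
  have h2 := e_norm 1 x
  rw [h1] at h2
  norm_num at h2

lemma bl_cont : Continuous bl := by
  unfold bl
  exact ((e_cont 1).sub continuous_const).div (continuous_const.sub (continuous_const.mul (e_cont 1)))
    den_ne

lemma num_den (z : ℂ) (hz : ‖z‖ = 1) : ‖z - 1 / 2‖ = ‖1 - 1 / 2 * z‖ := by
  have h1 : z.re ^ 2 + z.im ^ 2 = 1 := by
    have := Complex.sq_norm z
    rw [hz, Complex.normSq_apply] at this
    nlinarith [this]
  have h2 : ‖z - 1 / 2‖ ^ 2 = ‖1 - 1 / 2 * z‖ ^ 2 := by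
    rw [Complex.sq_norm, Complex.sq_norm, Complex.normSq_apply, Complex.normSq_apply]
    simp
    nlinarith [h1]
  exact (sq_eq_sq₀ (norm_nonneg _) (norm_nonneg _)).mp h2

lemma bl_norm (x : X) : ‖bl x‖ = 1 := by
  unfold bl
  rw [norm_div, num_den _ (e_norm 1 x)]
  exact div_self (norm_ne_zero_iff.mpr (den_ne x))

lemma integrable_of_cont {f : X → ℂ} (hf : Continuous f) : Integrable f mu :=
  hf.integrable_of_hasCompactSupport (HasCompactSupport.of_compactSpace f)

lemma bl_eq (x : X) : bl x = e 1 x + ((-1 / 2 : ℂ) * 1 + (1 / 2 : ℂ) * (e 1 x * bl x)) := by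
  have h := den_ne x
  have h2 : bl x * (1 - 1 / 2 * e 1 x) = e 1 x - 1 / 2 := by
    unfold bl
    exact div_mul_cancel₀ _ h
  linear_combination h2

lemma coeff_shift (f : X → ℂ) (n : ℤ) :
    fourierCoeff (fun x => e 1 x * f x) n = fourierCoeff f (n - 1) := by
  unfold fourierCoeff e
  congr 1
  ext x
  have : (fourier (-(n - 1)) x : ℂ) = fourier (-n) x * fourier 1 x := by
    rw [← fourier_add]
    congr 2
    ring
  rw [this]
  simp only [smul_eq_mul]
  ring

lemma coeff_rec (n : ℤ) (hn : n < 0) : fourierCoeff bl n = (1 / 2 : ℂ) * fourierCoeff bl (n - 1) := by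
  have h1 : bl = (fourier 1 : C(X, ℂ)) + (((-1 / 2 : ℂ) • ((fourier 0 : C(X, ℂ)) : X → ℂ)) +
      ((1 / 2 : ℂ) • fun x => e 1 x * bl x)) := by
    ext x
    have := bl_eq x
    simp only [Pi.add_apply, Pi.smul_apply, smul_eq_mul]
    rw [fourier_zero]
    exact this
  have i1 : Integrable ((fourier 1 : C(X, ℂ)) : X → ℂ) mu := integrable_of_cont (fourier 1).continuous
  have i2 : Integrable ((-1 / 2 : ℂ) • ((fourier 0 : C(X, ℂ)) : X → ℂ)) mu :=
    integrable_of_cont ((fourier 0).continuous.const_smul _)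
  have i3 : Integrable ((1 / 2 : ℂ) • fun x => e 1 x * bl x) mu :=
    integrable_of_cont (((e_cont 1).mul bl_cont).const_smul _)
  have h2 : fourierCoeff bl n = fourierCoeff ((fourier 1 : C(X, ℂ)) : X → ℂ) n +
      ((-1 / 2 : ℂ) • fourierCoeff ((fourier 0 : C(X, ℂ)) : X → ℂ) n +
      (1 / 2 : ℂ) • fourierCoeff (fun x => e 1 x * bl x) n) := by
    conv_lhs => rw [h1]
    rw [fourierCoeff.add i1 (i2.add i3), Pi.add_apply, fourierCoeff.add i2 i3, Pi.add_apply,
      fourierCoeff.const_smul, fourierCoeff.const_smul]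
  rw [h2, coeff_shift, fourierCoeff_fourier, fourierCoeff_fourier]
  have e1 : (Pi.single 1 1 : ℤ → ℂ) n = 0 := by
    rw [Pi.single_apply, if_neg (by omega)]
  have e2 : (Pi.single 0 1 : ℤ → ℂ) n = 0 := by
    rw [Pi.single_apply, if_neg (by omega)]
  rw [e1, e2]
  simp

lemma coeff_bd (n : ℤ) : ‖fourierCoeff bl n‖ ≤ 1 := by
  unfold fourierCoeff
  calc ‖∫ t : X, fourier (-n) t • bl t ∂mu‖ ≤ ∫ t : X, ‖fourier (-n) t • bl t‖ ∂mu :=
        norm_integral_le_integral_norm _
    _ = ∫ t : X, (1 : ℝ) ∂mu := by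
        congr 1
        ext t
        rw [norm_smul, bl_norm]
        have := e_norm (-n) t
        unfold e at this
        rw [this]
        norm_num
    _ ≤ 1 := by simp

lemma coeff_pow (n : ℤ) (hn : n < 0) (k : ℕ) :
    fourierCoeff bl n = (1 / 2 : ℂ) ^ k * fourierCoeff bl (n - k) := by
  induction k with
  | zero => simp
  | succ k ih =>
    rw [ih, coeff_rec (n - k) (by omega), pow_succ]
    push_cast
    rw [show n - (k : ℤ) - 1 = n - ((k : ℤ) + 1) by ring]
    ring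

lemma an_bl : An bl := by
  intro n hn
  by_contra hne
  have hpos : 0 < ‖fourierCoeff bl n‖ := norm_pos_iff.mpr hne
  obtain ⟨k, hk⟩ := exists_pow_lt_of_lt_one hpos (show (1 / 2 : ℝ) < 1 by norm_num)
  have h := coeff_pow n hn k
  have h2 : ‖fourierCoeff bl n‖ ≤ (1 / 2 : ℝ) ^ k := by
    rw [h, norm_mul, norm_pow]
    have h3 := coeff_bd (n - k)
    have h4 : ‖(1 / 2 : ℂ)‖ = 1 / 2 := by norm_num
    rw [h4]
    have h5 : (0 : ℝ) ≤ (1 / 2 : ℝ) ^ k := by positivity
    nlinarith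
  linarith

lemma e_sub (x y : X) : e 1 x - e 1 y = e 1 y * (e 1 (x - y) - 1) := by
  unfold e
  have : (fourier 1 x : ℂ) = fourier 1 y * fourier 1 (x - y) := by
    rw [fourier_one, fourier_one, fourier_one, ← Circle.coe_mul, ← AddCircle.toCircle_add]
    congr 2
    abel
  rw [this]
  ring

lemma e_lip0 (x : X) : ‖e 1 x - 1‖ ≤ 2 * Real.pi * ‖x‖ := by
  induction x using QuotientAddGroup.induction_on with
  | H t =>
    have h1 : ((t : ℝ) : X) = ((t - round t : ℝ) : X) := by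
      rw [AddCircle.coe_sub]
      have : (((round t : ℤ) : ℝ) : X) = 0 := by
        have := AddCircle.coe_eq_zero_iff (1 : ℝ) (x := ((round t : ℤ) : ℝ))
        rw [this]
        exact ⟨round t, by simp⟩
      rw [this, sub_zero]
    have h2 : ‖((t : ℝ) : X)‖ = |t - round t| := UnitAddCircle.norm_eq
    have h3 : e 1 ((t : ℝ) : X) = Complex.exp (Complex.I * ((2 * Real.pi * (t - round t) : ℝ) : ℂ)) := by
      rw [h1]
      unfold e
      rw [fourier_coe_apply]
      congr 1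
      push_cast
      ring
    change ‖e 1 ((t : ℝ) : X) - 1‖ ≤ 2 * Real.pi * ‖((t : ℝ) : X)‖
    rw [h3, h2]
    refine (Real.norm_exp_I_mul_ofReal_sub_one_le).trans ?_
    rw [Real.norm_eq_abs, abs_mul, abs_of_nonneg (by positivity : (0 : ℝ) ≤ 2 * Real.pi)]

lemma e_lip (x y : X) : ‖e 1 x - e 1 y‖ ≤ 2 * Real.pi * ‖x - y‖ := by
  rw [e_sub, norm_mul, e_norm, one_mul]
  exact e_lip0 _

lemma bl_lip (x y : X) : ‖bl x - bl y‖ ≤ 20 * ‖x - y‖ := by
  have hx := den_ne x
  have hy := den_ne y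
  have h1 : bl x - bl y = (3 / 4 : ℂ) * (e 1 x - e 1 y) / ((1 - 1 / 2 * e 1 x) * (1 - 1 / 2 * e 1 y)) := by
    unfold bl
    rw [div_sub_div _ _ hx hy]
    congr 1
    ring
  have hd : ∀ z : X, (1 / 2 : ℝ) ≤ ‖1 - 1 / 2 * e 1 z‖ := by
    intro z
    have := norm_sub_norm_le (1 : ℂ) (1 / 2 * e 1 z)
    rw [norm_mul, e_norm] at this
    norm_num at this
    linarith [this]
  have h2 : ‖bl x - bl y‖ ≤ 3 * ‖e 1 x - e 1 y‖ := by
    rw [h1, norm_div, norm_mul, norm_mul]
    have a1 := hd x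
    have a2 := hd y
    have h34 : ‖(3 / 4 : ℂ)‖ = 3 / 4 := by norm_num
    rw [h34]
    have hprod : (1 / 4 : ℝ) ≤ ‖1 - 1 / 2 * e 1 x‖ * ‖1 - 1 / 2 * e 1 y‖ := by nlinarith
    rw [div_le_iff₀ (by linarith)]
    have := norm_nonneg (e 1 x - e 1 y)
    nlinarith
  have h3 := e_lip x y
  have h4 : Real.pi < 3.15 := Real.pi_lt_d2
  have h5 := norm_nonneg (x - y)
  nlinarith

end H4

theorem t_H4 : S_H4 := ⟨H4.bl_cont, H4.bl_norm, H4.an_bl, H4.bl_lip⟩

end

end Pool.Agent.H460U
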