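import Pool.Agent.H460U.TR.Defs

/-! task H5 -/

set_option autoImplicit false

open MeasureTheory Complex Filter
open scoped ComplexConjugate Matrix Topology InnerProductSpace

namespace Pool.Agent.H460U

noncomputable section

theorem H5_conj (f : X → ℂ) (n : ℤ) :
    fourierCoeff (fun x => conj (f x)) n = conj (fourierCoeff f (-n)) := by
  unfold fourierCoeff
  rw [← integral_conj]
  congr 1
  funext x
  rw [smul_eq_mul, smul_eq_mul, map_mul, ← fourier_neg, neg_neg]

theorem t_H5 : S_H5 := by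
  intro f hU hA hA'
  obtain ⟨hm, h1⟩ := hU
  have hL : MemLp f 2 mu := MemLp.of_bound hm 1 (h1.mono fun x hx => hx.le)
  let F : L2 := hL.toLp f
  have hF : (F : X → ℂ) =ᵐ[mu] f := hL.coeFn_toLp
  have hc : ∀ n, fourierCoeff (F : X → ℂ) n = fourierCoeff f n := fun n =>
    congrFun (fourierCoeff_congr_ae hF) n
  have hz : ∀ n, n ≠ 0 → fourierCoeff (F : X → ℂ) n = 0 := by
    intro n hn
    rw [hc]
    rcases lt_or_gt_of_ne hn with h | h
    · exact hA n h
    · have h2 := hA' (-n) (by omega)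
      rw [H5_conj, neg_neg] at h2
      simpa using h2
  have hs := hasSum_fourier_series_L2 F
  let G : L2 := fourierLp 2 0
  let c : ℂ := fourierCoeff (F : X → ℂ) 0
  have hs2 : HasSum (fun i : ℤ => fourierCoeff (F : X → ℂ) i • fourierLp 2 i) (c • G) :=
    hasSum_single 0 (fun n hn => by rw [hz n hn, zero_smul])
  have he : F = c • G := hs.unique hs2
  have h3 : (F : X → ℂ) =ᵐ[mu] fun _ => c := by
    have h4 : ((c • G : L2) : X → ℂ) =ᵐ[mu] c • (G : X → ℂ) := Lp.coeFn_smul _ _
    have h5 : (G : X → ℂ) =ᵐ[mu] (fourier 0 : C(X, ℂ)) := coeFn_fourierLp 2 0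
    rw [he]
    filter_upwards [h4, h5] with x hx hx'
    rw [hx, Pi.smul_apply, hx', fourier_zero, smul_eq_mul, mul_one]
  have h6 : ∀ᵐ x ∂mu, f x = c := by
    filter_upwards [h3, hF] with x hx hx'
    rw [← hx', hx]
  refine ⟨c, ?_, h6⟩
  obtain ⟨x, hx, hx'⟩ := (h6.and h1).exists
  rw [← hx]
  exact hx'

end

end Pool.Agent.H460U
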