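import Pool.Agent.H460U.TR.Defs

/-! Task K1 of project TR: the span lemma. -/

set_option autoImplicit false

open MeasureTheory Complex Filter
open scoped ComplexConjugate Matrix Topology InnerProductSpace

namespace Pool.Agent.H460U

noncomputable section

theorem K1_an_congr {f g : X → ℂ} (h : f =ᵐ[mu] g) (hf : An f) : An g := by
  intro n hn
  rw [← hf n hn]
  unfold fourierCoeff
  apply integral_congr_ae
  filter_upwards [h] with x hx
  rw [hx]

theorem K1_mp (g : X) : MeasurePreserving (fun x : X => x + g) mu mu :=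
  measurePreserving_add_right mu g

theorem K1_uni_tr {f : X → ℂ} (hf : Uni f) (g : X) : Uni (fun x => f (x + g)) := by
  refine ⟨?_, ?_⟩
  · have h := hf.1.comp_quasiMeasurePreserving (K1_mp g).quasiMeasurePreserving
    exact h
  · have h := (K1_mp g).quasiMeasurePreserving.ae hf.2
    exact h

theorem K1_uni_mul {f g : X → ℂ} (hf : Uni f) (hg : Uni g) : Uni (fun x => f x * g x) := by
  refine ⟨hf.1.mul hg.1, ?_⟩
  filter_upwards [hf.2, hg.2] with x h1 h2
  rw [norm_mul, h1, h2, one_mul]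

theorem K1_uni_conj {f : X → ℂ} (hf : Uni f) : Uni (fun x => conj (f x)) := by
  refine ⟨Complex.continuous_conj.comp_aestronglyMeasurable hf.1, ?_⟩
  filter_upwards [hf.2] with x h1
  rw [RCLike.norm_conj, h1]

theorem K1_e_norm (n : ℤ) (x : X) : ‖e n x‖ = 1 := by
  unfold e
  rw [fourier_apply]
  exact Circle.norm_coe _

theorem K1_uni_e (n : ℤ) : Uni (e n) :=
  ⟨(fourier n).continuous.aestronglyMeasurable, Eventually.of_forall (K1_e_norm n)⟩

theorem K1_conj_mul {z : ℂ} (h : ‖z‖ = 1) : conj z * z = 1 := by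
  rw [mul_comm, Complex.mul_conj, Complex.normSq_eq_norm_sq, h]
  norm_num

theorem K1_memLp {f : X → ℂ} (hf : Uni f) : MemLp f 2 mu :=
  MemLp.of_bound hf.1 1 (hf.2.mono fun _ hx => hx.le)

theorem K1_memLp_mul {w f : X → ℂ} (hw : Uni w) (hf : MemLp f 2 mu) :
    MemLp (fun x => w x * f x) 2 mu := by
  refine MemLp.congr_norm hf (hw.1.mul hf.1) ?_
  filter_upwards [hw.2] with x hx
  rw [norm_mul, hx, one_mul]

theorem K1_memLp_tr {f : X → ℂ} (hf : MemLp f 2 mu) (g : X) :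
    MemLp (fun x => f (x + g)) 2 mu :=
  hf.comp_measurePreserving (K1_mp g)

theorem K1_inner (a b : L2) : ⟪a, b⟫_ℂ = ∫ x, conj ((a : X → ℂ) x) * (b : X → ℂ) x ∂mu := by
  rw [L2.inner_def]
  apply integral_congr_ae
  filter_upwards with x
  rw [RCLike.inner_apply]
  ring

/-- the adjoint of the weighted rotation -/
theorem K1_adj (w : X → ℂ) (g : X) (a h h' a' : L2)
    (hh : (h' : X → ℂ) =ᵐ[mu] fun x => w x * h (x + g))
    (ha : (a' : X → ℂ) =ᵐ[mu] fun x => conj (w (x + -g)) * a (x + -g)) :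
    ⟪a, h'⟫_ℂ = ⟪a', h⟫_ℂ := by
  rw [K1_inner, K1_inner]
  have h1 : ∫ x, conj ((a : X → ℂ) x) * (h' : X → ℂ) x ∂mu
      = ∫ x, (fun y => conj ((a : X → ℂ) (y + -g)) * (w (y + -g) * (h : X → ℂ) y)) (x + g)
        ∂mu := by
    apply integral_congr_ae
    filter_upwards [hh] with x hx
    simp only [add_neg_cancel_right]
    rw [hx]
  rw [h1, integral_add_right_eq_self
    (fun y => conj ((a : X → ℂ) (y + -g)) * (w (y + -g) * (h : X → ℂ) y)) g]
  apply integral_congr_ae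
  filter_upwards [ha] with x hx
  rw [hx, map_mul, Complex.conj_conj]
  ring

/-- the generating pieces -/
def K1_P (Ψ : X → ℂ) (Q : ℕ) (p : L2) : Prop :=
  ∃ ω : X, Q • ω = 0 ∧ An (fun x => conj (Ψ (x + ω)) * p x)

/-- their closed span, as a double annihilator -/
def K1_S (Ψ : X → ℂ) (Q : ℕ) : Submodule ℂ L2 where
  carrier := {f | ∀ a : L2, (∀ p : L2, K1_P Ψ Q p → ⟪a, p⟫_ℂ = 0) → ⟪a, f⟫_ℂ = 0}
  add_mem' := by
    intro f g hf hg a ha
    rw [inner_add_right, hf a ha, hg a ha, add_zero]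
  zero_mem' := by
    intro a _
    rw [inner_zero_right]
  smul_mem' := by
    intro c f hf a ha
    rw [inner_smul_right, hf a ha, mul_zero]

theorem K1_mem {Ψ : X → ℂ} {Q : ℕ} {f : L2} : f ∈ K1_S Ψ Q ↔
    ∀ a : L2, (∀ p : L2, K1_P Ψ Q p → ⟪a, p⟫_ℂ = 0) → ⟪a, f⟫_ℂ = 0 := Iff.rfl

theorem K1_closed (Ψ : X → ℂ) (Q : ℕ) : IsClosed (K1_S Ψ Q : Set L2) := by
  have h : (K1_S Ψ Q : Set L2) =
      ⋂ (a : L2) (_ : ∀ p : L2, K1_P Ψ Q p → ⟪a, p⟫_ℂ = 0), {f : L2 | ⟪a, f⟫_ℂ = 0} := by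
    ext f
    simp only [Set.mem_iInter, Set.mem_ofPred_eq, SetLike.mem_coe]
    exact K1_mem
  rw [h]
  refine isClosed_iInter fun a => isClosed_iInter fun _ => ?_
  exact isClosed_eq (continuous_const.inner continuous_id) continuous_const

theorem K1_P_mem {Ψ : X → ℂ} {Q : ℕ} {f : L2} (h : K1_P Ψ Q f) : f ∈ K1_S Ψ Q :=
  fun _ ha => ha f h

/-- an invariance of the pieces is an invariance of the span -/
theorem K1_inv (Ψ : X → ℂ) (Q : ℕ) (w : X → ℂ) (g : X) (hw : Uni w)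
    (hP : ∀ p p' : L2, K1_P Ψ Q p → ((p' : X → ℂ) =ᵐ[mu] fun x => w x * p (x + g)) →
      K1_P Ψ Q p')
    (h h' : L2) (hh : h ∈ K1_S Ψ Q)
    (he : (h' : X → ℂ) =ᵐ[mu] fun x => w x * h (x + g)) : h' ∈ K1_S Ψ Q := by
  rw [K1_mem]
  intro a ha
  have hm : MemLp (fun x => conj (w (x + -g)) * a (x + -g)) 2 mu :=
    K1_memLp_mul (K1_uni_conj (K1_uni_tr hw (-g))) (K1_memLp_tr (Lp.memLp a) (-g))
  have ha' : ((hm.toLp _ : L2) : X → ℂ) =ᵐ[mu] fun x => conj (w (x + -g)) * a (x + -g) :=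
    hm.coeFn_toLp
  rw [K1_adj w g a h h' (hm.toLp _) he ha']
  apply hh
  intro p hp
  have hm2 : MemLp (fun x => w x * p (x + g)) 2 mu :=
    K1_memLp_mul hw (K1_memLp_tr (Lp.memLp p) g)
  have hp' : ((hm2.toLp _ : L2) : X → ℂ) =ᵐ[mu] fun x => w x * p (x + g) := hm2.coeFn_toLp
  rw [← K1_adj w g a p (hm2.toLp _) (hm.toLp _) hp' ha']
  exact ha _ (hP p _ hp hp')

theorem K1_coeff_e (m n : ℤ) (h : n ≠ m) : fourierCoeff (e m) n = 0 := by
  unfold fourierCoeff e
  have h1 : ∀ t : X, fourier (-n) t • fourier m t = fourier (m - n) t := by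
    intro t
    rw [smul_eq_mul, ← fourier_add, show -n + m = m - n by ring]
  simp only [h1]
  exact integral_eq_zero_of_add_right_eq_neg
    (fourier_add_half_inv_index (sub_ne_zero.mpr (Ne.symm h)) Fact.out)

theorem K1_coeff_e_self (m : ℤ) : fourierCoeff (e m) m = 1 := by
  unfold fourierCoeff e
  have h1 : ∀ t : X, fourier (-m) t • fourier m t = 1 := by
    intro t
    rw [smul_eq_mul, ← fourier_add]
    simp
  simp only [h1]
  simp

theorem K1_an_one : An (fun _ => (1 : ℂ)) := by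
  have h : (fun _ : X => (1 : ℂ)) = e 0 := by
    funext x
    simp [e]
  rw [h]
  intro n hn
  exact K1_coeff_e 0 n hn.ne

theorem K1_an_unit {ψ : X → ℂ} (h : Uni ψ) : An (fun x => conj (ψ x) * ψ x) := by
  refine K1_an_congr ?_ K1_an_one
  filter_upwards [h.2] with x hx
  exact (K1_conj_mul hx).symm

theorem K1_an_e_mul {f : X → ℂ} (hf : An f) : An (fun x => e 1 x * f x) := by
  intro n hn
  have h := hf (n - 1) (by omega)
  rw [← h]
  unfold fourierCoeff e
  apply integral_congr_ae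
  filter_upwards with t
  simp only [smul_eq_mul]
  rw [← mul_assoc, ← fourier_add]
  congr 3
  ring

theorem K1_an_e_mul' {f : X → ℂ} {a : X → ℂ} (hf : An f)
    (h : a =ᵐ[mu] fun x => e 1 x * f x) : An a :=
  K1_an_congr h.symm (K1_an_e_mul hf)

theorem t_K1 (hBH1 : S_BH1) (hBH2 : S_BH2) (h1 : S_H1) (h2 : S_H2) (h5 : S_H5) : S_K1 := by
  intro D Ψ Q _hQ hD hDa hΨ hcoc
  set S := K1_S Ψ Q with hS
  -- invariance under multiplication by z
  have hz : ZInv S 1 := by
    intro f hf h he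
    refine K1_inv Ψ Q (e 1) 0 (K1_uni_e 1) ?_ f h hf ?_
    · rintro p p' ⟨ω, hω, hp⟩ hp'
      refine ⟨ω, hω, K1_an_e_mul' hp ?_⟩
      filter_upwards [hp'] with x hx
      rw [hx, add_zero]
      ring
    · simpa only [add_zero] using he
  -- invariance under rotations
  have hrot : ∀ ω₀ : X, Q • ω₀ = 0 → ∀ h h' : L2, h ∈ S →
      ((h' : X → ℂ) =ᵐ[mu] fun x => h (x + ω₀)) → h' ∈ S := by
    intro ω₀ hω₀ h h' hh he
    refine K1_inv Ψ Q (fun _ => 1) ω₀ ⟨aestronglyMeasurable_const, by simp⟩ ?_ h h' hh ?_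
    · rintro p p' ⟨ω, hω, hp⟩ hp'
      refine ⟨ω₀ + ω, by rw [smul_add, hω, hω₀, add_zero], ?_⟩
      refine K1_an_congr ?_ (h2 _ ω₀ hp)
      filter_upwards [hp'] with x hx
      rw [hx, one_mul, add_assoc]
    · filter_upwards [he] with x hx
      rw [hx, one_mul]
  -- the multiplier property
  have hmult : ∀ h : L2, h ∈ S → An (fun x => D x * (h x * conj (Ψ x))) := by
    intro h hh n hn
    have hu : Uni (fun x => conj (e (-n) x) * (conj (D x) * Ψ x)) :=
      K1_uni_mul (K1_uni_conj (K1_uni_e (-n))) (K1_uni_mul (K1_uni_conj hD) hΨ)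
    have hm := K1_memLp hu
    have hc : ∀ p : L2, ⟪(hm.toLp _ : L2), p⟫_ℂ =
        fourierCoeff (fun x => D x * (p x * conj (Ψ x))) n := by
      intro p
      rw [K1_inner]
      unfold fourierCoeff
      apply integral_congr_ae
      filter_upwards [hm.coeFn_toLp] with x hx
      rw [hx]
      simp only [map_mul, Complex.conj_conj, smul_eq_mul]
      unfold e
      ring
    rw [← hc h]
    apply hh
    rintro p ⟨ω, hω, hp⟩
    rw [hc p]
    have hu2 : Uni (fun x => D x * Ψ (x + ω) * conj (Ψ x)) :=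
      K1_uni_mul (K1_uni_mul hD (K1_uni_tr hΨ ω)) (K1_uni_conj hΨ)
    have hbd : Bd (fun x => D x * Ψ (x + ω) * conj (Ψ x)) :=
      ⟨hu2.1, 1, hu2.2.mono fun x hx => hx.le⟩
    have h3 := (h1 (fun x => conj (Ψ (x + ω)) * p x) _
      (K1_memLp_mul (K1_uni_conj (K1_uni_tr hΨ ω)) (Lp.memLp p)) hp hbd (hcoc ω hω)).2
    refine K1_an_congr ?_ h3 n hn
    filter_upwards [(K1_uni_tr hΨ ω).2] with x hx
    have h4 := K1_conj_mul hx
    calc conj (Ψ (x + ω)) * p x * (D x * Ψ (x + ω) * conj (Ψ x))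
        = (conj (Ψ (x + ω)) * Ψ (x + ω)) * (D x * (p x * conj (Ψ x))) := by ring
      _ = D x * (p x * conj (Ψ x)) := by rw [h4, one_mul]
  -- membership of Ψ
  have hΨS : ∀ f : L2, ((f : X → ℂ) =ᵐ[mu] Ψ) → f ∈ S := by
    intro f hf
    apply K1_P_mem
    refine ⟨0, smul_zero _, K1_an_congr ?_ (K1_an_unit hΨ)⟩
    filter_upwards [hf] with x hx
    rw [hx, add_zero]
  -- S is not doubly invariant
  have hnz : ¬ ZInv S (-1) := by
    intro hz'
    obtain ⟨E, _hE, hmem⟩ := hBH1 S (K1_closed Ψ Q) hz hz'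
    have hm := K1_memLp hΨ
    have h3 := (hmem (hm.toLp _)).1 (hΨS _ hm.coeFn_toLp)
    have hE : ∀ᵐ x ∂mu, x ∈ E := by
      filter_upwards [h3, hm.coeFn_toLp, hΨ.2] with x hx hx2 hx3
      by_contra hcon
      have h4 := hx hcon
      rw [hx2] at h4
      rw [h4, norm_zero] at hx3
      exact zero_ne_one hx3
    have hu : Uni (fun x => conj (D x) * (Ψ x * e (-1) x)) :=
      K1_uni_mul (K1_uni_conj hD) (K1_uni_mul hΨ (K1_uni_e (-1)))
    have hm2 := K1_memLp hu
    have h4 : (hm2.toLp _ : L2) ∈ S := by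
      rw [hmem]
      filter_upwards [hE] with x hx hx2
      exact absurd hx hx2
    have h5 := hmult _ h4
    have h6 : An (e (-1)) := by
      refine K1_an_congr ?_ h5
      filter_upwards [hm2.coeFn_toLp, hD.2, hΨ.2] with x hx hx1 hx2
      rw [hx]
      have h7 := K1_conj_mul hx1
      have h8 := K1_conj_mul hx2
      calc D x * (conj (D x) * (Ψ x * e (-1) x) * conj (Ψ x))
          = (conj (D x) * D x) * (conj (Ψ x) * Ψ x) * e (-1) x := by ring
        _ = e (-1) x := by rw [h7, h8, one_mul, one_mul]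
    have h7 := h6 (-1) (by norm_num)
    rw [K1_coeff_e_self] at h7
    exact one_ne_zero h7
  obtain ⟨ψ, hψ, hmem⟩ := hBH2 S (K1_closed Ψ Q) hz hnz
  have hψm := K1_memLp hψ
  have hψS : (hψm.toLp _ : L2) ∈ S := by
    rw [hmem]
    refine K1_an_congr ?_ (K1_an_unit hψ)
    filter_upwards [hψm.coeFn_toLp] with x hx
    rw [hx]
  refine ⟨ψ, fun x => conj (ψ x) * Ψ x, fun x => conj (Ψ x) * (D x * ψ x), hψ,
    K1_uni_mul (K1_uni_conj hψ) hΨ, ?_, K1_uni_mul (K1_uni_conj hΨ) (K1_uni_mul hD hψ), ?_,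
    ?_, ?_, ?_⟩
  · have hm := K1_memLp hΨ
    refine K1_an_congr ?_ ((hmem _).1 (hΨS (hm.toLp _) hm.coeFn_toLp))
    filter_upwards [hm.coeFn_toLp] with x hx
    rw [hx]
  · refine K1_an_congr ?_ (hmult _ hψS)
    filter_upwards [hψm.coeFn_toLp] with x hx
    rw [hx]
    ring
  · filter_upwards [hψ.2, hΨ.2] with x hx1 hx2
    have h7 := K1_conj_mul hx1
    have h8 := K1_conj_mul hx2
    calc conj (ψ x) * Ψ x * (conj (Ψ x) * (D x * ψ x))
        = (conj (ψ x) * ψ x) * (conj (Ψ x) * Ψ x) * D x := by ring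
      _ = D x := by rw [h7, h8, one_mul, one_mul]
  · filter_upwards [hψ.2] with x hx1
    have h7 := K1_conj_mul hx1
    calc Ψ x = (conj (ψ x) * ψ x) * Ψ x := by rw [h7, one_mul]
      _ = ψ x * (conj (ψ x) * Ψ x) := by ring
  · intro ω₀ hω₀
    have key : ∀ ω : X, Q • ω = 0 → An (fun x => conj (ψ x) * ψ (x + ω)) := by
      intro ω hω
      have hm := K1_memLp (K1_uni_tr hψ ω)
      have h3 : (hm.toLp _ : L2) ∈ S := by
        refine hrot ω hω (hψm.toLp _) _ hψS ?_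
        filter_upwards [hm.coeFn_toLp,
          (K1_mp ω).quasiMeasurePreserving.ae hψm.coeFn_toLp] with x hx hx2
        rw [hx, hx2]
      refine K1_an_congr ?_ ((hmem _).1 h3)
      filter_upwards [hm.coeFn_toLp] with x hx
      rw [hx]
    have ha := key ω₀ hω₀
    have hb := key (-ω₀) (by rw [smul_neg, hω₀, neg_zero])
    have hb' := h2 _ ω₀ hb
    obtain ⟨c, _hc, hcc⟩ := h5 (fun x => conj (ψ x) * ψ (x + ω₀))
      (K1_uni_mul (K1_uni_conj hψ) (K1_uni_tr hψ ω₀)) ha (by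
        refine K1_an_congr ?_ hb'
        filter_upwards with x
        simp only [map_mul, Complex.conj_conj, add_neg_cancel_right]
        ring)
    refine ⟨c, ?_⟩
    filter_upwards [hcc, hψ.2] with x hx hx1
    have h7 := K1_conj_mul hx1
    rw [← hx]
    calc ψ (x + ω₀) = (conj (ψ x) * ψ x) * ψ (x + ω₀) := by rw [h7, one_mul]
      _ = conj (ψ x) * ψ (x + ω₀) * ψ x := by ring

end

end Pool.Agent.H460U
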