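import Pool.Agent.H460U.TR.Defs

set_option autoImplicit false

open MeasureTheory Complex Filter
open scoped ComplexConjugate Matrix Topology InnerProductSpace

namespace Pool.Agent.H460U

noncomputable section

private theorem k2_shift {P : X → Prop} (h : ∀ᵐ x ∂mu, P x) (a : X) : ∀ᵐ x ∂mu, P (x + a) :=
  (measurePreserving_add_right mu a).quasiMeasurePreserving.ae h

private theorem k2_e_add (n : ℤ) (x y : X) : e n (x + y) = e n x * e n y := by
  unfold e
  rw [fourier_apply, fourier_apply, fourier_apply, smul_add, AddCircle.toCircle_add]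
  simp

private theorem k2_e_neg (n : ℤ) (x : X) : e n x * e (-n) x = 1 := by
  unfold e
  rw [← fourier_add]
  simp

private theorem k2_norm_e (n : ℤ) (x : X) : ‖e n x‖ = 1 := by
  unfold e
  rw [fourier_apply]
  simp

theorem t_K2 (hK3 : S_K3) : S_K2 := by
  intro ψ Q hQ hψ h
  have hQ0 : (Q : ℝ) ≠ 0 := by positivity
  set w1 : X := ((1 / (Q : ℝ) : ℝ) : X) with hw1
  have hQw : Q • w1 = 0 := by
    rw [hw1, ← AddCircle.coe_nsmul, nsmul_eq_mul, mul_one_div_cancel hQ0]
    exact AddCircle.coe_period 1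
  obtain ⟨c, hc⟩ := h w1 hQw
  have hiter : ∀ j : ℕ, ∀ᵐ x ∂mu, ψ (x + j • w1) = c ^ j * ψ x := by
    intro j
    induction j with
    | zero => simp
    | succ j ih =>
      have h1 := k2_shift hc (j • w1)
      filter_upwards [ih, h1] with x hx1 hx2
      rw [succ_nsmul, ← add_assoc, hx2, hx1, pow_succ]
      ring
  have hne : ∀ᵐ x ∂mu, ψ x ≠ 0 := by
    filter_upwards [hψ.2] with x hx h0
    rw [h0] at hx
    simp at hx
  have hcQ : c ^ Q = 1 := by
    have h1 := hiter Q
    rw [hQw] at h1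
    obtain ⟨x, hx1, hx2⟩ := (h1.and hne).exists
    rw [add_zero] at hx1
    have : (c ^ Q - 1) * ψ x = 0 := by rw [sub_mul, ← hx1]; ring
    rcases mul_eq_zero.1 this with h2 | h2
    · linear_combination h2
    · exact absurd h2 hx2
  haveI : NeZero Q := ⟨hQ.ne'⟩
  obtain ⟨s, _, hs⟩ := (Complex.isPrimitiveRoot_exp Q hQ.ne').eq_pow_of_pow_eq_one hcQ
  have hes : e s w1 = c := by
    unfold e
    rw [hw1, fourier_coe_apply, ← hs, ← Complex.exp_nat_mul]
    congr 1
    push_cast
    field_simp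
  have hes' : e (-s) w1 = c⁻¹ := by
    have := k2_e_neg s w1
    rw [hes] at this
    exact eq_inv_of_mul_eq_one_right this
  have hc0 : c ≠ 0 := by
    intro h0
    rw [h0, zero_pow hQ.ne'] at hcQ
    exact zero_ne_one hcQ
  have hej : ∀ j : ℕ, e (-s) (j • w1) = (c⁻¹) ^ j := by
    intro j
    induction j with
    | zero => simp [e]
    | succ j ih => rw [succ_nsmul, k2_e_add, ih, hes', pow_succ]
  have hem : AEStronglyMeasurable (fun x : X => e (-s) x) mu :=
    (fourier (-(s : ℤ))).continuous.aestronglyMeasurable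
  obtain ⟨F, hF, hF2⟩ := hK3 (fun x => ψ x * e (-s) x) Q hQ
    ⟨hψ.1.mul hem, by
      filter_upwards [hψ.2] with x hx
      rw [norm_mul, hx, k2_norm_e, one_mul]⟩
    (by
      intro w hw
      obtain ⟨m, _, hm⟩ := (AddCircle.nsmul_eq_zero_iff hQ).1 hw
      have hwm : w = m • w1 := by
        rw [← hm, hw1, ← AddCircle.coe_nsmul]
        congr 1
        rw [nsmul_eq_mul]; ring
      filter_upwards [hiter m] with x hx
      rw [hwm, hx, k2_e_add, hej]
      have : c ^ m * (c⁻¹) ^ m = 1 := by rw [← mul_pow, mul_inv_cancel₀ hc0, one_pow]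
      calc c ^ m * ψ x * (e (-s) x * c⁻¹ ^ m) = (c ^ m * c⁻¹ ^ m) * (ψ x * e (-s) x) := by ring
        _ = _ := by rw [this, one_mul])
  refine ⟨s, F, hF, ?_⟩
  filter_upwards [hF2] with x hx
  rw [← hx]
  have := k2_e_neg s x
  calc ψ x = ψ x * (e s x * e (-s) x) := by rw [this, mul_one]
    _ = _ := by ring

end

end Pool.Agent.H460U
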