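import Pool.Agent.H460U.TR.Defs

set_option autoImplicit false

open MeasureTheory Complex Filter
open scoped ComplexConjugate Matrix Topology InnerProductSpace

namespace Pool.Agent.H460U

noncomputable section

set_option maxHeartbeats 400000

/-- the measurable section of `x ↦ Q • x` -/
def k3sec (Q : ℕ) (y : X) : X := ((((AddCircle.measurableEquivIco (1:ℝ) 0 y : ℝ)) / (Q : ℝ) : ℝ) : X)

theorem k3sec_meas (Q : ℕ) : Measurable (k3sec Q) := by
  unfold k3sec
  have h1 : Measurable fun y : X => ((AddCircle.measurableEquivIco (1:ℝ) 0 y : ℝ)) :=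
    measurable_subtype_coe.comp (AddCircle.measurableEquivIco (1:ℝ) 0).measurable
  have h2 : Measurable fun r : ℝ => ((r : ℝ) : X) := AddCircle.measurable_mk'
  exact h2.comp (h1.div_const _)

theorem k3sec_spec (Q : ℕ) (hQ : 0 < Q) (y : X) : Q • k3sec Q y = y := by
  unfold k3sec
  rw [← AddCircle.coe_nsmul]
  have hQ' : (Q : ℝ) ≠ 0 := by exact_mod_cast hQ.ne'
  have : Q • ((AddCircle.measurableEquivIco (1:ℝ) 0 y : ℝ) / (Q : ℝ)) =
      (AddCircle.measurableEquivIco (1:ℝ) 0 y : ℝ) := by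
    rw [nsmul_eq_mul]
    field_simp
  rw [this]
  exact (AddCircle.equivIco (1:ℝ) 0).symm_apply_apply y

theorem k3_ae (p : X → Prop) (hp : ∀ᵐ x ∂mu, p x) (ω : X) : ∀ᵐ x ∂mu, p (x + ω) := by
  have h : MeasurePreserving (fun x : X => x + ω) mu mu := measurePreserving_add_right mu ω
  exact h.quasiMeasurePreserving.tendsto_ae.eventually hp

theorem k3_rep (f : X → ℂ) (hf : Uni f) : ∃ f0 : X → ℂ, Measurable f0 ∧ (∀ x, ‖f0 x‖ = 1) ∧
    ∀ᵐ x ∂mu, f x = f0 x := by
  obtain ⟨hfm, hf1⟩ := hf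
  obtain ⟨f1, hf1m, hff1⟩ := hfm
  have hf1m' : Measurable f1 := hf1m.measurable
  refine ⟨fun x => if ‖f1 x‖ = 1 then f1 x else 1,
    Measurable.ite (measurableSet_eq_fun hf1m'.norm measurable_const) hf1m' measurable_const,
    ?_, ?_⟩
  · intro x
    simp only
    split_ifs with h
    · exact h
    · simp
  · filter_upwards [hff1, hf1] with x h1 h2
    rw [← h1, if_pos h2]

theorem k3_fin (Q : ℕ) (hQ : 0 < Q) : {ω : X | Q • ω = 0}.Countable :=
  (AddCircle.finite_torsion (1:ℝ) hQ).countable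

theorem t_K3 : S_K3 := by
  intro f Q hQ hf hinv
  obtain ⟨f0, hf0m, hf0n, hff0⟩ := k3_rep f hf
  have hall : ∀ᵐ x ∂mu, ∀ ω ∈ {ω : X | Q • ω = 0}, f0 (x + ω) = f x := by
    rw [ae_ball_iff (k3_fin Q hQ)]
    intro ω hω
    have h1 := hinv ω hω
    have h2 := k3_ae (fun x => f x = f0 x) hff0 ω
    filter_upwards [h1, h2] with x a b
    exact b.symm.trans a
  refine ⟨fun y => f0 (k3sec Q y), ⟨(hf0m.comp (k3sec_meas Q)).aestronglyMeasurable,
    Filter.Eventually.of_forall fun y => hf0n _⟩, ?_⟩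
  filter_upwards [hall] with x hx
  have hw : Q • (k3sec Q (Q • x) - x) = 0 := by
    have := k3sec_spec Q hQ (Q • x)
    rw [nsmul_sub, this, sub_self]
  have h3 := hx (k3sec Q (Q • x) - x) hw
  have h4 : x + (k3sec Q (Q • x) - x) = k3sec Q (Q • x) := by abel
  rw [h4] at h3
  exact h3.symm

end

end Pool.Agent.H460U
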