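import Mathlib

/-! Project TR (helper460): MP_56c4bc_an, a proper transitive algebra containing the bilateral shift.
All steps are Props `S_<ID>`; a task `<ID>` proves `theorem t_<ID> (hypotheses) : S_<ID>`. -/

set_option autoImplicit false

open MeasureTheory Complex Filter
open scoped ComplexConjugate Matrix Topology InnerProductSpace

namespace Pool.Agent.H460U

noncomputable section

abbrev X := UnitAddCircle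
abbrev mu : Measure X := AddCircle.haarAddCircle
abbrev M2 := Matrix (Fin 2) (Fin 2) ℂ
abbrev L2 := Lp ℂ 2 mu

/-- the character `z^n` of the circle -/
def e (n : ℤ) (x : X) : ℂ := fourier n x

/-- unimodular measurable functions -/
def Uni (f : X → ℂ) : Prop := AEStronglyMeasurable f mu ∧ ∀ᵐ x ∂mu, ‖f x‖ = 1

/-- bounded measurable functions -/
def Bd (f : X → ℂ) : Prop := AEStronglyMeasurable f mu ∧ ∃ C : ℝ, ∀ᵐ x ∂mu, ‖f x‖ ≤ C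

/-- analytic functions: the negative Fourier coefficients vanish -/
def An (f : X → ℂ) : Prop := ∀ n : ℤ, n < 0 → fourierCoeff f n = 0

/-- the Blaschke factor with zero `1/2` -/
def bl (x : X) : ℂ := (e 1 x - 1 / 2) / (1 - 1 / 2 * e 1 x)

def Vm : M2 := !![((Real.sqrt (3/8) : ℝ) : ℂ), -((Real.sqrt (5/8) : ℝ) : ℂ);
  ((Real.sqrt (5/8) : ℝ) : ℂ), ((Real.sqrt (3/8) : ℝ) : ℂ)]

/-- the polynomial loops -/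
def ell : ℕ → ℂ → M2
  | 0, ξ => !![(1 + ξ) / 2, (1 - ξ) / 2; (1 - ξ) / 2, (1 + ξ) / 2]
  | (n + 1), ξ => (Vm * ell n ξ * Vmᵀ) * (Vmᵀ * ell n ξ * Vm) * ell n ξ *
      (Vmᵀ * ell n ξ * Vm) * (Vm * ell n ξ * Vmᵀ)

/-- half of the trace of the loop -/
def ta (n : ℕ) (ξ : ℂ) : ℂ := (ell n ξ 0 0 + ell n ξ 1 1) / 2

/-- the square root of `bl ^ (5^n)` which makes the loop close to the identity -/
def tt (n : ℕ) (x : X) : ℂ :=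
  if ta n (bl x) = 0 then 1 else ta n (bl x) / ((‖ta n (bl x)‖ : ℝ) : ℂ)

/-- distance of the normalised loop from the identity -/
def dist1 (n : ℕ) : ℝ :=
  ∫ x : X, ∑ i : Fin 2, ∑ j : Fin 2,
    ‖(tt n x)⁻¹ * ell n (bl x) i j - (1 : M2) i j‖ ^ 2 ∂mu

/-- the parameters -/
structure Par (ν N : ℕ → ℕ) : Prop where
  zero : N 0 = 1
  dvd : ∀ k, 2 * N k ∣ N (k + 1)
  pos : ∀ k, 0 < N k
  growth : ∀ k, 2 ^ k * (∑ j ∈ Finset.range k, 5 ^ (ν j) * N j * 20) ≤ N k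
  small : ∀ k, dist1 (ν k) ≤ (1 / 4 : ℝ) ^ k

def PP (ν N : ℕ → ℕ) : ℕ → X → M2
  | 0, _ => 1
  | (k + 1), x => ell (ν k) (bl (N k • x)) * PP ν N k x

def TT (ν N : ℕ → ℕ) : ℕ → X → ℂ
  | 0, _ => 1
  | (k + 1), x => tt (ν k) (N k • x) * TT ν N k x

def DD (ν N : ℕ → ℕ) : ℕ → X → ℂ
  | 0, _ => 1
  | (k + 1), x => bl (N k • x) ^ (5 ^ (ν k)) * DD ν N k x

/-- the weight of the rotation operator -/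
def ww (ν N : ℕ → ℕ) (k : ℕ) (g x : X) : ℂ :=
  DD ν N k x * TT ν N k (x + g) * (TT ν N k x)⁻¹

/-- the properties of the limit function `Φ` -/
structure IsPhi (ν N : ℕ → ℕ) (Φ : X → M2) : Prop where
  meas : ∀ i j, AEStronglyMeasurable (fun x => Φ x i j) mu
  unit : ∀ᵐ x ∂mu, (Φ x)ᴴ * Φ x = 1
  inv : ∀ k : ℕ, ∀ g : X, N k • g = 0 → ∀ᵐ x ∂mu,
    ww ν N k g x • Φ (x + g) = Φ x * ((PP ν N k x).adjugate * PP ν N k (x + g))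

/-- membership of a pair in the space `G = Φ H²(C²)` -/
def GP (Φ : X → M2) (f g : L2) : Prop :=
  ∀ j : Fin 2, An (fun x => conj (Φ x 0 j) * f x + conj (Φ x 1 j) * g x)

/-- the algebra of operators `A` such that `A ⊕ A` leaves `G` invariant -/
def InA (Φ : X → M2) (A : L2 →L[ℂ] L2) : Prop := ∀ f g : L2, GP Φ f g → GP Φ (A f) (A g)

/-! ### Hardy space basics -/

def S_H1 : Prop := ∀ f g : X → ℂ, MemLp f 2 mu → An f → Bd g → An g →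
  (MemLp (fun x => f x * g x) 2 mu ∧ An (fun x => f x * g x))

def S_H2 : Prop := ∀ (f : X → ℂ) (g : X), An f → An (fun x => f (x + g))

def S_H3 : Prop := ∀ (f : X → ℂ) (N : ℕ), 0 < N → Bd f →
  (∀ n : ℤ, fourierCoeff (fun x : X => f (N • x)) (N * n) = fourierCoeff f n) ∧
  (∀ m : ℤ, ¬ ((N : ℤ) ∣ m) → fourierCoeff (fun x : X => f (N • x)) m = 0)

def S_H4 : Prop := Continuous bl ∧ (∀ x, ‖bl x‖ = 1) ∧ An bl ∧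
  (∀ x y : X, ‖bl x - bl y‖ ≤ 20 * ‖x - y‖)

def S_H5 : Prop := ∀ f : X → ℂ, Uni f → An f → An (fun x => conj (f x)) →
  ∃ c : ℂ, ‖c‖ = 1 ∧ ∀ᵐ x ∂mu, f x = c

/-! ### Beurling - Helson - Wiener -/

def ZInv (M : Submodule ℂ L2) (n : ℤ) : Prop :=
  ∀ f ∈ M, ∀ h : L2, (h : X → ℂ) =ᵐ[mu] (fun x => e n x * f x) → h ∈ M

def S_BH1 : Prop := ∀ M : Submodule ℂ L2, IsClosed (M : Set L2) → ZInv M 1 → ZInv M (-1) →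
  ∃ E : Set X, MeasurableSet E ∧ ∀ f : L2, f ∈ M ↔ ∀ᵐ x ∂mu, x ∉ E → f x = 0

def S_BH2 : Prop := ∀ M : Submodule ℂ L2, IsClosed (M : Set L2) → ZInv M 1 → ¬ ZInv M (-1) →
  ∃ φ : X → ℂ, Uni φ ∧ ∀ f : L2, f ∈ M ↔ An (fun x => conj (φ x) * f x)

/-! ### structure of cocycles -/

/-- span lemma -/
def S_K1 : Prop := ∀ (D Ψ : X → ℂ) (Q : ℕ), 0 < Q → Uni D → An D → Uni Ψ →
  (∀ ω : X, Q • ω = 0 → An (fun x => D x * Ψ (x + ω) * conj (Ψ x))) →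
  ∃ ψ B C : X → ℂ, Uni ψ ∧ Uni B ∧ An B ∧ Uni C ∧ An C ∧ (∀ᵐ x ∂mu, B x * C x = D x) ∧
    (∀ᵐ x ∂mu, Ψ x = ψ x * B x) ∧
    (∀ ω : X, Q • ω = 0 → ∃ c : ℂ, ∀ᵐ x ∂mu, ψ (x + ω) = c * ψ x)

def S_K2 : Prop := ∀ (ψ : X → ℂ) (Q : ℕ), 0 < Q → Uni ψ →
  (∀ ω : X, Q • ω = 0 → ∃ c : ℂ, ∀ᵐ x ∂mu, ψ (x + ω) = c * ψ x) →
  ∃ (σ : ℤ) (F : X → ℂ), Uni F ∧ ∀ᵐ x ∂mu, ψ x = e σ x * F (Q • x)

/-- a function invariant under rotation by the Q-th roots of unity is a function of `z^Q` -/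
def S_K3 : Prop := ∀ (f : X → ℂ) (Q : ℕ), 0 < Q → Uni f →
  (∀ ω : X, Q • ω = 0 → ∀ᵐ x ∂mu, f (x + ω) = f x) →
  ∃ F : X → ℂ, Uni F ∧ ∀ᵐ x ∂mu, f x = F (Q • x)

/-- inner divisors of `bl ^ m` -/
def S_DIV : Prop := ∀ (B C : X → ℂ) (m : ℕ), Uni B → An B → Uni C → An C →
  (∀ᵐ x ∂mu, B x * C x = bl x ^ m) →
  ∃ (i : ℕ) (c : ℂ), i ≤ m ∧ ‖c‖ = 1 ∧ ∀ᵐ x ∂mu, B x = c * bl x ^ i

def S_RED : Prop := ∀ (Θ : X → ℂ) (N : ℕ) (p : Polynomial ℂ), Uni Θ → 0 < N →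
  p.natDegree < N → p.coeff 0 ≠ 0 → An (fun x => Θ (N • x) * p.eval (e 1 x)) → An Θ

/-- the representation of `T_k φ` -/
def Rep (ν N : ℕ → ℕ) (φ : X → ℂ) (k : ℕ) : Prop :=
  ∃ (s : ℤ) (Ψ : X → ℂ) (i : ℕ → ℕ), Uni Ψ ∧ (∀ j, i j ≤ 5 ^ (ν j)) ∧
    ∀ᵐ x ∂mu, TT ν N k x * φ x =
      e s x * Ψ (N k • x) * ∏ j ∈ Finset.range k, bl (N j • x) ^ (i j)

/-- the scalar invariance condition -/
def Inv1 (ν N : ℕ → ℕ) (φ : X → ℂ) : Prop :=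
  ∀ (k : ℕ) (g : X), N k • g = 0 → An (fun x => ww ν N k g x * φ (x + g) * conj (φ x))

def S_STEP : Prop := ∀ ν N, Par ν N → ∀ φ, Uni φ → Inv1 ν N φ → ∀ k, Rep ν N φ k →
  Rep ν N φ (k + 1)

/-! ### the loops -/

def S_E1 : Prop := ∀ n (ξ : ℂ), (ell n ξ)ᵀ = ell n ξ ∧ (ell n ξ).det = ξ ^ (5 ^ n) ∧
  ta (n + 1) ξ = (15 * ta n ξ * (ξ ^ (5 ^ n)) ^ 2 - 10 * (ta n ξ) ^ 3 * ξ ^ (5 ^ n)
    + 3 * (ta n ξ) ^ 5) / 8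

def S_E2 : Prop := ∀ n (ξ : ℂ), ‖ξ‖ = 1 → (ell n ξ)ᴴ * ell n ξ = 1

def S_E3 : Prop := ∀ n, ∃ p : Fin 2 → Fin 2 → Polynomial ℂ, ∀ i j ξ, ell n ξ i j = (p i j).eval ξ

def S_E4 : Prop := ∀ n (ξ : ℂ), ‖ξ‖ = 1 → (ta n ξ) ^ 2 = (‖ta n ξ‖ : ℂ) ^ 2 * ξ ^ (5 ^ n) ∧
  ‖ta n ξ‖ ≤ 1 ∧
  ‖ta (n + 1) ξ‖ = (15 * ‖ta n ξ‖ - 10 * ‖ta n ξ‖ ^ 3 + 3 * ‖ta n ξ‖ ^ 5) / 8

def S_E5 : Prop := Tendsto (fun n => ∫ x : X, ‖ta n (bl x)‖ ∂mu) atTop (𝓝 1)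

def S_E6 : Prop := ∀ n, Uni (tt n) ∧ ∀ᵐ x ∂mu, (tt n x) ^ 2 = bl x ^ (5 ^ n)

def S_E7 : Prop := ∀ ε : ℝ, 0 < ε → ∃ n, dist1 n ≤ ε

def S_PAR : Prop := ∃ ν N, Par ν N

/-! ### the function Φ -/

/-- unimodularity of `T_k`, `D_k`, and `T_k^2 = D_k` -/
def S_TD : Prop := ∀ ν N, (∀ k, 0 < N k) → ∀ k, Uni (TT ν N k) ∧
  Continuous (DD ν N k) ∧ (∀ x, ‖DD ν N k x‖ = 1) ∧ An (DD ν N k) ∧
  (∀ᵐ x ∂mu, (TT ν N k x) ^ 2 = DD ν N k x) ∧ (∀ x, (PP ν N k x).det = DD ν N k x) ∧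
  (∀ x, (PP ν N k x)ᴴ * PP ν N k x = 1)

def S_PHI : Prop := ∀ ν N, Par ν N → ∃ Φ : X → M2, IsPhi ν N Φ

/-- the entries of `adj(P_k) P_k(. + g)` are bounded analytic -/
def S_PAN : Prop := ∀ ν N, (∀ k, 0 < N k) → ∀ k (g : X) (i j : Fin 2),
  Continuous (fun x => ((PP ν N k x).adjugate * PP ν N k (x + g)) i j) ∧
  An (fun x => ((PP ν N k x).adjugate * PP ν N k (x + g)) i j)

/-! ### operators -/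

def S_OP : Prop := ∀ (w : X → ℂ) (g : X), Uni w → ∃ A : L2 →L[ℂ] L2,
  ∀ f : L2, (A f : X → ℂ) =ᵐ[mu] fun x => w x * f (x + g)

/-- the coefficients are continuous linear functionals -/
def S_GL : Prop := ∀ Φ : X → M2, (∀ i j, AEStronglyMeasurable (fun x => Φ x i j) mu) →
  (∀ᵐ x ∂mu, (Φ x)ᴴ * Φ x = 1) → ∀ (j : Fin 2) (n : ℤ), ∃ a b : L2, ∀ f g : L2,
    fourierCoeff (fun x => conj (Φ x 0 j) * f x + conj (Φ x 1 j) * g x) n =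
      ⟪a, f⟫_ℂ + ⟪b, g⟫_ℂ

/-- the rotation operators are in the algebra -/
def S_AG : Prop := ∀ ν N Φ, Par ν N → IsPhi ν N Φ → ∀ (k : ℕ) (g : X), N k • g = 0 →
  ∀ A : L2 →L[ℂ] L2, (∀ f : L2, (A f : X → ℂ) =ᵐ[mu] fun x => ww ν N k g x * f (x + g)) →
  InA Φ A

/-- `U` is in the algebra, its inverse is not -/
def S_AU : Prop := ∀ Φ : X → M2, (∀ i j, AEStronglyMeasurable (fun x => Φ x i j) mu) →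
  (∀ᵐ x ∂mu, (Φ x)ᴴ * Φ x = 1) →
  (∀ A : L2 →L[ℂ] L2, (∀ f : L2, (A f : X → ℂ) =ᵐ[mu] fun x => e 1 x * f x) → InA Φ A) ∧
  (∀ A : L2 →L[ℂ] L2, (∀ f : L2, (A f : X → ℂ) =ᵐ[mu] fun x => e (-1) x * f x) → ¬ InA Φ A)

/-- sets invariant under the rotations are null or conull -/
def S_ERG : Prop := ∀ N : ℕ → ℕ, N 0 = 1 → (∀ k, 0 < N k) → (∀ k, 2 * N k ∣ N (k + 1)) →
  ∀ E : Set X, MeasurableSet E →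
  (∀ k (g : X), N k • g = 0 → ∀ᵐ x ∂mu, (x + g ∈ E ↔ x ∈ E)) → mu E = 0 ∨ mu Eᶜ = 0

/-! ### the contradiction -/

def S_KA : Prop := ∃ (v v' : ℝ → ℝ) (C : ℝ), (∀ t, HasDerivAt v (v' t) t) ∧ Continuous v' ∧
  0 < C ∧ (∀ t, |v' t| ≤ C) ∧ 3 ≤ v (1 / 4) - v (-1 / 4) ∧
  ∀ t : ℝ, bl (t : X) = Complex.exp (I * (v t : ℂ)) * bl ((t : X) + ((1 / 2 : ℝ) : X))

def S_KAP : Prop := ∃ κ : ℝ, 0 < κ ∧ ∀ a : ℤ, a ≠ 0 →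
  κ ≤ ∫ x : X, ‖(bl (x + ((1 / 2 : ℝ) : X)) / bl x) ^ (2 * a) - 1‖ ^ 2 ∂mu

/-- continuity of translation -/
def S_TC : Prop := ∀ F : X → ℂ, Uni F → ∀ g : ℕ → X, Tendsto g atTop (𝓝 0) →
  Tendsto (fun k => ∫ x : X, ‖F (x + g k) - F x‖ ^ 2 ∂mu) atTop (𝓝 0)

/-- the exact form of `φ²(x+g)/φ²(x)` and its approximation -/
def S_FA : Prop := ∀ ν N, Par ν N → ∀ φ, Uni φ → (∀ k, Rep ν N φ k) → ∀ k : ℕ,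
  ∃ (a : ℤ) (c : ℂ), a ≠ 0 ∧ ‖c‖ = 1 ∧ ∀ᵐ x ∂mu,
    ‖(φ (x + ((1 / (2 * (N k : ℝ)) : ℝ) : X))) ^ 2 -
      c * (bl (N k • x + ((1 / 2 : ℝ) : X)) / bl (N k • x)) ^ a * (φ x) ^ 2‖ ≤ (1 / 2 : ℝ) ^ k

def S_CON : Prop := ∀ ν N, Par ν N → ∀ φ, Uni φ → (∀ k, Rep ν N φ k) → False

/-- no scalar invariant function -/
def S_NO : Prop := ∀ ν N, Par ν N → ∀ φ, Uni φ → Inv1 ν N φ → False

/-- the algebra is transitive -/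
def S_TRA : Prop := ∀ ν N Φ, Par ν N → IsPhi ν N Φ → ∀ M : Submodule ℂ L2,
  IsClosed (M : Set L2) → (∀ A : L2 →L[ℂ] L2, InA Φ A → ∀ f ∈ M, A f ∈ M) → M = ⊥ ∨ M = ⊤

/-- the theorem on `L²` of the circle -/
def S_L2 : Prop := ∃ (Alg : Subalgebra ℂ (L2 →L[ℂ] L2)) (U V : L2 →L[ℂ] L2),
  (∀ f : L2, (U f : X → ℂ) =ᵐ[mu] fun x => e 1 x * f x) ∧
  (∀ f : L2, (V f : X → ℂ) =ᵐ[mu] fun x => e (-1) x * f x) ∧ U ∈ Alg ∧ V ∉ Alg ∧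
  (∀ T : L2 →L[ℂ] L2, (∀ (F : Finset (L2 × L2)) (ε : ℝ), 0 < ε →
    ∃ S ∈ Alg, ∀ p ∈ F, ‖⟪(T - S) p.1, p.2⟫_ℂ‖ < ε) → T ∈ Alg) ∧
  (∀ M : Submodule ℂ L2, IsClosed (M : Set L2) → (∀ A ∈ Alg, ∀ f ∈ M, A f ∈ M) →
    M = ⊥ ∨ M = ⊤)

/-- the Hilbert space of the problem -/
abbrev lZ := lp (fun _ : ℤ => ℂ) 2

/-- the final statement -/
def S_FINAL : Prop := ∃ (Alg : Subalgebra ℂ (lZ →L[ℂ] lZ)) (U : lZ →L[ℂ] lZ),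
  (∀ n : ℤ, U (lp.single 2 n (1 : ℂ)) = lp.single 2 (n + 1) (1 : ℂ)) ∧ U ∈ Alg ∧
  (∀ T : lZ →L[ℂ] lZ, (∀ (F : Finset (lZ × lZ)) (ε : ℝ), 0 < ε →
    ∃ S ∈ Alg, ∀ p ∈ F, ‖⟪(T - S) p.1, p.2⟫_ℂ‖ < ε) → T ∈ Alg) ∧
  (∀ M : Submodule ℂ lZ, IsClosed (M : Set lZ) → (∀ A ∈ Alg, ∀ f ∈ M, A f ∈ M) →
    M = ⊥ ∨ M = ⊤) ∧ Alg ≠ ⊤

end

end Pool.Agent.H460U
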