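import Mathlib
import Pool.Agent.H460U.TR.Defs

/-!
Task KA (helper804, for the project of helper460): the phase of `bl x / bl (x + 1/2)`.
With `z = exp (2 π i t)`, `(1 - conj z / 2) (1 + z / 2) = 3/4 + i sin (2 π t)`, so the quotient is
`exp (i (- π + 2 arctan (4/3 sin (2 π t))))`.
-/

set_option autoImplicit false

open MeasureTheory Complex Filter
open scoped ComplexConjugate Matrix Topology InnerProductSpace

namespace Pool.Agent.H460U

theorem KA_e (t : ℝ) : e 1 (t : X) = Complex.exp (((2 * Real.pi * t : ℝ) : ℂ) * I) := by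
  unfold e
  rw [fourier_coe_apply]
  congr 1
  push_cast
  ring

theorem KA_e2 (t : ℝ) : e 1 ((t : X) + ((1 / 2 : ℝ) : X))
    = - Complex.exp (((2 * Real.pi * t : ℝ) : ℂ) * I) := by
  have h1 : (t : X) + ((1 / 2 : ℝ) : X) = ((t + 1 / 2 : ℝ) : X) := (AddCircle.coe_add 1 t _).symm
  rw [h1, KA_e]
  have h2 : ((2 * Real.pi * (t + 1 / 2) : ℝ) : ℂ) * I
      = ((2 * Real.pi * t : ℝ) : ℂ) * I + Real.pi * I := by
    push_cast
    ring
  rw [h2, Complex.exp_add, Complex.exp_pi_mul_I]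
  ring

theorem KA_arctan (x : ℝ) :
    Complex.exp (I * ((-Real.pi + 2 * Real.arctan x : ℝ) : ℂ)) * (1 - x * I) = - (1 + x * I) := by
  have hc : Real.cos (Real.arctan x) ≠ 0 := (Real.cos_arctan_pos x).ne'
  have hs : Real.sin (Real.arctan x) = x * Real.cos (Real.arctan x) := by
    rw [← Real.tan_mul_cos hc, Real.tan_arctan]
  have h1 : Complex.exp ((Real.arctan x : ℂ) * I)
      = (Real.cos (Real.arctan x) : ℂ) * (1 + x * I) := by
    rw [Complex.exp_mul_I, ← Complex.ofReal_cos, ← Complex.ofReal_sin, hs]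
    push_cast
    ring
  have h2 : Complex.exp (-((Real.arctan x : ℂ) * I))
      = (Real.cos (Real.arctan x) : ℂ) * (1 - x * I) := by
    rw [← neg_mul, ← Complex.ofReal_neg, Complex.exp_mul_I, ← Complex.ofReal_cos,
      ← Complex.ofReal_sin, Real.cos_neg, Real.sin_neg, hs]
    push_cast
    ring
  have h3 : Complex.exp (I * ((-Real.pi + 2 * Real.arctan x : ℝ) : ℂ))
      * Complex.exp (-((Real.arctan x : ℂ) * I)) = - Complex.exp ((Real.arctan x : ℂ) * I) := by
    rw [← Complex.exp_add]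
    have h4 : I * ((-Real.pi + 2 * Real.arctan x : ℝ) : ℂ) + -((Real.arctan x : ℂ) * I)
        = -(Real.pi * I) + (Real.arctan x : ℂ) * I := by
      push_cast
      ring
    rw [h4, Complex.exp_add, Complex.exp_neg, Complex.exp_pi_mul_I]
    norm_num
  rw [h1, h2] at h3
  have hc' : (Real.cos (Real.arctan x) : ℂ) ≠ 0 := by exact_mod_cast hc
  refine mul_left_cancel₀ hc' ?_
  linear_combination h3

theorem KA_ne (z : ℂ) (hz : ‖z‖ = 1) : 1 - 1 / 2 * z ≠ 0 := by
  intro h
  have h1 : z = 2 := by linear_combination -2 * h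
  rw [h1] at hz
  norm_num at hz

theorem t_KA : S_KA := by
  refine ⟨fun t => -Real.pi + 2 * Real.arctan (4 / 3 * Real.sin (2 * Real.pi * t)),
    fun t => 2 * (1 / (1 + (4 / 3 * Real.sin (2 * Real.pi * t)) ^ 2)
      * (4 / 3 * (Real.cos (2 * Real.pi * t) * (2 * Real.pi * 1)))),
    16 * Real.pi / 3, ?_, ?_, by positivity, ?_, ?_, ?_⟩
  · intro t
    exact ((((((hasDerivAt_id t).const_mul (2 * Real.pi)).sin).const_mul (4 / 3)).arctan).const_mul
      2).const_add (-Real.pi)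
  · have h1 : ∀ t : ℝ, 1 + (4 / 3 * Real.sin (2 * Real.pi * t)) ^ 2 ≠ 0 := fun t => by positivity
    refine continuous_const.mul (Continuous.mul ?_ (by fun_prop))
    exact continuous_const.div (by fun_prop) h1
  · intro t
    have h1 : |(1 : ℝ) / (1 + (4 / 3 * Real.sin (2 * Real.pi * t)) ^ 2)| ≤ 1 := by
      rw [abs_of_pos (by positivity), div_le_one (by positivity)]
      nlinarith [sq_nonneg (4 / 3 * Real.sin (2 * Real.pi * t))]
    have h2 := Real.abs_cos_le_one (2 * Real.pi * t)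
    have hpi := Real.pi_pos
    rw [abs_mul, abs_mul, abs_mul, abs_mul, abs_of_pos (show (0 : ℝ) < 2 by norm_num),
      abs_of_pos (show (0 : ℝ) < 4 / 3 by norm_num),
      abs_of_pos (show (0 : ℝ) < 2 * Real.pi * 1 by positivity)]
    have h3 : |Real.cos (2 * Real.pi * t)| * (2 * Real.pi * 1) ≤ 1 * (2 * Real.pi * 1) :=
      mul_le_mul_of_nonneg_right h2 (by positivity)
    have h4 : (4 / 3 : ℝ) * (|Real.cos (2 * Real.pi * t)| * (2 * Real.pi * 1))
        ≤ 4 / 3 * (1 * (2 * Real.pi * 1)) := by linarith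
    have h5 := mul_le_mul h1 h4 (by positivity) zero_le_one
    calc _ ≤ 2 * (1 * (4 / 3 * (1 * (2 * Real.pi * 1)))) := by linarith
      _ = 16 * Real.pi / 3 := by ring
  · have h1 : (2 * Real.pi * (1 / 4) : ℝ) = Real.pi / 2 := by ring
    have h2 : (2 * Real.pi * (-1 / 4) : ℝ) = -(Real.pi / 2) := by ring
    have h3 : Real.pi / 4 ≤ Real.arctan (4 / 3) := by
      rw [← Real.arctan_one]
      exact Real.arctan_mono (by norm_num)
    have h4 : Real.arctan (4 / 3 * (-1)) = - Real.arctan (4 / 3) := by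
      rw [mul_neg_one, Real.arctan_neg]
    change 3 ≤ (-Real.pi + 2 * Real.arctan (4 / 3 * Real.sin (2 * Real.pi * (1 / 4))))
      - (-Real.pi + 2 * Real.arctan (4 / 3 * Real.sin (2 * Real.pi * (-1 / 4))))
    rw [h1, h2, Real.sin_neg, Real.sin_pi_div_two, h4, mul_one]
    have := Real.pi_gt_three
    linarith
  · intro t
    set θ : ℝ := 2 * Real.pi * t with hθ
    have hz : ‖Complex.exp ((θ : ℂ) * I)‖ = 1 := Complex.norm_exp_ofReal_mul_I θ
    have hA := KA_arctan (4 / 3 * Real.sin θ)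
    unfold bl
    rw [KA_e, KA_e2, ← hθ]
    have hexp : Complex.exp ((θ : ℂ) * I) = (Real.cos θ : ℂ) + (Real.sin θ : ℂ) * I := by
      rw [Complex.exp_mul_I, Complex.ofReal_cos, Complex.ofReal_sin]
    set z : ℂ := Complex.exp ((θ : ℂ) * I) with hzdef
    have hn1 : 1 - 1 / 2 * z ≠ 0 := KA_ne z hz
    have hn2 : 1 - 1 / 2 * -z ≠ 0 := KA_ne (-z) (by rw [norm_neg, hz])
    have hn3 : (1 : ℂ) - ((4 / 3 * Real.sin θ : ℝ) : ℂ) * I ≠ 0 := by
      intro h
      have := congrArg Complex.re h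
      simp at this
    have hsq : (Real.cos θ : ℂ) ^ 2 + (Real.sin θ : ℂ) ^ 2 = 1 := by
      exact_mod_cast Real.cos_sq_add_sin_sq θ
    have hzz : z ^ 2 - 1 = 2 * (Real.sin θ : ℂ) * I * z := by
      rw [hexp]
      linear_combination hsq - ((Real.sin θ : ℂ) ^ 2) * Complex.I_sq
    have hE : Complex.exp (I * ((-Real.pi + 2 * Real.arctan (4 / 3 * Real.sin θ) : ℝ) : ℂ))
        = - (1 + ((4 / 3 * Real.sin θ : ℝ) : ℂ) * I) / (1 - ((4 / 3 * Real.sin θ : ℝ) : ℂ) * I) := by
      rw [eq_div_iff hn3]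
      exact hA
    change (z - 1 / 2) / (1 - 1 / 2 * z)
      = Complex.exp (I * ((-Real.pi + 2 * Real.arctan (4 / 3 * Real.sin θ) : ℝ) : ℂ))
        * ((-z - 1 / 2) / (1 - 1 / 2 * -z))
    rw [hE, div_mul_div_comm, div_eq_div_iff hn1 (mul_ne_zero hn3 hn2)]
    push_cast at hzz ⊢
    linear_combination hzz

end Pool.Agent.H460U
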