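import Pool.Agent.H460U.TR.Defs

set_option autoImplicit false

open MeasureTheory Complex Filter
open scoped ComplexConjugate Matrix Topology InnerProductSpace

namespace Pool.Agent.H460U

theorem kap_norm_e (x : X) : ‖e 1 x‖ = 1 := by
  unfold e
  rw [fourier_apply]
  exact Circle.norm_coe _

theorem kap_bl_ne (x : X) : bl x ≠ 0 := by
  have h := kap_norm_e x
  unfold bl
  refine div_ne_zero ?_ ?_
  · intro h0
    have h1 : e 1 x = 1 / 2 := by linear_combination h0
    rw [h1] at h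
    norm_num at h
  · intro h0
    have h1 : e 1 x = 2 := by linear_combination (-2 : ℂ) * h0
    rw [h1] at h
    norm_num at h

theorem kap_norm (θ : ℝ) : ‖Complex.exp ((θ : ℂ) * I) - 1‖ ^ 2 = 2 - 2 * Real.cos θ := by
  rw [Complex.sq_norm, Complex.normSq_apply]
  simp only [Complex.sub_re, Complex.sub_im, Complex.exp_ofReal_mul_I_re,
    Complex.exp_ofReal_mul_I_im, Complex.one_re, Complex.one_im]
  have := Real.sin_sq_add_cos_sq θ
  nlinarith

theorem kap_int (F : X → ℝ) : ∫ x : X, F x ∂mu = ∫ t in (-1 / 2 : ℝ)..(1 / 2 : ℝ), F (t : X) := by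
  have h1 := UnitAddCircle.intervalIntegral_preimage (-1 / 2 : ℝ) F
  have h2 : (volume : Measure X) = mu := by
    have := AddCircle.volume_eq_smul_haarAddCircle (T := (1 : ℝ))
    rw [ENNReal.ofReal_one, one_smul] at this
    exact this
  rw [h2] at h1
  rw [← h1]
  norm_num

theorem t_KAP (h : S_KA) : S_KAP := by
  obtain ⟨v, v', C, hv, hv'c, hC, hb, h3, hbl⟩ := h
  refine ⟨4 / C, by positivity, fun a ha => ?_⟩
  have hvc : Continuous v := continuous_iff_continuousAt.2 fun t => (hv t).continuousAt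
  have key : ∀ t : ℝ, ‖(bl ((t : X) + ((1 / 2 : ℝ) : X)) / bl (t : X)) ^ (2 * a) - 1‖ ^ 2 =
      2 - 2 * Real.cos (2 * a * v t) := by
    intro t
    have h1 : bl ((t : X) + ((1 / 2 : ℝ) : X)) / bl (t : X) =
        Complex.exp (-(I * (v t : ℂ))) := by
      rw [div_eq_iff (kap_bl_ne _), hbl t, ← mul_assoc, ← Complex.exp_add]
      simp
    rw [h1, ← Complex.exp_int_mul]
    have h2 : (((2 * a : ℤ) : ℂ)) * (-(I * (v t : ℂ))) = (((-(2 * a * v t) : ℝ)) : ℂ) * I := by
      push_cast
      ring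
    rw [h2, kap_norm, Real.cos_neg]
  rw [kap_int]
  simp only [key]
  have hcont : Continuous fun t => 2 - 2 * Real.cos (2 * a * v t) := by fun_prop
  have hnn : ∀ t, 0 ≤ 2 - 2 * Real.cos (2 * a * v t) := fun t => by
    have := Real.cos_le_one (2 * a * v t)
    linarith
  have i1 : ∫ t in (-1 / 4 : ℝ)..(1 / 4 : ℝ), (2 - 2 * Real.cos (2 * a * v t)) ≤
      ∫ t in (-1 / 2 : ℝ)..(1 / 2 : ℝ), (2 - 2 * Real.cos (2 * a * v t)) := by
    refine intervalIntegral.integral_mono_interval (by norm_num) (by norm_num) (by norm_num) ?_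
      (hcont.intervalIntegrable _ _)
    exact Filter.Eventually.of_forall hnn
  have hcont2 : Continuous fun t => (2 / C) * ((1 - Real.cos (2 * a * v t)) * v' t) := by fun_prop
  have i2 : ∫ t in (-1 / 4 : ℝ)..(1 / 4 : ℝ), (2 / C) * ((1 - Real.cos (2 * a * v t)) * v' t) ≤
      ∫ t in (-1 / 4 : ℝ)..(1 / 4 : ℝ), (2 - 2 * Real.cos (2 * a * v t)) := by
    refine intervalIntegral.integral_mono_on (by norm_num) (hcont2.intervalIntegrable _ _)
      (hcont.intervalIntegrable _ _) fun t _ => ?_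
    have h4 : v' t ≤ C := (le_abs_self _).trans (hb t)
    have h5 := hnn t
    have h6 : (1 - Real.cos (2 * a * v t)) * v' t ≤ (1 - Real.cos (2 * a * v t)) * C :=
      mul_le_mul_of_nonneg_left h4 (by linarith)
    calc (2 / C) * ((1 - Real.cos (2 * a * v t)) * v' t)
        ≤ (2 / C) * ((1 - Real.cos (2 * a * v t)) * C) :=
          mul_le_mul_of_nonneg_left h6 (by positivity)
      _ = 2 - 2 * Real.cos (2 * a * v t) := by field_simp
  have ha' : (2 * (a : ℝ)) ≠ 0 := by
    have : (a : ℝ) ≠ 0 := by exact_mod_cast ha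
    positivity
  have i3 : ∫ t in (-1 / 4 : ℝ)..(1 / 4 : ℝ), ((1 - Real.cos (2 * a * v t)) * v' t) =
      (v (1 / 4) - Real.sin (2 * a * v (1 / 4)) / (2 * a)) -
      (v (-1 / 4) - Real.sin (2 * a * v (-1 / 4)) / (2 * a)) := by
    refine intervalIntegral.integral_eq_sub_of_hasDerivAt
      (f := fun t => v t - Real.sin (2 * a * v t) / (2 * a)) (fun t _ => ?_) ?_
    · have d1 := hv t
      have d2 := ((d1.const_mul (2 * (a : ℝ))).sin).div_const (2 * (a : ℝ))
      have d3 := d1.sub d2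
      have e1 : v' t - Real.cos (2 * a * v t) * (2 * a * v' t) / (2 * a) =
          (1 - Real.cos (2 * a * v t)) * v' t := by
        rw [mul_div_assoc, mul_div_cancel_left₀ _ ha']
        ring
      rw [e1] at d3
      exact d3
    · exact Continuous.intervalIntegrable (by fun_prop) _ _
  rw [intervalIntegral.integral_const_mul, i3] at i2
  have hs1 := Real.abs_sin_le_one (2 * a * v (1 / 4))
  have hs2 := Real.abs_sin_le_one (2 * a * v (-1 / 4))
  have habs : (2 : ℝ) ≤ |2 * (a : ℝ)| := by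
    have h7 : (1 : ℝ) ≤ |(a : ℝ)| := by
      have : 1 ≤ |a| := Int.one_le_abs ha
      exact_mod_cast this
    rw [abs_mul, abs_two]
    linarith
  have hd : ∀ y : ℝ, |y| ≤ 1 → |y / (2 * (a : ℝ))| ≤ 1 / 2 := by
    intro y hy
    rw [abs_div, div_le_iff₀ (by linarith)]
    linarith
  have q1 := abs_le.1 (hd _ hs1)
  have q2 := abs_le.1 (hd _ hs2)
  have q3 : (4 : ℝ) / C ≤ 2 / C * ((v (1 / 4) - Real.sin (2 * a * v (1 / 4)) / (2 * a)) -
      (v (-1 / 4) - Real.sin (2 * a * v (-1 / 4)) / (2 * a))) := by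
    have : (4 : ℝ) / C = 2 / C * 2 := by ring
    rw [this]
    refine mul_le_mul_of_nonneg_left ?_ (by positivity)
    linarith [q1.1, q1.2, q2.1, q2.2]
  exact q3.trans (i2.trans i1)

end Pool.Agent.H460U
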