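import Mathlib
import Pool.Agent.H460U.TR.Defs

/-! Project TR (helper460), task L2: the theorem on the Hilbert space of the circle.
Written by helper656. -/

set_option autoImplicit false

open MeasureTheory Complex Filter
open scoped ComplexConjugate Matrix Topology InnerProductSpace

namespace Pool.Agent.H460U

noncomputable section

lemma L2x_uni (n : ℤ) : Uni (e n) := by
  refine ⟨?_, ?_⟩
  · have : Continuous (e n) := by
      unfold e
      exact (fourier n).continuous
    exact this.aestronglyMeasurable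
  · refine Filter.Eventually.of_forall fun x => ?_
    unfold e
    rw [fourier_apply]
    exact Circle.norm_coe _

theorem t_L2 (hPAR : S_PAR) (hPHI : S_PHI) (hGL : S_GL) (hAU : S_AU) (hOP : S_OP)
    (hTRA : S_TRA) : S_L2 := by
  classical
  obtain ⟨ν, N, hP⟩ := hPAR
  obtain ⟨Φ, hΦ⟩ := hPHI ν N hP
  choose a b hab using hGL Φ hΦ.meas hΦ.unit
  have hGP : ∀ f g : L2, GP Φ f g ↔ ∀ (j : Fin 2) (n : ℤ), n < 0 →
      ⟪a j n, f⟫_ℂ + ⟪b j n, g⟫_ℂ = 0 := by
    intro f g
    unfold GP An
    refine forall_congr' fun j => forall_congr' fun n => ?_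
    rw [hab]
  let Alg : Subalgebra ℂ (L2 →L[ℂ] L2) :=
    { carrier := {A | InA Φ A}
      mul_mem' := by
        intro A B hA hB f g h
        exact hA _ _ (hB f g h)
      add_mem' := by
        intro A B hA hB f g h
        have h1 := hA f g h
        have h2 := hB f g h
        rw [hGP] at h1 h2 ⊢
        intro j n hn
        rw [ContinuousLinearMap.add_apply, ContinuousLinearMap.add_apply, inner_add_right,
          inner_add_right]
        have e1 := h1 j n hn
        have e2 := h2 j n hn
        linear_combination e1 + e2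
      algebraMap_mem' := by
        intro r f g h
        rw [hGP] at h ⊢
        intro j n hn
        rw [Algebra.algebraMap_eq_smul_one]
        have h1 := h j n hn
        simp only [ContinuousLinearMap.smul_apply, ContinuousLinearMap.one_apply, inner_smul_right]
        linear_combination r * h1 }
  have hmem : ∀ A : L2 →L[ℂ] L2, A ∈ Alg ↔ InA Φ A := fun A => Iff.rfl
  obtain ⟨hU1, hV1⟩ := hAU Φ hΦ.meas hΦ.unit
  obtain ⟨U, hU⟩ := hOP (e 1) 0 (L2x_uni 1)
  obtain ⟨V, hV⟩ := hOP (e (-1)) 0 (L2x_uni (-1))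
  simp only [add_zero] at hU hV
  refine ⟨Alg, U, V, hU, hV, hU1 U hU, fun h => hV1 V hV h, ?_, ?_⟩
  · intro T hT
    rw [hmem]
    intro f g hfg
    rw [hGP]
    intro j n hn
    by_contra hc
    set z : ℂ := ⟪a j n, T f⟫_ℂ + ⟪b j n, T g⟫_ℂ with hz
    have hpos : 0 < ‖z‖ := norm_pos_iff.mpr hc
    obtain ⟨S, hS, hS2⟩ := hT {(f, a j n), (g, b j n)} (‖z‖ / 2) (by positivity)
    have h1 := hS2 (f, a j n) (by simp)
    have h2 := hS2 (g, b j n) (by simp)
    simp only at h1 h2
    rw [norm_inner_symm] at h1 h2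
    have h3 := hS f g hfg
    rw [hGP] at h3
    have h4 := h3 j n hn
    have h5 : z = ⟪a j n, (T - S) f⟫_ℂ + ⟪b j n, (T - S) g⟫_ℂ := by
      rw [hz, ContinuousLinearMap.sub_apply, ContinuousLinearMap.sub_apply, inner_sub_right,
        inner_sub_right]
      linear_combination h4
    have h6 : ‖z‖ ≤ ‖⟪a j n, (T - S) f⟫_ℂ‖ + ‖⟪b j n, (T - S) g⟫_ℂ‖ := by
      rw [h5]; exact norm_add_le _ _
    linarith
  · intro M hM hinv
    exact hTRA ν N Φ hP hΦ M hM (fun A hA f hf => hinv A hA f hf)

end

end Pool.Agent.H460U
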