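import Pool.Agent.H460U.TR.Defs

set_option autoImplicit false

open MeasureTheory Complex Filter
open scoped ComplexConjugate Matrix Topology InnerProductSpace

namespace Pool.Agent.H460U

theorem NO_rep0 (ν N : ℕ → ℕ) (h : Par ν N) (φ : X → ℂ) (hφ : Uni φ) : Rep ν N φ 0 := by
  refine ⟨0, φ, fun _ => 0, hφ, fun j => Nat.zero_le _, Filter.Eventually.of_forall fun x => ?_⟩
  simp [TT, e, h.zero]

/-- NO -/
theorem t_NO (h1 : S_STEP) (h2 : S_CON) : S_NO := by
  intro ν N hP φ hφ hI
  refine h2 ν N hP φ hφ fun k => ?_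
  induction k with
  | zero => exact NO_rep0 ν N hP φ hφ
  | succ k ih => exact h1 ν N hP φ hφ hI k ih

end Pool.Agent.H460U
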