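import Pool.Agent.H460U.TR.Defs

set_option autoImplicit false

open MeasureTheory Complex Filter
open scoped ComplexConjugate Matrix Topology InnerProductSpace

namespace Pool.Agent.H460U

noncomputable section

namespace OP_

theorem mp (g : X) : MeasurePreserving (fun x : X => x + g) mu mu :=
  measurePreserving_add_right mu g

theorem memlp {w : X → ℂ} (hw : Uni w) (g : X) (f : L2) :
    MemLp (fun x => w x * f (x + g)) 2 mu := by
  have h1 : MemLp (fun x => (f : X → ℂ) (x + g)) 2 mu :=
    (Lp.memLp f).comp_measurePreserving (mp g)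
  refine h1.congr_norm (hw.1.mul h1.1) ?_
  filter_upwards [hw.2] with x hx
  rw [norm_mul, hx, one_mul]

theorem elp {w : X → ℂ} (hw : Uni w) (g : X) (f : L2) :
    eLpNorm (fun x => w x * f (x + g)) 2 mu = eLpNorm (f : X → ℂ) 2 mu := by
  have h1 : eLpNorm (fun x => w x * f (x + g)) 2 mu =
      eLpNorm (fun x => (f : X → ℂ) (x + g)) 2 mu := by
    apply eLpNorm_congr_norm_ae
    filter_upwards [hw.2] with x hx
    rw [norm_mul, hx, one_mul]
  rw [h1]
  exact eLpNorm_comp_measurePreserving (Lp.aestronglyMeasurable f) (mp g)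

def lin {w : X → ℂ} (hw : Uni w) (g : X) : L2 →ₗ[ℂ] L2 where
  toFun f := (memlp hw g f).toLp _
  map_add' f h := by
    apply Lp.ext
    have e1 := (memlp hw g (f + h)).coeFn_toLp
    have e2 := (memlp hw g f).coeFn_toLp
    have e3 := (memlp hw g h).coeFn_toLp
    have e4 := Lp.coeFn_add ((memlp hw g f).toLp _) ((memlp hw g h).toLp _)
    have e5 := (mp g).quasiMeasurePreserving.ae (Lp.coeFn_add f h)
    filter_upwards [e1, e2, e3, e4, e5] with x a1 a2 a3 a4 a5
    rw [a4, Pi.add_apply, a1, a2, a3, a5, Pi.add_apply, mul_add]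
  map_smul' c f := by
    apply Lp.ext
    have e1 := (memlp hw g (c • f)).coeFn_toLp
    have e2 := (memlp hw g f).coeFn_toLp
    have e4 := Lp.coeFn_smul c ((memlp hw g f).toLp _)
    have e5 := (mp g).quasiMeasurePreserving.ae (Lp.coeFn_smul c f)
    filter_upwards [e1, e2, e4, e5] with x a1 a2 a4 a5
    rw [RingHom.id_apply, a4, Pi.smul_apply, a1, a2, a5, Pi.smul_apply, smul_eq_mul, smul_eq_mul]
    ring

end OP_

open OP_ in
theorem t_OP : S_OP := by
  intro w g hw
  refine ⟨(lin hw g).mkContinuous 1 ?_, ?_⟩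
  · intro f
    rw [one_mul]
    change ‖(memlp hw g f).toLp _‖ ≤ ‖f‖
    rw [Lp.norm_toLp, elp hw g f, ← Lp.norm_def]
  · intro f
    exact (memlp hw g f).coeFn_toLp

end

end Pool.Agent.H460U
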