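import Mathlib
import Pool.Agent.H460U.TR.Defs

set_option autoImplicit false

open MeasureTheory Complex Filter
open scoped ComplexConjugate Matrix Topology InnerProductSpace

namespace Pool.Agent.H460U

/-- continuous and analytic -/
def PAN_G (f : X → ℂ) : Prop := Continuous f ∧ An f

theorem PAN_bound (f : X → ℂ) (hf : Continuous f) : ∃ C : ℝ, ∀ x, ‖f x‖ ≤ C := by
  obtain ⟨C, hC⟩ := (isCompact_range (hf.norm)).bddAbove
  exact ⟨C, fun x => hC ⟨x, rfl⟩⟩

theorem PAN_bd (f : X → ℂ) (hf : Continuous f) : Bd f := by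
  obtain ⟨C, hC⟩ := PAN_bound f hf
  exact ⟨hf.aestronglyMeasurable, C, Eventually.of_forall hC⟩

theorem PAN_mem (f : X → ℂ) (hf : Continuous f) : MemLp f 2 mu := by
  obtain ⟨C, hC⟩ := PAN_bound f hf
  exact MemLp.of_bound hf.aestronglyMeasurable C (Eventually.of_forall hC)

theorem PAN_int (f : X → ℂ) (hf : Continuous f) : Integrable f mu := by
  obtain ⟨C, hC⟩ := PAN_bound f hf
  exact (memLp_one_iff_integrable).1
    (MemLp.of_bound hf.aestronglyMeasurable C (Eventually.of_forall hC))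

theorem PAN_one : An (fun _ => (1 : ℂ)) := by
  intro n hn
  have h : ∫ x : X, (fourier (-n) x : ℂ) ∂mu = 0 := by
    exact integral_eq_zero_of_add_right_eq_neg (μ := AddCircle.haarAddCircle)
      (fourier_add_half_inv_index (T := 1) (n := -n) (by omega) one_pos)
  unfold fourierCoeff
  simpa using h

theorem PAN_cmul (c : ℂ) (f : X → ℂ) (h : PAN_G f) : PAN_G (fun x => c * f x) := by
  refine ⟨continuous_const.mul h.1, fun n hn => ?_⟩
  have h1 := h.2 n hn
  unfold fourierCoeff at h1 ⊢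
  have e : ∀ t : X, (fourier (-n) t : ℂ) • (c * f t) = c * ((fourier (-n) t : ℂ) • f t) := by
    intro t
    simp only [smul_eq_mul]
    ring
  simp only [e]
  rw [integral_const_mul, h1, mul_zero]

theorem PAN_const (c : ℂ) : PAN_G (fun _ => c) := by
  have h := PAN_cmul c (fun _ => 1) ⟨continuous_const, PAN_one⟩
  simpa using h

theorem PAN_add (f g : X → ℂ) (hf : PAN_G f) (hg : PAN_G g) : PAN_G (fun x => f x + g x) := by
  refine ⟨hf.1.add hg.1, fun n hn => ?_⟩
  have h1 := hf.2 n hn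
  have h2 := hg.2 n hn
  unfold fourierCoeff at h1 h2 ⊢
  simp only [smul_add]
  rw [integral_add, h1, h2, add_zero]
  · exact PAN_int _ ((map_continuous (fourier (-n))).smul hf.1)
  · exact PAN_int _ ((map_continuous (fourier (-n))).smul hg.1)

theorem PAN_mul (h1 : S_H1) (f g : X → ℂ) (hf : PAN_G f) (hg : PAN_G g) :
    PAN_G (fun x => f x * g x) :=
  ⟨hf.1.mul hg.1, (h1 f g (PAN_mem f hf.1) hf.2 (PAN_bd g hg.1) hg.2).2⟩

theorem PAN_pow (h1 : S_H1) (f : X → ℂ) (hf : PAN_G f) (m : ℕ) : PAN_G (fun x => f x ^ m) := by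
  induction m with
  | zero => simpa using PAN_const 1
  | succ m ih =>
    have h := PAN_mul h1 (fun x => f x ^ m) f ih hf
    simpa only [pow_succ] using h

theorem PAN_poly (h1 : S_H1) (f : X → ℂ) (hf : PAN_G f) (p : Polynomial ℂ) :
    PAN_G (fun x => p.eval (f x)) := by
  induction p using Polynomial.induction_on' with
  | add p q hp hq =>
    have h := PAN_add _ _ hp hq
    simpa only [Polynomial.eval_add] using h
  | monomial n a =>
    have h := PAN_cmul a _ (PAN_pow h1 f hf n)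
    simpa only [Polynomial.eval_monomial] using h

theorem PAN_dil (h3 : S_H3) (f : X → ℂ) (hf : PAN_G f) (N : ℕ) (hN : 0 < N) :
    PAN_G (fun x : X => f (N • x)) := by
  refine ⟨hf.1.comp (continuous_const_smul N), ?_⟩
  intro n hn
  obtain ⟨ha, hb⟩ := h3 f N hN (PAN_bd f hf.1)
  by_cases hd : (N : ℤ) ∣ n
  · obtain ⟨j, rfl⟩ := hd
    rw [ha j]
    apply hf.2
    have hN' : (0 : ℤ) < N := by exact_mod_cast hN
    by_contra hj
    push Not at hj
    have := mul_nonneg hN'.le hj
    omega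
  · exact hb n hd

theorem PAN_PP (h1 : S_H1) (h3 : S_H3) (hE3 : S_E3) (hb : PAN_G bl) (ν N : ℕ → ℕ)
    (hN : ∀ k, 0 < N k) (k : ℕ) : ∀ i j : Fin 2, PAN_G (fun x => PP ν N k x i j) := by
  induction k with
  | zero =>
    intro i j
    exact PAN_const ((1 : M2) i j)
  | succ k ih =>
    intro i j
    obtain ⟨p, hp⟩ := hE3 (ν k)
    have he : ∀ a b : Fin 2, PAN_G (fun x : X => ell (ν k) (bl (N k • x)) a b) := by
      intro a b
      have h := PAN_dil h3 _ (PAN_poly h1 bl hb (p a b)) (N k) (hN k)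
      simpa only [hp] using h
    have e : (fun x => PP ν N (k + 1) x i j) = fun x : X =>
        ell (ν k) (bl (N k • x)) i 0 * PP ν N k x 0 j +
          ell (ν k) (bl (N k • x)) i 1 * PP ν N k x 1 j := by
      funext x
      show (ell (ν k) (bl (N k • x)) * PP ν N k x) i j = _
      rw [Matrix.mul_apply, Fin.sum_univ_two]
    rw [e]
    exact PAN_add _ _ (PAN_mul h1 _ _ (he i 0) (ih 0 j)) (PAN_mul h1 _ _ (he i 1) (ih 1 j))

theorem t_PAN (hE3 : S_E3) (hH1 : S_H1) (hH2 : S_H2) (hH3 : S_H3) (hH4 : S_H4) : S_PAN := by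
  intro ν N hN k g i j
  obtain ⟨hbc, -, hba, -⟩ := hH4
  have hP := PAN_PP hH1 hH3 hE3 ⟨hbc, hba⟩ ν N hN k
  have hT : ∀ a b : Fin 2, PAN_G (fun x => PP ν N k (x + g) a b) := by
    intro a b
    exact ⟨(hP a b).1.comp (continuous_add_const g), hH2 _ g (hP a b).2⟩
  have hA : ∀ a b : Fin 2, PAN_G (fun x => (PP ν N k x).adjugate a b) := by
    intro a b
    simp only [Matrix.adjugate_fin_two]
    fin_cases a <;> fin_cases b
    · exact hP 1 1
    · have h := PAN_cmul (-1) _ (hP 0 1)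
      simpa using h
    · have h := PAN_cmul (-1) _ (hP 1 0)
      simpa using h
    · exact hP 0 0
  have e : (fun x => ((PP ν N k x).adjugate * PP ν N k (x + g)) i j) = fun x : X =>
      (PP ν N k x).adjugate i 0 * PP ν N k (x + g) 0 j +
        (PP ν N k x).adjugate i 1 * PP ν N k (x + g) 1 j := by
    funext x
    rw [Matrix.mul_apply, Fin.sum_univ_two]
  rw [e]
  exact PAN_add _ _ (PAN_mul hH1 _ _ (hA i 0) (hT 0 j)) (PAN_mul hH1 _ _ (hA i 1) (hT 1 j))

end Pool.Agent.H460U
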