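import Pool.Agent.H460U.TR.Defs

set_option autoImplicit false

open MeasureTheory Complex Filter
open scoped ComplexConjugate Matrix Topology InnerProductSpace

namespace Pool.Agent.H460U

/-- the parameters `N k` together with the partial sums of the growth condition -/
def PAR_pr (ν : ℕ → ℕ) : ℕ → ℕ × ℕ
  | 0 => (1, 0)
  | (k + 1) => (2 * (PAR_pr ν k).1 *
      (2 ^ (k + 1) * ((PAR_pr ν k).2 + 5 ^ (ν k) * (PAR_pr ν k).1 * 20) + 1),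
      (PAR_pr ν k).2 + 5 ^ (ν k) * (PAR_pr ν k).1 * 20)

theorem PAR_sum (ν : ℕ → ℕ) (k : ℕ) :
    ∑ j ∈ Finset.range k, 5 ^ (ν j) * (PAR_pr ν j).1 * 20 = (PAR_pr ν k).2 := by
  induction k with
  | zero => simp [PAR_pr]
  | succ k ih => rw [Finset.sum_range_succ, ih]; rfl

theorem PAR_pos (ν : ℕ → ℕ) (k : ℕ) : 0 < (PAR_pr ν k).1 := by
  induction k with
  | zero => exact Nat.one_pos
  | succ k ih => exact Nat.mul_pos (Nat.mul_pos two_pos ih) (Nat.succ_pos _)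

/-- PAR -/
theorem t_PAR (h : S_E7) : S_PAR := by
  have h1 : ∀ k : ℕ, ∃ n, dist1 n ≤ (1 / 4 : ℝ) ^ k := fun k => h _ (by positivity)
  choose ν hν using h1
  refine ⟨ν, fun k => (PAR_pr ν k).1, rfl, fun k => Dvd.intro _ rfl, PAR_pos ν, ?_, hν⟩
  intro k
  show 2 ^ k * (∑ j ∈ Finset.range k, 5 ^ (ν j) * (PAR_pr ν j).1 * 20) ≤ (PAR_pr ν k).1
  cases k with
  | zero => simp
  | succ k =>
    rw [PAR_sum]
    show 2 ^ (k + 1) * ((PAR_pr ν k).2 + 5 ^ (ν k) * (PAR_pr ν k).1 * 20) ≤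
      2 * (PAR_pr ν k).1 *
      (2 ^ (k + 1) * ((PAR_pr ν k).2 + 5 ^ (ν k) * (PAR_pr ν k).1 * 20) + 1)
    have h2 := PAR_pos ν k
    calc 2 ^ (k + 1) * ((PAR_pr ν k).2 + 5 ^ (ν k) * (PAR_pr ν k).1 * 20)
        ≤ 2 ^ (k + 1) * ((PAR_pr ν k).2 + 5 ^ (ν k) * (PAR_pr ν k).1 * 20) + 1 := Nat.le_succ _
      _ ≤ _ := Nat.le_mul_of_pos_left _ (by omega)

end Pool.Agent.H460U
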