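import Pool.Agent.H460U.TR.Defs

set_option autoImplicit false

open MeasureTheory Complex Filter
open scoped ComplexConjugate Matrix Topology InnerProductSpace

namespace Pool.Agent.H460U

theorem RED_mp (N : ℕ) (hN : 0 < N) : MeasurePreserving (fun x : X => N • x) mu mu := by
  have h := MeasureTheory.Measure.measurePreserving_zsmul (G := X) mu (n := (N : ℤ)) (by exact_mod_cast hN.ne')
  have e : (fun x : X => (N : ℤ) • x) = fun x : X => N • x := by
    funext x
    exact natCast_zsmul x N
  rwa [e] at h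

theorem RED_pow (l : ℕ) (x : X) : (e 1 x) ^ l = (fourier (l : ℤ) x : ℂ) := by
  unfold e
  induction l with
  | zero => simp
  | succ l ih => rw [pow_succ, ih, ← fourier_add]; push_cast; rfl

theorem RED_int (F : X → ℂ) (hF : Uni F) (n : ℤ) :
    Integrable (fun x => (fourier n x : ℂ) * F x) mu := by
  refine Integrable.of_bound ?_ 1 ?_
  · exact ((fourier n).continuous.aestronglyMeasurable).mul hF.1
  · filter_upwards [hF.2] with x hx
    rw [norm_mul, hx, mul_one, fourier_apply]
    exact (Circle.norm_coe _).le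

theorem RED_coeff (F : X → ℂ) (hF : Uni F) (p : Polynomial ℂ) (N : ℕ) (hp : p.natDegree < N)
    (m : ℤ) : fourierCoeff (fun x => F x * p.eval (e 1 x)) m =
      ∑ l ∈ Finset.range N, p.coeff l * fourierCoeff F (m - l) := by
  unfold fourierCoeff
  have h1 : ∀ x : X, (fourier (-m) x : ℂ) • (F x * p.eval (e 1 x)) =
      ∑ l ∈ Finset.range N, p.coeff l * ((fourier (-(m - l)) x : ℂ) * F x) := by
    intro x
    rw [Polynomial.eval_eq_sum_range' hp, smul_eq_mul, Finset.mul_sum, Finset.mul_sum]
    refine Finset.sum_congr rfl fun l _ => ?_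
    have h2 : (fourier (-(m - l)) x : ℂ) = (fourier (-m) x : ℂ) * (fourier (l : ℤ) x : ℂ) := by
      rw [← fourier_add]
      congr 1
      ring_nf
    rw [RED_pow, h2]
    ring
  simp only [h1]
  rw [integral_finsetSum]
  · refine Finset.sum_congr rfl fun l _ => ?_
    rw [integral_const_mul]
    rfl
  · intro l _
    exact (RED_int F hF _).const_mul _

/-- RED -/
theorem t_RED (h3 : S_H3) : S_RED := by
  intro Θ N p hΘ hN hp hp0 hA n hn
  have hmp := RED_mp N hN
  have hae := hmp.quasiMeasurePreserving.ae hΘ.2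
  have hF : Uni (fun x => Θ (N • x)) := ⟨hΘ.1.comp_measurePreserving hmp, hae⟩
  have hBd : Bd Θ := ⟨hΘ.1, 1, hΘ.2.mono fun x hx => hx.le⟩
  obtain ⟨a1, a2⟩ := h3 Θ N hN hBd
  have hm : (N : ℤ) * n < 0 := mul_neg_of_pos_of_neg (by exact_mod_cast hN) hn
  have h := hA ((N : ℤ) * n) hm
  rw [RED_coeff _ hF p N hp, Finset.sum_eq_single 0] at h
  · rw [Nat.cast_zero, sub_zero, a1 n] at h
    rcases mul_eq_zero.1 h with h | h
    · exact absurd h hp0
    · exact h
  · intro l hl hl0
    rw [a2, mul_zero]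
    intro hd
    have h1 : (N : ℤ) ∣ l := by
      have := (Int.dvd_mul_right (N : ℤ) n)
      have h2 := Int.dvd_sub this hd
      rwa [sub_sub_cancel] at h2
    have h2 : N ∣ l := by exact_mod_cast h1
    exact absurd (Nat.le_of_dvd (Nat.pos_of_ne_zero hl0) h2) (not_le.2 (Finset.mem_range.1 hl))
  · intro hh
    exact absurd (Finset.mem_range.2 hN) hh

end Pool.Agent.H460U
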