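import Pool.Agent.H460U.TR.Defs

/-! STEP: the representation of `T_{k+1} φ`. -/

set_option autoImplicit false

open MeasureTheory Complex Filter
open scoped ComplexConjugate Matrix Topology InnerProductSpace

namespace Pool.Agent.H460U

section STEP

theorem STEP_norm_e (n : ℤ) (x : X) : ‖e n x‖ = 1 := by
  unfold e
  rw [fourier_apply, Circle.norm_coe]

theorem STEP_cont_e (n : ℤ) : Continuous (e n) := by
  unfold e
  exact (fourier n).continuous

theorem STEP_e_add (n : ℤ) (x y : X) : e n (x + y) = e n x * e n y := by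
  unfold e
  rw [fourier_apply, fourier_apply, fourier_apply, smul_add, AddCircle.toCircle_add,
    Circle.coe_mul]

theorem STEP_e_add' (m n : ℤ) (x : X) : e (m + n) x = e m x * e n x := by
  unfold e
  exact fourier_add

theorem STEP_e_nsmul (n : ℤ) (k : ℕ) (x : X) : e n (k • x) = e (n * k) x := by
  unfold e
  rw [fourier_apply, fourier_apply, ← natCast_zsmul, smul_smul]

theorem STEP_e_pow (k : ℕ) (x : X) : e 1 (k • x) = (e 1 x) ^ k := by
  induction k with
  | zero => rw [zero_smul, pow_zero]; unfold e; simp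
  | succ k ih => rw [succ_nsmul, STEP_e_add, ih, pow_succ]

theorem STEP_mp (n : ℕ) (hn : 0 < n) : MeasurePreserving (fun x : X => n • x) mu mu := by
  have := MeasureTheory.Measure.measurePreserving_zsmul mu (n := (n : ℤ)) (by exact_mod_cast hn.ne')
  simpa [natCast_zsmul] using this

theorem STEP_ta (g : X) : MeasurePreserving (fun x : X => x + g) mu mu :=
  measurePreserving_add_right mu g

theorem STEP_div (n : ℕ) (hn : 0 < n) (w : X) : ∃ g : X, n • g = w := by
  induction w using QuotientAddGroup.induction_on with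
  | H r =>
    refine ⟨((r / n : ℝ) : X), ?_⟩
    rw [← AddCircle.coe_nsmul]
    congr 1
    rw [nsmul_eq_mul]
    field_simp

theorem STEP_Uni_cont {f : X → ℂ} (hf : Continuous f) (h1 : ∀ x, ‖f x‖ = 1) : Uni f :=
  ⟨hf.aestronglyMeasurable, ae_of_all _ h1⟩

theorem STEP_Uni_mul {f g : X → ℂ} (hf : Uni f) (hg : Uni g) : Uni (fun x => f x * g x) := by
  refine ⟨hf.1.mul hg.1, ?_⟩
  filter_upwards [hf.2, hg.2] with x h1 h2
  rw [norm_mul, h1, h2, mul_one]

theorem STEP_Uni_conj {f : X → ℂ} (hf : Uni f) : Uni (fun x => conj (f x)) := by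
  refine ⟨continuous_conj.comp_aestronglyMeasurable hf.1, ?_⟩
  filter_upwards [hf.2] with x h1
  rw [RCLike.norm_conj, h1]

theorem STEP_Uni_comp {f : X → ℂ} (hf : Uni f) {T : X → X} (hT : MeasurePreserving T mu mu) :
    Uni (fun x => f (T x)) := by
  refine ⟨hf.1.comp_measurePreserving hT, ?_⟩
  exact hT.quasiMeasurePreserving.ae (p := fun y => ‖f y‖ = 1) hf.2

theorem STEP_Uni_const {c : ℂ} (hc : ‖c‖ = 1) : Uni (fun _ => c) :=
  ⟨aestronglyMeasurable_const, ae_of_all _ (fun _ => hc)⟩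

theorem STEP_Uni_memLp {f : X → ℂ} (hf : Uni f) : MemLp f 2 mu := by
  refine MemLp.of_bound hf.1 1 ?_
  filter_upwards [hf.2] with x h
  exact h.le

theorem STEP_Uni_pow {f : X → ℂ} (hf : Uni f) (n : ℕ) : Uni (fun x => f x ^ n) := by
  induction n with
  | zero => simpa using STEP_Uni_const (c := 1) (by simp)
  | succ n ih =>
    simp only [pow_succ]
    exact STEP_Uni_mul ih hf

theorem STEP_Uni_prod {ι : Type*} (s : Finset ι) (f : ι → X → ℂ) (hf : ∀ i ∈ s, Uni (f i)) :
    Uni (fun x => ∏ i ∈ s, f i x) := by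
  classical
  induction s using Finset.induction_on with
  | empty => simpa using STEP_Uni_const (c := 1) (by simp)
  | insert a s ha ih =>
    simp only [Finset.prod_insert ha]
    exact STEP_Uni_mul (hf a (Finset.mem_insert_self a s))
      (ih (fun i hi => hf i (Finset.mem_insert_of_mem hi)))

theorem STEP_An_congr {f g : X → ℂ} (h : ∀ᵐ x ∂mu, f x = g x) (hf : An f) : An g := by
  intro n hn
  have := fourierCoeff_congr_ae (T := 1) (f := f) (g := g) h
  rw [← this]
  exact hf n hn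

theorem STEP_Bd_cont {f : X → ℂ} (hf : Continuous f) : Bd f := by
  refine ⟨hf.aestronglyMeasurable, ?_⟩
  obtain ⟨C, hC⟩ := (isCompact_univ (X := X)).exists_bound_of_continuousOn hf.continuousOn
  exact ⟨C, ae_of_all _ (fun x => hC x (Set.mem_univ x))⟩

theorem STEP_An_poly (p : Polynomial ℂ) : An (fun x => p.eval (e 1 x)) := by
  intro n hn
  have h1 : (fun x : X => p.eval (e 1 x)) =
      ∑ k ∈ Finset.range (p.natDegree + 1), (fun x : X => p.coeff k * e (k : ℤ) x) := by
    funext x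
    rw [Polynomial.eval_eq_sum_range, Finset.sum_apply]
    refine Finset.sum_congr rfl fun k _ => ?_
    rw [← STEP_e_pow, STEP_e_nsmul, one_mul]
  rw [h1, fourierCoeff.sum]
  · rw [Finset.sum_apply]
    refine Finset.sum_eq_zero fun k _ => ?_
    rw [fourierCoeff.const_mul]
    have h2 : fourierCoeff (fun x : X => e (k : ℤ) x) n = 0 := by
      have := fourierCoeff_fourier (T := 1) (k : ℤ)
      have h3 : (fun x : X => e (k : ℤ) x) = fourier (T := 1) (k : ℤ) := rfl
      rw [h3, this, Pi.single_apply, if_neg (by omega)]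
    rw [h2, mul_zero]
  · intro k _
    refine Continuous.integrable_of_hasCompactSupport ?_ ?_
    · exact continuous_const.mul (STEP_cont_e k)
    · exact HasCompactSupport.of_compactSpace _

theorem STEP_den (x : X) : (1 : ℂ) - 1 / 2 * e 1 x ≠ 0 := by
  intro h
  have h1 : (1 : ℂ) = 1 / 2 * e 1 x := by linear_combination h
  have h2 := congrArg norm h1
  rw [norm_mul, STEP_norm_e] at h2
  norm_num at h2

theorem STEP_bl (x : X) : bl x * (1 - 1 / 2 * e 1 x) = e 1 x - 1 / 2 := by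
  unfold bl
  rw [div_mul_cancel₀ _ (STEP_den x)]

theorem STEP_DD (ν N : ℕ → ℕ) (k : ℕ) (x : X) :
    DD ν N k x = ∏ j ∈ Finset.range k, bl (N j • x) ^ (5 ^ (ν j)) := by
  induction k with
  | zero => simp [DD]
  | succ k ih => rw [DD, ih, Finset.prod_range_succ, mul_comm]

theorem STEP_alg (b : ℂ) (hb : ‖b‖ = 1) (m i : ℕ) (h : i ≤ m) :
    b ^ m * conj (b ^ i) = b ^ (m - i) := by
  have h1 : b * conj b = 1 := by
    rw [Complex.mul_conj, Complex.normSq_eq_norm_sq, hb]; norm_num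
  obtain ⟨d, rfl⟩ := Nat.exists_eq_add_of_le h
  rw [map_pow, Nat.add_sub_cancel_left, pow_add]
  calc b ^ i * b ^ d * (conj b) ^ i = (b * conj b) ^ i * b ^ d := by rw [mul_pow]; ring
    _ = b ^ d := by rw [h1, one_pow, one_mul]

/-- the growth condition bounds the degree -/
theorem STEP_growth (ν N : ℕ → ℕ) (hP : Par ν N) (k : ℕ) :
    ∑ j ∈ Finset.range k, 5 ^ (ν j) * N j < N k := by
  have h := hP.growth k
  have hp := hP.pos k
  have h1 : ∑ j ∈ Finset.range k, 5 ^ (ν j) * N j * 20 =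
      20 * ∑ j ∈ Finset.range k, 5 ^ (ν j) * N j := by
    rw [Finset.mul_sum]
    exact Finset.sum_congr rfl fun j _ => by ring
  rw [h1] at h
  have h2 : 1 ≤ 2 ^ k := Nat.one_le_two_pow
  nlinarith [Nat.zero_le (∑ j ∈ Finset.range k, 5 ^ (ν j) * N j)]

theorem STEP_theta (ν N : ℕ → ℕ) (hP : Par ν N) (h1 : S_H1) (h4 : S_H4) (hTD : S_TD)
    (hRED : S_RED) (φ : X → ℂ) (_hφ : Uni φ) (hInv : Inv1 ν N φ) (k : ℕ) (s : ℤ) (Ψ : X → ℂ)
    (hΨ : Uni Ψ) (i : ℕ → ℕ) (hi : ∀ j, i j ≤ 5 ^ (ν j))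
    (hrep : ∀ᵐ x ∂mu, TT ν N (k + 1) x * φ x =
      e s x * Ψ (N k • x) * ∏ j ∈ Finset.range k, bl (N j • x) ^ (i j))
    (ω g : X) (hg : N k • g = ω) (hg0 : N (k + 1) • g = 0) :
    An (fun y => bl y ^ (5 ^ (ν k)) * Ψ (y + ω) * conj (Ψ y)) := by
  have hbu : Uni bl := STEP_Uni_cont h4.1 h4.2.1
  have hNk : 0 < N k := hP.pos k
  have hA := hInv (k + 1) g hg0
  have hΘ : Uni (fun y => bl y ^ (5 ^ (ν k)) * Ψ (y + ω) * conj (Ψ y)) :=
    STEP_Uni_mul (STEP_Uni_mul (STEP_Uni_pow hbu _) (STEP_Uni_comp hΨ (STEP_ta ω)))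
      (STEP_Uni_conj hΨ)
  set Θ : X → ℂ := fun y => bl y ^ (5 ^ (ν k)) * Ψ (y + ω) * conj (Ψ y) with hΘdef
  set F : X → ℂ := fun x => e s g * Θ (N k • x) * ∏ j ∈ Finset.range k,
    (bl (N j • x) ^ (5 ^ (ν j) - i j) * bl (N j • x + N j • g) ^ (i j)) with hFdef
  have hFu : Uni F := by
    refine STEP_Uni_mul (STEP_Uni_mul (STEP_Uni_const (STEP_norm_e s g))
      (STEP_Uni_comp hΘ (STEP_mp (N k) hNk))) (STEP_Uni_prod _ _ fun j _ => ?_)
    refine STEP_Uni_mul (STEP_Uni_pow (STEP_Uni_comp hbu (STEP_mp (N j) (hP.pos j))) _)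
      (STEP_Uni_pow (f := fun x => bl (N j • x + N j • g)) ?_ _)
    exact STEP_Uni_comp (STEP_Uni_comp hbu (STEP_ta (N j • g))) (STEP_mp (N j) (hP.pos j))
  have hTT := (hTD ν N hP.pos (k + 1)).1
  have hAF : ∀ᵐ x ∂mu, ww ν N (k + 1) g x * φ (x + g) * conj (φ x) = F x := by
    have hr2 := (STEP_ta g).quasiMeasurePreserving.ae (p := fun y => TT ν N (k + 1) y * φ y =
      e s y * Ψ (N k • y) * ∏ j ∈ Finset.range k, bl (N j • y) ^ (i j)) hrep
    filter_upwards [hrep, hr2, hTT.2] with x hx hx2 hx3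
    have hinv : (TT ν N (k + 1) x)⁻¹ = conj (TT ν N (k + 1) x) := by
      rw [Complex.inv_def, Complex.normSq_eq_norm_sq, hx3]; simp
    have e1 : ww ν N (k + 1) g x * φ (x + g) * conj (φ x) =
        DD ν N (k + 1) x * (TT ν N (k + 1) (x + g) * φ (x + g)) *
          conj (TT ν N (k + 1) x * φ x) := by
      unfold ww
      rw [hinv, map_mul]
      ring
    rw [e1, hx, hx2, STEP_DD, Finset.prod_range_succ, hFdef]
    simp only [hΘdef]
    rw [smul_add, hg, STEP_e_add, map_mul, map_mul, map_prod]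
    have e2 : e s x * conj (e s x) = 1 := by
      rw [Complex.mul_conj, Complex.normSq_eq_norm_sq, STEP_norm_e]; norm_num
    have e3 : (∏ j ∈ Finset.range k, bl (N j • x) ^ (5 ^ (ν j))) *
        (∏ j ∈ Finset.range k, bl (N j • (x + g)) ^ (i j)) *
        (∏ j ∈ Finset.range k, conj (bl (N j • x) ^ (i j))) =
        ∏ j ∈ Finset.range k,
          (bl (N j • x) ^ (5 ^ (ν j) - i j) * bl (N j • x + N j • g) ^ (i j)) := by
      rw [← Finset.prod_mul_distrib, ← Finset.prod_mul_distrib]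
      refine Finset.prod_congr rfl fun j _ => ?_
      rw [← STEP_alg (bl (N j • x)) (h4.2.1 _) _ _ (hi j), smul_add]
      ring
    rw [← e3]
    linear_combination (e s g * (∏ j ∈ Finset.range k, bl (N j • x) ^ (5 ^ (ν j))) *
      bl (N k • x) ^ (5 ^ (ν k)) * Ψ (N k • x + ω) *
      (∏ j ∈ Finset.range k, bl (N j • (x + g)) ^ (i j)) * conj (Ψ (N k • x)) *
      (∏ j ∈ Finset.range k, conj (bl (N j • x) ^ (i j)))) * e2
  have hAnF : An F := STEP_An_congr hAF hA
  -- the polynomials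
  set c : ℕ → ℂ := fun j => e 1 (N j • g) with hc
  set p : Polynomial ℂ := ∏ j ∈ Finset.range k,
    ((Polynomial.X ^ (N j) - Polynomial.C (1 / 2)) ^ (5 ^ (ν j) - i j) *
      (Polynomial.C (c j) * Polynomial.X ^ (N j) - Polynomial.C (1 / 2)) ^ (i j)) with hp
  set q : Polynomial ℂ := ∏ j ∈ Finset.range k,
    ((1 - Polynomial.C (1 / 2) * Polynomial.X ^ (N j)) ^ (5 ^ (ν j) - i j) *
      (1 - Polynomial.C (1 / 2 * c j) * Polynomial.X ^ (N j)) ^ (i j)) with hq
  have hFq : ∀ x, F x * q.eval (e 1 x) = e s g * (Θ (N k • x) * p.eval (e 1 x)) := by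
    intro x
    rw [hFdef]
    simp only []
    rw [hq, hp, Polynomial.eval_prod, Polynomial.eval_prod]
    have e4 : (∏ j ∈ Finset.range k,
        (bl (N j • x) ^ (5 ^ (ν j) - i j) * bl (N j • x + N j • g) ^ (i j))) *
        (∏ j ∈ Finset.range k, Polynomial.eval (e 1 x)
          ((1 - Polynomial.C (1 / 2) * Polynomial.X ^ (N j)) ^ (5 ^ (ν j) - i j) *
      (1 - Polynomial.C (1 / 2 * c j) * Polynomial.X ^ (N j)) ^ (i j))) =
        ∏ j ∈ Finset.range k, Polynomial.eval (e 1 x)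
          ((Polynomial.X ^ (N j) - Polynomial.C (1 / 2)) ^ (5 ^ (ν j) - i j) *
      (Polynomial.C (c j) * Polynomial.X ^ (N j) - Polynomial.C (1 / 2)) ^ (i j)) := by
      rw [← Finset.prod_mul_distrib]
      refine Finset.prod_congr rfl fun j _ => ?_
      simp only [Polynomial.eval_mul, Polynomial.eval_pow, Polynomial.eval_sub,
        Polynomial.eval_one, Polynomial.eval_C, Polynomial.eval_X]
      have b1 := STEP_bl (N j • x)
      have b2 := STEP_bl (N j • x + N j • g)
      rw [STEP_e_pow] at b1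
      rw [STEP_e_add, STEP_e_pow (N j) x] at b2
      have b3 : bl (N j • x + N j • g) * (1 - 1 / 2 * c j * e 1 x ^ N j) =
          c j * e 1 x ^ N j - 1 / 2 := by
        rw [hc]
        linear_combination b2
      rw [← b1, ← b3, mul_pow, mul_pow]
      ring
    rw [← e4]
    ring
  have hAn1 : An (fun x => F x * q.eval (e 1 x)) := by
    refine (h1 F _ (STEP_Uni_memLp hFu) hAnF (STEP_Bd_cont ?_) (STEP_An_poly q)).2
    exact q.continuous.comp (STEP_cont_e 1)
  have hAn2 : An (fun x => Θ (N k • x) * p.eval (e 1 x)) := by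
    intro n hn
    have h5 := hAn1 n hn
    have h6 : (fun x => F x * q.eval (e 1 x)) =
        fun x => e s g * (Θ (N k • x) * p.eval (e 1 x)) := funext hFq
    rw [h6, fourierCoeff.const_mul] at h5
    rcases mul_eq_zero.1 h5 with h | h
    · exfalso
      have := STEP_norm_e s g
      rw [h, norm_zero] at this
      norm_num at this
    · exact h
  refine hRED Θ (N k) p hΘ hNk ?_ ?_ hAn2
  · refine lt_of_le_of_lt ?_ (STEP_growth ν N hP k)
    rw [hp]
    refine le_trans (Polynomial.natDegree_prod_le _ _) (Finset.sum_le_sum fun j _ => ?_)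
    refine le_trans Polynomial.natDegree_mul_le ?_
    have d1 : (Polynomial.X ^ (N j) - Polynomial.C (1 / 2) : Polynomial ℂ).natDegree ≤ N j := by
      refine le_trans (Polynomial.natDegree_sub_le _ _) ?_
      simp
    have d2 : (Polynomial.C (c j) * Polynomial.X ^ (N j) - Polynomial.C (1 / 2) :
        Polynomial ℂ).natDegree ≤ N j := by
      refine le_trans (Polynomial.natDegree_sub_le _ _) ?_
      refine max_le (Polynomial.natDegree_C_mul_X_pow_le _ _) ?_
      simp
    have d3 := Polynomial.natDegree_pow_le (p := (Polynomial.X ^ (N j) - Polynomial.C (1 / 2) :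
      Polynomial ℂ)) (n := 5 ^ (ν j) - i j)
    have d4 := Polynomial.natDegree_pow_le (p := (Polynomial.C (c j) * Polynomial.X ^ (N j) -
      Polynomial.C (1 / 2) : Polynomial ℂ)) (n := i j)
    have d5 : (5 ^ (ν j) - i j) * N j + i j * N j = 5 ^ (ν j) * N j := by
      rw [← add_mul, Nat.sub_add_cancel (hi j)]
    calc _ ≤ (5 ^ (ν j) - i j) * N j + i j * N j :=
          add_le_add (le_trans d3 (Nat.mul_le_mul_left _ d1))
            (le_trans d4 (Nat.mul_le_mul_left _ d2))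
      _ = _ := d5
  · rw [Polynomial.coeff_zero_eq_eval_zero, hp, Polynomial.eval_prod]
    refine Finset.prod_ne_zero_iff.2 fun j _ => ?_
    have hNj : N j ≠ 0 := (hP.pos j).ne'
    simp only [Polynomial.eval_mul, Polynomial.eval_pow, Polynomial.eval_sub,
        Polynomial.eval_C, Polynomial.eval_X]
    rw [zero_pow hNj]
    refine mul_ne_zero (pow_ne_zero _ (by norm_num)) (pow_ne_zero _ ?_)
    rw [mul_zero]
    norm_num

theorem STEP_An_pow (h1 : S_H1) (h4 : S_H4) (m : ℕ) : An (fun y => bl y ^ m) := by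
  have hbu : Uni bl := STEP_Uni_cont h4.1 h4.2.1
  induction m with
  | zero =>
    have := STEP_An_poly 1
    simpa using this
  | succ m ih =>
    simp only [pow_succ]
    exact (h1 (fun y => bl y ^ m) bl (STEP_Uni_memLp (STEP_Uni_pow hbu m)) ih
      (STEP_Bd_cont h4.1) h4.2.2.1).2

theorem t_STEP (hK1 : S_K1) (hK2 : S_K2) (hDIV : S_DIV) (hRED : S_RED) (h1 : S_H1)
    (h4 : S_H4) (hTD : S_TD) (hE6 : S_E6) : S_STEP := by
  intro ν N hP φ hφ hInv k hRep
  obtain ⟨s, Ψ0, i, hΨ0, hi, hrep⟩ := hRep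
  have hbu : Uni bl := STEP_Uni_cont h4.1 h4.2.1
  have hNk : 0 < N k := hP.pos k
  obtain ⟨q, hq⟩ := hP.dvd k
  have hQpos : 0 < 2 * q := by
    rcases Nat.eq_zero_or_pos q with h | h
    · have := hP.pos (k + 1)
      rw [hq, h] at this
      omega
    · omega
  have hNQ : N (k + 1) = 2 * q * N k := by rw [hq]; ring
  set Ψ : X → ℂ := fun y => tt (ν k) y * Ψ0 y with hΨdef
  have hΨ : Uni Ψ := STEP_Uni_mul (hE6 (ν k)).1 hΨ0
  have hrep1 : ∀ᵐ x ∂mu, TT ν N (k + 1) x * φ x =
      e s x * Ψ (N k • x) * ∏ j ∈ Finset.range k, bl (N j • x) ^ (i j) := by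
    filter_upwards [hrep] with x hx
    rw [TT, hΨdef, mul_assoc, hx]
    ring
  have hAn : ∀ ω : X, (2 * q) • ω = 0 →
      An (fun y => bl y ^ (5 ^ (ν k)) * Ψ (y + ω) * conj (Ψ y)) := by
    intro ω hω
    obtain ⟨g, hg⟩ := STEP_div (N k) hNk ω
    refine STEP_theta ν N hP h1 h4 hTD hRED φ hφ hInv k s Ψ hΨ i hi hrep1 ω g hg ?_
    rw [hNQ, mul_smul, hg, hω]
  obtain ⟨ψ, B, C, hψ, hB, hBA, hC, hCA, hBC, hΨψ, hcoc⟩ :=
    hK1 (fun y => bl y ^ (5 ^ (ν k))) Ψ (2 * q) hQpos (STEP_Uni_pow hbu _)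
      (STEP_An_pow h1 h4 _) hΨ hAn
  obtain ⟨σ, F, hF, hψF⟩ := hK2 ψ (2 * q) hQpos hψ hcoc
  obtain ⟨i', c, hi', hc, hBc⟩ := hDIV B C (5 ^ (ν k)) hB hBA hC hCA hBC
  refine ⟨s + σ * (N k : ℤ), fun y => c * F y, Function.update i k i',
    STEP_Uni_mul (STEP_Uni_const hc) hF, ?_, ?_⟩
  · intro j
    by_cases hj : j = k
    · subst hj; rw [Function.update_self]; exact hi'
    · rw [Function.update_of_ne hj]; exact hi j
  · have hall : ∀ᵐ y ∂mu, Ψ y = e σ y * F ((2 * q) • y) * (c * bl y ^ i') := by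
      filter_upwards [hΨψ, hψF, hBc] with y a1 a2 a3
      rw [a1, a2, a3]
    have hall2 := (STEP_mp (N k) hNk).quasiMeasurePreserving.ae
      (p := fun y => Ψ y = e σ y * F ((2 * q) • y) * (c * bl y ^ i')) hall
    filter_upwards [hrep1, hall2] with x a1 a2
    have e6 : N (k + 1) • x = (2 * q) • (N k • x) := by rw [hNQ, mul_smul]
    rw [a1, a2, Finset.prod_range_succ, Function.update_self, STEP_e_add', STEP_e_nsmul, e6]
    have e5 : ∏ j ∈ Finset.range k, bl (N j • x) ^ (Function.update i k i' j) =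
        ∏ j ∈ Finset.range k, bl (N j • x) ^ (i j) := by
      refine Finset.prod_congr rfl fun j hj => ?_
      rw [Function.update_of_ne (Finset.mem_range.1 hj).ne]
    rw [e5]
    ring

end STEP

end Pool.Agent.H460U
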