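import Pool.Agent.H460U.TR.H2

set_option autoImplicit false

open MeasureTheory Complex Filter
open scoped ComplexConjugate Matrix Topology InnerProductSpace

namespace Pool.Agent.H460U

theorem TC_int (F : X → ℂ) (hF : Uni F) (n : ℤ) :
    Integrable (fun x => (fourier n x : ℂ) • F x) mu := by
  refine Integrable.of_bound ?_ 1 ?_
  · exact ((fourier n).continuous.aestronglyMeasurable).smul hF.1
  · filter_upwards [hF.2] with x hx
    rw [norm_smul, hx, mul_one, fourier_apply]
    exact (Circle.norm_coe _).le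

theorem TC_uni (F : X → ℂ) (hF : Uni F) (g : X) : Uni (fun x => F (x + g)) := by
  have hmp := measurePreserving_add_right mu g
  have hae := hmp.quasiMeasurePreserving.ae hF.2
  exact ⟨hF.1.comp_measurePreserving hmp, hae⟩

theorem TC_memLp (F : X → ℂ) (hF : Uni F) : MemLp F 2 mu :=
  MemLp.of_bound hF.1 1 (hF.2.mono fun x hx => hx.le)

theorem TC_parseval (f : X → ℂ) (hf : MemLp f 2 mu) :
    HasSum (fun n : ℤ => ‖fourierCoeff f n‖ ^ 2) (∫ x : X, ‖f x‖ ^ 2 ∂mu) := by
  have h := hasSum_sq_fourierCoeff (hf.toLp f)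
  rw [fourierCoeff_congr_ae hf.coeFn_toLp] at h
  convert h using 1
  refine integral_congr_ae ?_
  filter_upwards [hf.coeFn_toLp] with x hx
  rw [hx]

theorem TC_sub (F : X → ℂ) (hF : Uni F) (g : X) (n : ℤ) :
    fourierCoeff (fun x => F (x + g) - F x) n =
      ((fourier n g : ℂ) - 1) * fourierCoeff F n := by
  have h1 : fourierCoeff (fun x => F (x + g) - F x) n =
      fourierCoeff (fun x => F (x + g)) n - fourierCoeff F n := by
    unfold fourierCoeff
    rw [← integral_sub (TC_int _ (TC_uni F hF g) _) (TC_int _ hF _)]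
    simp only [smul_sub]
  rw [h1, H2_coeff]
  ring

/-- TC -/
theorem t_TC : S_TC := by
  intro F hF g hg
  have hmem : ∀ k, MemLp (fun x => F (x + g k) - F x) 2 mu := fun k =>
    (TC_memLp _ (TC_uni F hF (g k))).sub (TC_memLp _ hF)
  have e1 : ∀ k, ∫ x : X, ‖F (x + g k) - F x‖ ^ 2 ∂mu =
      ∑' n : ℤ, ‖((fourier n (g k) : ℂ) - 1) * fourierCoeff F n‖ ^ 2 := by
    intro k
    rw [← (TC_parseval _ (hmem k)).tsum_eq]
    refine tsum_congr fun n => ?_
    rw [TC_sub F hF]
  simp only [e1]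
  have h0 : (∑' _ : ℤ, (0 : ℝ)) = 0 := tsum_zero
  rw [← h0]
  refine tendsto_tsum_of_dominated_convergence
    (bound := fun n : ℤ => 4 * ‖fourierCoeff F n‖ ^ 2)
    ((TC_parseval F (TC_memLp F hF)).summable.mul_left 4) ?_ ?_
  · intro n
    have h1 : Tendsto (fun k => (fourier n (g k) : ℂ)) atTop (𝓝 (fourier n (0 : X) : ℂ)) :=
      ((fourier n).continuous.tendsto 0).comp hg
    have h2 : (fourier n (0 : X) : ℂ) = 1 := fourier_eval_zero n
    rw [h2] at h1
    have h3 : Tendsto (fun k => ‖((fourier n (g k) : ℂ) - 1) * fourierCoeff F n‖ ^ 2) atTop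
        (𝓝 (‖((1 : ℂ) - 1) * fourierCoeff F n‖ ^ 2)) :=
      (((h1.sub_const 1).mul_const _).norm).pow 2
    simpa using h3
  · refine Filter.Eventually.of_forall fun k n => ?_
    have h1 : ‖(fourier n (g k) : ℂ) - 1‖ ≤ 2 := by
      calc ‖(fourier n (g k) : ℂ) - 1‖ ≤ ‖(fourier n (g k) : ℂ)‖ + ‖(1 : ℂ)‖ := norm_sub_le _ _
        _ = 2 := by
          rw [fourier_apply, Circle.norm_coe, norm_one]; norm_num
    rw [Real.norm_of_nonneg (by positivity), norm_mul, mul_pow]
    have h2 : ‖(fourier n (g k) : ℂ) - 1‖ ^ 2 ≤ 4 := by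
      nlinarith [norm_nonneg ((fourier n (g k) : ℂ) - 1)]
    exact mul_le_mul_of_nonneg_right h2 (by positivity)

end Pool.Agent.H460U
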