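import Pool.Agent.H460U.TR.Defs

set_option autoImplicit false

open MeasureTheory Complex Filter
open scoped ComplexConjugate Matrix Topology InnerProductSpace

namespace Pool.Agent.H460U

namespace CONaux

noncomputable section

/-- `1/2` -/
abbrev hf : X := ((1 / 2 : ℝ) : X)

theorem norm_e (n : ℤ) (x : X) : ‖e n x‖ = 1 := by
  unfold e
  rw [fourier_apply]
  exact Circle.norm_coe _

theorem cont_e (n : ℤ) : Continuous (e n) := (fourier n).continuous

theorem den_ne (x : X) : (1 - 1 / 2 * e 1 x : ℂ) ≠ 0 := by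
  intro h
  have h1 : (1 / 2 * e 1 x : ℂ) = 1 := (sub_eq_zero.1 h).symm
  have h2 : ‖(1 / 2 * e 1 x : ℂ)‖ = 1 / 2 := by
    rw [norm_mul, norm_e]; norm_num
  rw [h1] at h2
  norm_num at h2

theorem cont_bl : Continuous bl := by
  unfold bl
  exact ((cont_e 1).sub continuous_const).div (continuous_const.sub (continuous_const.mul (cont_e 1)))
    den_ne

theorem norm_bl (x : X) : ‖bl x‖ = 1 := by
  unfold bl
  rw [norm_div]
  have h : ‖e 1 x - 1 / 2‖ = ‖(1 - 1 / 2 * e 1 x : ℂ)‖ := by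
    have h1 : ‖e 1 x‖ ^ 2 = 1 := by rw [norm_e]; norm_num
    rw [← sq_eq_sq₀ (norm_nonneg _) (norm_nonneg _)]
    rw [Complex.sq_norm, Complex.sq_norm]
    rw [Complex.sq_norm] at h1
    rw [Complex.normSq_apply] at h1 ⊢
    rw [Complex.normSq_apply]
    simp only [Complex.sub_re, Complex.sub_im, Complex.mul_re, Complex.mul_im, Complex.one_re,
      Complex.one_im, Complex.div_ofNat_re, Complex.div_ofNat_im]
    nlinarith
  rw [h, div_self (norm_ne_zero_iff.2 (den_ne x))]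

theorem bl_ne (x : X) : bl x ≠ 0 := by
  intro h
  have := norm_bl x
  rw [h, norm_zero] at this
  norm_num at this

/-- the quotient -/
def uu (y : X) : ℂ := bl (y + hf) / bl y

theorem cont_uu : Continuous uu :=
  (cont_bl.comp (continuous_id.add continuous_const)).div cont_bl bl_ne

theorem norm_uu (y : X) : ‖uu y‖ = 1 := by
  unfold uu
  rw [norm_div, norm_bl, norm_bl, div_one]

theorem uu_ne (y : X) : uu y ≠ 0 := by
  intro h
  have := norm_uu y
  rw [h, norm_zero] at this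
  norm_num at this

theorem hf_add : hf + hf = 0 := by
  show (((1 / 2 : ℝ) : X)) + ((1 / 2 : ℝ) : X) = 0
  rw [← AddCircle.coe_add]
  have : (1 / 2 + 1 / 2 : ℝ) = 1 := by norm_num
  rw [this]
  exact AddCircle.coe_period 1

theorem uu_half (y : X) : uu (y + hf) = (uu y)⁻¹ := by
  unfold uu
  rw [add_assoc, hf_add, add_zero, inv_div]

theorem integrable_cont (f : X → ℝ) (hf : Continuous f) : Integrable f mu :=
  hf.integrable_of_hasCompactSupport (HasCompactSupport.of_compactSpace _)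

theorem mp_nsmul (n : ℕ) (hn : 0 < n) : MeasurePreserving (fun x : X => n • x) mu mu := by
  have h := Measure.measurePreserving_zsmul mu (n := (n : ℤ)) (by exact_mod_cast hn.ne')
  simpa only [natCast_zsmul] using h

theorem integral_nsmul (n : ℕ) (hn : 0 < n) (f : X → ℝ) (hf : Continuous f) :
    ∫ x : X, f (n • x) ∂mu = ∫ x : X, f x ∂mu := by
  have h := mp_nsmul n hn
  have h1 : ∫ x, f x ∂(Measure.map (fun x : X => n • x) mu) = ∫ x : X, f (n • x) ∂mu :=
    integral_map h.measurable.aemeasurable hf.aestronglyMeasurable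
  rw [← h1, h.map_eq]

theorem ineq1 (w F G : ℂ) (d : ℝ) (hF : ‖F‖ = 1) (h : ‖G - w * F‖ ≤ d) :
    ‖w - 1‖ ^ 2 ≤ 2 * d ^ 2 + 2 * ‖G - F‖ ^ 2 := by
  have h1 : ‖w - 1‖ = ‖(w - 1) * F‖ := by rw [norm_mul, hF, mul_one]
  have h2 : (w - 1) * F = -(G - w * F) + (G - F) := by ring
  have h3 : ‖w - 1‖ ≤ d + ‖G - F‖ := by
    rw [h1, h2]
    refine (norm_add_le _ _).trans ?_
    rw [norm_neg]
    linarith
  have h4 := norm_nonneg (w - 1)
  have h5 : ‖w - 1‖ ^ 2 ≤ (d + ‖G - F‖) ^ 2 := pow_le_pow_left₀ h4 h3 2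
  nlinarith [sq_nonneg (d - ‖G - F‖)]

theorem ineq2 (c z : ℂ) (hc : ‖c‖ = 1) (hz : ‖z‖ = 1) :
    ‖z * z - 1‖ ^ 2 ≤ 2 * ‖c * z - 1‖ ^ 2 + 2 * ‖c * z⁻¹ - 1‖ ^ 2 := by
  have hz0 : z ≠ 0 := by
    intro h
    rw [h, norm_zero] at hz
    norm_num at hz
  have h1 : z * z - 1 = z * (z - z⁻¹) := by
    rw [mul_sub, mul_inv_cancel₀ hz0]
  have h2 : ‖z * z - 1‖ = ‖(c * z - 1) - (c * z⁻¹ - 1)‖ := by
    have h3 : (c * z - 1) - (c * z⁻¹ - 1) = c * (z - z⁻¹) := by ring
    rw [h1, h3, norm_mul, norm_mul, hz, hc]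
  have h3 : ‖z * z - 1‖ ≤ ‖c * z - 1‖ + ‖c * z⁻¹ - 1‖ := by
    rw [h2]
    exact norm_sub_le _ _
  have h5 : ‖z * z - 1‖ ^ 2 ≤ (‖c * z - 1‖ + ‖c * z⁻¹ - 1‖) ^ 2 :=
    pow_le_pow_left₀ (norm_nonneg _) h3 2
  nlinarith [sq_nonneg (‖c * z - 1‖ - ‖c * z⁻¹ - 1‖)]

end

end CONaux

open CONaux

theorem t_CON (hFA : S_FA) (hKAP : S_KAP) (hTC : S_TC) : S_CON := by
  intro ν N hP φ hφ hR
  obtain ⟨κ, hκ, hK⟩ := hKAP
  set F : X → ℂ := fun x => φ x ^ 2 with hF
  have hFU : Uni F := ⟨hφ.1.pow 2, hφ.2.mono fun x hx => by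
    show ‖φ x ^ 2‖ = 1
    rw [norm_pow, hx, one_pow]⟩
  set g : ℕ → X := fun k => ((1 / (2 * (N k : ℝ)) : ℝ) : X) with hg
  have hN : ∀ k, 2 ^ k ≤ N k := by
    intro k
    induction k with
    | zero => rw [pow_zero]; exact hP.pos 0
    | succ k ih =>
      have := Nat.le_of_dvd (hP.pos (k + 1)) (hP.dvd k)
      rw [pow_succ]
      omega
  have hNr : ∀ k, (0 : ℝ) < N k := fun k => by exact_mod_cast hP.pos k
  have hgt : Tendsto g atTop (𝓝 0) := by
    have h1 : Tendsto (fun k => (1 / (2 * (N k : ℝ)) : ℝ)) atTop (𝓝 0) := by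
      refine squeeze_zero (fun k => by have := hNr k; positivity) (fun k => ?_)
        (tendsto_pow_atTop_nhds_zero_of_lt_one (by norm_num : (0 : ℝ) ≤ 1 / 2) (by norm_num))
      rw [one_div_pow]
      apply one_div_le_one_div_of_le (by positivity)
      have h2 : ((2 : ℝ)) ^ k ≤ N k := by exact_mod_cast hN k
      have := hNr k
      linarith
    have h2 := (AddCircle.continuous_mk' (1 : ℝ)).tendsto 0
    have h3 := h2.comp h1
    exact h3
  have hT := hTC F hFU g hgt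
  have hNg : ∀ k, N k • g k = hf := by
    intro k
    show N k • ((1 / (2 * (N k : ℝ)) : ℝ) : X) = ((1 / 2 : ℝ) : X)
    rw [← AddCircle.coe_nsmul]
    congr 1
    rw [nsmul_eq_mul]
    have := (hNr k).ne'
    field_simp
  set ε : ℕ → ℝ := fun k => 2 * ((1 / 2 : ℝ) ^ k) ^ 2 + 2 * ∫ x : X, ‖F (x + g k) - F x‖ ^ 2 ∂mu
    with hε
  have hεt : Tendsto ε atTop (𝓝 0) := by
    have h1 : Tendsto (fun k : ℕ => (1 / 2 : ℝ) ^ k) atTop (𝓝 0) :=
      tendsto_pow_atTop_nhds_zero_of_lt_one (by norm_num) (by norm_num)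
    have h2 := ((h1.pow 2).const_mul 2).add (hT.const_mul 2)
    have h3 : (2 : ℝ) * 0 ^ 2 + 2 * 0 = 0 := by norm_num
    rw [h3] at h2
    exact h2
  have key : ∀ k, κ ≤ 4 * ε k := by
    intro k
    obtain ⟨a, c, ha, hc, hae⟩ := hFA ν N hP φ hφ hR k
    set w : X → ℂ := fun x => c * uu (N k • x) ^ a with hw
    have hcu : Continuous (fun x : X => uu (N k • x)) := cont_uu.comp (continuous_nsmul (N k))
    have hwc : Continuous w := continuous_const.mul (hcu.zpow₀ a (fun x => Or.inl (uu_ne _)))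
    -- first estimate
    have hmp := measurePreserving_add_right mu (g k)
    have hb : Integrable (fun x : X => ‖F (x + g k) - F x‖ ^ 2) mu := by
      refine Integrable.of_bound (C := 4) ?_ ?_
      · exact ((hFU.1.comp_measurePreserving hmp).sub hFU.1).norm.pow 2
      · have h1 := hmp.quasiMeasurePreserving.ae hFU.2
        filter_upwards [h1, hFU.2] with x hx1 hx2
        have h2 : ‖F (x + g k) - F x‖ ≤ 2 := by
          refine (norm_sub_le _ _).trans ?_
          rw [hx1, hx2]; norm_num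
        rw [Real.norm_of_nonneg (by positivity)]
        nlinarith [norm_nonneg (F (x + g k) - F x)]
    have hA : ∫ x : X, ‖w x - 1‖ ^ 2 ∂mu ≤ ε k := by
      have h1 : ∫ x : X, ‖w x - 1‖ ^ 2 ∂mu ≤
          ∫ x : X, (2 * ((1 / 2 : ℝ) ^ k) ^ 2 + 2 * ‖F (x + g k) - F x‖ ^ 2) ∂mu := by
        refine integral_mono_of_nonneg (ae_of_all _ fun x => by positivity)
          ((integrable_const _).add (hb.const_mul 2)) ?_
        filter_upwards [hae, hFU.2] with x hx1 hx2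
        exact ineq1 (w x) (F x) (F (x + g k)) _ hx2 hx1
      rw [integral_add (integrable_const _) (hb.const_mul 2), integral_const,
        integral_const_mul, probReal_univ, one_smul] at h1
      exact h1
    -- translation
    have hB : ∫ x : X, ‖w (x + g k) - 1‖ ^ 2 ∂mu = ∫ x : X, ‖w x - 1‖ ^ 2 ∂mu :=
      integral_add_right_eq_self (fun x : X => ‖w x - 1‖ ^ 2) (g k)
    have hwg : ∀ x, w (x + g k) = c * (uu (N k • x) ^ a)⁻¹ := by
      intro x
      show c * uu (N k • (x + g k)) ^ a = _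
      rw [nsmul_add, hNg, uu_half, inv_zpow]
    have hC : ∫ x : X, ‖uu (N k • x) ^ (2 * a) - 1‖ ^ 2 ∂mu ≤
        2 * ∫ x : X, ‖w x - 1‖ ^ 2 ∂mu + 2 * ∫ x : X, ‖w (x + g k) - 1‖ ^ 2 ∂mu := by
      have i1 : Integrable (fun x : X => ‖w x - 1‖ ^ 2) mu :=
        integrable_cont _ ((hwc.sub continuous_const).norm.pow 2)
      have i2 : Integrable (fun x : X => ‖w (x + g k) - 1‖ ^ 2) mu :=
        integrable_cont _ (((hwc.comp (continuous_id.add continuous_const)).sub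
          continuous_const).norm.pow 2)
      rw [← integral_const_mul, ← integral_const_mul,
        ← integral_add (i1.const_mul 2) (i2.const_mul 2)]
      refine integral_mono_of_nonneg (ae_of_all _ fun x => by positivity)
        ((i1.const_mul 2).add (i2.const_mul 2)) (ae_of_all _ fun x => ?_)
      show ‖uu (N k • x) ^ (2 * a) - 1‖ ^ 2 ≤ 2 * ‖w x - 1‖ ^ 2 + 2 * ‖w (x + g k) - 1‖ ^ 2
      rw [hwg, two_mul a, zpow_add₀ (uu_ne _)]
      refine ineq2 c (uu (N k • x) ^ a) hc ?_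
      rw [norm_zpow, norm_uu, one_zpow]
    have hD : ∫ x : X, ‖uu (N k • x) ^ (2 * a) - 1‖ ^ 2 ∂mu =
        ∫ x : X, ‖uu x ^ (2 * a) - 1‖ ^ 2 ∂mu :=
      integral_nsmul (N k) (hP.pos k) (fun x => ‖uu x ^ (2 * a) - 1‖ ^ 2)
        (((cont_uu.zpow₀ (2 * a) (fun x => Or.inl (uu_ne _))).sub continuous_const).norm.pow 2)
    have hE : κ ≤ ∫ x : X, ‖uu x ^ (2 * a) - 1‖ ^ 2 ∂mu := hK a ha
    rw [hB, hD] at hC
    linarith
  have h1 : Tendsto (fun k => 4 * ε k) atTop (𝓝 (4 * 0)) := hεt.const_mul 4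
  rw [mul_zero] at h1
  have h2 : κ ≤ 0 := ge_of_tendsto' h1 key
  linarith

end Pool.Agent.H460U
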