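import Pool.Agent.H460U.TR.Defs

/-! Project TR, task TRA (helper616): transitivity. -/

set_option autoImplicit false

open MeasureTheory Complex Filter
open scoped ComplexConjugate Matrix Topology InnerProductSpace

namespace Pool.Agent.H460U

noncomputable section

namespace TRA

lemma mp (g : X) : MeasurePreserving (fun x : X => x + g) mu mu :=
  measurePreserving_add_right mu g

lemma ae_shift {p : X → Prop} (g : X) (h : ∀ᵐ x ∂mu, p x) : ∀ᵐ x ∂mu, p (x + g) :=
  (mp g).quasiMeasurePreserving.ae h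

lemma uni_shift {f : X → ℂ} (hf : Uni f) (g : X) : Uni (fun x => f (x + g)) := by
  refine ⟨?_, ae_shift (p := fun x => ‖f x‖ = 1) g hf.2⟩
  have h := AEStronglyMeasurable.comp_measurePreserving hf.1 (mp g)
  exact h

lemma uni_e (n : ℤ) : Uni (e n) := by
  refine ⟨(map_continuous (fourier n)).aestronglyMeasurable, Eventually.of_forall fun x => ?_⟩
  change ‖(((n • x).toCircle : Circle) : ℂ)‖ = 1
  exact Circle.norm_coe _

lemma uni_ww (hTD : S_TD) {ν N : ℕ → ℕ} (hN : ∀ k, 0 < N k) (k : ℕ) (g : X) :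
    Uni (ww ν N k g) := by
  obtain ⟨hT, hDc, hD1, -⟩ := hTD ν N hN k
  have hT' := uni_shift hT g
  refine ⟨((hDc.aestronglyMeasurable).mul hT'.1).mul hT.1.inv₀, ?_⟩
  filter_upwards [hT.2, hT'.2] with x h1 h2
  simp only [ww, norm_mul, norm_inv, h1, hD1 x, h2]
  norm_num

lemma uni_memLp {f : X → ℂ} (hf : Uni f) : MemLp f 2 mu :=
  MemLp.of_bound hf.1 1 (hf.2.mono fun x hx => hx.le)

end TRA

open TRA in
theorem t_TRA (hBH1 : S_BH1) (hBH2 : S_BH2) (hAG : S_AG) (hAU : S_AU) (hOP : S_OP)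
    (hERG : S_ERG) (hNO : S_NO) (hTD : S_TD) : S_TRA := by
  intro ν N Φ hP hΦ M hMc hM
  have hmeas := hΦ.meas
  have hunit := hΦ.unit
  -- the bilateral shift
  have hz : ZInv M 1 := by
    obtain ⟨A, hA⟩ := hOP (e 1) 0 (uni_e 1)
    have hA' : ∀ f : L2, (A f : X → ℂ) =ᵐ[mu] fun x => e 1 x * f x := by
      intro f
      refine (hA f).trans (Eventually.of_forall fun x => ?_)
      simp
    have hin := (hAU Φ hmeas hunit).1 A hA'
    intro f hf h hh
    have : h = A f := Lp.ext (hh.trans (hA' f).symm)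
    rw [this]
    exact hM A hin f hf
  -- the rotations
  have hrot : ∀ (k : ℕ) (g : X), N k • g = 0 → ∀ f ∈ M, ∃ h ∈ M,
      (h : X → ℂ) =ᵐ[mu] fun x => ww ν N k g x * f (x + g) := by
    intro k g hg f hf
    obtain ⟨A, hA⟩ := hOP (ww ν N k g) g (uni_ww hTD hP.pos k g)
    exact ⟨A f, hM A (hAG ν N Φ hP hΦ k g hg A hA) f hf, hA f⟩
  by_cases hz' : ZInv M (-1)
  · -- doubly invariant
    obtain ⟨E, hE, hME⟩ := hBH1 M hMc hz hz'
    have hstep : ∀ (k : ℕ) (g : X), N k • g = 0 → ∀ᵐ x ∂mu, x + g ∈ E → x ∈ E := by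
      intro k g hg
      set f : L2 := indicatorConstLp 2 hE (measure_ne_top mu E) (1 : ℂ) with hf
      have hfE : (f : X → ℂ) =ᵐ[mu] E.indicator fun _ => (1 : ℂ) := indicatorConstLp_coeFn
      have hfM : f ∈ M := by
        rw [hME]
        filter_upwards [hfE] with x hx hxE
        rw [hx, Set.indicator_of_notMem hxE]
      obtain ⟨h, hhM, hh⟩ := hrot k g hg f hfM
      rw [hME] at hhM
      filter_upwards [hhM, hh, ae_shift g hfE, (uni_ww hTD hP.pos k g).2] with x h1 h2 h3 h4 h5
      by_contra hx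
      have h6 := h1 hx
      rw [h2, h3, Set.indicator_of_mem h5, mul_one] at h6
      rw [h6] at h4
      simp at h4
    have hiff : ∀ k (g : X), N k • g = 0 → ∀ᵐ x ∂mu, (x + g ∈ E ↔ x ∈ E) := by
      intro k g hg
      have h1 := hstep k g hg
      have h2 := hstep k (-g) (by rw [smul_neg, hg, neg_zero])
      have h3 := ae_shift g h2
      filter_upwards [h1, h3] with x h4 h5
      refine ⟨h4, fun h6 => h5 ?_⟩
      rwa [add_neg_cancel_right]
    rcases hERG N hP.zero hP.pos hP.dvd E hE hiff with h0 | h0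
    · left
      rw [Submodule.eq_bot_iff]
      intro f hf
      rw [hME] at hf
      apply Lp.ext
      refine EventuallyEq.trans ?_ (Lp.coeFn_zero ℂ 2 mu).symm
      have h1 : ∀ᵐ x ∂mu, x ∉ E := by
        rw [ae_iff]
        simpa using h0
      filter_upwards [hf, h1] with x h2 h3
      exact h2 h3
    · right
      rw [Submodule.eq_top_iff']
      intro f
      rw [hME]
      have h1 : ∀ᵐ x ∂mu, x ∈ E := by
        rw [ae_iff]
        exact h0
      filter_upwards [h1] with x h2 h3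
      exact absurd h2 h3
  · -- simply invariant
    exfalso
    obtain ⟨φ, hφ, hMφ⟩ := hBH2 M hMc hz hz'
    refine hNO ν N hP φ hφ ?_
    intro k g hg
    set f : L2 := (uni_memLp hφ).toLp φ with hf
    have hfe : (f : X → ℂ) =ᵐ[mu] φ := (uni_memLp hφ).coeFn_toLp
    have hfM : f ∈ M := by
      rw [hMφ]
      intro n hn
      have h1 : (fun x => conj (φ x) * f x) =ᵐ[mu] (fourier 0 : C(X, ℂ)) := by
        filter_upwards [hfe, hφ.2] with x h2 h3
        rw [h2, fourier_zero, mul_comm, Complex.mul_conj, Complex.normSq_eq_norm_sq, h3]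
        norm_num
      rw [fourierCoeff_congr_ae h1, fourierCoeff_fourier]
      exact Pi.single_eq_of_ne hn.ne _
    obtain ⟨h, hhM, hh⟩ := hrot k g hg f hfM
    rw [hMφ] at hhM
    intro n hn
    rw [← hhM n hn]
    refine congrFun (fourierCoeff_congr_ae ?_) n
    filter_upwards [hh, ae_shift g hfe] with x h1 h2
    rw [h1, h2]
    ring

end

end Pool.Agent.H460U
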