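import Pool.Agent.H460U.TR.BH1
import Pool.Agent.H460U.TR.BH2
import Pool.Agent.H460U.TR.DIV
import Pool.Agent.H460U.TR.E1
import Pool.Agent.H460U.TR.E2
import Pool.Agent.H460U.TR.E3
import Pool.Agent.H460U.TR.E4
import Pool.Agent.H460U.TR.E5
import Pool.Agent.H460U.TR.E6
import Pool.Agent.H460U.TR.E7
import Pool.Agent.H460U.TR.ERG
import Pool.Agent.H460U.TR.FA
import Pool.Agent.H460U.TR.FINAL
import Pool.Agent.H460U.TR.GL
import Pool.Agent.H460U.TR.H1
import Pool.Agent.H460U.TR.H2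
import Pool.Agent.H460U.TR.H3
import Pool.Agent.H460U.TR.H4
import Pool.Agent.H460U.TR.H5
import Pool.Agent.H460U.TR.K1
import Pool.Agent.H460U.TR.K2
import Pool.Agent.H460U.TR.K3
import Pool.Agent.H460U.TR.L2
import Pool.Agent.H460U.TR.NO
import Pool.Agent.H460U.TR.OP
import Pool.Agent.H460U.TR.PAN
import Pool.Agent.H460U.TR.PHI
import Pool.Agent.H460U.TR.STEP
import Pool.Agent.H460U.TR.TCon
import Pool.Agent.H460U.TR.TD
import Pool.Agent.H460U.TR.TRA
import Pool.Agent.H460U.TR.AG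
import Pool.Agent.H460U.TR.AU
import Pool.Agent.H460U.TR.KA
import Pool.Agent.H460U.TR.KAP
import Pool.Agent.H460U.TR.PAR
import Pool.Agent.H460U.TR.RED
import Pool.Agent.H460U.TR.TC

/-! Project TR: assembly (helper460). -/

set_option autoImplicit false

namespace Pool.Agent.H460U

theorem all_E4 : S_E4 := t_E4 t_E1 t_E2
theorem all_E6 : S_E6 := t_E6 all_E4 t_H4
theorem all_E5 : S_E5 := t_E5 all_E4 t_H4
theorem all_E7 : S_E7 := t_E7 t_E2 all_E5 t_H4
theorem all_TD : S_TD := t_TD t_E1 t_E2 all_E6 t_H1 t_H3 t_H4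
theorem all_PHI : S_PHI := t_PHI all_TD t_E2 all_E6 t_H4
theorem all_DIV : S_DIV := t_DIV t_H1 t_H4
theorem all_BH1 : S_BH1 := t_BH1
theorem all_BH2 : S_BH2 := t_BH2
theorem all_K1 : S_K1 := t_K1 all_BH1 all_BH2 t_H1 t_H2 t_H5
theorem all_K2 : S_K2 := t_K2 t_K3
theorem all_RED : S_RED := t_RED t_H3
theorem all_STEP : S_STEP := t_STEP all_K1 all_K2 all_DIV all_RED t_H1 t_H4 all_TD all_E6
theorem all_PAN : S_PAN := t_PAN t_E3 t_H1 t_H2 t_H3 t_H4
theorem all_AG : S_AG := t_AG all_PAN t_H1 t_H2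
theorem all_KAP : S_KAP := t_KAP t_KA
theorem all_CON : S_CON := t_CON (t_FA all_TD t_H4) all_KAP t_TC
theorem all_NO : S_NO := t_NO all_STEP all_CON
theorem all_TRA : S_TRA := t_TRA all_BH1 all_BH2 all_AG t_AU t_OP t_ERG all_NO all_TD
theorem all_PAR : S_PAR := t_PAR all_E7
theorem all_L2 : S_L2 := t_L2 all_PAR all_PHI t_GL t_AU t_OP all_TRA
theorem all_FINAL : S_FINAL := t_FINAL all_L2

end Pool.Agent.H460U
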