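import Pool.Agent.H460U.TR.Defs

/-! BH1: Wiener's theorem on doubly invariant subspaces.
The lemmas on uniqueness of Fourier coefficients of integrable functions are taken from
`Pool.Agent.Helper917.ScalarL1`. -/

set_option autoImplicit false

open MeasureTheory Complex Filter
open scoped ComplexConjugate Matrix Topology InnerProductSpace ENNReal BoundedContinuousFunction

namespace Pool.Agent.H460U

namespace BH1

/-- a real integrable function annihilating all continuous functions vanishes -/
lemma real_ae_zero {u : X → ℝ} (hu : Integrable u mu)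
    (h : ∀ f : X →ᵇ ℝ, ∫ t, f t * u t ∂mu = 0) : u =ᵐ[mu] 0 := by
  let a : X → ℝ≥0∞ := fun t => ENNReal.ofReal (u t)
  let b : X → ℝ≥0∞ := fun t => ENNReal.ofReal (-u t)
  have ha : AEMeasurable a mu := hu.aemeasurable.ennreal_ofReal
  have hb : AEMeasurable b mu := hu.neg.aemeasurable.ennreal_ofReal
  have hfa : ∫⁻ t, a t ∂mu ≠ ∞ := hu.lintegral_lt_top.ne
  have hfb : ∫⁻ t, b t ∂mu ≠ ∞ := hu.neg.lintegral_lt_top.ne
  have : IsFiniteMeasure (mu.withDensity a) := isFiniteMeasure_withDensity hfa
  have : IsFiniteMeasure (mu.withDensity b) := isFiniteMeasure_withDensity hfb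
  have h1 : mu.withDensity a = mu.withDensity b := by
    apply ext_of_forall_integral_eq_of_IsFiniteMeasure
    intro f
    rw [integral_withDensity_eq_integral_toReal_smul₀ ha (by simp [a]),
      integral_withDensity_eq_integral_toReal_smul₀ hb (by simp [b]), ← sub_eq_zero,
      ← integral_sub]
    · rw [← h f]
      congr 1
      ext t
      simp only [a, b, ENNReal.toReal_ofReal', smul_eq_mul]
      rcases le_total (u t) 0 with h | h
      · rw [max_eq_right h, max_eq_left (by linarith)]; ring
      · rw [max_eq_left h, max_eq_right (by linarith)]; ring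
    · have h2 : Integrable (fun t => max (u t) 0 * f t) mu :=
        (hu.pos_part).mul_bdd (c := ‖f‖) f.continuous.aestronglyMeasurable
          (ae_of_all _ fun t => f.norm_coe_le_norm t)
      refine h2.congr (ae_of_all _ fun t => ?_)
      simp [a, ENNReal.toReal_ofReal']
    · have h2 : Integrable (fun t => max (-u t) 0 * f t) mu :=
        (hu.neg_part).mul_bdd (c := ‖f‖) f.continuous.aestronglyMeasurable
          (ae_of_all _ fun t => f.norm_coe_le_norm t)
      refine h2.congr (ae_of_all _ fun t => ?_)
      simp [b, ENNReal.toReal_ofReal']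
  rw [withDensity_eq_iff ha hb hfa] at h1
  filter_upwards [h1] with t ht
  have h2 := congrArg ENNReal.toReal ht
  simp only [a, b, ENNReal.toReal_ofReal'] at h2
  show u t = 0
  rcases le_total (u t) 0 with h | h
  · rw [max_eq_right h, max_eq_left (by linarith)] at h2; linarith
  · rw [max_eq_left h, max_eq_right (by linarith)] at h2; linarith

/-- a complex integrable function annihilating all continuous functions vanishes -/
lemma complex_ae_zero {k : X → ℂ} (hk : Integrable k mu)
    (h : ∀ f : C(X, ℂ), ∫ t, f t * k t ∂mu = 0) : k =ᵐ[mu] 0 := by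
  have hr : (fun t => (k t).re) =ᵐ[mu] 0 := by
    apply real_ae_zero hk.re
    intro f
    let fc : C(X, ℂ) := ⟨fun t => (f t : ℂ), by fun_prop⟩
    have h1 := congrArg Complex.re (h fc)
    have h2 : Integrable (fun t => fc t * k t) mu :=
      hk.bdd_mul (c := ‖fc‖) fc.continuous.aestronglyMeasurable
        (ae_of_all _ fun t => fc.norm_coe_le_norm t)
    rw [← Complex.reCLM_apply, ← Complex.reCLM.integral_comp_comm h2] at h1
    simpa [fc] using h1
  have hi : (fun t => (k t).im) =ᵐ[mu] 0 := by
    apply real_ae_zero hk.im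
    intro f
    let fc : C(X, ℂ) := ⟨fun t => (f t : ℂ), by fun_prop⟩
    have h1 := congrArg Complex.im (h fc)
    have h2 : Integrable (fun t => fc t * k t) mu :=
      hk.bdd_mul (c := ‖fc‖) fc.continuous.aestronglyMeasurable
        (ae_of_all _ fun t => fc.norm_coe_le_norm t)
    rw [← Complex.imCLM_apply, ← Complex.imCLM.integral_comp_comm h2] at h1
    simpa [fc] using h1
  filter_upwards [hr, hi] with t h1 h2
  exact Complex.ext h1 h2

/-- the functional `f ↦ ∫ f k` on continuous functions -/
noncomputable def intL {k : X → ℂ} (hk : Integrable k mu) : C(X, ℂ) →L[ℂ] ℂ :=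
  LinearMap.mkContinuous
    { toFun := fun f => ∫ t, f t * k t ∂mu
      map_add' := by
        intro f g
        have hi : ∀ f : C(X, ℂ), Integrable (fun t => f t * k t) mu := fun f =>
          hk.bdd_mul (c := ‖f‖) f.continuous.aestronglyMeasurable
            (ae_of_all _ fun t => f.norm_coe_le_norm t)
        rw [← integral_add (hi f) (hi g)]
        congr 1
        ext t
        rw [ContinuousMap.add_apply, add_mul]
      map_smul' := by
        intro c f
        rw [RingHom.id_apply, smul_eq_mul, ← integral_const_mul]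
        congr 1
        ext t
        rw [ContinuousMap.smul_apply, smul_eq_mul, mul_assoc] }
    (∫ t, ‖k t‖ ∂mu) (by
      intro f
      show ‖∫ t, f t * k t ∂mu‖ ≤ _
      refine (norm_integral_le_integral_norm _).trans ?_
      rw [mul_comm, ← integral_const_mul]
      refine integral_mono_of_nonneg (ae_of_all _ fun t => norm_nonneg _)
        (hk.norm.const_mul _) (ae_of_all _ fun t => ?_)
      show ‖f t * k t‖ ≤ ‖f‖ * ‖k t‖
      rw [norm_mul]
      gcongr
      exact f.norm_coe_le_norm t)

lemma intL_apply {k : X → ℂ} (hk : Integrable k mu) (f : C(X, ℂ)) :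
    intL hk f = ∫ t, f t * k t ∂mu := rfl

/-- uniqueness of Fourier coefficients in `L¹` -/
lemma ae_zero_of_fourier {k : X → ℂ} (hk : Integrable k mu)
    (h : ∀ n : ℤ, ∫ t, fourier n t * k t ∂mu = 0) : k =ᵐ[mu] 0 := by
  apply complex_ae_zero hk
  intro f
  have h1 : (Submodule.span ℂ (Set.range (fourier : ℤ → C(X, ℂ)))).topologicalClosure ≤
      LinearMap.ker (intL hk).toLinearMap := by
    apply Submodule.topologicalClosure_minimal
    · rw [Submodule.span_le]
      rintro _ ⟨n, rfl⟩
      exact h n
    · exact (intL hk).isClosed_ker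
  rw [span_fourier_closure_eq_top] at h1
  exact h1 (Submodule.mem_top (x := f))


/-- multiplication by `e n` on `L²` -/
theorem memLp_e (n : ℤ) (f : L2) : MemLp (fun x => e n x * f x) 2 mu := by
  refine (Lp.memLp f).of_le ?_ (ae_of_all _ fun x => ?_)
  · exact ((fourier n).continuous.aestronglyMeasurable).mul (Lp.aestronglyMeasurable f)
  · rw [norm_mul, e, fourier_apply, Circle.norm_coe, one_mul]

noncomputable def mulE (n : ℤ) (f : L2) : L2 := (memLp_e n f).toLp _

theorem coe_mulE (n : ℤ) (f : L2) : (mulE n f : X → ℂ) =ᵐ[mu] fun x => e n x * f x :=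
  MemLp.coeFn_toLp _

theorem e_add (m n : ℤ) (x : X) : e (m + n) x = e m x * e n x := by
  simp [e]

theorem mulE_mem {M : Submodule ℂ L2} (h1 : ZInv M 1) (h2 : ZInv M (-1)) {f : L2} (hf : f ∈ M)
    (n : ℤ) : mulE n f ∈ M := by
  induction n using Int.induction_on with
  | zero =>
    have : mulE 0 f = f := by
      apply Lp.ext
      filter_upwards [coe_mulE 0 f] with x hx
      rw [hx]; simp [e]
    rw [this]; exact hf
  | succ k ih =>
    refine h1 _ ih _ ?_
    filter_upwards [coe_mulE (k + 1) f, coe_mulE k f] with x hx hy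
    rw [hx, hy, add_comm, e_add, mul_assoc]
  | pred k ih =>
    refine h2 _ ih _ ?_
    filter_upwards [coe_mulE (-k - 1) f, coe_mulE (-k) f] with x hx hy
    rw [hx, hy, sub_eq_neg_add, e_add, mul_assoc]

/-- if `g` is orthogonal to all `z^n f` then `conj g * f = 0` a.e. -/
theorem ae_zero_of_orth {g f : L2} (h : ∀ n : ℤ, ⟪g, mulE n f⟫_ℂ = 0) :
    ∀ᵐ x ∂mu, conj (g x) * f x = 0 := by
  have hint : Integrable (fun x => conj (g x) * f x) mu := by
    have := L2.integrable_inner (𝕜 := ℂ) g f
    refine this.congr (ae_of_all _ fun x => ?_)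
    simp [RCLike.inner_apply, mul_comm]
  have := ae_zero_of_fourier hint (by
    intro n
    have h1 := h n
    rw [L2.inner_def] at h1
    rw [← h1]
    apply integral_congr_ae
    filter_upwards [coe_mulE n f] with x hx
    rw [hx]
    simp only [RCLike.inner_apply, e]
    ring)
  exact this

end BH1

open BH1

theorem t_BH1 : S_BH1 := by
  intro M hM h1 h2
  have : CompleteSpace M := hM.completeSpace_coe
  set one : L2 := (memLp_const (1 : ℂ)).toLp (fun _ : X => (1 : ℂ)) with hone
  have hone' : (one : X → ℂ) =ᵐ[mu] fun _ => 1 := MemLp.coeFn_toLp _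
  obtain ⟨p, hpM, hp⟩ : ∃ p ∈ M, one - p ∈ Mᗮ :=
    ⟨M.starProjection one, M.starProjection_apply_mem one,
      M.sub_starProjection_mem_orthogonal one⟩
  have horth : ∀ f ∈ M, ∀ᵐ x ∂mu, conj (1 - p x) * f x = 0 := by
    intro f hf
    have := ae_zero_of_orth (g := one - p) (f := f) (fun n =>
      Submodule.inner_left_of_mem_orthogonal (mulE_mem h1 h2 hf n) hp)
    filter_upwards [this, Lp.coeFn_sub one p, hone'] with x hx h3 h4
    rw [h3, Pi.sub_apply, h4] at hx
    exact hx
  have hpp := horth p hpM
  -- a measurable representative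
  obtain ⟨q, hqm, hq⟩ := (Lp.aestronglyMeasurable p)
  refine ⟨{x | q x = 1}, hqm.measurable (measurableSet_singleton 1), fun f => ⟨?_, ?_⟩⟩
  · intro hf
    filter_upwards [horth f hf, hq] with x hx h3 h4
    rw [h3] at hx
    rcases mul_eq_zero.1 hx with h5 | h5
    · exfalso
      apply h4
      have : (1 : ℂ) - q x = 0 := (map_eq_zero (starRingEnd ℂ)).1 h5
      exact (sub_eq_zero.1 this).symm
    · exact h5
  · intro hf
    -- `f` is in the closure of `M`
    have hfM : f ∈ Mᗮᗮ := by
      rw [Submodule.mem_orthogonal]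
      intro g hg
      -- `g` is orthogonal to `z^n p`
      have h3 := ae_zero_of_orth (g := g) (f := p) (fun n =>
        Submodule.inner_left_of_mem_orthogonal (mulE_mem h1 h2 hpM n) hg)
      rw [L2.inner_def]
      rw [← integral_zero X ℂ (μ := mu)]
      apply integral_congr_ae
      filter_upwards [h3, hf, hq] with x hx h4 h5
      by_cases h6 : q x = 1
      · rw [h5, h6, mul_one] at hx
        simp only [RCLike.inner_apply]
        rw [hx, mul_zero]
      · rw [h4 h6]
        simp
    rwa [Submodule.orthogonal_orthogonal] at hfM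

end Pool.Agent.H460U
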