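import Pool.Agent.H460U.TR.Defs3
import Pool.Agent.H460U.TR.BH1

/-! BH3 (project TR, part 2): structure of the closed subspaces of `L²(X; C²)` that are invariant
under multiplication by `z` (Beurling - Lax - Helson for multiplicity two). -/

set_option autoImplicit false

open MeasureTheory Complex Filter
open scoped ComplexConjugate Matrix Topology InnerProductSpace

namespace Pool.Agent.H460U
namespace BH3

open BH1

/-- `L²(X; C²)` -/
abbrev K := PiLp 2 (fun _ : Fin 2 => L2)

/-- pointwise product -/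
noncomputable def br (f g : K) (x : X) : ℂ := ∑ i : Fin 2, conj (f i x) * g i x

lemma int1 (f g : L2) : Integrable (fun x => conj (f x) * g x) mu := by
  have := L2.integrable_inner (𝕜 := ℂ) f g
  refine this.congr (ae_of_all _ fun x => ?_)
  simp [RCLike.inner_apply, mul_comm]

lemma br_int (f g : K) : Integrable (br f g) mu := by
  unfold br
  exact integrable_finsetSum _ fun i _ => int1 (f i) (g i)

lemma inner_eq (f g : K) : ⟪f, g⟫_ℂ = ∫ x, br f g x ∂mu := by
  rw [PiLp.inner_apply]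
  unfold br
  rw [integral_finsetSum _ fun i _ => int1 (f i) (g i)]
  refine Finset.sum_congr rfl fun i _ => ?_
  rw [L2.inner_def]
  apply integral_congr_ae
  refine ae_of_all _ fun x => ?_
  simp [RCLike.inner_apply, mul_comm]

lemma norm_e (n : ℤ) (x : X) : ‖e n x‖ = 1 := by
  rw [e, fourier_apply, Circle.norm_coe]

lemma conj_e (n : ℤ) (x : X) : conj (e n x) = e (-n) x := by
  simp [e]

lemma e_zero (x : X) : e 0 x = 1 := by simp [e]

lemma mulE_add (n : ℤ) (f g : L2) : mulE n (f + g) = mulE n f + mulE n g := by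
  apply Lp.ext
  filter_upwards [coe_mulE n (f + g), coe_mulE n f, coe_mulE n g, Lp.coeFn_add f g,
    Lp.coeFn_add (mulE n f) (mulE n g)] with x h1 h2 h3 h4 h5
  rw [h1, h5, Pi.add_apply, h2, h3, h4, Pi.add_apply, mul_add]

lemma mulE_smul (n : ℤ) (c : ℂ) (f : L2) : mulE n (c • f) = c • mulE n f := by
  apply Lp.ext
  filter_upwards [coe_mulE n (c • f), coe_mulE n f, Lp.coeFn_smul c f,
    Lp.coeFn_smul c (mulE n f)] with x h1 h2 h4 h5
  rw [h1, h5, Pi.smul_apply, h2, h4, Pi.smul_apply, smul_eq_mul, smul_eq_mul]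
  ring

/-- multiplication by `e n` on pairs, as a function -/
noncomputable def zf (n : ℤ) (f : K) : K := WithLp.toLp 2 fun i => mulE n (f i)

lemma zf_ae (n : ℤ) (f : K) : ∀ᵐ x ∂mu, ∀ i, zf n f i x = e n x * f i x := by
  rw [ae_all_iff]
  intro i
  exact coe_mulE n (f i)

lemma inner_zf (m n : ℤ) (f g : K) :
    ⟪zf m f, zf n g⟫_ℂ = ∫ x, e (n - m) x * br f g x ∂mu := by
  rw [inner_eq]
  apply integral_congr_ae
  filter_upwards [zf_ae m f, zf_ae n g] with x h1 h2
  unfold br
  rw [Finset.mul_sum]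
  refine Finset.sum_congr rfl fun i _ => ?_
  rw [h1, h2, map_mul, conj_e, show n - m = -m + n by ring, e_add]
  ring

lemma zf_zero (f : K) : zf 0 f = f := by
  ext i : 1
  apply Lp.ext
  filter_upwards [zf_ae 0 f] with x h1
  rw [h1, e_zero, one_mul]

lemma zf_zf (m n : ℤ) (f : K) : zf m (zf n f) = zf (m + n) f := by
  ext i : 1
  apply Lp.ext
  filter_upwards [zf_ae m (zf n f), zf_ae n f, zf_ae (m + n) f] with x h1 h2 h3
  rw [h1, h2, h3, e_add]
  ring

/-- multiplication by `e n` on pairs -/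
noncomputable def zK (n : ℤ) : K →ₗᵢ[ℂ] K where
  toFun := zf n
  map_add' f g := by
    ext i : 1
    exact mulE_add n (f i) (g i)
  map_smul' c f := by
    ext i : 1
    exact mulE_smul n c (f i)
  norm_map' f := by
    have h1 : ⟪zf n f, zf n f⟫_ℂ = ⟪f, f⟫_ℂ := by
      rw [inner_zf, sub_self, inner_eq]
      simp only [e_zero, one_mul]
    have h2 : ‖zf n f‖ ^ 2 = ‖f‖ ^ 2 := by
      rw [← inner_self_eq_norm_sq (𝕜 := ℂ), ← inner_self_eq_norm_sq (𝕜 := ℂ), h1]
    exact (pow_left_inj₀ (norm_nonneg _) (norm_nonneg _) two_ne_zero).1 h2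

lemma zK_ae (n : ℤ) (f : K) : ∀ᵐ x ∂mu, ∀ i, zK n f i x = e n x * f i x := zf_ae n f

lemma inner_zK (m n : ℤ) (f g : K) :
    ⟪zK m f, zK n g⟫_ℂ = ∫ x, e (n - m) x * br f g x ∂mu := inner_zf m n f g

lemma zK_zero (f : K) : zK 0 f = f := zf_zero f

lemma zK_zK (m n : ℤ) (f : K) : zK m (zK n f) = zK (m + n) f := zf_zf m n f

lemma inner_z_left (m n : ℤ) (f g : K) : ⟪zK m f, zK n g⟫_ℂ = ⟪f, zK (n - m) g⟫_ℂ := by
  rw [inner_zK, ← zK_zero f, inner_zK, zK_zero, sub_zero]

/-- uniqueness -/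
lemma br_zero {f g : K} (h : ∀ n : ℤ, ⟪f, zK n g⟫_ℂ = 0) : ∀ᵐ x ∂mu, br f g x = 0 := by
  have := ae_zero_of_fourier (br_int f g) (by
    intro n
    have h1 := h n
    rw [← zK_zero f, inner_zK, sub_zero] at h1
    exact h1)
  exact this

lemma int_e {n : ℤ} (hn : n ≠ 0) : ∫ x, e n x ∂mu = 0 := by
  have h1 : ∀ x : X, e n (x + (((1 : ℝ) / 2 / n : ℝ) : X)) = -e n x := fun x =>
    fourier_add_half_inv_index (T := 1) hn one_pos x
  have h2 : ∫ x, e n (x + (((1 : ℝ) / 2 / n : ℝ) : X)) ∂mu = ∫ x, e n x ∂mu :=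
    integral_add_right_eq_self (fun x => e n x) _
  simp only [h1] at h2
  rw [integral_neg] at h2
  exact neg_eq_self.1 h2

lemma e_int (n : ℤ) : Integrable (e n) mu :=
  Integrable.of_bound ((fourier n).continuous.aestronglyMeasurable) 1
    (ae_of_all _ fun x => (norm_e n x).le)

lemma br_const {f g : K} (h : ∀ n : ℤ, n ≠ 0 → ⟪f, zK n g⟫_ℂ = 0) :
    ∀ᵐ x ∂mu, br f g x = ⟪f, g⟫_ℂ := by
  have hc : Integrable (fun x => br f g x - ⟪f, g⟫_ℂ) mu := (br_int f g).sub (integrable_const _)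
  have := ae_zero_of_fourier hc (by
    intro n
    have h0 : ∫ x, fourier n x * (br f g x - ⟪f, g⟫_ℂ) ∂mu =
        (∫ x, e n x * br f g x ∂mu) - (∫ x, e n x ∂mu) * ⟪f, g⟫_ℂ := by
      rw [← integral_mul_const, ← integral_sub]
      · apply integral_congr_ae
        refine ae_of_all _ fun x => ?_
        simp only [e]
        ring
      · exact (br_int f g).bdd_mul (c := 1) ((fourier n).continuous.aestronglyMeasurable)
          (ae_of_all _ fun x => (norm_e n x).le)
      · exact (e_int n).mul_const _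
    rw [h0]
    have h1 : ∫ x, e n x * br f g x ∂mu = ⟪f, zK n g⟫_ℂ := by
      conv_rhs => rw [← zK_zero f, inner_zK, sub_zero]
    rw [h1]
    by_cases hn : n = 0
    · subst hn
      rw [zK_zero]
      simp [e_zero]
    · rw [h n hn, int_e hn]
      simp)
  filter_upwards [this] with x hx
  exact sub_eq_zero.1 hx

/-! ### multiplication of a bounded pair by an `L²` function -/

/-- pairs bounded by one -/
def Bd1 (t : K) : Prop := ∀ᵐ x ∂mu, ∀ i, ‖t i x‖ ≤ 1

lemma memLp_mul {t : K} (ht : Bd1 t) (h : L2) (i : Fin 2) :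
    MemLp (fun x => h x * t i x) 2 mu := by
  refine (Lp.memLp h).of_le ((Lp.aestronglyMeasurable h).mul (Lp.aestronglyMeasurable (t i))) ?_
  filter_upwards [ht] with x hx
  rw [norm_mul]
  exact mul_le_of_le_one_right (norm_nonneg _) (hx i)

/-- the product `h t` -/
noncomputable def pm {t : K} (ht : Bd1 t) (h : L2) : K :=
  WithLp.toLp 2 fun i => (memLp_mul ht h i).toLp _

lemma pm_ae {t : K} (ht : Bd1 t) (h : L2) : ∀ᵐ x ∂mu, ∀ i, pm ht h i x = h x * t i x := by
  rw [ae_all_iff]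
  intro i
  exact MemLp.coeFn_toLp (memLp_mul ht h i)

lemma memLp_br {t : K} (ht : Bd1 t) (g : K) : MemLp (br t g) 2 mu := by
  unfold br
  refine memLp_finsetSum _ fun i _ => ?_
  refine (Lp.memLp (g i)).of_le
    ((continuous_conj.comp_aestronglyMeasurable (Lp.aestronglyMeasurable (t i))).mul
      (Lp.aestronglyMeasurable (g i))) ?_
  filter_upwards [ht] with x hx
  rw [norm_mul, RCLike.norm_conj]
  exact mul_le_of_le_one_left (norm_nonneg _) (hx i)

/-- the coefficient function `[t, g]` as an element of `L²` -/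
noncomputable def bL {t : K} (ht : Bd1 t) (g : K) : L2 := (memLp_br ht g).toLp _

lemma bL_ae {t : K} (ht : Bd1 t) (g : K) : ∀ᵐ x ∂mu, bL ht g x = br t g x :=
  MemLp.coeFn_toLp (memLp_br ht g)

/-- Parseval: an analytic function is orthogonal to the conjugates of functions without
coefficients with nonnegative index -/
lemma parseval {h k : X → ℂ} (hh : MemLp h 2 mu) (hk : MemLp k 2 mu) (hA : An h)
    (hz : ∀ n : ℤ, 0 ≤ n → ∫ x, e n x * k x ∂mu = 0) : ∫ x, h x * k x ∂mu = 0 := by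
  have hk' : MemLp (fun x => conj (k x)) 2 mu := hk.star
  have h1 : ⟪hk'.toLp _, hh.toLp _⟫_ℂ = ∫ x, h x * k x ∂mu := by
    rw [L2.inner_def]
    apply integral_congr_ae
    filter_upwards [MemLp.coeFn_toLp hk', MemLp.coeFn_toLp hh] with x h2 h3
    rw [h2, h3]
    simp [RCLike.inner_apply]
  rw [← h1]
  have h2 := (fourierBasis (T := 1)).hasSum_inner_mul_inner (hk'.toLp _) (hh.toLp _)
  have h3 : ∀ n : ℤ, ⟪hk'.toLp _, (fourierBasis (T := 1)) n⟫_ℂ *
      ⟪(fourierBasis (T := 1)) n, hh.toLp _⟫_ℂ = 0 := by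
    intro n
    rcases lt_or_ge n 0 with hn | hn
    · have : ⟪(fourierBasis (T := 1)) n, hh.toLp _⟫_ℂ = 0 := by
        rw [← HilbertBasis.repr_apply_apply, fourierBasis_repr]
        rw [← hA n hn]
        unfold fourierCoeff
        apply integral_congr_ae
        filter_upwards [MemLp.coeFn_toLp hh] with x h3
        rw [h3]
      rw [this, mul_zero]
    · have : ⟪hk'.toLp _, (fourierBasis (T := 1)) n⟫_ℂ = 0 := by
        rw [coe_fourierBasis, L2.inner_def, ← hz n hn]
        apply integral_congr_ae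
        filter_upwards [MemLp.coeFn_toLp hk', coeFn_fourierLp (T := 1) 2 n] with x h3 h4
        rw [h3, h4]
        simp [RCLike.inner_apply, e]
      rw [this, zero_mul]
  exact h2.unique (by simpa only [h3] using hasSum_zero)

/-- an analytic multiple of a pair stays in a closed invariant subspace -/
lemma pm_mem {S : Submodule ℂ K} (hS : IsClosed (S : Set K)) {t : K} (ht : Bd1 t)
    (hz : ∀ n : ℤ, 0 ≤ n → zK n t ∈ S) {h : L2} (hA : An h) : pm ht h ∈ S := by
  have : CompleteSpace S := hS.completeSpace_coe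
  have h1 : pm ht h ∈ Sᗮᗮ := by
    rw [Submodule.mem_orthogonal]
    intro w hw
    have h2 : ⟪w, pm ht h⟫_ℂ = ∫ x, h x * br w t x ∂mu := by
      rw [inner_eq]
      apply integral_congr_ae
      filter_upwards [pm_ae ht h] with x hx
      unfold br
      rw [Finset.mul_sum]
      refine Finset.sum_congr rfl fun i _ => ?_
      rw [hx]
      ring
    rw [h2]
    have h3 : MemLp (br w t) 2 mu := by
      have h4 : MemLp (fun x => conj (br t w x)) 2 mu := (memLp_br ht w).star
      refine h4.congr_norm ?_ ?_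
      · exact (br_int w t).aestronglyMeasurable
      · refine ae_of_all _ fun x => ?_
        congr 1
        unfold br
        rw [map_sum]
        refine Finset.sum_congr rfl fun i _ => ?_
        rw [map_mul, Complex.conj_conj, mul_comm]
    refine parseval (Lp.memLp h) h3 hA fun n hn => ?_
    have h5 := Submodule.inner_left_of_mem_orthogonal (hz n hn) hw
    rw [← zK_zero w, inner_zK, sub_zero] at h5
    exact h5
  rwa [Submodule.orthogonal_orthogonal] at h1

/-! ### pointwise algebra -/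

lemma br_add_right (f g h : K) : ∀ᵐ x ∂mu, br f (g + h) x = br f g x + br f h x := by
  have : ∀ᵐ x ∂mu, ∀ i, (g + h) i x = g i x + h i x := by
    rw [ae_all_iff]
    exact fun i => Lp.coeFn_add (g i) (h i)
  filter_upwards [this] with x hx
  unfold br
  rw [← Finset.sum_add_distrib]
  exact Finset.sum_congr rfl fun i _ => by rw [hx, mul_add]

lemma br_conj (f g : K) (x : X) : conj (br f g x) = br g f x := by
  unfold br
  rw [map_sum]
  exact Finset.sum_congr rfl fun i _ => by rw [map_mul, Complex.conj_conj, mul_comm]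

lemma br_zK (n : ℤ) (f g : K) : ∀ᵐ x ∂mu, br f (zK n g) x = e n x * br f g x := by
  filter_upwards [zK_ae n g] with x hx
  unfold br
  rw [Finset.mul_sum]
  exact Finset.sum_congr rfl fun i _ => by rw [hx]; ring

lemma inner_br_zero {f g : K} (h : ∀ᵐ x ∂mu, br f g x = 0) : ⟪f, g⟫_ℂ = 0 := by
  rw [inner_eq, ← integral_zero X ℂ (μ := mu)]
  exact integral_congr_ae h

lemma proj (S : Submodule ℂ K) (hS : IsClosed (S : Set K)) (f : K) :
    ∃ g ∈ S, f - g ∈ Sᗮ := by
  have : CompleteSpace S := hS.completeSpace_coe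
  exact ⟨S.starProjection f, S.starProjection_apply_mem f,
    S.sub_starProjection_mem_orthogonal f⟩

lemma coeff_inner (f g : K) (n : ℤ) : fourierCoeff (br f g) n = ⟪f, zK (-n) g⟫_ℂ := by
  rw [← zK_zero f, inner_zK, sub_zero, zK_zero]
  rfl

/-! ### the doubly invariant part and its complement -/

variable (M : Submodule ℂ K)

/-- the doubly invariant part -/
noncomputable def Md : Submodule ℂ K := ⨅ n : ℤ, M.comap (zK n).toLinearMap

variable {M}

lemma mem_Md {f : K} : f ∈ Md M ↔ ∀ n : ℤ, zK n f ∈ M := by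
  unfold Md
  rw [Submodule.mem_iInf]
  rfl

lemma Md_le : Md M ≤ M := fun f hf => by
  have := mem_Md.1 hf 0
  rwa [zK_zero] at this

lemma Md_z {f : K} (hf : f ∈ Md M) (n : ℤ) : zK n f ∈ Md M := by
  rw [mem_Md]
  intro k
  rw [zK_zK]
  exact mem_Md.1 hf _

lemma Md_closed (hM : IsClosed (M : Set K)) : IsClosed (Md M : Set K) := by
  have : (Md M : Set K) = ⋂ n : ℤ, (zK n) ⁻¹' (M : Set K) := by
    ext f
    simp only [SetLike.mem_coe, mem_Md, Set.mem_iInter, Set.mem_preimage]
  rw [this]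
  exact isClosed_iInter fun n => hM.preimage (zK n).continuous

/-- the complement -/
noncomputable def Ms (M : Submodule ℂ K) : Submodule ℂ K := M ⊓ (Md M)ᗮ

lemma Ms_closed (hM : IsClosed (M : Set K)) : IsClosed (Ms M : Set K) :=
  hM.inter (Submodule.isClosed_orthogonal _)

lemma orth_z {g : K} (hg : g ∈ (Md M)ᗮ) (n : ℤ) : zK n g ∈ (Md M)ᗮ := by
  rw [Submodule.mem_orthogonal]
  intro f hf
  have h1 := Submodule.inner_right_of_mem_orthogonal (Md_z hf (-n)) hg
  rw [← zK_zero g, inner_z_left, zero_sub, neg_neg] at h1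
  exact h1

lemma Ms_z (hz : ∀ f ∈ M, zK 1 f ∈ M) {f : K} (hf : f ∈ Ms M) (n : ℕ) : zK n f ∈ Ms M := by
  induction n with
  | zero => rw [Nat.cast_zero, zK_zero]; exact hf
  | succ n ih =>
    have : zK ((n + 1 : ℕ) : ℤ) f = zK 1 (zK n f) := by
      rw [zK_zK]; congr 2; push_cast; ring
    rw [this]
    exact ⟨hz _ ih.1, orth_z ih.2 1⟩

lemma br_dual {f g : K} (hf : f ∈ Md M) (hg : g ∈ (Md M)ᗮ) : ∀ᵐ x ∂mu, br g f x = 0 :=
  br_zero fun n => Submodule.inner_left_of_mem_orthogonal (Md_z hf n) hg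

/-- wandering vectors -/
def Wd (M : Submodule ℂ K) (f : K) : Prop := f ∈ Ms M ∧ ∀ g ∈ Ms M, ⟪f, zK 1 g⟫_ℂ = 0

lemma Wd_z (hz : ∀ f ∈ M, zK 1 f ∈ M) {f g : K} (hf : Wd M f) (hg : g ∈ Ms M) (n : ℕ)
    (hn : n ≠ 0) : ⟪f, zK n g⟫_ℂ = 0 := by
  obtain ⟨k, rfl⟩ := Nat.exists_eq_succ_of_ne_zero hn
  have : zK ((k.succ : ℕ) : ℤ) g = zK 1 (zK k g) := by
    rw [zK_zK]; congr 2; push_cast; ring
  rw [this]
  exact hf.2 _ (Ms_z hz hg k)

lemma Wd_br (hz : ∀ f ∈ M, zK 1 f ∈ M) {f g : K} (hf : Wd M f) (hg : Wd M g) :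
    ∀ᵐ x ∂mu, br f g x = ⟪f, g⟫_ℂ := by
  refine br_const fun n hn => ?_
  rcases lt_or_gt_of_ne hn with h | h
  · obtain ⟨k, hk⟩ := Int.eq_ofNat_of_zero_le (show 0 ≤ -n by omega)
    have h1 := Wd_z hz hg hf.1 k (by rintro rfl; omega)
    have h2 : ⟪f, zK n g⟫_ℂ = ⟪zK k f, g⟫_ℂ := by
      rw [← zK_zero g, inner_z_left, zK_zK, zero_sub, ← hk, neg_neg, add_zero]
    rw [h2, ← inner_conj_symm, h1, map_zero]
  · obtain ⟨k, rfl⟩ := Int.eq_ofNat_of_zero_le h.le
    exact Wd_z hz hf hg.1 k (by rintro rfl; omega)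

lemma Wd_smul {f : K} (hf : Wd M f) (c : ℂ) : Wd M (c • f) :=
  ⟨Submodule.smul_mem _ _ hf.1, fun g hg => by rw [inner_smul_left, hf.2 g hg, mul_zero]⟩

lemma Wd_bd (hz : ∀ f ∈ M, zK 1 f ∈ M) {f : K} (hf : Wd M f) (h1 : ⟪f, f⟫_ℂ = 1) : Bd1 f := by
  filter_upwards [Wd_br hz hf hf] with x hx i
  rw [h1] at hx
  unfold br at hx
  have h2 : ∀ i, conj (f i x) * f i x = ((‖f i x‖ ^ 2 : ℝ) : ℂ) := fun i => by
    rw [Complex.conj_mul']
    push_cast
    rfl
  simp only [h2] at hx
  rw [Fin.sum_univ_two] at hx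
  have h3 : ‖f 0 x‖ ^ 2 + ‖f 1 x‖ ^ 2 = 1 := by exact_mod_cast hx
  have h4 : ‖f i x‖ ^ 2 ≤ 1 := by
    fin_cases i
    · show ‖f 0 x‖ ^ 2 ≤ 1
      nlinarith [sq_nonneg ‖f 1 x‖]
    · show ‖f 1 x‖ ^ 2 ≤ 1
      nlinarith [sq_nonneg ‖f 0 x‖]
  nlinarith [norm_nonneg (f i x)]

/-- orthonormal families of wandering vectors -/
def On (M : Submodule ℂ K) {r : ℕ} (θ : Fin r → K) : Prop :=
  (∀ a, Wd M (θ a)) ∧ ∀ a b, ⟪θ a, θ b⟫_ℂ = if a = b then 1 else 0

lemma On_three (hz : ∀ f ∈ M, zK 1 f ∈ M) (θ : Fin 3 → K) (h : On M θ) : False := by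
  have h1 : ∀ᵐ x ∂mu, ∀ a b, br (θ a) (θ b) x = if a = b then 1 else 0 := by
    rw [ae_all_iff]
    intro a
    rw [ae_all_iff]
    intro b
    filter_upwards [Wd_br hz (h.1 a) (h.1 b)] with x hx
    rw [hx, h.2]
  obtain ⟨x, hx⟩ := h1.exists
  let v : Fin 3 → EuclideanSpace ℂ (Fin 2) := fun a => WithLp.toLp 2 fun i => θ a i x
  have hv : Orthonormal ℂ v := by
    rw [orthonormal_iff_ite]
    intro a b
    rw [← hx a b, PiLp.inner_apply]
    unfold br
    exact Finset.sum_congr rfl fun i _ => by simp [v, RCLike.inner_apply, mul_comm]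
  have := hv.linearIndependent.fintype_card_le_finrank
  simp at this

lemma exists_max (hz : ∀ f ∈ M, zK 1 f ∈ M) : ∃ (r : ℕ) (θ : Fin r → K), On M θ ∧
    ∀ g, Wd M g → (∀ a, ⟪θ a, g⟫_ℂ = 0) → g = 0 := by
  by_contra hcon
  push Not at hcon
  have h1 : ∀ r : ℕ, ∃ θ : Fin r → K, On M θ := by
    intro r
    induction r with
    | zero => exact ⟨Fin.elim0, fun a => a.elim0, fun a => a.elim0⟩
    | succ r ih =>
      obtain ⟨θ, hθ⟩ := ih
      obtain ⟨g, hg, hgo, hg0⟩ := hcon r θ hθ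
      have hn : (‖g‖ : ℂ) ≠ 0 := by
        simpa using hg0
      refine ⟨Fin.cons ((‖g‖ : ℂ)⁻¹ • g) θ, ?_, ?_⟩
      · intro a
        refine Fin.cases ?_ (fun a => ?_) a
        · rw [Fin.cons_zero]
          exact Wd_smul hg _
        · rw [Fin.cons_succ]
          exact hθ.1 a
      · intro a b
        refine Fin.cases ?_ (fun a => ?_) a <;> refine Fin.cases ?_ (fun b => ?_) b
        · rw [Fin.cons_zero, inner_smul_left, inner_smul_right, inner_self_eq_norm_sq_to_K]
          simp only [if_true, map_inv₀, Complex.conj_ofReal]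
          field_simp
          rfl
        · rw [Fin.cons_zero, Fin.cons_succ, inner_smul_left, ← inner_conj_symm, hgo b]
          simp [(Fin.succ_ne_zero b).symm]
        · rw [Fin.cons_zero, Fin.cons_succ, inner_smul_right, hgo a]
          simp [Fin.succ_ne_zero]
        · rw [Fin.cons_succ, Fin.cons_succ, hθ.2]
          simp
  obtain ⟨θ, hθ⟩ := h1 3
  exact On_three hz θ hθ

/-- Wold: nothing is pointwise orthogonal to the wandering vectors -/
lemma wold (hM : IsClosed (M : Set K)) (hz : ∀ f ∈ M, zK 1 f ∈ M) {r : ℕ} {θ : Fin r → K}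
    (hθ : On M θ) (hmax : ∀ g, Wd M g → (∀ a, ⟪θ a, g⟫_ℂ = 0) → g = 0) {g : K} (hg : g ∈ Ms M)
    (h0 : ∀ a, ∀ᵐ x ∂mu, br (θ a) g x = 0) : g = 0 := by
  have step : ∀ g, g ∈ Ms M → (∀ a, ∀ᵐ x ∂mu, br (θ a) g x = 0) →
      zK (-1) g ∈ Ms M ∧ ∀ a, ∀ᵐ x ∂mu, br (θ a) (zK (-1) g) x = 0 := by
    intro g hg h0
    have hcl : IsClosed (((Ms M).map (zK 1).toLinearMap : Submodule ℂ K) : Set K) := by
      rw [Submodule.map_coe]
      exact (zK 1).isometry.isClosedEmbedding.isClosedMap _ (Ms_closed hM)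
    obtain ⟨_, ⟨u, hu, rfl⟩, hv⟩ := proj _ hcl g
    have hvM : g - (zK 1).toLinearMap u ∈ Ms M :=
      Submodule.sub_mem _ hg (by have := Ms_z hz hu 1; exact_mod_cast this)
    have hvW : Wd M (g - (zK 1).toLinearMap u) := ⟨hvM, fun w hw =>
      Submodule.inner_left_of_mem_orthogonal (Submodule.mem_map_of_mem hw) hv⟩
    have hv0 := hmax _ hvW (fun a => by
      rw [inner_sub_right, inner_br_zero (h0 a)]
      have := (hθ.1 a).2 u hu
      rw [zero_sub, neg_eq_zero]
      exact this)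
    rw [sub_eq_zero] at hv0
    constructor
    · have : zK (-1) g = u := by
        rw [hv0]
        show zK (-1) (zK 1 u) = u
        rw [zK_zK, neg_add_cancel, zK_zero]
      rw [this]
      exact hu
    · intro a
      filter_upwards [h0 a, br_zK (-1) (θ a) g] with x h1 h2
      rw [h2, h1, mul_zero]
  have h1 : ∀ n : ℕ, zK (-n) g ∈ Ms M ∧ ∀ a, ∀ᵐ x ∂mu, br (θ a) (zK (-n) g) x = 0 := by
    intro n
    induction n with
    | zero => rw [Nat.cast_zero, neg_zero, zK_zero]; exact ⟨hg, h0⟩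
    | succ n ih =>
      have h2 := step _ ih.1 ih.2
      have h3 : zK (-1) (zK (-n) g) = zK (-((n + 1 : ℕ) : ℤ)) g := by
        rw [zK_zK]; congr 2; push_cast; ring
      rw [h3] at h2
      exact h2
  have h2 : g ∈ Md M := by
    rw [mem_Md]
    intro n
    rcases le_or_gt 0 n with h | h
    · obtain ⟨k, rfl⟩ := Int.eq_ofNat_of_zero_le h
      exact (Ms_z hz hg k).1
    · obtain ⟨k, hk⟩ := Int.eq_ofNat_of_zero_le (show 0 ≤ -n by omega)
      have := (h1 k).1.1
      rwa [← hk, neg_neg] at this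
  exact inner_self_eq_zero.1 (Submodule.inner_right_of_mem_orthogonal h2 hg.2)

/-- the constant function one -/
noncomputable def one : L2 := (memLp_const (1 : ℂ)).toLp (fun _ : X => (1 : ℂ))

lemma one_ae : ∀ᵐ x ∂mu, one x = 1 := MemLp.coeFn_toLp _

/-- the constant vectors -/
noncomputable def cv (i : Fin 2) : K := WithLp.toLp 2 fun j => if j = i then one else 0

lemma br_cv (i : Fin 2) (f : K) : ∀ᵐ x ∂mu, br (cv i) f x = f i x := by
  filter_upwards [one_ae, Lp.coeFn_zero ℂ 2 mu] with x h1 h2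
  unfold br
  have : ∀ j : Fin 2, cv i j x = if j = i then 1 else 0 := by
    intro j
    show (if j = i then one else 0 : L2) x = _
    by_cases h : j = i
    · rw [if_pos h, if_pos h, h1]
    · rw [if_neg h, if_neg h, h2]
      rfl
  simp only [this]
  simp

lemma br_sub_left (f g h : K) : ∀ᵐ x ∂mu, br (f - g) h x = br f h x - br g h x := by
  have : ∀ᵐ x ∂mu, ∀ i, (f - g) i x = f i x - g i x := by
    rw [ae_all_iff]
    exact fun i => Lp.coeFn_sub (f i) (g i)
  filter_upwards [this] with x hx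
  unfold br
  rw [← Finset.sum_sub_distrib]
  exact Finset.sum_congr rfl fun i _ => by rw [hx, map_sub, sub_mul]

lemma sum_ae {r : ℕ} (F : Fin r → K) : ∀ᵐ x ∂mu, ∀ i, (∑ a, F a) i x = ∑ a, F a i x := by
  induction r with
  | zero =>
    filter_upwards [Lp.coeFn_zero ℂ 2 mu] with x hx i
    simp only [Finset.univ_eq_empty, Finset.sum_empty]
    exact hx
  | succ r ih =>
    have h1 : ∀ᵐ x ∂mu, ∀ i, (F 0 + ∑ a : Fin r, F a.succ) i x =
        F 0 i x + (∑ a : Fin r, F a.succ) i x := by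
      rw [ae_all_iff]
      exact fun i => Lp.coeFn_add (F 0 i) ((∑ a : Fin r, F a.succ) i)
    filter_upwards [ih fun a => F a.succ, h1] with x hx hy i
    rw [Fin.sum_univ_succ, Fin.sum_univ_succ, hy, hx]

lemma An_congr {f g : X → ℂ} (h : f =ᵐ[mu] g) (hf : An f) : An g := by
  intro n hn
  rw [← hf n hn]
  unfold fourierCoeff
  apply integral_congr_ae
  filter_upwards [h] with x hx
  rw [hx]

/-- the structure theorem for closed invariant subspaces of `L²(X; C²)` -/
theorem structK {M : Submodule ℂ K} (hM : IsClosed (M : Set K)) (hz : ∀ f ∈ M, zK 1 f ∈ M) :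
    ∃ (r : ℕ) (θ : Fin r → K) (P : Fin 2 → K),
      (∀ᵐ x ∂mu, ∀ a b, br (θ a) (θ b) x = if a = b then 1 else 0) ∧
      (∀ᵐ x ∂mu, ∀ i j, P i j x = conj (P j i x)) ∧
      (∀ᵐ x ∂mu, ∀ i j, br (P i) (P j) x = P j i x) ∧
      (∀ᵐ x ∂mu, ∀ i a, br (P i) (θ a) x = 0) ∧
      ∀ f : K, f ∈ M ↔ ((∀ᵐ x ∂mu, ∀ i, f i x - br (P i) f x =
        ∑ a : Fin r, br (θ a) f x * θ a i x) ∧ ∀ a, An (br (θ a) f)) := by
  obtain ⟨r, θ, hθ, hmax⟩ := exists_max hz
  choose P hP hPo using fun i : Fin 2 => proj (Md M) (Md_closed hM) (cv i)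
  have F1 : ∀ f ∈ Md M, ∀ᵐ x ∂mu, ∀ i, br (P i) f x = f i x := by
    intro f hf
    rw [ae_all_iff]
    intro i
    filter_upwards [br_dual hf (hPo i), br_sub_left (cv i) (P i) f, br_cv i f] with x h1 h2 h3
    rw [h2, h3] at h1
    exact (sub_eq_zero.1 h1).symm
  have F2 : ∀ g ∈ (Md M)ᗮ, ∀ᵐ x ∂mu, ∀ i, br (P i) g x = 0 := by
    intro g hg
    rw [ae_all_iff]
    intro i
    filter_upwards [br_dual (hP i) hg] with x h1
    rw [← br_conj, h1, map_zero]
  have hbd : ∀ a, Bd1 (θ a) := fun a => Wd_bd hz (hθ.1 a) (by rw [hθ.2, if_pos rfl])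
  have hθθ : ∀ᵐ x ∂mu, ∀ a b, br (θ a) (θ b) x = if a = b then 1 else 0 := by
    rw [ae_all_iff]
    intro a
    rw [ae_all_iff]
    intro b
    filter_upwards [Wd_br hz (hθ.1 a) (hθ.1 b)] with x hx
    rw [hx, hθ.2]
  have hPP : ∀ᵐ x ∂mu, ∀ i j, br (P i) (P j) x = P j i x := by
    have : ∀ᵐ x ∂mu, ∀ j i, br (P i) (P j) x = P j i x := by
      rw [ae_all_iff]
      exact fun j => F1 (P j) (hP j)
    filter_upwards [this] with x hx i j
    exact hx j i
  have hzθ : ∀ a (n : ℤ), 0 ≤ n → zK n (θ a) ∈ Ms M := by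
    intro a n hn
    obtain ⟨k, rfl⟩ := Int.eq_ofNat_of_zero_le hn
    exact Ms_z hz (hθ.1 a).1 k
  refine ⟨r, θ, P, hθθ, ?_, hPP, ?_, fun f => ?_⟩
  · filter_upwards [hPP] with x hx i j
    rw [← hx j i, ← br_conj (P i) (P j) x, hx i j]
  · have : ∀ᵐ x ∂mu, ∀ a i, br (P i) (θ a) x = 0 := by
      rw [ae_all_iff]
      exact fun a => F2 (θ a) (hθ.1 a).1.2
    filter_upwards [this] with x hx i a
    exact hx a i
  · obtain ⟨fd, hfd, hfs⟩ := proj (Md M) (Md_closed hM) f
    set fs := f - fd with hfs'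
    have hf : f = fd + fs := by rw [hfs']; abel
    have hcoord : ∀ᵐ x ∂mu, ∀ i, f i x = fd i x + fs i x := by
      rw [ae_all_iff]
      intro i
      have := Lp.coeFn_add (fd i) (fs i)
      filter_upwards [this] with x hx
      have e : f i = fd i + fs i := by rw [hf]; rfl
      rw [e, hx]
      rfl
    have hpr : ∀ᵐ x ∂mu, ∀ i, f i x - br (P i) f x = fs i x := by
      have h1 : ∀ᵐ x ∂mu, ∀ i, br (P i) (fd + fs) x = br (P i) fd x + br (P i) fs x := by
        rw [ae_all_iff]
        exact fun i => br_add_right _ _ _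
      filter_upwards [hcoord, h1, F1 fd hfd, F2 fs hfs] with x h2 h3 h4 h5 i
      rw [← hf] at h3
      rw [h3, h4, h5, h2]
      ring
    have hθf : ∀ᵐ x ∂mu, ∀ a, br (θ a) f x = br (θ a) fs x := by
      rw [ae_all_iff]
      intro a
      filter_upwards [br_add_right (θ a) fd fs, br_dual hfd (hθ.1 a).1.2] with x h1 h2
      rw [← hf] at h1
      rw [h1, h2, zero_add]
    constructor
    · intro hfM
      have hfsM : fs ∈ Ms M := ⟨Submodule.sub_mem _ hfM (Md_le hfd), hfs⟩
      have hAn : ∀ a, An (br (θ a) fs) := by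
        intro a n hn
        rw [coeff_inner]
        obtain ⟨k, hk⟩ := Int.eq_ofNat_of_zero_le (show 0 ≤ -n by omega)
        rw [hk]
        exact Wd_z hz (hθ.1 a) hfsM k (by rintro rfl; omega)
      have hAn' : ∀ a, An (bL (hbd a) fs) := fun a =>
        An_congr (by filter_upwards [bL_ae (hbd a) fs] with x hx; rw [hx]) (hAn a)
      -- the difference vanishes
      have hg0 : fs - ∑ a, pm (hbd a) (bL (hbd a) fs) = 0 := by
        apply wold hM hz hθ hmax
        · exact Submodule.sub_mem _ hfsM (Submodule.sum_mem _ fun a _ =>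
            pm_mem (Ms_closed hM) (hbd a) (hzθ a) (hAn' a))
        · intro b
          have h1 : ∀ᵐ x ∂mu, ∀ a i, pm (hbd a) (bL (hbd a) fs) i x =
              bL (hbd a) fs x * θ a i x := by
            rw [ae_all_iff]
            exact fun a => pm_ae (hbd a) _
          have h2 : ∀ᵐ x ∂mu, ∀ a, bL (hbd a) fs x = br (θ a) fs x := by
            rw [ae_all_iff]
            exact fun a => bL_ae (hbd a) fs
          have h3 : ∀ᵐ x ∂mu, ∀ i, (fs - ∑ a, pm (hbd a) (bL (hbd a) fs)) i x =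
              fs i x - (∑ a, pm (hbd a) (bL (hbd a) fs)) i x := by
            rw [ae_all_iff]
            exact fun i => Lp.coeFn_sub (fs i) ((∑ a, pm (hbd a) (bL (hbd a) fs)) i)
          filter_upwards [h1, h2, h3, sum_ae fun a => pm (hbd a) (bL (hbd a) fs), hθθ] with
            x k1 k2 k3 k4 k5
          have e1 : br (θ b) (fs - ∑ a, pm (hbd a) (bL (hbd a) fs)) x =
              br (θ b) fs x - ∑ a, br (θ a) fs x * br (θ b) (θ a) x := by
            unfold br
            simp only [k3, k4, k1, k2, mul_sub, Finset.sum_sub_distrib, Finset.mul_sum]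
            congr 1
            rw [Finset.sum_comm]
            refine Finset.sum_congr rfl fun a _ => Finset.sum_congr rfl fun i _ => ?_
            unfold br
            ring
          rw [e1]
          simp [k5]
      refine ⟨?_, fun a => An_congr (by
        filter_upwards [hθf] with x hx; rw [hx a]) (hAn a)⟩
      have h1 : ∀ᵐ x ∂mu, ∀ a i, pm (hbd a) (bL (hbd a) fs) i x =
          bL (hbd a) fs x * θ a i x := by
        rw [ae_all_iff]
        exact fun a => pm_ae (hbd a) _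
      have h2 : ∀ᵐ x ∂mu, ∀ a, bL (hbd a) fs x = br (θ a) fs x := by
        rw [ae_all_iff]
        exact fun a => bL_ae (hbd a) fs
      filter_upwards [hpr, h1, h2, sum_ae fun a => pm (hbd a) (bL (hbd a) fs), hθf] with
        x k1 k2 k3 k4 k5 i
      rw [k1]
      have e1 : fs = ∑ a, pm (hbd a) (bL (hbd a) fs) := sub_eq_zero.1 hg0
      have e2 : fs i x = (∑ a, pm (hbd a) (bL (hbd a) fs)) i x := by
        conv_lhs => rw [e1]
      rw [e2, k4]
      exact Finset.sum_congr rfl fun a _ => by rw [k2, k3, k5]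
    · rintro ⟨h1, h2⟩
      have hAn' : ∀ a, An (bL (hbd a) f) := fun a =>
        An_congr (by filter_upwards [bL_ae (hbd a) f] with x hx; rw [hx]) (h2 a)
      have h3 : fs = ∑ a, pm (hbd a) (bL (hbd a) f) := by
        ext i : 1
        apply Lp.ext
        have h4 : ∀ᵐ x ∂mu, ∀ a i, pm (hbd a) (bL (hbd a) f) i x =
            bL (hbd a) f x * θ a i x := by
          rw [ae_all_iff]
          exact fun a => pm_ae (hbd a) _
        have h5 : ∀ᵐ x ∂mu, ∀ a, bL (hbd a) f x = br (θ a) f x := by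
          rw [ae_all_iff]
          exact fun a => bL_ae (hbd a) f
        filter_upwards [hpr, h1, h4, h5, sum_ae fun a => pm (hbd a) (bL (hbd a) f)] with
          x k1 k2 k3 k4 k5
        rw [← k1, k2, k5]
        exact Finset.sum_congr rfl fun a _ => by rw [k3, k4]
      have h4 : fs ∈ M := by
        rw [h3]
        exact Submodule.sum_mem _ fun a _ =>
          (pm_mem (Ms_closed hM) (hbd a) (hzθ a) (hAn' a)).1
      rw [hf]
      exact Submodule.add_mem _ (Md_le hfd) h4

end BH3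

open BH3 BH1

theorem t_BH3 : S_BH3 := by
  intro M hM hz
  let Φ : K →L[ℂ] L22 := (PiLp.proj 2 (fun _ : Fin 2 => L2) 0).prod
    (PiLp.proj 2 (fun _ : Fin 2 => L2) 1)
  have hΦ : ∀ f : K, Φ f = (f 0, f 1) := fun f => rfl
  have hM' : IsClosed ((M.comap Φ.toLinearMap : Submodule ℂ K) : Set K) := hM.preimage Φ.continuous
  obtain ⟨r, θ, P, h1, h2, h3, h4, h5⟩ := structK hM' (by
    intro f hf
    refine hz _ hf _ ?_ ?_
    · filter_upwards [zK_ae 1 f] with x hx
      exact hx 0
    · filter_upwards [zK_ae 1 f] with x hx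
      exact hx 1)
  refine ⟨r, fun a x i => θ a i x, fun x => Matrix.of fun i j => conj (P i j x),
    fun a i => Lp.aestronglyMeasurable (θ a i), fun i j =>
      continuous_conj.comp_aestronglyMeasurable (Lp.aestronglyMeasurable (P i j)), ?_, ?_⟩
  · filter_upwards [h1, h2, h3, h4] with x k1 k2 k3 k4
    refine ⟨?_, ?_, ?_, ?_⟩
    · ext i j
      rw [Matrix.conjTranspose_apply, Matrix.of_apply, Matrix.of_apply, Complex.star_def,
        Complex.conj_conj, k2 j i]
    · ext i j
      rw [Matrix.mul_apply, Matrix.of_apply]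
      simp only [Matrix.of_apply]
      have e1 : ∑ k, conj (P i k x) * conj (P k j x) = br (P i) (P j) x := by
        unfold br
        exact Finset.sum_congr rfl fun k _ => by rw [k2 j k]
      rw [e1, k3, k2 j i]
    · intro a
      ext i
      rw [Matrix.mulVec, dotProduct]
      simp only [Matrix.of_apply]
      exact k4 i a
    · intro a b
      exact k1 a b
  · intro p
    have e1 : p ∈ M ↔ (WithLp.toLp 2 ![p.1, p.2] : K) ∈ M.comap Φ.toLinearMap := Iff.rfl
    rw [e1, h5]
    have e2 : ∀ x i, (WithLp.toLp 2 ![p.1, p.2] : K) i x = vl p x i := by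
      intro x i
      fin_cases i <;> rfl
    have e3 : ∀ (g : K) x, br g (WithLp.toLp 2 ![p.1, p.2] : K) x =
        hp (fun i => g i x) (vl p x) := by
      intro g x
      unfold br hp
      exact Finset.sum_congr rfl fun i _ => by rw [e2]
    constructor
    · rintro ⟨k1, k2⟩
      refine ⟨?_, fun a => An_congr (ae_of_all _ fun x => e3 (θ a) x) (k2 a)⟩
      filter_upwards [k1] with x hx
      ext i
      have := hx i
      rw [e2, e3] at this
      rw [Pi.sub_apply, Finset.sum_apply, Matrix.mulVec, dotProduct]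
      simp only [Matrix.of_apply, Pi.smul_apply, smul_eq_mul]
      simp only [e3] at this
      exact this
    · rintro ⟨k1, k2⟩
      refine ⟨?_, fun a => An_congr (ae_of_all _ fun x => (e3 (θ a) x).symm) (k2 a)⟩
      filter_upwards [k1] with x hx i
      have := congrFun hx i
      rw [Pi.sub_apply, Finset.sum_apply, Matrix.mulVec, dotProduct] at this
      simp only [Matrix.of_apply, Pi.smul_apply, smul_eq_mul] at this
      rw [e2, e3]
      simp only [e3]
      exact this

end Pool.Agent.H460U
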