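import Pool.Agent.H460U.TR.Defs

/-! Project TR, part 2 (helper460): MP_03b738_an (Arveson's question on the doubled invariant
subspace lattice), a proper 2-transitive algebra; loops in U(3). -/

set_option autoImplicit false

open MeasureTheory Complex Filter
open scoped ComplexConjugate Matrix Topology InnerProductSpace

namespace Pool.Agent.H460U

noncomputable section

abbrev M3 := Matrix (Fin 3) (Fin 3) ℂ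
abbrev P3 := Fin 3 → Fin 3 → Polynomial ℂ

/-- evaluation of a polynomial matrix -/
def ev3 (p : P3) (ξ : ℂ) : M3 := Matrix.of fun i j => (p i j).eval ξ

/-- a loop with error at most `ε` -/
structure Loop3 (p : P3) (m : ℕ) (t : X → ℂ) (ε : ℝ) : Prop where
  pos : 0 < m
  mod : ¬ 3 ∣ m
  det : ∀ ξ : ℂ, (ev3 p ξ).det = ξ ^ m
  unit : ∀ ξ : ℂ, ‖ξ‖ = 1 → (ev3 p ξ)ᴴ * ev3 p ξ = 1
  uni : Uni t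
  cube : ∀ᵐ x ∂mu, t x ^ 3 = bl x ^ m
  near : (∫ x : X, ∑ i : Fin 3, ∑ j : Fin 3,
    ‖(t x)⁻¹ * ev3 p (bl x) i j - (1 : M3) i j‖ ^ 2 ∂mu) ≤ ε

/-- the parameters -/
structure Par3 (p : ℕ → P3) (m : ℕ → ℕ) (t : ℕ → X → ℂ) (N : ℕ → ℕ) : Prop where
  loop : ∀ k, Loop3 (p k) (m k) (t k) ((1 / 4 : ℝ) ^ k)
  zero : N 0 = 1
  dvd : ∀ k, 2 * N k ∣ N (k + 1)
  pos : ∀ k, 0 < N k
  growth : ∀ k, 2 ^ k * (∑ j ∈ Finset.range k, m j * N j * 200) ≤ N k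

def PP3 (p : ℕ → P3) (N : ℕ → ℕ) : ℕ → X → M3
  | 0, _ => 1
  | (k + 1), x => ev3 (p k) (bl (N k • x)) * PP3 p N k x

def TT3 (t : ℕ → X → ℂ) (N : ℕ → ℕ) : ℕ → X → ℂ
  | 0, _ => 1
  | (k + 1), x => t k (N k • x) * TT3 t N k x

def DD3 (m N : ℕ → ℕ) : ℕ → X → ℂ
  | 0, _ => 1
  | (k + 1), x => bl (N k • x) ^ (m k) * DD3 m N k x

def ww3 (m : ℕ → ℕ) (t : ℕ → X → ℂ) (N : ℕ → ℕ) (k : ℕ) (g x : X) : ℂ :=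
  DD3 m N k x * TT3 t N k (x + g) * (TT3 t N k x)⁻¹

structure IsPhi3 (p : ℕ → P3) (m : ℕ → ℕ) (t : ℕ → X → ℂ) (N : ℕ → ℕ) (Φ : X → M3) : Prop where
  meas : ∀ i j, AEStronglyMeasurable (fun x => Φ x i j) mu
  unit : ∀ᵐ x ∂mu, (Φ x)ᴴ * Φ x = 1
  inv : ∀ k : ℕ, ∀ g : X, N k • g = 0 → ∀ᵐ x ∂mu,
    ww3 m t N k g x • Φ (x + g) = Φ x * ((PP3 p N k x).adjugate * PP3 p N k (x + g))

def GP3 (Φ : X → M3) (f : Fin 3 → L2) : Prop :=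
  ∀ j : Fin 3, An (fun x => ∑ i : Fin 3, conj (Φ x i j) * f i x)

def InA3 (Φ : X → M3) (A : L2 →L[ℂ] L2) : Prop :=
  ∀ f : Fin 3 → L2, GP3 Φ f → GP3 Φ (fun i => A (f i))

/-! ### loops -/

/-- Fejer-Riesz, strictly positive case: a trigonometric polynomial
`sum_{k ≤ 2d} c_k z^(k-d)` which is real and positive on the circle is `|q|^2`. -/
def S_FR : Prop := ∀ (d : ℕ) (P : Polynomial ℂ), P.natDegree ≤ 2 * d →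
  (∀ z : ℂ, ‖z‖ = 1 → ∃ s : ℝ, 0 < s ∧ P.eval z = s * z ^ d) →
  ∃ q : Polynomial ℂ, q.natDegree ≤ d ∧
    ∀ z : ℂ, ‖z‖ = 1 → P.eval z = ((‖q.eval z‖ ^ 2 : ℝ) : ℂ) * z ^ d

/-- the branch of `ξ^(1/3)` -/
def rt (ξ : ℂ) : ℂ := Complex.exp (I * ((Complex.arg ξ / 3 : ℝ) : ℂ))

/-- polynomial approximation of `1/rt`, pointwise away from `-1` -/
def S_AP : Prop := ∃ (d : ℕ → ℕ) (P : ℕ → Polynomial ℂ), (∀ n, (P n).natDegree ≤ 2 * d n) ∧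
  (∀ n (ξ : ℂ), ‖ξ‖ = 1 → ‖(P n).eval ξ‖ < 1) ∧
  ∀ ξ : ℂ, ‖ξ‖ = 1 → ξ ≠ -1 →
    Tendsto (fun n => (P n).eval ξ * ξ⁻¹ ^ (d n)) atTop (𝓝 (rt ξ)⁻¹)

/-- SU(2) blocks: `a ξ^{-D} -> 1/rt` and `b -> 0` pointwise away from `-1` -/
def S_BLK : Prop := ∃ (D : ℕ → ℕ) (a b a' b' : ℕ → Polynomial ℂ),
  (∀ n (ξ : ℂ), ‖ξ‖ = 1 → ‖(a n).eval ξ‖ ^ 2 + ‖(b n).eval ξ‖ ^ 2 = 1) ∧
  (∀ n (ξ : ℂ), ‖ξ‖ = 1 → (a' n).eval ξ = ξ ^ (2 * D n) * conj ((a n).eval ξ) ∧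
    (b' n).eval ξ = ξ ^ (2 * D n) * conj ((b n).eval ξ)) ∧
  (∀ n, a n * a' n + b n * b' n = Polynomial.X ^ (2 * D n)) ∧
  ∀ ξ : ℂ, ‖ξ‖ = 1 → ξ ≠ -1 →
    Tendsto (fun n => (a n).eval ξ * ξ⁻¹ ^ (D n)) atTop (𝓝 (rt ξ)⁻¹) ∧
    Tendsto (fun n => (b n).eval ξ) atTop (𝓝 0)

def S_LP : Prop := ∀ ε : ℝ, 0 < ε → ∃ (p : P3) (m : ℕ) (t : X → ℂ), Loop3 p m t ε

def S_PAR3 : Prop := ∃ p m t N, Par3 p m t N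

/-! ### Phi -/

def S_TD3 : Prop := ∀ p m t N, Par3 p m t N → ∀ k, Uni (TT3 t N k) ∧
  Continuous (DD3 m N k) ∧ (∀ x, ‖DD3 m N k x‖ = 1) ∧ An (DD3 m N k) ∧
  (∀ᵐ x ∂mu, (TT3 t N k x) ^ 3 = DD3 m N k x) ∧ (∀ x, (PP3 p N k x).det = DD3 m N k x) ∧
  (∀ x, (PP3 p N k x)ᴴ * PP3 p N k x = 1)

def S_PHI3 : Prop := ∀ p m t N, Par3 p m t N → ∃ Φ : X → M3, IsPhi3 p m t N Φ

def S_PAN3 : Prop := ∀ (p : ℕ → P3) (N : ℕ → ℕ), (∀ k, 0 < N k) → ∀ k (g : X) (i j : Fin 3),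
  Continuous (fun x => ((PP3 p N k x).adjugate * PP3 p N k (x + g)) i j) ∧
  An (fun x => ((PP3 p N k x).adjugate * PP3 p N k (x + g)) i j)

/-! ### scalar structure with a power `q` -/

def Rep3 (m : ℕ → ℕ) (t : ℕ → X → ℂ) (N : ℕ → ℕ) (q : ℕ) (φ : X → ℂ) (k : ℕ) : Prop :=
  ∃ (s : ℤ) (Ψ : X → ℂ) (i : ℕ → ℕ), Uni Ψ ∧ (∀ j, i j ≤ q * m j) ∧
    ∀ᵐ x ∂mu, TT3 t N k x ^ q * φ x =
      e s x * Ψ (N k • x) * ∏ j ∈ Finset.range k, bl (N j • x) ^ (i j)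

def Inv3 (m : ℕ → ℕ) (t : ℕ → X → ℂ) (N : ℕ → ℕ) (q : ℕ) (φ : X → ℂ) : Prop :=
  ∀ (k : ℕ) (g : X), N k • g = 0 → An (fun x => ww3 m t N k g x ^ q * φ (x + g) * conj (φ x))

def S_STEP3 : Prop := ∀ p m t N, Par3 p m t N → ∀ (q : ℕ), (q = 1 ∨ q = 2) → ∀ φ, Uni φ →
  Inv3 m t N q φ → ∀ k, Rep3 m t N q φ k → Rep3 m t N q φ (k + 1)

def S_FA3 : Prop := ∀ p m t N, Par3 p m t N → ∀ (q : ℕ), (q = 1 ∨ q = 2) → ∀ φ, Uni φ →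
  (∀ k, Rep3 m t N q φ k) → ∀ k : ℕ,
  ∃ (a : ℤ) (c : ℂ), a ≠ 0 ∧ ‖c‖ = 1 ∧ ∀ᵐ x ∂mu,
    ‖(φ (x + ((1 / (2 * (N k : ℝ)) : ℝ) : X))) ^ 3 -
      c * (bl (N k • x + ((1 / 2 : ℝ) : X)) / bl (N k • x)) ^ a * (φ x) ^ 3‖ ≤ (1 / 2 : ℝ) ^ k

/-- the abstract contradiction (used with `F = φ^3`) -/
def S_CON3 : Prop := ∀ (N : ℕ → ℕ), N 0 = 1 → (∀ k, 0 < N k) → (∀ k, 2 * N k ∣ N (k + 1)) →
  ∀ F : X → ℂ, Uni F → (∀ k : ℕ, ∃ (a : ℤ) (c : ℂ), a ≠ 0 ∧ ‖c‖ = 1 ∧ ∀ᵐ x ∂mu,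
    ‖F (x + ((1 / (2 * (N k : ℝ)) : ℝ) : X)) -
      c * (bl (N k • x + ((1 / 2 : ℝ) : X)) / bl (N k • x)) ^ a * F x‖ ≤ (1 / 2 : ℝ) ^ k) → False

def S_NO3 : Prop := ∀ p m t N, Par3 p m t N → ∀ (q : ℕ), (q = 1 ∨ q = 2) → ∀ φ, Uni φ →
  Inv3 m t N q φ → False

/-! ### operators -/

def S_GL3 : Prop := ∀ Φ : X → M3, (∀ i j, AEStronglyMeasurable (fun x => Φ x i j) mu) →
  (∀ᵐ x ∂mu, (Φ x)ᴴ * Φ x = 1) → ∀ (j : Fin 3) (n : ℤ), ∃ a : Fin 3 → L2, ∀ f : Fin 3 → L2,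
    fourierCoeff (fun x => ∑ i : Fin 3, conj (Φ x i j) * f i x) n = ∑ i : Fin 3, ⟪a i, f i⟫_ℂ

def S_AG3 : Prop := ∀ p m t N Φ, Par3 p m t N → IsPhi3 p m t N Φ → ∀ (k : ℕ) (g : X),
  N k • g = 0 → ∀ A : L2 →L[ℂ] L2,
  (∀ f : L2, (A f : X → ℂ) =ᵐ[mu] fun x => ww3 m t N k g x * f (x + g)) → InA3 Φ A

def S_AU3 : Prop := ∀ Φ : X → M3, (∀ i j, AEStronglyMeasurable (fun x => Φ x i j) mu) →
  (∀ᵐ x ∂mu, (Φ x)ᴴ * Φ x = 1) →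
  (∀ A : L2 →L[ℂ] L2, (∀ f : L2, (A f : X → ℂ) =ᵐ[mu] fun x => e 1 x * f x) → InA3 Φ A) ∧
  (∀ A : L2 →L[ℂ] L2, (∀ f : L2, (A f : X → ℂ) =ᵐ[mu] fun x => e (-1) x * f x) → ¬ InA3 Φ A)

/-- bounded functions invariant under the rotations are constant -/
def S_ERG3 : Prop := ∀ N : ℕ → ℕ, N 0 = 1 → (∀ k, 0 < N k) → (∀ k, 2 * N k ∣ N (k + 1)) →
  ∀ f : X → ℂ, Bd f → (∀ k (g : X), N k • g = 0 → ∀ᵐ x ∂mu, f (x + g) = f x) →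
  ∃ c : ℂ, ∀ᵐ x ∂mu, f x = c

/-- pairs -/
abbrev L22 := L2 × L2

/-- value of a pair at a point -/
def vl (p : L22) (x : X) : Fin 2 → ℂ := ![p.1 x, p.2 x]

/-- the hermitian product in `C²`, conjugate linear in the first variable -/
def hp (u v : Fin 2 → ℂ) : ℂ := ∑ i : Fin 2, conj (u i) * v i

/-- structure of the invariant subspaces of `U ⊕ U` -/
def S_BH3 : Prop := ∀ M : Submodule ℂ L22, IsClosed (M : Set L22) →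
  (∀ p ∈ M, ∀ h : L22, (h.1 : X → ℂ) =ᵐ[mu] (fun x => e 1 x * p.1 x) →
    (h.2 : X → ℂ) =ᵐ[mu] (fun x => e 1 x * p.2 x) → h ∈ M) →
  ∃ (r : ℕ) (θ : Fin r → X → Fin 2 → ℂ) (pr : X → M2),
    (∀ a i, AEStronglyMeasurable (fun x => θ a x i) mu) ∧
    (∀ i j, AEStronglyMeasurable (fun x => pr x i j) mu) ∧
    (∀ᵐ x ∂mu, (pr x)ᴴ = pr x ∧ pr x * pr x = pr x ∧ (∀ a, (pr x).mulVec (θ a x) = 0) ∧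
      ∀ a b, hp (θ a x) (θ b x) = if a = b then 1 else 0) ∧
    ∀ p : L22, p ∈ M ↔ ((∀ᵐ x ∂mu, vl p x - (pr x).mulVec (vl p x) =
        ∑ a : Fin r, hp (θ a x) (vl p x) • θ a x) ∧
      ∀ a, An (fun x => hp (θ a x) (vl p x)))

/-- two-transitivity -/
def S_TRA3 : Prop := ∀ p m t N Φ, Par3 p m t N → IsPhi3 p m t N Φ → ∀ M : Submodule ℂ L22,
  IsClosed (M : Set L22) →
  (∀ A : L2 →L[ℂ] L2, InA3 Φ A → ∀ f ∈ M, (A f.1, A f.2) ∈ M) →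
  ∀ B : L2 →L[ℂ] L2, ∀ f ∈ M, (B f.1, B f.2) ∈ M

/-- the frozen statement S02590 for `H = L²` -/
def S_FIN3 : Prop := ∃ Alg : Subalgebra ℂ (L2 →L[ℂ] L2),
  (∀ T : L2 →L[ℂ] L2,
    (∀ (n : ℕ) (x y : Fin n → L2) (ε : ℝ), 0 < ε →
      ∃ S ∈ Alg, ∀ i, ‖inner ℂ ((T - S) (x i)) (y i)‖ < ε) → T ∈ Alg) ∧
  (∀ M : Submodule ℂ (L2 × L2), IsClosed (M : Set (L2 × L2)) →
    (∀ A ∈ Alg, ∀ p ∈ M, (A p.1, A p.2) ∈ M) →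
    ∀ B : L2 →L[ℂ] L2, ∀ p ∈ M, (B p.1, B p.2) ∈ M) ∧ Alg ≠ ⊤

end

end Pool.Agent.H460U
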