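import Mathlib
import Pool.Agent.H460U.TR.Defs3

/-! Task BLK: SU(2) blocks. -/

set_option autoImplicit false

open Complex Filter
open scoped ComplexConjugate Topology

namespace Pool.Agent.H460U

namespace BLK

noncomputable section

/-- the reflected conjugate polynomial -/
def rc (N : ℕ) (P : Polynomial ℂ) : Polynomial ℂ :=
  ∑ i ∈ Finset.range (N + 1), Polynomial.C (conj (P.coeff i)) * Polynomial.X ^ (N - i)

theorem rc_natDegree (N : ℕ) (P : Polynomial ℂ) : (rc N P).natDegree ≤ N := by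
  unfold rc
  refine Polynomial.natDegree_sum_le_of_forall_le _ _ fun i _ => ?_
  exact (Polynomial.natDegree_C_mul_X_pow_le _ _).trans (Nat.sub_le _ _)

theorem rc_eval (N : ℕ) (P : Polynomial ℂ) (hP : P.natDegree ≤ N) (ξ : ℂ) (hξ : ‖ξ‖ = 1) :
    (rc N P).eval ξ = ξ ^ N * conj (P.eval ξ) := by
  rw [Polynomial.eval_eq_sum_range' (Nat.lt_succ_of_le hP), map_sum, Finset.mul_sum]
  unfold rc
  rw [Polynomial.eval_finsetSum]
  refine Finset.sum_congr rfl fun i hi => ?_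
  have hi' : i ≤ N := Nat.lt_succ_iff.mp (Finset.mem_range.mp hi)
  rw [Polynomial.eval_mul, Polynomial.eval_C, Polynomial.eval_pow, Polynomial.eval_X, map_mul,
    map_pow]
  have h1 : ξ * conj ξ = 1 := by
    rw [Complex.mul_conj, Complex.normSq_eq_norm_sq, hξ]
    norm_num
  have h2 : ξ ^ N = ξ ^ (N - i) * ξ ^ i := by rw [← pow_add, Nat.sub_add_cancel hi']
  have h3 : ξ ^ i * conj ξ ^ i = 1 := by rw [← mul_pow, h1, one_pow]
  calc conj (P.coeff i) * ξ ^ (N - i) = conj (P.coeff i) * ξ ^ (N - i) * (ξ ^ i * conj ξ ^ i) := by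
        rw [h3, mul_one]
    _ = ξ ^ N * (conj (P.coeff i) * conj ξ ^ i) := by rw [h2]; ring

theorem infinite_circle : {z : ℂ | ‖z‖ = 1}.Infinite := by
  have h1 : IsPreconnected (Metric.sphere (0 : ℂ) 1) :=
    isPreconnected_sphere (by rw [Complex.rank_real_complex]; exact Cardinal.one_lt_two) 0 1
  have h2 : (Metric.sphere (0 : ℂ) 1).Nontrivial :=
    ⟨1, by simp, -1, by simp, by norm_num⟩
  have h3 := h1.infinite_of_nontrivial h2
  have h4 : {z : ℂ | ‖z‖ = 1} = Metric.sphere (0 : ℂ) 1 := by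
    ext z
    simp
  rw [h4]
  exact h3

theorem mul_conj_norm (z : ℂ) : z * conj z = ((‖z‖ ^ 2 : ℝ) : ℂ) := by
  rw [Complex.mul_conj, Complex.normSq_eq_norm_sq]

/-- one block -/
theorem block (hFR : S_FR) (d : ℕ) (P : Polynomial ℂ) (hd : P.natDegree ≤ 2 * d)
    (hP : ∀ ξ : ℂ, ‖ξ‖ = 1 → ‖P.eval ξ‖ < 1) :
    ∃ q : Polynomial ℂ, q.natDegree ≤ 2 * d ∧
      ∀ ξ : ℂ, ‖ξ‖ = 1 → ‖P.eval ξ‖ ^ 2 + ‖q.eval ξ‖ ^ 2 = 1 := by
  have hQ : ∀ z : ℂ, ‖z‖ = 1 → (Polynomial.X ^ (2 * d) - P * rc (2 * d) P).eval z =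
      ((1 - ‖P.eval z‖ ^ 2 : ℝ) : ℂ) * z ^ (2 * d) := by
    intro z hz
    rw [Polynomial.eval_sub, Polynomial.eval_pow, Polynomial.eval_X, Polynomial.eval_mul,
      rc_eval _ _ hd z hz]
    have := mul_conj_norm (P.eval z)
    push_cast at this ⊢
    rw [mul_left_comm, this]
    ring
  obtain ⟨q, hq1, hq2⟩ := hFR (2 * d) (Polynomial.X ^ (2 * d) - P * rc (2 * d) P) (by
    refine (Polynomial.natDegree_sub_le _ _).trans (max_le ?_ ?_)
    · rw [Polynomial.natDegree_X_pow]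
      omega
    · refine Polynomial.natDegree_mul_le.trans ?_
      have := rc_natDegree (2 * d) P
      omega) (by
    intro z hz
    refine ⟨1 - ‖P.eval z‖ ^ 2, ?_, hQ z hz⟩
    have := hP z hz
    have h0 := norm_nonneg (P.eval z)
    nlinarith)
  refine ⟨q, hq1, fun ξ hξ => ?_⟩
  have h1 := hq2 ξ hξ
  rw [hQ ξ hξ] at h1
  have hξ0 : ξ ≠ 0 := by
    intro h
    rw [h, norm_zero] at hξ
    exact zero_ne_one hξ
  have h2 := mul_right_cancel₀ (pow_ne_zero _ hξ0) h1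
  have h3 : (1 - ‖P.eval ξ‖ ^ 2 : ℝ) = ‖q.eval ξ‖ ^ 2 := by exact_mod_cast h2
  linarith

theorem norm_rt (ξ : ℂ) : ‖(rt ξ)⁻¹‖ = 1 := by
  rw [norm_inv]
  unfold rt
  rw [mul_comm, Complex.norm_exp_ofReal_mul_I, inv_one]

end

end BLK

open BLK in
theorem t_BLK (hFR : S_FR) (hAP : S_AP) : S_BLK := by
  obtain ⟨d, P, hd, hP, hlim⟩ := hAP
  choose q hq1 hq2 using fun n => block hFR (d n) (P n) (hd n) (hP n)
  refine ⟨d, P, q, fun n => rc (2 * d n) (P n), fun n => rc (2 * d n) (q n), hq2, ?_, ?_, ?_⟩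
  · intro n ξ hξ
    exact ⟨rc_eval _ _ (hd n) ξ hξ, rc_eval _ _ (hq1 n) ξ hξ⟩
  · intro n
    apply Polynomial.eq_of_infinite_eval_eq
    refine infinite_circle.mono fun ξ hξ => ?_
    have hξ' : ‖ξ‖ = 1 := hξ
    show Polynomial.eval ξ _ = Polynomial.eval ξ _
    rw [Polynomial.eval_add, Polynomial.eval_mul, Polynomial.eval_mul, Polynomial.eval_pow,
      Polynomial.eval_X, rc_eval _ _ (hd n) ξ hξ', rc_eval _ _ (hq1 n) ξ hξ', mul_left_comm,
      mul_left_comm ((q n).eval ξ), mul_conj_norm, mul_conj_norm, ← mul_add, ← Complex.ofReal_add,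
      hq2 n ξ hξ', Complex.ofReal_one, mul_one]
  · intro ξ hξ hξ1
    refine ⟨hlim ξ hξ hξ1, ?_⟩
    have h1 : Tendsto (fun n => ‖(P n).eval ξ * ξ⁻¹ ^ (d n)‖) atTop (𝓝 1) := by
      have := (hlim ξ hξ hξ1).norm
      rwa [norm_rt] at this
    have h2 : ∀ n, ‖(P n).eval ξ * ξ⁻¹ ^ (d n)‖ = ‖(P n).eval ξ‖ := by
      intro n
      rw [norm_mul, norm_pow, norm_inv, hξ, inv_one, one_pow, mul_one]
    simp only [h2] at h1
    have h3 : Tendsto (fun n => 1 - ‖(P n).eval ξ‖ ^ 2) atTop (𝓝 (1 - 1 ^ 2)) :=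
      (h1.pow 2).const_sub 1
    have h4 : ∀ n, 1 - ‖(P n).eval ξ‖ ^ 2 = ‖(q n).eval ξ‖ ^ 2 := by
      intro n
      have := hq2 n ξ hξ
      linarith
    simp only [h4] at h3
    rw [one_pow, sub_self] at h3
    have h5 : Tendsto (fun n => ‖(q n).eval ξ‖) atTop (𝓝 0) := by
      have h6 := h3.sqrt
      simp only [Real.sqrt_sq (norm_nonneg _), Real.sqrt_zero] at h6
      exact h6
    exact tendsto_zero_iff_norm_tendsto_zero.mpr h5

end Pool.Agent.H460U
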