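import Pool.Agent.H460U.TR.Defs3
import Pool.Agent.H460U.TR.TCon

/-! Task CON3 (helper411), adapted from the part-1 file TCon. -/

set_option autoImplicit false

open MeasureTheory Complex Filter
open scoped ComplexConjugate Matrix Topology InnerProductSpace

namespace Pool.Agent.H460U

open CONaux

theorem t_CON3 (hKAP : S_KAP) (hTC : S_TC) : S_CON3 := by
  intro N hN0 hPpos hPdvd F hFU hFA
  obtain ⟨κ, hκ, hK⟩ := hKAP
  set g : ℕ → X := fun k => ((1 / (2 * (N k : ℝ)) : ℝ) : X) with hg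
  have hN : ∀ k, 2 ^ k ≤ N k := by
    intro k
    induction k with
    | zero => rw [pow_zero]; exact hPpos 0
    | succ k ih =>
      have := Nat.le_of_dvd (hPpos (k + 1)) (hPdvd k)
      rw [pow_succ]
      omega
  have hNr : ∀ k, (0 : ℝ) < N k := fun k => by exact_mod_cast hPpos k
  have hgt : Tendsto g atTop (𝓝 0) := by
    have h1 : Tendsto (fun k => (1 / (2 * (N k : ℝ)) : ℝ)) atTop (𝓝 0) := by
      refine squeeze_zero (fun k => by have := hNr k; positivity) (fun k => ?_)
        (tendsto_pow_atTop_nhds_zero_of_lt_one (by norm_num : (0 : ℝ) ≤ 1 / 2) (by norm_num))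
      rw [one_div_pow]
      apply one_div_le_one_div_of_le (by positivity)
      have h2 : ((2 : ℝ)) ^ k ≤ N k := by exact_mod_cast hN k
      have := hNr k
      linarith
    have h2 := (AddCircle.continuous_mk' (1 : ℝ)).tendsto 0
    have h3 := h2.comp h1
    exact h3
  have hT := hTC F hFU g hgt
  have hNg : ∀ k, N k • g k = hf := by
    intro k
    show N k • ((1 / (2 * (N k : ℝ)) : ℝ) : X) = ((1 / 2 : ℝ) : X)
    rw [← AddCircle.coe_nsmul]
    congr 1
    rw [nsmul_eq_mul]
    have := (hNr k).ne'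
    field_simp
  set ε : ℕ → ℝ := fun k => 2 * ((1 / 2 : ℝ) ^ k) ^ 2 + 2 * ∫ x : X, ‖F (x + g k) - F x‖ ^ 2 ∂mu
    with hε
  have hεt : Tendsto ε atTop (𝓝 0) := by
    have h1 : Tendsto (fun k : ℕ => (1 / 2 : ℝ) ^ k) atTop (𝓝 0) :=
      tendsto_pow_atTop_nhds_zero_of_lt_one (by norm_num) (by norm_num)
    have h2 := ((h1.pow 2).const_mul 2).add (hT.const_mul 2)
    have h3 : (2 : ℝ) * 0 ^ 2 + 2 * 0 = 0 := by norm_num
    rw [h3] at h2
    exact h2
  have key : ∀ k, κ ≤ 4 * ε k := by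
    intro k
    obtain ⟨a, c, ha, hc, hae⟩ := hFA k
    set w : X → ℂ := fun x => c * uu (N k • x) ^ a with hw
    have hcu : Continuous (fun x : X => uu (N k • x)) := cont_uu.comp (continuous_nsmul (N k))
    have hwc : Continuous w := continuous_const.mul (hcu.zpow₀ a (fun x => Or.inl (uu_ne _)))
    -- first estimate
    have hmp := measurePreserving_add_right mu (g k)
    have hb : Integrable (fun x : X => ‖F (x + g k) - F x‖ ^ 2) mu := by
      refine Integrable.of_bound (C := 4) ?_ ?_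
      · exact ((hFU.1.comp_measurePreserving hmp).sub hFU.1).norm.pow 2
      · have h1 := hmp.quasiMeasurePreserving.ae hFU.2
        filter_upwards [h1, hFU.2] with x hx1 hx2
        have h2 : ‖F (x + g k) - F x‖ ≤ 2 := by
          refine (norm_sub_le _ _).trans ?_
          rw [hx1, hx2]; norm_num
        rw [Real.norm_of_nonneg (by positivity)]
        nlinarith [norm_nonneg (F (x + g k) - F x)]
    have hA : ∫ x : X, ‖w x - 1‖ ^ 2 ∂mu ≤ ε k := by
      have h1 : ∫ x : X, ‖w x - 1‖ ^ 2 ∂mu ≤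
          ∫ x : X, (2 * ((1 / 2 : ℝ) ^ k) ^ 2 + 2 * ‖F (x + g k) - F x‖ ^ 2) ∂mu := by
        refine integral_mono_of_nonneg (ae_of_all _ fun x => by positivity)
          ((integrable_const _).add (hb.const_mul 2)) ?_
        filter_upwards [hae, hFU.2] with x hx1 hx2
        exact ineq1 (w x) (F x) (F (x + g k)) _ hx2 hx1
      rw [integral_add (integrable_const _) (hb.const_mul 2), integral_const,
        integral_const_mul, probReal_univ, one_smul] at h1
      exact h1
    -- translation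
    have hB : ∫ x : X, ‖w (x + g k) - 1‖ ^ 2 ∂mu = ∫ x : X, ‖w x - 1‖ ^ 2 ∂mu :=
      integral_add_right_eq_self (fun x : X => ‖w x - 1‖ ^ 2) (g k)
    have hwg : ∀ x, w (x + g k) = c * (uu (N k • x) ^ a)⁻¹ := by
      intro x
      show c * uu (N k • (x + g k)) ^ a = _
      rw [nsmul_add, hNg, uu_half, inv_zpow]
    have hC : ∫ x : X, ‖uu (N k • x) ^ (2 * a) - 1‖ ^ 2 ∂mu ≤
        2 * ∫ x : X, ‖w x - 1‖ ^ 2 ∂mu + 2 * ∫ x : X, ‖w (x + g k) - 1‖ ^ 2 ∂mu := by
      have i1 : Integrable (fun x : X => ‖w x - 1‖ ^ 2) mu :=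
        integrable_cont _ ((hwc.sub continuous_const).norm.pow 2)
      have i2 : Integrable (fun x : X => ‖w (x + g k) - 1‖ ^ 2) mu :=
        integrable_cont _ (((hwc.comp (continuous_id.add continuous_const)).sub
          continuous_const).norm.pow 2)
      rw [← integral_const_mul, ← integral_const_mul,
        ← integral_add (i1.const_mul 2) (i2.const_mul 2)]
      refine integral_mono_of_nonneg (ae_of_all _ fun x => by positivity)
        ((i1.const_mul 2).add (i2.const_mul 2)) (ae_of_all _ fun x => ?_)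
      show ‖uu (N k • x) ^ (2 * a) - 1‖ ^ 2 ≤ 2 * ‖w x - 1‖ ^ 2 + 2 * ‖w (x + g k) - 1‖ ^ 2
      rw [hwg, two_mul a, zpow_add₀ (uu_ne _)]
      refine ineq2 c (uu (N k • x) ^ a) hc ?_
      rw [norm_zpow, norm_uu, one_zpow]
    have hD : ∫ x : X, ‖uu (N k • x) ^ (2 * a) - 1‖ ^ 2 ∂mu =
        ∫ x : X, ‖uu x ^ (2 * a) - 1‖ ^ 2 ∂mu :=
      integral_nsmul (N k) (hPpos k) (fun x => ‖uu x ^ (2 * a) - 1‖ ^ 2)
        (((cont_uu.zpow₀ (2 * a) (fun x => Or.inl (uu_ne _))).sub continuous_const).norm.pow 2)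
    have hE : κ ≤ ∫ x : X, ‖uu x ^ (2 * a) - 1‖ ^ 2 ∂mu := hK a ha
    rw [hB, hD] at hC
    linarith
  have h1 : Tendsto (fun k => 4 * ε k) atTop (𝓝 (4 * 0)) := hεt.const_mul 4
  rw [mul_zero] at h1
  have h2 : κ ≤ 0 := ge_of_tendsto' h1 key
  linarith

end Pool.Agent.H460U
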