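import Pool.Agent.H460U.TR.Defs3
import Pool.Agent.H460U.TR.ERG

/-! Task ERG3: bounded functions invariant under the rotations are constant. -/

set_option autoImplicit false

open MeasureTheory Complex Filter
open scoped ComplexConjugate Matrix Topology InnerProductSpace

namespace Pool.Agent.H460U

theorem t_ERG3 : S_ERG3 := by
  classical
  intro N hN0 hNp hNd f hfB hinv
  have hNk : ∀ k, 2 ^ k ≤ N k := by
    intro k
    induction k with
    | zero => rw [hN0]; simp
    | succ k ih =>
      have := Nat.le_of_dvd (hNp (k + 1)) (hNd k)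
      rw [pow_succ]
      omega
  have hper : ∀ k, N k • (((1 / (N k : ℝ) : ℝ)) : X) = 0 := by
    intro k
    have h1 : N k • (((1 / (N k : ℝ) : ℝ)) : X) = ((N k • (1 / (N k : ℝ)) : ℝ) : X) := by
      rw [AddCircle.coe_nsmul]
    rw [h1]
    have h2 : (N k • (1 / (N k : ℝ)) : ℝ) = 1 := by
      have : (N k : ℝ) ≠ 0 := by
        have := hNp k
        positivity
      rw [nsmul_eq_mul]
      field_simp
    rw [h2]
    exact AddCircle.coe_period 1
  have hcoef : ∀ n : ℤ, n ≠ 0 → fourierCoeff f n = 0 := by
    intro n hn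
    have hk : n.natAbs < N n.natAbs := lt_of_lt_of_le Nat.lt_two_pow_self (hNk _)
    set k := n.natAbs with hkdef
    set g : X := (((1 / (N k : ℝ) : ℝ)) : X) with hg
    have h1 := ERG_trans f g n
    have h2 : fourierCoeff (fun x => f (x + g)) n = fourierCoeff f n := by
      unfold fourierCoeff
      apply integral_congr_ae
      filter_upwards [hinv k g (hper k)] with x hx
      simp only [hx]
    rw [h2] at h1
    have h3 := ERG_ne n hn (N k) hk
    have h4 : (1 - fourier n g) * fourierCoeff f n = 0 := by
      rw [sub_mul, one_mul, ← h1, sub_self]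
    rcases mul_eq_zero.mp h4 with h5 | h5
    · exact absurd (sub_eq_zero.mp h5).symm h3
    · exact h5
  obtain ⟨hfm, C, hC⟩ := hfB
  have hmem : MemLp f 2 mu := MemLp.of_bound hfm C hC
  set F : L2 := hmem.toLp f with hF
  have hFf : (F : X → ℂ) =ᵐ[mu] f := hmem.coeFn_toLp
  have hFc : ∀ n, fourierCoeff (F : X → ℂ) n = fourierCoeff f n := by
    intro n
    unfold fourierCoeff
    apply integral_congr_ae
    filter_upwards [hFf] with x hx
    simp only [hx]
  set c := fourierCoeff f 0 with hc
  have hFG : F = c • (fourierLp 2 0 : L2) := by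
    apply (fourierBasis (T := (1 : ℝ))).repr.injective
    ext i
    rw [map_smul, fourierBasis_repr, hFc]
    have h1 : (fourierBasis (T := (1 : ℝ))).repr (fourierLp 2 0) = lp.single 2 0 (1 : ℂ) := by
      rw [← coe_fourierBasis (T := (1 : ℝ))]
      exact HilbertBasis.repr_self _ _
    rw [h1]
    by_cases hi : i = 0
    · subst hi
      simp [hc]
    · rw [hcoef i hi]
      simp [hi]
  refine ⟨c, ?_⟩
  have h1 : (F : X → ℂ) =ᵐ[mu] fun x => c * fourier 0 x := by
    rw [hFG]
    filter_upwards [Lp.coeFn_smul c (fourierLp 2 0 : L2), coeFn_fourierLp 2 0 (T := (1 : ℝ))]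
      with x h2 h3
    rw [h2, Pi.smul_apply, h3, smul_eq_mul]
  filter_upwards [hFf, h1] with x h2 h3
  rw [← h2, h3]
  simp

end Pool.Agent.H460U
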