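import Mathlib
import Pool.Agent.H460U.TR.Defs3

/-! Project TR part 2 (helper460), task FIN3: the final algebra.
Written by helper168 (adapted from task L2 of helper656). -/

set_option autoImplicit false

open MeasureTheory Complex Filter
open scoped ComplexConjugate Matrix Topology InnerProductSpace

namespace Pool.Agent.H460U

noncomputable section

lemma FIN3.uni (n : ℤ) : Uni (e n) := by
  refine ⟨?_, ?_⟩
  · have : Continuous (e n) := by
      unfold e
      exact (fourier n).continuous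
    exact this.aestronglyMeasurable
  · refine Filter.Eventually.of_forall fun x => ?_
    unfold e
    rw [fourier_apply]
    exact Circle.norm_coe _

theorem t_FIN3 (hPAR : S_PAR3) (hPHI : S_PHI3) (hGL : S_GL3) (hAU : S_AU3) (hOP : S_OP)
    (hTRA : S_TRA3) : S_FIN3 := by
  classical
  obtain ⟨p, m, t, N, hP⟩ := hPAR
  obtain ⟨Φ, hΦ⟩ := hPHI p m t N hP
  choose a hab using hGL Φ hΦ.meas hΦ.unit
  have hGP : ∀ f : Fin 3 → L2, GP3 Φ f ↔ ∀ (j : Fin 3) (n : ℤ), n < 0 →
      ∑ i : Fin 3, ⟪a j n i, f i⟫_ℂ = 0 := by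
    intro f
    unfold GP3 An
    refine forall_congr' fun j => forall_congr' fun n => ?_
    rw [hab]
  let Alg : Subalgebra ℂ (L2 →L[ℂ] L2) :=
    { carrier := {A | InA3 Φ A}
      mul_mem' := by
        intro A B hA hB f h
        exact hA _ (hB f h)
      add_mem' := by
        intro A B hA hB f h
        have h1 := hA f h
        have h2 := hB f h
        rw [hGP] at h1 h2 ⊢
        intro j n hn
        have e1 := h1 j n hn
        have e2 := h2 j n hn
        simp only [ContinuousLinearMap.add_apply, inner_add_right, Finset.sum_add_distrib]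
        rw [e1, e2, add_zero]
      algebraMap_mem' := by
        intro r f h
        rw [hGP] at h ⊢
        intro j n hn
        rw [Algebra.algebraMap_eq_smul_one]
        have h1 := h j n hn
        simp only [ContinuousLinearMap.smul_apply, ContinuousLinearMap.one_apply, inner_smul_right]
        rw [← Finset.mul_sum, h1, mul_zero] }
  have hmem : ∀ A : L2 →L[ℂ] L2, A ∈ Alg ↔ InA3 Φ A := fun A => Iff.rfl
  obtain ⟨-, hV1⟩ := hAU Φ hΦ.meas hΦ.unit
  obtain ⟨V, hV⟩ := hOP (e (-1)) 0 (FIN3.uni (-1))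
  simp only [add_zero] at hV
  refine ⟨Alg, ?_, ?_, ?_⟩
  · intro T hT
    rw [hmem]
    intro f hf
    rw [hGP]
    intro j n hn
    by_contra hc
    set z : ℂ := ∑ i : Fin 3, ⟪a j n i, T (f i)⟫_ℂ with hz
    have hpos : 0 < ‖z‖ := norm_pos_iff.mpr hc
    obtain ⟨S, hS, hS2⟩ := hT 3 f (a j n) (‖z‖ / 3) (by positivity)
    have h3 := hS f hf
    rw [hGP] at h3
    have h4 := h3 j n hn
    have h5 : z = ∑ i : Fin 3, ⟪a j n i, (T - S) (f i)⟫_ℂ := by
      simp only [ContinuousLinearMap.sub_apply, inner_sub_right, Finset.sum_sub_distrib]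
      rw [h4, sub_zero]
    have h6 : ‖z‖ ≤ ∑ i : Fin 3, ‖⟪a j n i, (T - S) (f i)⟫_ℂ‖ := by
      rw [h5]; exact norm_sum_le _ _
    have h7 : ∀ i : Fin 3, ‖⟪a j n i, (T - S) (f i)⟫_ℂ‖ < ‖z‖ / 3 := by
      intro i
      rw [norm_inner_symm]
      exact hS2 i
    have h8 : ∑ i : Fin 3, ‖⟪a j n i, (T - S) (f i)⟫_ℂ‖ < ∑ i : Fin 3, ‖z‖ / 3 :=
      Finset.sum_lt_sum_of_nonempty ⟨0, Finset.mem_univ _⟩ (fun i _ => h7 i)
    have h9 : ∑ i : Fin 3, ‖z‖ / 3 = ‖z‖ := by
      simp; ring
    linarith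
  · intro M hM hinv
    exact hTRA p m t N Φ hP hΦ M hM (fun A hA f hf => hinv A hA f hf)
  · intro htop
    have : V ∈ Alg := by rw [htop]; exact Algebra.mem_top
    exact hV1 V hV this

end

end Pool.Agent.H460U
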