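import Pool.Agent.H460U.TR.Defs3

/-! Project TR part 2: the loops. -/

set_option autoImplicit false

open MeasureTheory Complex Filter
open scoped ComplexConjugate Matrix Topology InnerProductSpace

namespace Pool.Agent.H460U.LP

noncomputable section

def S12 (c A B A' B' : ℂ) : M3 := !![A, -B', 0; B, A', 0; 0, 0, c]
def S13 (c A B A' B' : ℂ) : M3 := !![A, 0, -B'; 0, c, 0; B, 0, A']
def Dg (ξ : ℂ) : M3 := !![ξ, 0, 0; 0, 1, 0; 0, 0, 1]

lemma S12_unit (c A B : ℂ) (h1 : conj A * A + conj B * B = 1) (hc : conj c * c = 1) :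
    (S12 c A B (c ^ 2 * conj A) (c ^ 2 * conj B))ᴴ * S12 c A B (c ^ 2 * conj A) (c ^ 2 * conj B)
      = 1 := by
  unfold S12
  ext i j
  fin_cases i <;> fin_cases j <;>
    simp [Matrix.mul_apply, Fin.sum_univ_three, Matrix.conjTranspose_apply]
  · linear_combination h1
  · ring
  · ring
  · linear_combination (conj c * c + 1) * (conj A * A + conj B * B) * hc + h1
  · exact hc

lemma S13_unit (c A B : ℂ) (h1 : conj A * A + conj B * B = 1) (hc : conj c * c = 1) :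
    (S13 c A B (c ^ 2 * conj A) (c ^ 2 * conj B))ᴴ * S13 c A B (c ^ 2 * conj A) (c ^ 2 * conj B)
      = 1 := by
  unfold S13
  ext i j
  fin_cases i <;> fin_cases j <;>
    simp [Matrix.mul_apply, Fin.sum_univ_three, Matrix.conjTranspose_apply]
  · linear_combination h1
  · ring
  · exact hc
  · ring
  · linear_combination (conj c * c + 1) * (conj A * A + conj B * B) * hc + h1

lemma Dg_unit (ξ : ℂ) (h : conj ξ * ξ = 1) : (Dg ξ)ᴴ * Dg ξ = 1 := by
  unfold Dg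
  ext i j
  fin_cases i <;> fin_cases j <;>
    simp [Matrix.mul_apply, Fin.sum_univ_three, Matrix.conjTranspose_apply]
  exact h

/-- the polynomial matrix -/
def pm (D : ℕ) (a b a' b' : Polynomial ℂ) : P3 := fun i j =>
  (!![Polynomial.X * (a * a), -(Polynomial.X * (b' * Polynomial.X ^ D)),
      -(Polynomial.X * (a * b'));
    b * a, a' * Polynomial.X ^ D, -(b * b');
    Polynomial.X ^ D * b, 0, Polynomial.X ^ D * a'] : Matrix (Fin 3) (Fin 3) (Polynomial ℂ)) i j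

lemma ev_pm (D : ℕ) (a b a' b' : Polynomial ℂ) (ξ : ℂ) :
    ev3 (pm D a b a' b') ξ =
      !![ξ * (a.eval ξ * a.eval ξ), -(ξ * (b'.eval ξ * ξ ^ D)), -(ξ * (a.eval ξ * b'.eval ξ));
        b.eval ξ * a.eval ξ, a'.eval ξ * ξ ^ D, -(b.eval ξ * b'.eval ξ);
        ξ ^ D * b.eval ξ, 0, ξ ^ D * a'.eval ξ] := by
  ext i j
  fin_cases i <;> fin_cases j <;> simp [ev3, pm]

lemma ev_pm_mul (D : ℕ) (a b a' b' : Polynomial ℂ) (ξ : ℂ) :
    ev3 (pm D a b a' b') ξ =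
      Dg ξ * (S12 (ξ ^ D) (a.eval ξ) (b.eval ξ) (a'.eval ξ) (b'.eval ξ) *
        S13 (ξ ^ D) (a.eval ξ) (b.eval ξ) (a'.eval ξ) (b'.eval ξ)) := by
  rw [ev_pm]
  unfold Dg S12 S13
  ext i j
  fin_cases i <;> fin_cases j <;> simp [Matrix.mul_apply, Fin.sum_univ_three]

lemma det_pm (D : ℕ) (a b a' b' : Polynomial ℂ)
    (h : a * a' + b * b' = Polynomial.X ^ (2 * D)) (ξ : ℂ) :
    (ev3 (pm D a b a' b') ξ).det = ξ ^ (6 * D + 1) := by
  have h2 : a.eval ξ * a'.eval ξ + b.eval ξ * b'.eval ξ = ξ ^ (2 * D) := by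
    have := congrArg (Polynomial.eval ξ) h
    simpa using this
  rw [ev_pm, Matrix.det_fin_three]
  simp
  have h3 : ξ ^ (6 * D + 1) = ξ * (ξ ^ D) ^ 2 * (ξ ^ (2 * D)) ^ 2 := by ring
  rw [h3, ← h2]
  ring

lemma conj_mul_self {z : ℂ} (hz : ‖z‖ = 1) : conj z * z = 1 := by
  rw [mul_comm, Complex.mul_conj, Complex.normSq_eq_norm_sq, hz]; norm_num

lemma unit_pm (D : ℕ) (a b a' b' : Polynomial ℂ) (ξ : ℂ) (hξ : ‖ξ‖ = 1)
    (h1 : ‖a.eval ξ‖ ^ 2 + ‖b.eval ξ‖ ^ 2 = 1)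
    (ha' : a'.eval ξ = ξ ^ (2 * D) * conj (a.eval ξ))
    (hb' : b'.eval ξ = ξ ^ (2 * D) * conj (b.eval ξ)) :
    (ev3 (pm D a b a' b') ξ)ᴴ * ev3 (pm D a b a' b') ξ = 1 := by
  have hx := conj_mul_self hξ
  have hc : conj (ξ ^ D) * ξ ^ D = 1 := by
    apply conj_mul_self; rw [norm_pow, hξ, one_pow]
  have h2 : conj (a.eval ξ) * a.eval ξ + conj (b.eval ξ) * b.eval ξ = 1 := by
    rw [mul_comm (conj (a.eval ξ)), mul_comm (conj (b.eval ξ)), Complex.mul_conj,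
      Complex.mul_conj, Complex.normSq_eq_norm_sq, Complex.normSq_eq_norm_sq]
    exact_mod_cast congrArg (fun r : ℝ => (r : ℂ)) h1
  have e2 : ξ ^ (2 * D) = (ξ ^ D) ^ 2 := by ring
  rw [ev_pm_mul, ha', hb', e2]
  have u1 := S12_unit (ξ ^ D) (a.eval ξ) (b.eval ξ) h2 hc
  have u2 := S13_unit (ξ ^ D) (a.eval ξ) (b.eval ξ) h2 hc
  have u3 := Dg_unit ξ hx
  set U := S12 (ξ ^ D) (a.eval ξ) (b.eval ξ) ((ξ ^ D) ^ 2 * conj (a.eval ξ))
    ((ξ ^ D) ^ 2 * conj (b.eval ξ))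
  set V := S13 (ξ ^ D) (a.eval ξ) (b.eval ξ) ((ξ ^ D) ^ 2 * conj (a.eval ξ))
    ((ξ ^ D) ^ 2 * conj (b.eval ξ))
  calc (Dg ξ * (U * V))ᴴ * (Dg ξ * (U * V))
      = Vᴴ * (Uᴴ * ((Dg ξ)ᴴ * Dg ξ) * U) * V := by
        rw [Matrix.conjTranspose_mul, Matrix.conjTranspose_mul]
        simp only [Matrix.mul_assoc]
    _ = 1 := by rw [u3, Matrix.mul_one, u1, Matrix.mul_one, u2]

lemma rt_norm (ξ : ℂ) : ‖rt ξ‖ = 1 := by
  unfold rt
  rw [mul_comm]
  exact Complex.norm_exp_ofReal_mul_I _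

lemma rt_cube (ξ : ℂ) (h : ‖ξ‖ = 1) : rt ξ ^ 3 = ξ := by
  unfold rt
  rw [← Complex.exp_nat_mul]
  have h1 := Complex.norm_mul_exp_arg_mul_I ξ
  rw [h] at h1
  rw [Complex.ofReal_one, one_mul] at h1
  rw [← h1]
  have h2 : Complex.arg (Complex.exp (Complex.arg ξ * I)) = Complex.arg ξ := by rw [h1]
  rw [h2]
  congr 1
  push_cast
  ring

lemma rt_meas : Measurable rt := by
  unfold rt
  have := Complex.measurable_arg
  fun_prop

def tf (D : ℕ) (x : X) : ℂ := bl x ^ (2 * D) * rt (bl x)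

lemma tf_meas (hc : Continuous bl) (D : ℕ) : Measurable (tf D) := by
  unfold tf
  exact (hc.measurable.pow_const _).mul (rt_meas.comp hc.measurable)

lemma tf_norm (h : ∀ x, ‖bl x‖ = 1) (D : ℕ) (x : X) : ‖tf D x‖ = 1 := by
  unfold tf
  rw [norm_mul, norm_pow, h, one_pow, one_mul, rt_norm]

lemma tf_cube (h : ∀ x, ‖bl x‖ = 1) (D : ℕ) (x : X) : tf D x ^ 3 = bl x ^ (6 * D + 1) := by
  unfold tf
  rw [mul_pow, rt_cube _ (h x)]
  ring

lemma entry_le (M : M3) (h : Mᴴ * M = 1) (i j : Fin 3) : ‖M i j‖ ≤ 1 := by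
  apply entry_norm_bound_of_unitary
  rw [Matrix.mem_unitaryGroup_iff']
  exact h

lemma lim_zero {f : ℕ → ℂ} {g : ℕ → ℂ} (hg : Tendsto g atTop (𝓝 0)) (h : ∀ n, ‖f n‖ ≤ ‖g n‖) :
    Tendsto f atTop (𝓝 0) := by
  apply squeeze_zero_norm h
  simpa using hg.norm

lemma entry_lim (D : ℕ → ℕ) (a b a' b' : ℕ → Polynomial ℂ) (ξ : ℂ) (hξ : ‖ξ‖ = 1)
    (h1 : ∀ n, ‖(a n).eval ξ‖ ^ 2 + ‖(b n).eval ξ‖ ^ 2 = 1)
    (h2 : ∀ n, (a' n).eval ξ = ξ ^ (2 * D n) * conj ((a n).eval ξ) ∧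
      (b' n).eval ξ = ξ ^ (2 * D n) * conj ((b n).eval ξ))
    (hA : Tendsto (fun n => (a n).eval ξ * ξ⁻¹ ^ (D n)) atTop (𝓝 (rt ξ)⁻¹))
    (hB : Tendsto (fun n => (b n).eval ξ) atTop (𝓝 0)) (i j : Fin 3) :
    Tendsto (fun n => (ξ ^ (2 * D n) * rt ξ)⁻¹ * ev3 (pm (D n) (a n) (b n) (a' n) (b' n)) ξ i j)
      atTop (𝓝 ((1 : M3) i j)) := by
  have hξ0 : ξ ≠ 0 := by intro h; rw [h] at hξ; simp at hξ
  have hr0 : rt ξ ≠ 0 := by intro h; have := rt_norm ξ; rw [h] at this; simp at this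
  have hr3 := rt_cube ξ hξ
  have hw : ∀ n, ξ⁻¹ ^ (D n) * ξ ^ (D n) = 1 := by
    intro n; rw [← mul_pow, inv_mul_cancel₀ hξ0, one_pow]
  have hwn : ∀ n, ‖ξ ^ (D n)‖ = 1 := by intro n; rw [norm_pow, hξ, one_pow]
  have hwn2 : ∀ n, ‖ξ ^ (2 * D n)‖ = 1 := by intro n; rw [norm_pow, hξ, one_pow]
  have ht : ∀ n, ‖(ξ ^ (2 * D n) * rt ξ)⁻¹‖ = 1 := by
    intro n; rw [norm_inv, norm_mul, hwn2, rt_norm]; norm_num
  have hAn : ∀ n, ‖(a n).eval ξ‖ ≤ 1 := by
    intro n; nlinarith [h1 n, norm_nonneg ((a n).eval ξ), norm_nonneg ((b n).eval ξ)]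
  have hBn : ∀ n, ‖(b n).eval ξ‖ ≤ 1 := by
    intro n; nlinarith [h1 n, norm_nonneg ((a n).eval ξ), norm_nonneg ((b n).eval ξ)]
  have hB' : ∀ n, ‖(b' n).eval ξ‖ = ‖(b n).eval ξ‖ := by
    intro n; rw [(h2 n).2, norm_mul, hwn2, one_mul, RCLike.norm_conj]
  have hA' : Tendsto (fun n => (a' n).eval ξ * ξ⁻¹ ^ (D n)) atTop (𝓝 (rt ξ)) := by
    have h3 : Tendsto (fun n => conj ((a n).eval ξ * ξ⁻¹ ^ (D n))) atTop
        (𝓝 (conj ((rt ξ)⁻¹))) := (Complex.continuous_conj.tendsto _).comp hA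
    have h4 : conj ((rt ξ)⁻¹) = rt ξ := by
      have := conj_mul_self (rt_norm ξ)
      rw [map_inv₀]
      exact inv_eq_of_mul_eq_one_right this
    rw [h4] at h3
    refine h3.congr ?_
    intro n
    rw [(h2 n).1, map_mul, map_pow, map_inv₀]
    have h5 : (conj ξ)⁻¹ = ξ := by
      have := conj_mul_self hξ
      exact inv_eq_of_mul_eq_one_right this
    rw [h5]
    have e2 : ξ ^ (2 * D n) = ξ ^ D n * ξ ^ D n := by ring
    rw [e2]
    linear_combination (-(conj ((a n).eval ξ)) * ξ ^ D n) * hw n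
  have hinv : ∀ n, (ξ ^ (2 * D n) * rt ξ)⁻¹ = (rt ξ)⁻¹ * (ξ⁻¹ ^ (D n) * ξ⁻¹ ^ (D n)) := by
    intro n
    rw [mul_inv, ← inv_pow, two_mul, pow_add]; ring
  simp only [ev_pm]
  fin_cases i <;> fin_cases j
  · -- (0,0)
    simp only [Fin.mk_zero, Fin.isValue, Matrix.of_apply, Matrix.cons_val', Matrix.cons_val_zero,
      Matrix.cons_val_fin_one, Matrix.one_apply_eq, Fin.zero_eta]
    have h3 : Tendsto (fun n => (rt ξ)⁻¹ * ξ * (((a n).eval ξ * ξ⁻¹ ^ (D n)) *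
        ((a n).eval ξ * ξ⁻¹ ^ (D n)))) atTop (𝓝 ((rt ξ)⁻¹ * ξ * ((rt ξ)⁻¹ * (rt ξ)⁻¹))) :=
      (hA.mul hA).const_mul _
    have h4 : (rt ξ)⁻¹ * ξ * ((rt ξ)⁻¹ * (rt ξ)⁻¹) = 1 := by
      have : (rt ξ)⁻¹ * ξ * ((rt ξ)⁻¹ * (rt ξ)⁻¹) = (rt ξ)⁻¹ ^ 3 * ξ := by ring
      rw [this, inv_pow, hr3]
      exact inv_mul_cancel₀ hξ0
    rw [h4] at h3
    refine h3.congr ?_
    intro n
    rw [hinv]; ring
  · apply lim_zero hB
    intro n
    rw [norm_mul, ht, one_mul]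
    simp [hξ, hB']
  · apply lim_zero hB
    intro n
    rw [norm_mul, ht, one_mul]
    simp [hξ, hB']
    nlinarith [hAn n, norm_nonneg ((b n).eval ξ)]
  · apply lim_zero hB
    intro n
    rw [norm_mul, ht, one_mul]
    simp
    nlinarith [hAn n, norm_nonneg ((b n).eval ξ)]
  · have h3 : Tendsto (fun n => (rt ξ)⁻¹ * ((a' n).eval ξ * ξ⁻¹ ^ (D n))) atTop
        (𝓝 ((rt ξ)⁻¹ * rt ξ)) := hA'.const_mul _
    rw [inv_mul_cancel₀ hr0] at h3
    refine h3.congr ?_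
    intro n
    rw [hinv]
    simp only [Matrix.of_apply, Matrix.cons_val', Matrix.cons_val_one, Matrix.cons_val_zero]
    simp
    have := hw n
    rw [inv_pow] at this
    linear_combination (-(rt ξ)⁻¹ * (a' n).eval ξ * (ξ ^ D n)⁻¹) * this
  · apply lim_zero hB
    intro n
    rw [norm_mul, ht, one_mul]
    simp [hB']
    nlinarith [hBn n, norm_nonneg ((b n).eval ξ)]
  · apply lim_zero hB
    intro n
    rw [norm_mul, ht, one_mul]
    simp [hξ]
  · apply lim_zero hB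
    intro n
    rw [norm_mul, ht, one_mul]
    simp
  · have h3 : Tendsto (fun n => (rt ξ)⁻¹ * ((a' n).eval ξ * ξ⁻¹ ^ (D n))) atTop
        (𝓝 ((rt ξ)⁻¹ * rt ξ)) := hA'.const_mul _
    rw [inv_mul_cancel₀ hr0] at h3
    refine h3.congr ?_
    intro n
    rw [hinv]
    simp
    have := hw n
    rw [inv_pow] at this
    linear_combination (-(rt ξ)⁻¹ * (a' n).eval ξ * (ξ ^ D n)⁻¹) * this

lemma nontr : Nontrivial X := by
  refine ⟨0, ((1/2 : ℝ) : X), ?_⟩
  intro h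
  have h2 : e 1 (0:X) = e 1 (((1/2 : ℝ) : X)) := by rw [h]
  have h3 : e 1 (((1 / 2 : ℝ) : X)) = -1 := by
      unfold e
      rw [fourier_coe_apply]
      have : (2 * (Real.pi : ℂ) * Complex.I * ((1 : ℤ) : ℂ) * (((1 / 2 : ℝ)) : ℂ) /
          ((1 : ℝ) : ℂ)) = Real.pi * Complex.I := by
        push_cast; ring
      rw [this]
      exact Complex.exp_pi_mul_I
  rw [h3] at h2
  unfold e at h2
  rw [fourier_eval_zero] at h2
  norm_num at h2

lemma nb : (𝓝[≠] (0 : X)).NeBot := by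
  have := nontr
  have : ConnectedSpace X := inferInstance
  exact ConnectedSpace.neBot_nhdsWithin_compl_of_nontrivial_of_t1space 0

lemma noatoms : NullSingletonClass (mu : Measure X) := by
  have := nb
  have : (mu : Measure X).IsAddHaarMeasure := by
    unfold mu AddCircle.haarAddCircle; infer_instance
  infer_instance

lemma null_neg_one : ∀ᵐ x ∂mu, bl x ≠ -1 := by
  have h1 : {x : X | bl x = -1} ⊆ {((1 / 2 : ℝ) : X)} := by
    intro x hx
    rw [Set.mem_ofPred_eq] at hx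
    have hw : (1 - 1 / 2 * e 1 x : ℂ) ≠ 0 := by
      intro h
      have h1 : (1:ℂ) = 1 / 2 * e 1 x := by linear_combination h
      have h2 := congrArg norm h1
      have h3 : ‖e 1 x‖ = 1 := by unfold e; rw [fourier_apply, Circle.norm_coe]
      rw [norm_mul, h3] at h2
      norm_num at h2
    unfold bl at hx
    rw [div_eq_iff hw] at hx
    have he : e 1 x = -1 := by linear_combination 2 * hx
    have he2 : e 1 (((1 / 2 : ℝ) : X)) = -1 := by
      unfold e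
      rw [fourier_coe_apply]
      have : (2 * (Real.pi : ℂ) * Complex.I * ((1 : ℤ) : ℂ) * (((1 / 2 : ℝ)) : ℂ) /
          ((1 : ℝ) : ℂ)) = Real.pi * Complex.I := by
        push_cast; ring
      rw [this]
      exact Complex.exp_pi_mul_I
    rw [← he2] at he
    unfold e at he
    rw [fourier_one, fourier_one] at he
    exact AddCircle.injective_toCircle one_ne_zero (Circle.coe_injective he)
  rw [ae_iff]
  simp only [ne_eq, not_not]
  have := noatoms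
  exact measure_mono_null h1 (measure_singleton _)

theorem _root_.Pool.Agent.H460U.t_LP (hBLK : S_BLK) (hH4 : S_H4) : S_LP := by
  intro ε hε
  obtain ⟨D, a, b, a', b', h1, h2, h3, h4⟩ := hBLK
  obtain ⟨hblc, hbln, _, _⟩ := hH4
  -- the error functions
  let g : ℕ → Fin 3 → Fin 3 → X → ℂ := fun n i j x =>
    (tf (D n) x)⁻¹ * ev3 (pm (D n) (a n) (b n) (a' n) (b' n)) (bl x) i j
  let F : ℕ → X → ℝ := fun n x => ∑ i : Fin 3, ∑ j : Fin 3, ‖g n i j x - (1 : M3) i j‖ ^ 2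
  have hunit : ∀ n (x : X), (ev3 (pm (D n) (a n) (b n) (a' n) (b' n)) (bl x))ᴴ *
      ev3 (pm (D n) (a n) (b n) (a' n) (b' n)) (bl x) = 1 := fun n x =>
    unit_pm _ _ _ _ _ _ (hbln x) (h1 n _ (hbln x)) (h2 n _ (hbln x)).1 (h2 n _ (hbln x)).2
  have hgb : ∀ n i j x, ‖g n i j x‖ ≤ 1 := by
    intro n i j x
    simp only [g]
    rw [norm_mul, norm_inv, tf_norm hbln, inv_one, one_mul]
    exact entry_le _ (hunit n x) i j
  have h1b : ∀ i j : Fin 3, ‖(1 : M3) i j‖ ≤ 1 := by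
    intro i j
    apply entry_le
    simp
  have hgm : ∀ n i j, AEStronglyMeasurable (g n i j) mu := by
    intro n i j
    have m1 : Measurable (fun x => (tf (D n) x)⁻¹) := (tf_meas hblc (D n)).inv
    have m2 : Continuous (fun x : X => ev3 (pm (D n) (a n) (b n) (a' n) (b' n)) (bl x) i j) := by
      simp only [ev3, Matrix.of_apply]
      exact (pm (D n) (a n) (b n) (a' n) (b' n) i j).continuous.comp hblc
    exact (m1.mul m2.measurable).aestronglyMeasurable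
  have hFm : ∀ n, AEStronglyMeasurable (F n) mu := by
    intro n
    apply Finset.aestronglyMeasurable_fun_sum
    intro i _
    apply Finset.aestronglyMeasurable_fun_sum
    intro j _
    exact (((hgm n i j).sub aestronglyMeasurable_const).norm).pow 2
  have hFb : ∀ n x, ‖F n x‖ ≤ 36 := by
    intro n x
    have hnn : 0 ≤ F n x := Finset.sum_nonneg fun i _ => Finset.sum_nonneg fun j _ => by positivity
    rw [Real.norm_of_nonneg hnn]
    have : F n x ≤ ∑ i : Fin 3, ∑ j : Fin 3, (4:ℝ) := by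
      apply Finset.sum_le_sum; intro i _
      apply Finset.sum_le_sum; intro j _
      have t1 : ‖g n i j x - (1 : M3) i j‖ ≤ 2 := by
        have := norm_sub_le (g n i j x) ((1 : M3) i j)
        linarith [hgb n i j x, h1b i j]
      nlinarith [norm_nonneg (g n i j x - (1 : M3) i j)]
    have h36 : ∑ i : Fin 3, ∑ j : Fin 3, (4:ℝ) = 36 := by
      simp; norm_num
    linarith
  have hlim : ∀ᵐ x ∂mu, Tendsto (fun n => F n x) atTop (𝓝 0) := by
    filter_upwards [null_neg_one] with x hx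
    have e0 : (0:ℝ) = ∑ i : Fin 3, ∑ j : Fin 3, ‖(1 : M3) i j - (1 : M3) i j‖ ^ 2 := by
      simp
    rw [e0]
    apply tendsto_finsetSum
    intro i _
    apply tendsto_finsetSum
    intro j _
    have hl := entry_lim D a b a' b' (bl x) (hbln x) (fun n => h1 n _ (hbln x))
      (fun n => h2 n _ (hbln x)) (h4 _ (hbln x) hx).1 (h4 _ (hbln x) hx).2 i j
    exact ((hl.sub_const _).norm).pow 2
  have hint := tendsto_integral_of_dominated_convergence (μ := (mu : Measure X))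
    (F := F) (f := fun _ => (0:ℝ)) (fun _ => (36:ℝ)) hFm (integrable_const _)
    (fun n => Eventually.of_forall (hFb n)) hlim
  rw [integral_zero] at hint
  obtain ⟨n, hn⟩ := ((tendsto_order.1 hint).2 ε hε).exists
  refine ⟨pm (D n) (a n) (b n) (a' n) (b' n), 6 * D n + 1, tf (D n), ?_⟩
  constructor
  · omega
  · omega
  · intro ξ
    exact det_pm _ _ _ _ _ (h3 n) ξ
  · intro ξ hξ
    exact unit_pm _ _ _ _ _ _ hξ (h1 n _ hξ) (h2 n _ hξ).1 (h2 n _ hξ).2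
  · exact ⟨(tf_meas hblc _).aestronglyMeasurable, Eventually.of_forall (tf_norm hbln _)⟩
  · exact Eventually.of_forall (tf_cube hbln _)
  · exact hn.le

end

end Pool.Agent.H460U.LP
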