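import Pool.Agent.H460U.TR.Defs3

/-! Task NO3: no scalar invariant. -/

set_option autoImplicit false

open MeasureTheory Complex Filter
open scoped ComplexConjugate Matrix Topology InnerProductSpace

namespace Pool.Agent.H460U

theorem t_NO3 (h1 : S_STEP3) (h2 : S_FA3) (h3 : S_CON3) : S_NO3 := by
  intro p m t N hP q hq φ hφ hinv
  have h0 : Rep3 m t N q φ 0 := by
    refine ⟨0, φ, fun _ => 0, hφ, fun _ => Nat.zero_le _, ?_⟩
    refine Eventually.of_forall fun x => ?_
    simp [TT3, e, hP.zero]
  have hrep : ∀ k, Rep3 m t N q φ k := by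
    intro k
    induction k with
    | zero => exact h0
    | succ k ih => exact h1 p m t N hP q hq φ hφ hinv k ih
  have hF : Uni (fun x => φ x ^ 3) := by
    refine ⟨hφ.1.pow 3, ?_⟩
    filter_upwards [hφ.2] with x hx
    rw [norm_pow, hx, one_pow]
  exact h3 N hP.zero hP.pos hP.dvd (fun x => φ x ^ 3) hF (h2 p m t N hP q hq φ hφ hrep)

end Pool.Agent.H460U
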