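import Pool.Agent.H460U.TR.Defs3

/-! PAR3: existence of the parameters -/

set_option autoImplicit false

open MeasureTheory Complex Filter
open scoped ComplexConjugate Matrix Topology InnerProductSpace

namespace Pool.Agent.H460U

namespace PAR3

/-- the pairs `(N k, ∑_{j<k} m j * N j * 200)` -/
def NS (m : ℕ → ℕ) : ℕ → ℕ × ℕ
  | 0 => (1, 0)
  | (k + 1) => (2 * (NS m k).1 * (2 ^ (k + 1) * ((NS m k).2 + m k * (NS m k).1 * 200) + 1),
      (NS m k).2 + m k * (NS m k).1 * 200)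

theorem NS_sum (m : ℕ → ℕ) (k : ℕ) :
    (NS m k).2 = ∑ j ∈ Finset.range k, m j * (NS m j).1 * 200 := by
  induction k with
  | zero => rfl
  | succ k ih =>
    rw [Finset.sum_range_succ, ← ih]
    rfl

theorem NS_pos (m : ℕ → ℕ) (k : ℕ) : 0 < (NS m k).1 := by
  induction k with
  | zero => exact Nat.one_pos
  | succ k ih =>
    change 0 < 2 * (NS m k).1 * (2 ^ (k + 1) * ((NS m k).2 + m k * (NS m k).1 * 200) + 1)
    positivity

end PAR3

theorem t_PAR3 (hLP : S_LP) : S_PAR3 := by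
  choose p m t hl using fun k : ℕ => hLP ((1 / 4 : ℝ) ^ k) (by positivity)
  refine ⟨p, m, t, fun k => (PAR3.NS m k).1, hl, rfl, ?_, PAR3.NS_pos m, ?_⟩
  · intro k
    exact ⟨_, rfl⟩
  · intro k
    rw [← PAR3.NS_sum]
    cases k with
    | zero => exact Nat.zero_le _
    | succ k =>
      have h := PAR3.NS_pos m k
      change 2 ^ (k + 1) * ((PAR3.NS m k).2 + m k * (PAR3.NS m k).1 * 200) ≤
        2 * (PAR3.NS m k).1 * (2 ^ (k + 1) * ((PAR3.NS m k).2 + m k * (PAR3.NS m k).1 * 200) + 1)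
      set y := 2 ^ (k + 1) * ((PAR3.NS m k).2 + m k * (PAR3.NS m k).1 * 200)
      nlinarith [Nat.zero_le y, h]

end Pool.Agent.H460U
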