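import Pool.Agent.H460U.TR.Defs3

/-!
# PHI3: the limit function, 3x3 version (helper73, adapted from PHI of helper828)
-/

set_option autoImplicit false

open MeasureTheory Complex Filter
open scoped ComplexConjugate Matrix Topology InnerProductSpace

namespace Pool.Agent.H460U

noncomputable section

namespace PHI3aux

/-- the normalised loop -/
def Lam (p : ℕ → P3) (t : ℕ → X → ℂ) (k : ℕ) (y : X) : M3 := (t k y)⁻¹ • ev3 (p k) (bl y)

/-- the normalised products -/
def Qm (p : ℕ → P3) (t : ℕ → X → ℂ) (N : ℕ → ℕ) (k : ℕ) (x : X) : M3 :=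
  (TT3 t N k x)⁻¹ • PP3 p N k x

theorem Q_succ (p : ℕ → P3) (t : ℕ → X → ℂ) (N : ℕ → ℕ) (k : ℕ) (x : X) :
    Qm p t N (k + 1) x = Lam p t k (N k • x) * Qm p t N k x := by
  unfold Qm Lam
  show (t k (N k • x) * TT3 t N k x)⁻¹ • (ev3 (p k) (bl (N k • x)) * PP3 p N k x) = _
  rw [mul_inv, Matrix.smul_mul, Matrix.mul_smul, smul_smul]

theorem ev_cont (q : P3) : Continuous (ev3 q) := by
  refine continuous_matrix fun i j => ?_
  exact (q i j).continuous

theorem P_cont (hbl : Continuous bl) (p : ℕ → P3) (N : ℕ → ℕ) (k : ℕ) :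
    Continuous (PP3 p N k) := by
  induction k with
  | zero => exact continuous_const
  | succ k ih =>
    have h1 : Continuous fun x : X => ev3 (p k) (bl (N k • x)) :=
      (ev_cont _).comp (hbl.comp (continuous_nsmul (N k)))
    exact h1.matrix_mul ih

/-- squared distance of the normalised loop from the identity -/
def Sf (q : P3) (s : X → ℂ) (y : X) : ℝ :=
  ∑ i : Fin 3, ∑ j : Fin 3, ‖(s y)⁻¹ * ev3 q (bl y) i j - (1 : M3) i j‖ ^ 2

theorem Sf_nonneg (q : P3) (s : X → ℂ) (y : X) : 0 ≤ Sf q s y :=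
  Finset.sum_nonneg fun _ _ => Finset.sum_nonneg fun _ _ => by positivity

theorem entry_le {U : M3} (h : Uᴴ * U = 1) (i j : Fin 3) : ‖U i j‖ ≤ 1 := by
  apply entry_norm_bound_of_unitary
  rw [Matrix.mem_unitaryGroup_iff']
  exact h

theorem Sf_meas (hbl : Continuous bl) (q : P3) (s : X → ℂ) (hs : Uni s) :
    AEStronglyMeasurable (Sf q s) mu := by
  unfold Sf
  have ht : AEStronglyMeasurable (fun y => (s y)⁻¹) mu :=
    (hs.1.aemeasurable.inv).aestronglyMeasurable
  have hl : ∀ i j, AEStronglyMeasurable (fun y => ev3 q (bl y) i j) mu := fun i j =>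
    (((ev_cont q).comp hbl).matrix_elem i j).aestronglyMeasurable
  refine Finset.aestronglyMeasurable_fun_sum _ fun i _ => ?_
  refine Finset.aestronglyMeasurable_fun_sum _ fun j _ => ?_
  exact (((ht.mul (hl i j)).sub aestronglyMeasurable_const).norm).pow 2

theorem Sf_int (hbl : Continuous bl) (hbl1 : ∀ x, ‖bl x‖ = 1) (q : P3) (s : X → ℂ) (hs : Uni s)
    (hq : ∀ ξ : ℂ, ‖ξ‖ = 1 → (ev3 q ξ)ᴴ * ev3 q ξ = 1) : Integrable (Sf q s) mu := by
  refine Integrable.of_bound (Sf_meas hbl q s hs) 36 ?_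
  filter_upwards [hs.2] with y hy
  rw [Real.norm_eq_abs, abs_of_nonneg (Sf_nonneg q s y)]
  unfold Sf
  have h1 : ∀ i j : Fin 3, ‖(s y)⁻¹ * ev3 q (bl y) i j - (1 : M3) i j‖ ^ 2 ≤ 4 := by
    intro i j
    have h2 : ‖(s y)⁻¹ * ev3 q (bl y) i j‖ ≤ 1 := by
      rw [norm_mul, norm_inv, hy, inv_one, one_mul]
      exact entry_le (hq (bl y) (hbl1 y)) i j
    have h3 : ‖(1 : M3) i j‖ ≤ 1 := entry_le (by simp) i j
    have h4 := norm_sub_le ((s y)⁻¹ * ev3 q (bl y) i j) ((1 : M3) i j)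
    have h5 := norm_nonneg ((s y)⁻¹ * ev3 q (bl y) i j - (1 : M3) i j)
    nlinarith
  calc ∑ i : Fin 3, ∑ j : Fin 3, ‖(s y)⁻¹ * ev3 q (bl y) i j - (1 : M3) i j‖ ^ 2
      ≤ ∑ i : Fin 3, ∑ j : Fin 3, (4 : ℝ) :=
        Finset.sum_le_sum fun i _ => Finset.sum_le_sum fun j _ => h1 i j
    _ = 36 := by simp; norm_num

theorem mp (n : ℕ) (hn : 0 < n) : MeasurePreserving (fun x : X => n • x) mu mu := by
  have h := Measure.measurePreserving_zsmul (mu : Measure X) (n := (n : ℤ)) (by exact_mod_cast hn.ne')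
  simpa using h

/-- almost everywhere summability -/
theorem ae_summable (hbl : Continuous bl) (hbl1 : ∀ x, ‖bl x‖ = 1)
    (p : ℕ → P3) (m : ℕ → ℕ) (t : ℕ → X → ℂ) (N : ℕ → ℕ) (hP : Par3 p m t N) :
    ∀ᵐ x ∂mu, Summable fun k => (2 : ℝ) ^ k * Sf (p k) (t k) (N k • x) := by
  have hms : ∀ k, AEStronglyMeasurable (Sf (p k) (t k)) mu := fun k =>
    Sf_meas hbl (p k) (t k) (hP.loop k).uni
  have hm : ∀ k, AEMeasurable
      (fun x : X => ENNReal.ofReal ((2 : ℝ) ^ k * Sf (p k) (t k) (N k • x))) mu :=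
    fun k => (((hms k).comp_measurePreserving (mp (N k) (hP.pos k))).aemeasurable.const_mul
      ((2 : ℝ) ^ k)).ennreal_ofReal
  have h1 : ∀ k, ∫⁻ x, ENNReal.ofReal ((2 : ℝ) ^ k * Sf (p k) (t k) (N k • x)) ∂mu ≤
      ENNReal.ofReal ((1 / 2 : ℝ) ^ k) := by
    intro k
    have hi : Integrable (fun x : X => (2 : ℝ) ^ k * Sf (p k) (t k) (N k • x)) mu :=
      ((mp (N k) (hP.pos k)).integrable_comp_of_integrable
        (Sf_int hbl hbl1 (p k) (t k) (hP.loop k).uni (hP.loop k).unit)).const_mul _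
    rw [← ofReal_integral_eq_lintegral_ofReal hi (Eventually.of_forall fun x =>
      mul_nonneg (by positivity) (Sf_nonneg _ _ _))]
    apply ENNReal.ofReal_le_ofReal
    rw [integral_const_mul]
    have h2 : ∫ x : X, Sf (p k) (t k) (N k • x) ∂mu = ∫ x : X, Sf (p k) (t k) x ∂mu := by
      have h3 := (mp (N k) (hP.pos k)).map_eq
      have h4 : ∫ y, Sf (p k) (t k) y ∂(Measure.map (fun x : X => N k • x) mu) =
          ∫ x, Sf (p k) (t k) (N k • x) ∂mu :=
        integral_map (mp (N k) (hP.pos k)).measurable.aemeasurable (by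
          rw [h3]; exact hms k)
      rw [← h4, h3]
    rw [h2]
    calc (2 : ℝ) ^ k * ∫ x : X, Sf (p k) (t k) x ∂mu ≤ 2 ^ k * (1 / 4) ^ k :=
          mul_le_mul_of_nonneg_left (hP.loop k).near (by positivity)
      _ = (1 / 2 : ℝ) ^ k := by
          rw [← mul_pow]; norm_num
  have h5 : ∫⁻ x, ∑' k, ENNReal.ofReal ((2 : ℝ) ^ k * Sf (p k) (t k) (N k • x)) ∂mu ≠ ⊤ := by
    rw [lintegral_tsum hm]
    exact ne_top_of_le_ne_top (summable_geometric_two.tsum_ofReal_ne_top)
      (ENNReal.tsum_le_tsum h1)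
  filter_upwards [ae_lt_top' (AEMeasurable.tsum hm) h5] with x hx
  have h6 := ENNReal.summable_toReal hx.ne
  refine h6.congr fun k => ?_
  exact ENNReal.toReal_ofReal (mul_nonneg (by positivity) (Sf_nonneg _ _ _))

theorem Q_unit {p : ℕ → P3} {t : ℕ → X → ℂ} {N : ℕ → ℕ} {k : ℕ} {x : X} (h1 : ‖TT3 t N k x‖ = 1)
    (h2 : (PP3 p N k x)ᴴ * PP3 p N k x = 1) : (Qm p t N k x)ᴴ * Qm p t N k x = 1 := by
  unfold Qm
  rw [Matrix.conjTranspose_smul, Matrix.smul_mul, Matrix.mul_smul, smul_smul, h2]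
  have h3 : star (TT3 t N k x)⁻¹ * (TT3 t N k x)⁻¹ = 1 := by
    rw [star_inv₀, ← mul_inv]
    have h4 : star (TT3 t N k x) * TT3 t N k x = 1 := by
      have := Complex.conj_mul' (TT3 t N k x)
      rw [h1] at this
      simpa using this
    rw [h4, inv_one]
  rw [h3, one_smul]

/-- the increments -/
theorem incr {p : ℕ → P3} {t : ℕ → X → ℂ} {N : ℕ → ℕ} {k : ℕ} {x : X} (h : (Qm p t N k x)ᴴ * Qm p t N k x = 1) (i j : Fin 3) :
    dist (Qm p t N k x i j) (Qm p t N (k + 1) x i j) ≤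
      2 ^ k * Sf (p k) (t k) (N k • x) + 2 * (1 / 2 : ℝ) ^ k := by
  set z : Fin 3 → ℂ := fun l => Lam p t k (N k • x) i l - (1 : M3) i l with hz
  have h1 : Qm p t N (k + 1) x i j - Qm p t N k x i j = ∑ l, z l * Qm p t N k x l j := by
    rw [Q_succ]
    have h2 : (Lam p t k (N k • x) * Qm p t N k x) i j - Qm p t N k x i j =
        ((Lam p t k (N k • x) - 1) * Qm p t N k x) i j := by
      rw [Matrix.sub_mul, Matrix.one_mul, Matrix.sub_apply]
    rw [h2, Matrix.mul_apply]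
    rfl
  have h3 : ‖Qm p t N (k + 1) x i j - Qm p t N k x i j‖ ≤ ∑ l, ‖z l‖ := by
    rw [h1]
    refine (norm_sum_le _ _).trans (Finset.sum_le_sum fun l _ => ?_)
    rw [norm_mul]
    exact mul_le_of_le_one_right (norm_nonneg _) (entry_le h l j)
  have h4 : ∀ l, ‖z l‖ ≤ (2 ^ k * ‖z l‖ ^ 2 + (1 / 2 : ℝ) ^ k) / 2 := by
    intro l
    have h5 : (2 : ℝ) ^ k * (1 / 2) ^ k = 1 := by
      rw [← mul_pow]; norm_num
    have h6 : (0 : ℝ) ≤ 2 ^ k * (‖z l‖ - (1 / 2) ^ k) ^ 2 := by positivity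
    have h7 : (2 : ℝ) ^ k * (‖z l‖ - (1 / 2) ^ k) ^ 2 =
        2 ^ k * ‖z l‖ ^ 2 - 2 * ‖z l‖ * (2 ^ k * (1 / 2) ^ k) +
          (1 / 2) ^ k * (2 ^ k * (1 / 2) ^ k) := by ring
    rw [h7, h5] at h6
    linarith
  have h8 : ∑ l, ‖z l‖ ^ 2 ≤ Sf (p k) (t k) (N k • x) := by
    unfold Sf
    refine le_trans (le_of_eq ?_) (Finset.single_le_sum
      (f := fun i' : Fin 3 => ∑ j' : Fin 3,
        ‖(t k (N k • x))⁻¹ * ev3 (p k) (bl (N k • x)) i' j' - (1 : M3) i' j'‖ ^ 2)
      (fun i' _ => Finset.sum_nonneg fun j' _ => by positivity) (Finset.mem_univ i))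
    rfl
  rw [dist_comm, dist_eq_norm]
  have h9 : (0 : ℝ) < 2 ^ k := by positivity
  have h10 : (0 : ℝ) < (1 / 2) ^ k := by positivity
  have h11 : 0 ≤ Sf (p k) (t k) (N k • x) := Sf_nonneg _ _ _
  calc ‖Qm p t N (k + 1) x i j - Qm p t N k x i j‖ ≤ ∑ l, ‖z l‖ := h3
    _ ≤ ∑ l : Fin 3, (2 ^ k * ‖z l‖ ^ 2 + (1 / 2 : ℝ) ^ k) / 2 :=
        Finset.sum_le_sum fun l _ => h4 l
    _ = (2 ^ k * ∑ l : Fin 3, ‖z l‖ ^ 2) / 2 + 3 / 2 * (1 / 2 : ℝ) ^ k := by
        rw [Fin.sum_univ_three, Fin.sum_univ_three]; ring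
    _ ≤ _ := by
        have h12 := mul_le_mul_of_nonneg_left h8 h9.le
        have h13 := mul_nonneg h9.le h11
        linarith

/-- the limit -/
def Ph (p : ℕ → P3) (t : ℕ → X → ℂ) (N : ℕ → ℕ) (x : X) : M3 :=
  Matrix.of fun i j => limUnder atTop (fun k => Qm p t N k x i j)

theorem Ph_lim {p : ℕ → P3} {t : ℕ → X → ℂ} {N : ℕ → ℕ} {x : X} (h1 : ∀ k, (Qm p t N k x)ᴴ * Qm p t N k x = 1)
    (h2 : Summable fun k => (2 : ℝ) ^ k * Sf (p k) (t k) (N k • x)) :
    Tendsto (fun k => Qm p t N k x) atTop (𝓝 (Ph p t N x)) := by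
  refine tendsto_pi_nhds.2 fun i => tendsto_pi_nhds.2 fun j => ?_
  have hc : CauchySeq fun k => Qm p t N k x i j :=
    cauchySeq_of_dist_le_of_summable _ (fun k => incr (h1 k) i j)
      (h2.add (summable_geometric_two.mul_left 2))
  exact hc.tendsto_limUnder

end PHI3aux

open PHI3aux

theorem t_PHI3 (hTD : S_TD3) (hH4 : S_H4) : S_PHI3 := by
  intro p m t N hP
  obtain ⟨hbl, hbl1, -, -⟩ := hH4
  have hT := hTD p m t N hP
  -- the good set
  have hgood : ∀ᵐ x ∂mu, (∀ k, ‖TT3 t N k x‖ = 1) ∧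
      Summable fun k => (2 : ℝ) ^ k * Sf (p k) (t k) (N k • x) := by
    filter_upwards [ae_all_iff.2 fun k => (hT k).1.2, ae_summable hbl hbl1 p m t N hP]
      with x h1 h2
    exact ⟨h1, h2⟩
  have hlim : ∀ᵐ x ∂mu, (∀ k, ‖TT3 t N k x‖ = 1) ∧
      (∀ k, (Qm p t N k x)ᴴ * Qm p t N k x = 1) ∧
      Tendsto (fun k => Qm p t N k x) atTop (𝓝 (Ph p t N x)) := by
    filter_upwards [hgood] with x hx
    have h1 : ∀ k, (Qm p t N k x)ᴴ * Qm p t N k x = 1 := fun k =>
      Q_unit (hx.1 k) ((hT k).2.2.2.2.2.2 x)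
    exact ⟨hx.1, h1, Ph_lim h1 hx.2⟩
  refine ⟨Ph p t N, ?_, ?_, ?_⟩
  · intro i j
    refine aestronglyMeasurable_of_tendsto_ae atTop (f := fun k x => Qm p t N k x i j) ?_ ?_
    · intro k
      have h1 : AEStronglyMeasurable (fun x => (TT3 t N k x)⁻¹) mu :=
        ((hT k).1.1.aemeasurable.inv).aestronglyMeasurable
      have h2 : AEStronglyMeasurable (fun x => PP3 p N k x i j) mu :=
        ((P_cont hbl p N k).matrix_elem i j).aestronglyMeasurable
      exact h1.mul h2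
    · filter_upwards [hlim] with x hx
      exact (tendsto_pi_nhds.1 ((tendsto_pi_nhds.1 hx.2.2) i)) j
  · filter_upwards [hlim] with x hx
    have h1 : Tendsto (fun k => (Qm p t N k x)ᴴ * Qm p t N k x) atTop
        (𝓝 ((Ph p t N x)ᴴ * Ph p t N x)) := by
      have hc : Continuous fun A : M3 => Aᴴ * A :=
        (continuous_id.matrix_conjTranspose).matrix_mul continuous_id
      exact (hc.tendsto _).comp hx.2.2
    have h2 : Tendsto (fun k => (Qm p t N k x)ᴴ * Qm p t N k x) atTop (𝓝 (1 : M3)) := by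
      simp only [hx.2.1]
      exact tendsto_const_nhds
    exact tendsto_nhds_unique h1 h2
  · intro k g hg
    have hshift := (measurePreserving_add_right mu g).quasiMeasurePreserving.ae hlim
    filter_upwards [hlim, hshift] with x hx hxg
    have hdvd : ∀ j, k ≤ j → N j • g = 0 := by
      intro j hj
      induction j, hj using Nat.le_induction with
      | base => exact hg
      | succ j _ ih =>
        obtain ⟨m', hm⟩ := hP.dvd j
        rw [hm, mul_assoc, mul_comm (N j) m', ← mul_assoc, mul_smul, ih, smul_zero]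
    set W : M3 := (Qm p t N k x)ᴴ * Qm p t N k (x + g) with hW
    have key : ∀ j, k ≤ j → Qm p t N j (x + g) = Qm p t N j x * W := by
      intro j hj
      induction j, hj using Nat.le_induction with
      | base =>
        rw [hW, ← Matrix.mul_assoc, mul_eq_one_comm.1 (hx.2.1 k), Matrix.one_mul]
      | succ j hj ih =>
        rw [Q_succ, Q_succ, ih, Matrix.mul_assoc]
        have : N j • (x + g) = N j • x := by rw [smul_add, hdvd j hj, add_zero]
        rw [this]
    have hlimW : Ph p t N (x + g) = Ph p t N x * W := by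
      have h1 : Tendsto (fun j => Qm p t N j x * W) atTop (𝓝 (Ph p t N x * W)) := by
        have hc : Continuous fun A : M3 => A * W := continuous_id.matrix_mul continuous_const
        exact (hc.tendsto _).comp hx.2.2
      have h2 : (fun j => Qm p t N j x * W) =ᶠ[atTop] fun j => Qm p t N j (x + g) := by
        filter_upwards [eventually_ge_atTop k] with j hj
        exact (key j hj).symm
      exact tendsto_nhds_unique hxg.2.2 (h1.congr' h2)
    -- the constant
    have hTx : TT3 t N k x ≠ 0 := by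
      intro h0
      have := hx.1 k
      rw [h0, norm_zero] at this
      exact zero_ne_one this
    have hTg : TT3 t N k (x + g) ≠ 0 := by
      intro h0
      have := hxg.1 k
      rw [h0, norm_zero] at this
      exact zero_ne_one this
    have hstar : star (TT3 t N k x)⁻¹ = TT3 t N k x := by
      rw [star_inv₀, inv_eq_iff_eq_inv]
      have h4 : star (TT3 t N k x) * TT3 t N k x = 1 := by
        have := Complex.conj_mul' (TT3 t N k x)
        rw [hx.1 k] at this
        simpa using this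
      exact eq_inv_of_mul_eq_one_left h4
    have hadj : (PP3 p N k x).adjugate = DD3 m N k x • (PP3 p N k x)ᴴ := by
      have h5 : (PP3 p N k x)ᴴ * (PP3 p N k x * (PP3 p N k x).adjugate) =
          (PP3 p N k x).adjugate := by
        rw [← Matrix.mul_assoc, (hT k).2.2.2.2.2.2 x, Matrix.one_mul]
      rw [← h5, Matrix.mul_adjugate, (hT k).2.2.2.2.2.1 x, Matrix.mul_smul, Matrix.mul_one]
    have hWe : W = (TT3 t N k x * (TT3 t N k (x + g))⁻¹) •
        ((PP3 p N k x)ᴴ * PP3 p N k (x + g)) := by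
      rw [hW]
      unfold Qm
      rw [Matrix.conjTranspose_smul, hstar, Matrix.smul_mul, Matrix.mul_smul, smul_smul]
    rw [hlimW, hWe, hadj]
    unfold ww3
    rw [Matrix.smul_mul, Matrix.mul_smul, Matrix.mul_smul, smul_smul]
    congr 1
    field_simp

end

end Pool.Agent.H460U
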