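import Pool.Agent.H460U.TR.Defs3
import Pool.Agent.H460U.TR.STEP

/-! STEP3: the representation of `T_{k+1}^q φ`. -/

set_option autoImplicit false

open MeasureTheory Complex Filter
open scoped ComplexConjugate Matrix Topology InnerProductSpace

namespace Pool.Agent.H460U

namespace STEP3

theorem DD_eq (m N : ℕ → ℕ) (k : ℕ) (x : X) :
    DD3 m N k x = ∏ j ∈ Finset.range k, bl (N j • x) ^ (m j) := by
  induction k with
  | zero => simp [DD3]
  | succ k ih => rw [DD3, ih, Finset.prod_range_succ, mul_comm]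

/-- the growth condition bounds the degree -/
theorem growth {p : ℕ → P3} {m : ℕ → ℕ} {t : ℕ → X → ℂ} {N : ℕ → ℕ} (hP : Par3 p m t N)
    (q : ℕ) (hq : q = 1 ∨ q = 2) (k : ℕ) :
    ∑ j ∈ Finset.range k, (q * m j) * N j < N k := by
  have h := hP.growth k
  have hp := hP.pos k
  have h1 : ∑ j ∈ Finset.range k, m j * N j * 200 =
      200 * ∑ j ∈ Finset.range k, m j * N j := by
    rw [Finset.mul_sum]
    exact Finset.sum_congr rfl fun j _ => by ring
  have h3 : ∑ j ∈ Finset.range k, (q * m j) * N j = q * ∑ j ∈ Finset.range k, m j * N j := by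
    rw [Finset.mul_sum]
    exact Finset.sum_congr rfl fun j _ => by ring
  rw [h1] at h
  rw [h3]
  have h2 : 1 ≤ 2 ^ k := Nat.one_le_two_pow
  have h4 : 200 * ∑ j ∈ Finset.range k, m j * N j ≤ N k := by
    refine le_trans ?_ h
    exact Nat.le_mul_of_pos_left _ (by positivity)
  rcases hq with rfl | rfl <;> omega

theorem theta {p : ℕ → P3} {m : ℕ → ℕ} {t : ℕ → X → ℂ} {N : ℕ → ℕ} (hP : Par3 p m t N)
    (q : ℕ) (hq : q = 1 ∨ q = 2) (h1 : S_H1) (h4 : S_H4) (hTD : S_TD3)
    (hRED : S_RED) (φ : X → ℂ) (hInv : Inv3 m t N q φ) (k : ℕ) (s : ℤ) (Ψ : X → ℂ)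
    (hΨ : Uni Ψ) (i : ℕ → ℕ) (hi : ∀ j, i j ≤ q * m j)
    (hrep : ∀ᵐ x ∂mu, TT3 t N (k + 1) x ^ q * φ x =
      e s x * Ψ (N k • x) * ∏ j ∈ Finset.range k, bl (N j • x) ^ (i j))
    (ω g : X) (hg : N k • g = ω) (hg0 : N (k + 1) • g = 0) :
    An (fun y => bl y ^ (q * m k) * Ψ (y + ω) * conj (Ψ y)) := by
  have hbu : Uni bl := STEP_Uni_cont h4.1 h4.2.1
  have hNk : 0 < N k := hP.pos k
  have hA := hInv (k + 1) g hg0
  have hΘ : Uni (fun y => bl y ^ (q * m k) * Ψ (y + ω) * conj (Ψ y)) :=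
    STEP_Uni_mul (STEP_Uni_mul (STEP_Uni_pow hbu _) (STEP_Uni_comp hΨ (STEP_ta ω)))
      (STEP_Uni_conj hΨ)
  set Θ : X → ℂ := fun y => bl y ^ (q * m k) * Ψ (y + ω) * conj (Ψ y) with hΘdef
  set F : X → ℂ := fun x => e s g * Θ (N k • x) * ∏ j ∈ Finset.range k,
    (bl (N j • x) ^ (q * m j - i j) * bl (N j • x + N j • g) ^ (i j)) with hFdef
  have hFu : Uni F := by
    refine STEP_Uni_mul (STEP_Uni_mul (STEP_Uni_const (STEP_norm_e s g))
      (STEP_Uni_comp hΘ (STEP_mp (N k) hNk))) (STEP_Uni_prod _ _ fun j _ => ?_)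
    refine STEP_Uni_mul (STEP_Uni_pow (STEP_Uni_comp hbu (STEP_mp (N j) (hP.pos j))) _)
      (STEP_Uni_pow (f := fun x => bl (N j • x + N j • g)) ?_ _)
    exact STEP_Uni_comp (STEP_Uni_comp hbu (STEP_ta (N j • g))) (STEP_mp (N j) (hP.pos j))
  have hTT := (hTD p m t N hP (k + 1)).1
  have hAF : ∀ᵐ x ∂mu, ww3 m t N (k + 1) g x ^ q * φ (x + g) * conj (φ x) = F x := by
    have hr2 := (STEP_ta g).quasiMeasurePreserving.ae (p := fun y => TT3 t N (k + 1) y ^ q * φ y =
      e s y * Ψ (N k • y) * ∏ j ∈ Finset.range k, bl (N j • y) ^ (i j)) hrep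
    filter_upwards [hrep, hr2, hTT.2] with x hx hx2 hx3
    have hinv : (TT3 t N (k + 1) x)⁻¹ = conj (TT3 t N (k + 1) x) := by
      rw [Complex.inv_def, Complex.normSq_eq_norm_sq, hx3]; simp
    have e1 : ww3 m t N (k + 1) g x ^ q * φ (x + g) * conj (φ x) =
        DD3 m N (k + 1) x ^ q * (TT3 t N (k + 1) (x + g) ^ q * φ (x + g)) *
          conj (TT3 t N (k + 1) x ^ q * φ x) := by
      unfold ww3
      rw [hinv, map_mul, map_pow, mul_pow, mul_pow]
      ring
    rw [e1, hx, hx2, DD_eq, Finset.prod_range_succ, hFdef]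
    simp only [hΘdef]
    rw [smul_add, hg, STEP_e_add, map_mul, map_mul, map_prod, mul_pow, ← pow_mul,
      ← Finset.prod_pow]
    have e2 : e s x * conj (e s x) = 1 := by
      rw [Complex.mul_conj, Complex.normSq_eq_norm_sq, STEP_norm_e]; norm_num
    have e3 : (∏ j ∈ Finset.range k, (bl (N j • x) ^ (m j)) ^ q) *
        (∏ j ∈ Finset.range k, bl (N j • (x + g)) ^ (i j)) *
        (∏ j ∈ Finset.range k, conj (bl (N j • x) ^ (i j))) =
        ∏ j ∈ Finset.range k,
          (bl (N j • x) ^ (q * m j - i j) * bl (N j • x + N j • g) ^ (i j)) := by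
      rw [← Finset.prod_mul_distrib, ← Finset.prod_mul_distrib]
      refine Finset.prod_congr rfl fun j _ => ?_
      rw [← STEP_alg (bl (N j • x)) (h4.2.1 _) _ _ (hi j), smul_add, ← pow_mul, mul_comm (m j) q]
      ring
    rw [← e3, mul_comm (m k) q]
    linear_combination (e s g * (∏ j ∈ Finset.range k, (bl (N j • x) ^ (m j)) ^ q) *
      bl (N k • x) ^ (q * m k) * Ψ (N k • x + ω) *
      (∏ j ∈ Finset.range k, bl (N j • (x + g)) ^ (i j)) * conj (Ψ (N k • x)) *
      (∏ j ∈ Finset.range k, conj (bl (N j • x) ^ (i j)))) * e2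
  have hAnF : An F := STEP_An_congr hAF hA
  -- the polynomials
  set c : ℕ → ℂ := fun j => e 1 (N j • g) with hc
  set r : Polynomial ℂ := ∏ j ∈ Finset.range k,
    ((Polynomial.X ^ (N j) - Polynomial.C (1 / 2)) ^ (q * m j - i j) *
      (Polynomial.C (c j) * Polynomial.X ^ (N j) - Polynomial.C (1 / 2)) ^ (i j)) with hr
  set u : Polynomial ℂ := ∏ j ∈ Finset.range k,
    ((1 - Polynomial.C (1 / 2) * Polynomial.X ^ (N j)) ^ (q * m j - i j) *
      (1 - Polynomial.C (1 / 2 * c j) * Polynomial.X ^ (N j)) ^ (i j)) with hu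
  have hFq : ∀ x, F x * u.eval (e 1 x) = e s g * (Θ (N k • x) * r.eval (e 1 x)) := by
    intro x
    rw [hFdef]
    simp only []
    rw [hu, hr, Polynomial.eval_prod, Polynomial.eval_prod]
    have e4 : (∏ j ∈ Finset.range k,
        (bl (N j • x) ^ (q * m j - i j) * bl (N j • x + N j • g) ^ (i j))) *
        (∏ j ∈ Finset.range k, Polynomial.eval (e 1 x)
          ((1 - Polynomial.C (1 / 2) * Polynomial.X ^ (N j)) ^ (q * m j - i j) *
      (1 - Polynomial.C (1 / 2 * c j) * Polynomial.X ^ (N j)) ^ (i j))) =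
        ∏ j ∈ Finset.range k, Polynomial.eval (e 1 x)
          ((Polynomial.X ^ (N j) - Polynomial.C (1 / 2)) ^ (q * m j - i j) *
      (Polynomial.C (c j) * Polynomial.X ^ (N j) - Polynomial.C (1 / 2)) ^ (i j)) := by
      rw [← Finset.prod_mul_distrib]
      refine Finset.prod_congr rfl fun j _ => ?_
      simp only [Polynomial.eval_mul, Polynomial.eval_pow, Polynomial.eval_sub,
        Polynomial.eval_one, Polynomial.eval_C, Polynomial.eval_X]
      have b1 := STEP_bl (N j • x)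
      have b2 := STEP_bl (N j • x + N j • g)
      rw [STEP_e_pow] at b1
      rw [STEP_e_add, STEP_e_pow (N j) x] at b2
      have b3 : bl (N j • x + N j • g) * (1 - 1 / 2 * c j * e 1 x ^ N j) =
          c j * e 1 x ^ N j - 1 / 2 := by
        rw [hc]
        linear_combination b2
      rw [← b1, ← b3, mul_pow, mul_pow]
      ring
    rw [← e4]
    ring
  have hAn1 : An (fun x => F x * u.eval (e 1 x)) := by
    refine (h1 F _ (STEP_Uni_memLp hFu) hAnF (STEP_Bd_cont ?_) (STEP_An_poly u)).2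
    exact u.continuous.comp (STEP_cont_e 1)
  have hAn2 : An (fun x => Θ (N k • x) * r.eval (e 1 x)) := by
    intro n hn
    have h5 := hAn1 n hn
    have h6 : (fun x => F x * u.eval (e 1 x)) =
        fun x => e s g * (Θ (N k • x) * r.eval (e 1 x)) := funext hFq
    rw [h6, fourierCoeff.const_mul] at h5
    rcases mul_eq_zero.1 h5 with h | h
    · exfalso
      have := STEP_norm_e s g
      rw [h, norm_zero] at this
      norm_num at this
    · exact h
  refine hRED Θ (N k) r hΘ hNk ?_ ?_ hAn2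
  · refine lt_of_le_of_lt ?_ (growth hP q hq k)
    rw [hr]
    refine le_trans (Polynomial.natDegree_prod_le _ _) (Finset.sum_le_sum fun j _ => ?_)
    refine le_trans Polynomial.natDegree_mul_le ?_
    have d1 : (Polynomial.X ^ (N j) - Polynomial.C (1 / 2) : Polynomial ℂ).natDegree ≤ N j := by
      refine le_trans (Polynomial.natDegree_sub_le _ _) ?_
      simp
    have d2 : (Polynomial.C (c j) * Polynomial.X ^ (N j) - Polynomial.C (1 / 2) :
        Polynomial ℂ).natDegree ≤ N j := by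
      refine le_trans (Polynomial.natDegree_sub_le _ _) ?_
      refine max_le (Polynomial.natDegree_C_mul_X_pow_le _ _) ?_
      simp
    have d3 := Polynomial.natDegree_pow_le (p := (Polynomial.X ^ (N j) - Polynomial.C (1 / 2) :
      Polynomial ℂ)) (n := q * m j - i j)
    have d4 := Polynomial.natDegree_pow_le (p := (Polynomial.C (c j) * Polynomial.X ^ (N j) -
      Polynomial.C (1 / 2) : Polynomial ℂ)) (n := i j)
    have d5 : (q * m j - i j) * N j + i j * N j = q * m j * N j := by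
      rw [← add_mul, Nat.sub_add_cancel (hi j)]
    calc _ ≤ (q * m j - i j) * N j + i j * N j :=
          add_le_add (le_trans d3 (Nat.mul_le_mul_left _ d1))
            (le_trans d4 (Nat.mul_le_mul_left _ d2))
      _ = _ := d5
  · rw [Polynomial.coeff_zero_eq_eval_zero, hr, Polynomial.eval_prod]
    refine Finset.prod_ne_zero_iff.2 fun j _ => ?_
    have hNj : N j ≠ 0 := (hP.pos j).ne'
    simp only [Polynomial.eval_mul, Polynomial.eval_pow, Polynomial.eval_sub,
        Polynomial.eval_C, Polynomial.eval_X]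
    rw [zero_pow hNj]
    refine mul_ne_zero (pow_ne_zero _ (by norm_num)) (pow_ne_zero _ ?_)
    rw [mul_zero]
    norm_num

end STEP3

theorem t_STEP3 (hK1 : S_K1) (hK2 : S_K2) (hDIV : S_DIV) (hRED : S_RED) (h1 : S_H1)
    (_h2 : S_H2) (h4 : S_H4) (hTD : S_TD3) : S_STEP3 := by
  intro p m t N hP q hq φ hφ hInv k hRep
  obtain ⟨s, Ψ0, i, hΨ0, hi, hrep⟩ := hRep
  have hbu : Uni bl := STEP_Uni_cont h4.1 h4.2.1
  have hNk : 0 < N k := hP.pos k
  obtain ⟨d, hd⟩ := hP.dvd k
  have hQpos : 0 < 2 * d := by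
    rcases Nat.eq_zero_or_pos d with h | h
    · have := hP.pos (k + 1)
      rw [hd, h] at this
      omega
    · omega
  have hNQ : N (k + 1) = 2 * d * N k := by rw [hd]; ring
  set Ψ : X → ℂ := fun y => t k y ^ q * Ψ0 y with hΨdef
  have hΨ : Uni Ψ := STEP_Uni_mul (STEP_Uni_pow (hP.loop k).uni q) hΨ0
  have hrep1 : ∀ᵐ x ∂mu, TT3 t N (k + 1) x ^ q * φ x =
      e s x * Ψ (N k • x) * ∏ j ∈ Finset.range k, bl (N j • x) ^ (i j) := by
    filter_upwards [hrep] with x hx
    rw [TT3, hΨdef, mul_pow, mul_assoc, hx]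
    ring
  have hAn : ∀ ω : X, (2 * d) • ω = 0 →
      An (fun y => bl y ^ (q * m k) * Ψ (y + ω) * conj (Ψ y)) := by
    intro ω hω
    obtain ⟨g, hg⟩ := STEP_div (N k) hNk ω
    refine STEP3.theta hP q hq h1 h4 hTD hRED φ hInv k s Ψ hΨ i hi hrep1 ω g hg ?_
    rw [hNQ, mul_smul, hg, hω]
  obtain ⟨ψ, B, C, hψ, hB, hBA, hC, hCA, hBC, hΨψ, hcoc⟩ :=
    hK1 (fun y => bl y ^ (q * m k)) Ψ (2 * d) hQpos (STEP_Uni_pow hbu _)
      (STEP_An_pow h1 h4 _) hΨ hAn
  obtain ⟨σ, F, hF, hψF⟩ := hK2 ψ (2 * d) hQpos hψ hcoc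
  obtain ⟨i', c, hi', hc, hBc⟩ := hDIV B C (q * m k) hB hBA hC hCA hBC
  refine ⟨s + σ * (N k : ℤ), fun y => c * F y, Function.update i k i',
    STEP_Uni_mul (STEP_Uni_const hc) hF, ?_, ?_⟩
  · intro j
    by_cases hj : j = k
    · subst hj; rw [Function.update_self]; exact hi'
    · rw [Function.update_of_ne hj]; exact hi j
  · have hall : ∀ᵐ y ∂mu, Ψ y = e σ y * F ((2 * d) • y) * (c * bl y ^ i') := by
      filter_upwards [hΨψ, hψF, hBc] with y a1 a2 a3
      rw [a1, a2, a3]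
    have hall2 := (STEP_mp (N k) hNk).quasiMeasurePreserving.ae
      (p := fun y => Ψ y = e σ y * F ((2 * d) • y) * (c * bl y ^ i')) hall
    filter_upwards [hrep1, hall2] with x a1 a2
    have e6 : N (k + 1) • x = (2 * d) • (N k • x) := by rw [hNQ, mul_smul]
    rw [a1, a2, Finset.prod_range_succ, Function.update_self, STEP_e_add', STEP_e_nsmul, e6]
    have e5 : ∏ j ∈ Finset.range k, bl (N j • x) ^ (Function.update i k i' j) =
        ∏ j ∈ Finset.range k, bl (N j • x) ^ (i j) := by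
      refine Finset.prod_congr rfl fun j hj => ?_
      rw [Function.update_of_ne (Finset.mem_range.1 hj).ne]
    rw [e5]
    ring

end Pool.Agent.H460U
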