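import Pool.Agent.H460U.TR.Defs3

/-! Task TD3 of project TR part 2: the properties of `T_k`, `D_k`, `P_k`. -/

set_option autoImplicit false

open MeasureTheory Complex Filter
open scoped ComplexConjugate Matrix Topology InnerProductSpace

namespace Pool.Agent.H460U

namespace TD3

theorem mp (N : ℕ) (hN : 0 < N) : MeasurePreserving (fun x : X => N • x) mu mu := by
  have h := Measure.measurePreserving_zsmul (mu) (n := (N : ℤ)) (by exact_mod_cast hN.ne')
  simpa only [natCast_zsmul] using h

theorem an_one : An (fun _ => (1 : ℂ)) := by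
  intro n hn
  have h : ∫ x : X, (fourier (-n) x : ℂ) ∂mu = 0 := by
    exact integral_eq_zero_of_add_right_eq_neg (μ := AddCircle.haarAddCircle)
      (fourier_add_half_inv_index (T := 1) (n := -n) (by omega) one_pos)
  unfold fourierCoeff
  simpa using h

theorem bd (f : X → ℂ) (hc : Continuous f) (h1 : ∀ x, ‖f x‖ = 1) : Bd f :=
  ⟨hc.aestronglyMeasurable, 1, Eventually.of_forall fun x => (h1 x).le⟩

theorem mem (f : X → ℂ) (hc : Continuous f) (h1 : ∀ x, ‖f x‖ = 1) : MemLp f 2 mu :=
  MemLp.of_bound hc.aestronglyMeasurable 1 (Eventually.of_forall fun x => (h1 x).le)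

theorem an_mul (h1 : S_H1) (f g : X → ℂ) (hf : Continuous f) (hg : Continuous g)
    (nf : ∀ x, ‖f x‖ = 1) (ng : ∀ x, ‖g x‖ = 1) (af : An f) (ag : An g) :
    An (fun x => f x * g x) := (h1 f g (mem f hf nf) af (bd g hg ng) ag).2

theorem an_pow (h1 : S_H1) (f : X → ℂ) (hf : Continuous f)
    (nf : ∀ x, ‖f x‖ = 1) (af : An f) (m : ℕ) : An (fun x => f x ^ m) := by
  induction m with
  | zero => simpa using an_one
  | succ m ih =>
    have h := an_mul h1 (fun x => f x ^ m) f (hf.pow m) hf (fun x => by simp [nf]) nf ih af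
    simpa only [pow_succ] using h

theorem an_dil (h3 : S_H3) (f : X → ℂ) (hf : Bd f) (af : An f) (N : ℕ) (hN : 0 < N) :
    An (fun x : X => f (N • x)) := by
  intro n hn
  obtain ⟨ha, hb⟩ := h3 f N hN hf
  by_cases hd : (N : ℤ) ∣ n
  · obtain ⟨j, rfl⟩ := hd
    rw [ha j]
    apply af
    have hN' : (0 : ℤ) < N := by exact_mod_cast hN
    by_contra hj
    push Not at hj
    have := mul_nonneg hN'.le hj
    omega
  · exact hb n hd

end TD3

theorem t_TD3 (h1 : S_H1) (h3 : S_H3) (h4 : S_H4) : S_TD3 := by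
  intro p m t N hP
  obtain ⟨hbc, hbn, hba, -⟩ := h4
  have hN : ∀ k, 0 < N k := hP.pos
  have hNc : ∀ k, Continuous (fun x : X => N k • x) := fun k => continuous_const_smul (N k)
  intro k
  induction k with
  | zero =>
    refine ⟨⟨?_, ?_⟩, ?_, ?_, ?_, ?_, ?_, ?_⟩
    · exact aestronglyMeasurable_const
    · exact Eventually.of_forall fun x => norm_one
    · exact continuous_const
    · exact fun x => norm_one
    · exact TD3.an_one
    · exact Eventually.of_forall fun x => one_pow 3
    · exact fun x => Matrix.det_one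
    · intro x
      show ((1 : M3))ᴴ * 1 = 1
      rw [Matrix.conjTranspose_one, one_mul]
  | succ k ih =>
    obtain ⟨⟨i1, i2⟩, i3, i4, i5, i6, i7, i8⟩ := ih
    have hL := hP.loop k
    obtain ⟨u1, u2⟩ := hL.uni
    have u3 := hL.cube
    have hmp := TD3.mp (N k) (hN k)
    have hc1 : Continuous (fun x : X => bl (N k • x) ^ (m k)) :=
      (hbc.comp (hNc k)).pow _
    have hn1 : ∀ x : X, ‖bl (N k • x) ^ (m k)‖ = 1 := fun x => by
      rw [norm_pow, hbn, one_pow]
    refine ⟨⟨?_, ?_⟩, ?_, ?_, ?_, ?_, ?_, ?_⟩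
    · exact (u1.comp_measurePreserving hmp).mul i1
    · have h := hmp.quasiMeasurePreserving.ae u2
      filter_upwards [h, i2] with x hx hx'
      show ‖t k (N k • x) * TT3 t N k x‖ = 1
      rw [norm_mul, hx, hx', one_mul]
    · exact hc1.mul i3
    · intro x
      show ‖bl (N k • x) ^ (m k) * DD3 m N k x‖ = 1
      rw [norm_mul, hn1, i4, one_mul]
    · refine TD3.an_mul h1 (fun x : X => bl (N k • x) ^ (m k)) (DD3 m N k) hc1 i3 hn1 i4 ?_ i5
      exact TD3.an_dil h3 (fun y => bl y ^ (m k))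
        (TD3.bd _ (hbc.pow _) (fun x => by rw [norm_pow, hbn, one_pow]))
        (TD3.an_pow h1 bl hbc hbn hba _) (N k) (hN k)
    · have h := hmp.quasiMeasurePreserving.ae u3
      filter_upwards [h, i6] with x hx hx'
      show (t k (N k • x) * TT3 t N k x) ^ 3 = bl (N k • x) ^ (m k) * DD3 m N k x
      rw [mul_pow, hx, hx']
    · intro x
      show (ev3 (p k) (bl (N k • x)) * PP3 p N k x).det =
        bl (N k • x) ^ (m k) * DD3 m N k x
      rw [Matrix.det_mul, hL.det, i7]
    · intro x
      show (ev3 (p k) (bl (N k • x)) * PP3 p N k x)ᴴ *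
        (ev3 (p k) (bl (N k • x)) * PP3 p N k x) = 1
      rw [Matrix.conjTranspose_mul, Matrix.mul_assoc, ← Matrix.mul_assoc _ (ev3 _ _),
        hL.unit _ (hbn _), Matrix.one_mul, i8]

end Pool.Agent.H460U
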