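import Pool.Agent.H460U.TR.Defs3

/-! Project TR part 2, task TRA3 (helper60): two-transitivity. -/

set_option autoImplicit false

open MeasureTheory Complex Filter
open scoped ComplexConjugate Matrix Topology InnerProductSpace

namespace Pool.Agent.H460U

noncomputable section

namespace TRA3

lemma mp (g : X) : MeasurePreserving (fun x : X => x + g) mu mu :=
  measurePreserving_add_right mu g

lemma ae_shift {p : X → Prop} (g : X) (h : ∀ᵐ x ∂mu, p x) : ∀ᵐ x ∂mu, p (x + g) :=
  (mp g).quasiMeasurePreserving.ae h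

lemma sm_shift {f : X → ℂ} (hf : AEStronglyMeasurable f mu) (g : X) :
    AEStronglyMeasurable (fun x => f (x + g)) mu := by
  have h := AEStronglyMeasurable.comp_measurePreserving hf (mp g)
  exact h

lemma uni_shift {f : X → ℂ} (hf : Uni f) (g : X) : Uni (fun x => f (x + g)) :=
  ⟨sm_shift hf.1 g, ae_shift (p := fun x => ‖f x‖ = 1) g hf.2⟩

lemma norm_e (n : ℤ) (x : X) : ‖e n x‖ = 1 := by
  change ‖(((n • x).toCircle : Circle) : ℂ)‖ = 1
  exact Circle.norm_coe _

lemma e_add (n : ℤ) (x g : X) : e n (x + g) = e n x * e n g := by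
  change ((AddCircle.toCircle (n • (x + g)) : Circle) : ℂ) =
    ((AddCircle.toCircle (n • x) : Circle) : ℂ) * ((AddCircle.toCircle (n • g) : Circle) : ℂ)
  rw [smul_add, AddCircle.toCircle_add, Circle.coe_mul]

lemma sm_e (n : ℤ) : AEStronglyMeasurable (e n) mu :=
  (map_continuous (fourier n)).aestronglyMeasurable

lemma uni_e (n : ℤ) : Uni (e n) := ⟨sm_e n, Eventually.of_forall fun x => norm_e n x⟩

lemma uni_ww3 (hTD : S_TD3) {p : ℕ → P3} {m : ℕ → ℕ} {t : ℕ → X → ℂ} {N : ℕ → ℕ}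
    (hP : Par3 p m t N) (k : ℕ) (g : X) : Uni (ww3 m t N k g) := by
  obtain ⟨hT, hDc, hD1, -⟩ := hTD p m t N hP k
  have hT' := uni_shift hT g
  refine ⟨((hDc.aestronglyMeasurable).mul hT'.1).mul hT.1.inv₀, ?_⟩
  filter_upwards [hT.2, hT'.2] with x h1 h2
  simp only [ww3, norm_mul, norm_inv, h1, hD1 x, h2]
  norm_num

lemma mkp (F : X → Fin 2 → ℂ) (hm : ∀ i, AEStronglyMeasurable (fun x => F x i) mu) (C : ℝ)
    (hC : ∀ i, ∀ᵐ x ∂mu, ‖F x i‖ ≤ C) : ∃ p : L22, ∀ᵐ x ∂mu, vl p x = F x := by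
  have h0 : MemLp (fun x => F x 0) 2 mu := MemLp.of_bound (hm 0) C (hC 0)
  have h1 : MemLp (fun x => F x 1) 2 mu := MemLp.of_bound (hm 1) C (hC 1)
  refine ⟨(h0.toLp _, h1.toLp _), ?_⟩
  filter_upwards [h0.coeFn_toLp, h1.coeFn_toLp] with x h2 h3
  funext i
  fin_cases i
  · simpa [vl] using h2
  · simpa [vl] using h3

lemma An_congr {f g : X → ℂ} (h : ∀ᵐ x ∂mu, f x = g x) (hf : An f) : An g := by
  intro n hn
  have h1 : fourierCoeff f n = fourierCoeff g n := congrFun (fourierCoeff_congr_ae h) n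
  rw [← h1]
  exact hf n hn

lemma An_const (c : ℂ) : An (fun _ : X => c) := by
  intro n hn
  have h1 : (fun _ : X => c) = fun x : X => c * (fourier 0 : C(X, ℂ)) x := by
    funext x
    rw [fourier_zero, mul_one]
  have h2 : fourierCoeff (fun x : X => c * (fourier 0 : C(X, ℂ)) x) n =
      c * fourierCoeff (fourier 0 : C(X, ℂ)) n := by
    unfold fourierCoeff
    rw [← integral_const_mul]
    refine integral_congr_ae (Eventually.of_forall fun x => ?_)
    simp only [smul_eq_mul]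
    ring
  rw [h1, h2, fourierCoeff_fourier, Pi.single_eq_of_ne hn.ne, mul_zero]

lemma coeff_e (G : X → ℂ) (c : ℂ) (n l : ℤ) :
    fourierCoeff (fun x => c * (e (-n) x * G x)) l = c * fourierCoeff G (l + n) := by
  unfold fourierCoeff
  rw [← integral_const_mul]
  refine integral_congr_ae (Eventually.of_forall fun x => ?_)
  have h1 : (fourier (-(l + n)) : C(X, ℂ)) x = fourier (-l) x * fourier (-n) x := by
    rw [← fourier_add]
    congr 2
    ring
  simp only [smul_eq_mul]
  rw [h1]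
  simp only [e]
  ring

lemma zero_of_coeff (G : X → ℂ) (hm : AEStronglyMeasurable G mu) (C : ℝ)
    (hC : ∀ᵐ x ∂mu, ‖G x‖ ≤ C) (h : ∀ n, fourierCoeff G n = 0) : ∀ᵐ x ∂mu, G x = 0 := by
  have h0 : MemLp G 2 mu := MemLp.of_bound hm C hC
  have h1 : (h0.toLp G : X → ℂ) =ᵐ[mu] G := h0.coeFn_toLp
  have h2 : h0.toLp G = 0 := by
    have h3 := hasSum_fourier_series_L2 (h0.toLp G)
    have h4 : ∀ i, fourierCoeff (h0.toLp G : X → ℂ) i = 0 := by
      intro i
      rw [congrFun (fourierCoeff_congr_ae h1) i]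
      exact h i
    simp only [h4, zero_smul] at h3
    exact h3.unique hasSum_zero
  have h5 := Lp.coeFn_zero ℂ 2 mu
  rw [h2] at h1
  filter_upwards [h1, h5] with x h6 h7
  rw [← h6, h7]
  rfl

/-! linear algebra in `C²` -/

lemma hp2 (u v : Fin 2 → ℂ) : hp u v = conj (u 0) * v 0 + conj (u 1) * v 1 := by
  simp [hp, Fin.sum_univ_two]

lemma hp_smul (u v : Fin 2 → ℂ) (c : ℂ) : hp u (c • v) = c * hp u v := by
  rw [hp2, hp2]
  simp only [Pi.smul_apply, smul_eq_mul]
  ring

def col (P : M2) (i : Fin 2) : Fin 2 → ℂ := fun j => P j i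

lemma mulVec_col (P Q : M2) (i : Fin 2) : P.mulVec (col Q i) = col (P * Q) i := by
  funext j
  simp [col, Matrix.mulVec, dotProduct, Matrix.mul_apply]

lemma hp_col (P : M2) (h : Pᴴ = P) (u : Fin 2 → ℂ) (hu : P.mulVec u = 0) (i : Fin 2) :
    hp u (col P i) = 0 := by
  have h1 : ∀ j, conj (P j i) = P i j := fun j => congrFun (congrFun h i) j
  have h2 : P i 0 * u 0 + P i 1 * u 1 = 0 := by
    have := congrFun hu i
    simpa [Matrix.mulVec, dotProduct, Fin.sum_univ_two] using this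
  have h3 : conj (hp u (col P i)) = 0 := by
    rw [hp2]
    simp only [map_add, map_mul, Complex.conj_conj, col, h1]
    rw [← h2]
    ring
  have h4 := congrArg (starRingEnd ℂ) h3
  simpa using h4

lemma pr_bound (P : M2) (h : Pᴴ = P) (h2 : P * P = P) (i j : Fin 2) : ‖P i j‖ ≤ 1 := by
  have h1 : ∀ i j, conj (P j i) = P i j := fun i j => congrFun (congrFun h i) j
  have h3 : ∀ j, ‖P j j‖ = ‖P 0 j‖ ^ 2 + ‖P 1 j‖ ^ 2 := by
    intro j
    have h4 : (P * P) j j = P j j := by rw [h2]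
    rw [Matrix.mul_apply, Fin.sum_univ_two, ← h1 j 0, ← h1 j 1, mul_comm, Complex.mul_conj,
      mul_comm, Complex.mul_conj, Complex.normSq_eq_norm_sq, Complex.normSq_eq_norm_sq] at h4
    rw [← h4]
    rw [← Complex.ofReal_add, Complex.norm_real, Real.norm_of_nonneg (by positivity)]
  have h5 := h3 0
  have h6 := h3 1
  have n00 := norm_nonneg (P 0 0)
  have n01 := norm_nonneg (P 0 1)
  have n10 := norm_nonneg (P 1 0)
  have n11 := norm_nonneg (P 1 1)
  have a0 : ‖P 0 0‖ ≤ 1 := by nlinarith [sq_nonneg ‖P 1 0‖]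
  have a1 : ‖P 1 1‖ ≤ 1 := by nlinarith [sq_nonneg ‖P 0 1‖]
  fin_cases i <;> fin_cases j
  · exact a0
  · show ‖P 0 1‖ ≤ 1
    nlinarith
  · show ‖P 1 0‖ ≤ 1
    nlinarith
  · exact a1

lemma th_bound (u : Fin 2 → ℂ) (h : hp u u = 1) : ‖u 0‖ ^ 2 + ‖u 1‖ ^ 2 = 1 := by
  rw [hp2, mul_comm, Complex.mul_conj, mul_comm (conj (u 1)), Complex.mul_conj,
    Complex.normSq_eq_norm_sq, Complex.normSq_eq_norm_sq, ← Complex.ofReal_add] at h
  exact_mod_cast h

lemma th_bound' (u : Fin 2 → ℂ) (h : hp u u = 1) (i : Fin 2) : ‖u i‖ ≤ 1 := by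
  have h1 := th_bound u h
  have n0 := norm_nonneg (u 0)
  have n1 := norm_nonneg (u 1)
  fin_cases i
  · show ‖u 0‖ ≤ 1
    nlinarith
  · show ‖u 1‖ ≤ 1
    nlinarith

lemma hp_bound (u v : Fin 2 → ℂ) (hu : ∀ i, ‖u i‖ ≤ 1) (hv : ∀ i, ‖v i‖ ≤ 1) :
    ‖hp u v‖ ≤ 2 := by
  rw [hp2]
  have h : ∀ i, ‖conj (u i) * v i‖ ≤ 1 := by
    intro i
    rw [norm_mul, RCLike.norm_conj]
    exact mul_le_one₀ (hu i) (norm_nonneg _) (hv i)
  calc _ ≤ ‖conj (u 0) * v 0‖ + ‖conj (u 1) * v 1‖ := norm_add_le _ _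
    _ ≤ 1 + 1 := add_le_add (h 0) (h 1)
    _ = 2 := by norm_num

lemma sm_hp {u v : X → Fin 2 → ℂ} (hu : ∀ i, AEStronglyMeasurable (fun x => u x i) mu)
    (hv : ∀ i, AEStronglyMeasurable (fun x => v x i) mu) :
    AEStronglyMeasurable (fun x => hp (u x) (v x)) mu := by
  have h : (fun x => hp (u x) (v x)) =
      fun x => conj (u x 0) * v x 0 + conj (u x 1) * v x 1 := by
    funext x
    exact hp2 _ _
  rw [h]
  have hc : ∀ i, AEStronglyMeasurable (fun x => conj (u x i)) mu := fun i =>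
    Complex.continuous_conj.comp_aestronglyMeasurable (hu i)
  exact ((hc 0).mul (hv 0)).add ((hc 1).mul (hv 1))

lemma An_sub {f g : X → ℂ} (hf : MemLp f 2 mu) (hg : MemLp g 2 mu) (h1 : An f) (h2 : An g) :
    An (fun x => f x - g x) := by
  intro n hn
  have hi : ∀ f : X → ℂ, MemLp f 2 mu → Integrable (fun x => (fourier (-n) : C(X, ℂ)) x * f x) mu := by
    intro f hf
    refine Integrable.mono' (hf.integrable one_le_two).norm ((sm_e (-n)).mul hf.1) ?_
    refine Eventually.of_forall fun x => ?_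
    have h := norm_e (-n) x
    rw [norm_mul]
    unfold e at h
    rw [h, one_mul]
  have h3 : fourierCoeff (fun x => f x - g x) n = fourierCoeff f n - fourierCoeff g n := by
    unfold fourierCoeff
    simp only [smul_eq_mul]
    rw [← integral_sub (hi f hf) (hi g hg)]
    refine integral_congr_ae (Eventually.of_forall fun x => ?_)
    simp only []
    ring
  rw [h3, h1 n hn, h2 n hn, sub_zero]

lemma vl_congr (q : L22) (A : L2 →L[ℂ] L2) (w : X → ℂ) (g : X)
    (hA : ∀ f : L2, (A f : X → ℂ) =ᵐ[mu] fun x => w x * f (x + g)) :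
    ∀ᵐ x ∂mu, vl (A q.1, A q.2) x = w x • vl q (x + g) := by
  filter_upwards [hA q.1, hA q.2] with x h1 h2
  funext i
  fin_cases i
  · simpa [vl] using h1
  · simpa [vl] using h2

end TRA3

open TRA3 in
theorem t_TRA3 (hBH3 : S_BH3) (hAG : S_AG3) (hAU : S_AU3) (hOP : S_OP) (hERG : S_ERG3)
    (hNO : S_NO3) (hTD : S_TD3) (hH1 : S_H1) (_ : S_H2) : S_TRA3 := by
  intro p m t N Φ hP hΦ M hMc hM
  have hmeas := hΦ.meas
  have hunit := hΦ.unit
  -- the bilateral shift
  have hz : ∀ q ∈ M, ∀ h : L22, (h.1 : X → ℂ) =ᵐ[mu] (fun x => e 1 x * q.1 x) →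
      (h.2 : X → ℂ) =ᵐ[mu] (fun x => e 1 x * q.2 x) → h ∈ M := by
    obtain ⟨A, hA⟩ := hOP (e 1) 0 (uni_e 1)
    have hA' : ∀ f : L2, (A f : X → ℂ) =ᵐ[mu] fun x => e 1 x * f x := by
      intro f
      refine (hA f).trans (Eventually.of_forall fun x => ?_)
      simp
    have hin := (hAU Φ hmeas hunit).1 A hA'
    intro f hf h h1 h2
    have : h = (A f.1, A f.2) :=
      Prod.ext (Lp.ext (h1.trans (hA' f.1).symm)) (Lp.ext (h2.trans (hA' f.2).symm))
    rw [this]
    exact hM A hin f hf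
  -- the rotations
  have hww : ∀ k (g : X), Uni (ww3 m t N k g) := fun k g => uni_ww3 hTD hP k g
  have hrot : ∀ (k : ℕ) (g : X), N k • g = 0 → ∀ q ∈ M, ∃ h ∈ M,
      ∀ᵐ x ∂mu, vl h x = ww3 m t N k g x • vl q (x + g) := by
    intro k g hg f hf
    obtain ⟨A, hA⟩ := hOP (ww3 m t N k g) g (hww k g)
    exact ⟨(A f.1, A f.2), hM A (hAG p m t N Φ hP hΦ k g hg A hA) f hf, vl_congr f A _ g hA⟩
  obtain ⟨r, θ, pr, hθm, hprm, hall, hMiff⟩ := hBH3 M hMc hz
  have hθ1 : ∀ᵐ x ∂mu, ∀ a i, ‖θ a x i‖ ≤ 1 := by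
    filter_upwards [hall] with x hx a i
    exact th_bound' _ (by simpa using hx.2.2.2 a a) i
  have hpr1 : ∀ᵐ x ∂mu, ∀ i j, ‖pr x i j‖ ≤ 1 := by
    filter_upwards [hall] with x hx i j
    exact pr_bound _ hx.1 hx.2.1 i j
  -- step 1: the range of the projection is invariant
  have hstep : ∀ (k : ℕ) (g : X), N k • g = 0 → ∀ᵐ x ∂mu, pr x * pr (x + g) = pr (x + g) := by
    intro k g hg
    have hcol : ∀ i : Fin 2, ∀ᵐ x ∂mu,
        (pr x).mulVec (col (pr (x + g)) i) = col (pr (x + g)) i := by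
      intro i
      have hq : ∀ n : ℕ, ∃ q ∈ M, ∀ᵐ x ∂mu, vl q x = e (-(n : ℤ)) x • col (pr x) i := by
        intro n
        obtain ⟨q, hq⟩ := mkp (fun x => e (-(n : ℤ)) x • col (pr x) i)
          (fun j => (sm_e _).mul (hprm j i)) 1 (fun j => by
            filter_upwards [hpr1] with x hx
            show ‖e (-(n : ℤ)) x * pr x j i‖ ≤ 1
            rw [norm_mul, norm_e, one_mul]
            exact hx j i)
        refine ⟨q, ?_, hq⟩
        rw [hMiff]
        have h0 : ∀ᵐ x ∂mu, ∀ a, hp (θ a x) (vl q x) = 0 := by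
          filter_upwards [hq, hall] with x h1 h2 a
          rw [h1, hp_smul, hp_col _ h2.1 _ (h2.2.2.1 a), mul_zero]
        refine ⟨?_, fun a => ?_⟩
        · filter_upwards [hq, hall, h0] with x h1 h2 h3
          simp only [h3, zero_smul, Finset.sum_const_zero]
          rw [h1, Matrix.mulVec_smul, mulVec_col, h2.2.1, sub_self]
        · refine An_congr ?_ (An_const 0)
          filter_upwards [h0] with x h1
          exact (h1 a).symm
      -- the function G
      have hGm : ∀ a, AEStronglyMeasurable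
          (fun x => hp (θ a x) (ww3 m t N k g x • col (pr (x + g)) i)) mu := by
        intro a
        refine sm_hp (fun j => hθm a j) (fun j => ?_)
        exact (hww k g).1.mul (sm_shift (hprm j i) g)
      have hGb : ∀ a, ∀ᵐ x ∂mu,
          ‖hp (θ a x) (ww3 m t N k g x • col (pr (x + g)) i)‖ ≤ 2 := by
        intro a
        filter_upwards [hθ1, ae_shift g hpr1, (hww k g).2] with x h1 h2 h3
        refine hp_bound _ _ (h1 a) (fun j => ?_)
        show ‖ww3 m t N k g x * pr (x + g) j i‖ ≤ 1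
        rw [norm_mul, h3, one_mul]
        exact h2 j i
      have hG0 : ∀ a, ∀ᵐ x ∂mu,
          hp (θ a x) (ww3 m t N k g x • col (pr (x + g)) i) = 0 := by
        intro a
        refine zero_of_coeff _ (hGm a) 2 (hGb a) (fun l => ?_)
        obtain ⟨q, hqM, hq⟩ := hq (l.toNat + 1)
        obtain ⟨h, hhM, hh⟩ := hrot k g hg q hqM
        have h1 := ((hMiff h).1 hhM).2 a
        have h2 : An (fun x => e (-((l.toNat + 1 : ℕ) : ℤ)) g *
            (e (-((l.toNat + 1 : ℕ) : ℤ)) x *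
              hp (θ a x) (ww3 m t N k g x • col (pr (x + g)) i))) := by
          refine An_congr ?_ h1
          filter_upwards [hh, ae_shift g hq] with x h3 h4
          rw [h3, h4, e_add, hp_smul, hp_smul, hp_smul]
          ring
        have h3 := h2 (l - ((l.toNat + 1 : ℕ) : ℤ)) (by
          have := Int.self_le_toNat l
          push_cast
          omega)
        rw [coeff_e] at h3
        rw [sub_add_cancel] at h3
        rcases mul_eq_zero.1 h3 with h4 | h4
        · exfalso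
          have h5 := norm_e (-((l.toNat + 1 : ℕ) : ℤ)) g
          rw [h4] at h5
          simp at h5
        · exact h4
      obtain ⟨q, hqM, hq⟩ := hq 0
      obtain ⟨h, hhM, hh⟩ := hrot k g hg q hqM
      have h1 := ((hMiff h).1 hhM).1
      have hG0' : ∀ᵐ x ∂mu, ∀ a,
          hp (θ a x) (ww3 m t N k g x • col (pr (x + g)) i) = 0 := ae_all_iff.2 hG0
      filter_upwards [h1, hh, ae_shift g hq, hG0', (hww k g).2] with x h2 h3 h4 h5 h6
      have h7 : vl h x = ww3 m t N k g x • col (pr (x + g)) i := by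
        rw [h3, h4]
        have h8 : e (-((0 : ℕ) : ℤ)) (x + g) = 1 := by
          simp [e]
        rw [h8, one_smul]
      rw [h7] at h2
      simp only [h5, zero_smul, Finset.sum_const_zero] at h2
      rw [Matrix.mulVec_smul, ← smul_sub] at h2
      have h9 : ww3 m t N k g x ≠ 0 := by
        intro h10
        rw [h10] at h6
        simp at h6
      have h11 := (smul_eq_zero.1 h2).resolve_left h9
      exact (sub_eq_zero.1 h11).symm
    filter_upwards [hcol 0, hcol 1] with x h1 h2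
    rw [mulVec_col] at h1 h2
    ext i j
    fin_cases j
    · exact congrFun h1 i
    · exact congrFun h2 i
  have hinv : ∀ (k : ℕ) (g : X), N k • g = 0 → ∀ᵐ x ∂mu, pr (x + g) = pr x := by
    intro k g hg
    have h1 := hstep k g hg
    have h2 := ae_shift g (hstep k (-g) (by rw [smul_neg, hg, neg_zero]))
    filter_upwards [h1, h2, hall, ae_shift g hall] with x h3 h4 h5 h6
    rw [add_neg_cancel_right] at h4
    have h7 := congrArg Matrix.conjTranspose h4
    rw [Matrix.conjTranspose_mul, h5.1, h6.1] at h7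
    rw [← h3, h7]
  have hconst : ∀ i j, ∃ c : ℂ, ∀ᵐ x ∂mu, pr x i j = c := by
    intro i j
    refine hERG N hP.zero hP.pos hP.dvd (fun x => pr x i j) ⟨hprm i j, 1, ?_⟩ ?_
    · filter_upwards [hpr1] with x hx
      exact hx i j
    · intro k g hg
      filter_upwards [hinv k g hg] with x hx
      rw [hx]
  choose c hc using hconst
  have hr : r = 0 ∨ 0 < r := Nat.eq_zero_or_pos r
  rcases hr with hr | hr
  · subst hr
    intro B f hf
    have h1 := ((hMiff f).1 hf).1
    have hrel : ∀ x : X, (∀ i j, pr x i j = c i j) → ∀ q : L22,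
        (vl q x - (pr x).mulVec (vl q x) = 0 ↔
        (q.1 x = c 0 0 * q.1 x + c 0 1 * q.2 x ∧ q.2 x = c 1 0 * q.1 x + c 1 1 * q.2 x)) := by
      intro x hx q
      constructor
      · intro h
        have h2 := congrFun h 0
        have h3 := congrFun h 1
        simp only [vl, Pi.sub_apply, Matrix.mulVec, dotProduct, Fin.sum_univ_two, hx,
          Matrix.cons_val_zero, Matrix.cons_val_one, Pi.zero_apply] at h2 h3
        exact ⟨sub_eq_zero.1 h2, sub_eq_zero.1 h3⟩
      · rintro ⟨h2, h3⟩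
        funext i
        fin_cases i
        · simp only [vl, Pi.sub_apply, Matrix.mulVec, dotProduct, Fin.sum_univ_two, hx,
            Matrix.cons_val_zero, Matrix.cons_val_one, Pi.zero_apply, Fin.zero_eta]
          exact sub_eq_zero.2 h2
        · simp only [vl, Pi.sub_apply, Matrix.mulVec, dotProduct, Fin.sum_univ_two, hx,
            Matrix.cons_val_zero, Matrix.cons_val_one, Pi.zero_apply, Fin.mk_one]
          exact sub_eq_zero.2 h3
    have hcc : ∀ᵐ x ∂mu, ∀ i j, pr x i j = c i j :=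
      ae_all_iff.2 fun i => ae_all_iff.2 fun j => hc i j
    have h2 : f.1 = c 0 0 • f.1 + c 0 1 • f.2 := by
      apply Lp.ext
      filter_upwards [h1, hcc, Lp.coeFn_add (c 0 0 • f.1) (c 0 1 • f.2),
        Lp.coeFn_smul (c 0 0) f.1, Lp.coeFn_smul (c 0 1) f.2] with x h3 h4 h5 h6 h7
      rw [Finset.univ_eq_empty, Finset.sum_empty] at h3
      rw [h5, Pi.add_apply, h6, h7]
      exact ((hrel x h4 f).1 h3).1
    have h2' : f.2 = c 1 0 • f.1 + c 1 1 • f.2 := by
      apply Lp.ext
      filter_upwards [h1, hcc, Lp.coeFn_add (c 1 0 • f.1) (c 1 1 • f.2),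
        Lp.coeFn_smul (c 1 0) f.1, Lp.coeFn_smul (c 1 1) f.2] with x h3 h4 h5 h6 h7
      rw [Finset.univ_eq_empty, Finset.sum_empty] at h3
      rw [h5, Pi.add_apply, h6, h7]
      exact ((hrel x h4 f).1 h3).2
    have hB : B f.1 = c 0 0 • B f.1 + c 0 1 • B f.2 := by
      have := congrArg B h2
      rwa [map_add, map_smul, map_smul] at this
    have hB' : B f.2 = c 1 0 • B f.1 + c 1 1 • B f.2 := by
      have := congrArg B h2'
      rwa [map_add, map_smul, map_smul] at this
    rw [hMiff]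
    refine ⟨?_, fun a => a.elim0⟩
    have hB1 : ∀ᵐ x ∂mu, (B f.1 : L2) x = c 0 0 * (B f.1 : L2) x + c 0 1 * (B f.2 : L2) x := by
      have h3 : ((B f.1 : L2) : X → ℂ) =ᵐ[mu] ((c 0 0 • B f.1 + c 0 1 • B f.2 : L2) : X → ℂ) := by
        rw [← hB]
      filter_upwards [h3, Lp.coeFn_add (c 0 0 • B f.1) (c 0 1 • B f.2),
        Lp.coeFn_smul (c 0 0) (B f.1), Lp.coeFn_smul (c 0 1) (B f.2)] with x h4 h5 h6 h7
      rw [h5, Pi.add_apply, h6, h7] at h4
      exact h4
    have hB2 : ∀ᵐ x ∂mu, (B f.2 : L2) x = c 1 0 * (B f.1 : L2) x + c 1 1 * (B f.2 : L2) x := by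
      have h3 : ((B f.2 : L2) : X → ℂ) =ᵐ[mu] ((c 1 0 • B f.1 + c 1 1 • B f.2 : L2) : X → ℂ) := by
        rw [← hB']
      filter_upwards [h3, Lp.coeFn_add (c 1 0 • B f.1) (c 1 1 • B f.2),
        Lp.coeFn_smul (c 1 0) (B f.1), Lp.coeFn_smul (c 1 1) (B f.2)] with x h4 h5 h6 h7
      rw [h5, Pi.add_apply, h6, h7] at h4
      exact h4
    filter_upwards [hB1, hB2, hcc] with x h3 h4 h5
    rw [Finset.univ_eq_empty, Finset.sum_empty]
    exact (hrel x h5 (B f.1, B f.2)).2 ⟨h3, h4⟩
  · exfalso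
    -- the functions theta are in the space
    have hθM : ∀ a, ∃ q ∈ M, ∀ᵐ x ∂mu, vl q x = θ a x := by
      intro a
      obtain ⟨q, hq⟩ := mkp (fun x => θ a x) (hθm a) 1 (fun i => by
        filter_upwards [hθ1] with x hx
        exact hx a i)
      refine ⟨q, ?_, hq⟩
      rw [hMiff]
      refine ⟨?_, fun b => ?_⟩
      · filter_upwards [hq, hall] with x h1 h2
        rw [h1, h2.2.2.1 a, sub_zero]
        have h3 : ∀ b, hp (θ b x) (θ a x) • θ b x = if b = a then θ a x else 0 := by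
          intro b
          rw [h2.2.2.2 b a]
          split_ifs with h4
          · rw [h4, one_smul]
          · rw [zero_smul]
        simp only [h3, Finset.sum_ite_eq', Finset.mem_univ, if_true]
      · refine An_congr ?_ (An_const (if b = a then 1 else 0))
        filter_upwards [hq, hall] with x h1 h2
        rw [h1, h2.2.2.2 b a]
    have hcoc : ∀ (k : ℕ) (g : X), N k • g = 0 → ∀ a,
        (∀ᵐ x ∂mu, ww3 m t N k g x • θ a (x + g) =
          ∑ b, hp (θ b x) (ww3 m t N k g x • θ a (x + g)) • θ b x) ∧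
        ∀ b, An (fun x => hp (θ b x) (ww3 m t N k g x • θ a (x + g))) := by
      intro k g hg a
      obtain ⟨q, hqM, hq⟩ := hθM a
      obtain ⟨h, hhM, hh⟩ := hrot k g hg q hqM
      obtain ⟨h1, h2⟩ := (hMiff h).1 hhM
      have hv : ∀ᵐ x ∂mu, vl h x = ww3 m t N k g x • θ a (x + g) := by
        filter_upwards [hh, ae_shift g hq] with x h3 h4
        rw [h3, h4]
      refine ⟨?_, fun b => ?_⟩
      · filter_upwards [h1, hv, hinv k g hg, ae_shift g hall] with x h3 h4 h5 h6
        rw [h4] at h3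
        rw [← h3, Matrix.mulVec_smul, ← h5, h6.2.2.1 a, smul_zero, sub_zero]
      · refine An_congr ?_ (h2 b)
        filter_upwards [hv] with x h3
        rw [h3]
    have hr' : r = 1 ∨ r = 2 ∨ 3 ≤ r := by omega
    rcases hr' with hr' | hr' | hr'
    · subst hr'
      have hn : ∀ (k : ℕ) (g : X), N k • g = 0 → ∀ᵐ x ∂mu, ∀ i,
          ‖θ 0 (x + g) i‖ = ‖θ 0 x i‖ := by
        intro k g hg
        filter_upwards [(hcoc k g hg 0).1, hall, ae_shift g hall, (hww k g).2]
          with x h1 h2 h3 h4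
        rw [Fin.sum_univ_one] at h1
        generalize hp (θ 0 x) (ww3 m t N k g x • θ 0 (x + g)) = d at h1
        have h5 : ∀ i, ‖θ 0 (x + g) i‖ = ‖d‖ * ‖θ 0 x i‖ := by
          intro i
          have h6 := congrArg norm (congrFun h1 i)
          rw [Pi.smul_apply, Pi.smul_apply, smul_eq_mul, smul_eq_mul, norm_mul, norm_mul, h4,
            one_mul] at h6
          exact h6
        have h6 := th_bound (θ 0 x) (by simpa using h2.2.2.2 0 0)
        have h7 := th_bound (θ 0 (x + g)) (by simpa using h3.2.2.2 0 0)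
        rw [h5 0, h5 1] at h7
        have h8 : ‖d‖ ^ 2 = 1 := by
          have : ‖d‖ ^ 2 * (‖θ 0 x 0‖ ^ 2 + ‖θ 0 x 1‖ ^ 2) = 1 := by
            rw [← h7]
            ring
          rwa [h6, mul_one] at this
        have h9 : ‖d‖ = 1 := by
          have := norm_nonneg d
          nlinarith
        intro i
        rw [h5 i, h9, one_mul]
      have hρ : ∀ i, ∃ c : ℂ, ∀ᵐ x ∂mu, ((‖θ 0 x i‖ : ℝ) : ℂ) = c := by
        intro i
        refine hERG N hP.zero hP.pos hP.dvd (fun x => ((‖θ 0 x i‖ : ℝ) : ℂ)) ⟨?_, 1, ?_⟩ ?_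
        · exact Complex.continuous_ofReal.comp_aestronglyMeasurable (hθm 0 i).norm
        · filter_upwards [hθ1] with x hx
          rw [Complex.norm_real, norm_norm]
          exact hx 0 i
        · intro k g hg
          filter_upwards [hn k g hg] with x hx
          rw [hx i]
      choose ρ hρ using hρ
      have hρ' : ∀ᵐ x ∂mu, ∀ i, ((‖θ 0 x i‖ : ℝ) : ℂ) = ρ i := ae_all_iff.2 hρ
      obtain ⟨x0, hx0, hx1⟩ := (hρ'.and hall).exists
      have h6 := th_bound (θ 0 x0) (by simpa using hx1.2.2.2 0 0)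
      have hi : ∃ i, 0 < ‖θ 0 x0 i‖ := by
        by_contra hcon
        push Not at hcon
        have h7 := le_antisymm (hcon 0) (norm_nonneg _)
        have h8 := le_antisymm (hcon 1) (norm_nonneg _)
        rw [h7, h8] at h6
        norm_num at h6
      obtain ⟨i, hi⟩ := hi
      set R : ℝ := ‖θ 0 x0 i‖ with hR
      have hRx : ∀ᵐ x ∂mu, ‖θ 0 x i‖ = R := by
        filter_upwards [hρ i] with x hx
        have h7 := hx0 i
        rw [← hx] at h7
        exact_mod_cast h7.symm
      have hR0 : (R : ℂ) ≠ 0 := by exact_mod_cast hi.ne'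
      refine hNO p m t N hP 1 (Or.inl rfl) (fun x => θ 0 x i * (R : ℂ)⁻¹) ⟨?_, ?_⟩ ?_
      · exact (hθm 0 i).mul aestronglyMeasurable_const
      · filter_upwards [hRx] with x hx
        rw [norm_mul, norm_inv, hx, Complex.norm_real, Real.norm_of_nonneg hi.le]
        exact mul_inv_cancel₀ hi.ne'
      · intro k g hg
        refine An_congr ?_ ((hcoc k g hg 0).2 0)
        filter_upwards [(hcoc k g hg 0).1, hRx] with x h1 h2
        rw [Fin.sum_univ_one] at h1
        generalize hp (θ 0 x) (ww3 m t N k g x • θ 0 (x + g)) = d at h1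
        have h3 := congrFun h1 i
        rw [Pi.smul_apply, Pi.smul_apply, smul_eq_mul, smul_eq_mul] at h3
        have h4 : θ 0 x i * conj (θ 0 x i) = (R : ℂ) * R := by
          rw [Complex.mul_conj, Complex.normSq_eq_norm_sq, h2]
          push_cast
          ring
        have h5 : conj ((R : ℂ)⁻¹) = (R : ℂ)⁻¹ := by
          rw [map_inv₀, Complex.conj_ofReal]
        rw [pow_one, map_mul, h5]
        calc d = d * ((R : ℂ) * R) * ((R : ℂ)⁻¹ * (R : ℂ)⁻¹) := by
              field_simp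
          _ = (d * θ 0 x i) * conj (θ 0 x i) * ((R : ℂ)⁻¹ * (R : ℂ)⁻¹) := by
              rw [← h4]
              ring
          _ = _ := by
              rw [← h3]
              ring
    · subst hr'
      have hδ : ∀ᵐ x ∂mu, (θ 0 x 0 * θ 1 x 1 - θ 0 x 1 * θ 1 x 0) *
          conj (θ 0 x 0 * θ 1 x 1 - θ 0 x 1 * θ 1 x 0) = 1 := by
        filter_upwards [hall] with x hx
        have h1 : hp (θ 0 x) (θ 0 x) = 1 := by simpa using hx.2.2.2 0 0
        have h2 : hp (θ 1 x) (θ 1 x) = 1 := by simpa using hx.2.2.2 1 1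
        have h3 : hp (θ 0 x) (θ 1 x) = 0 := by simpa using hx.2.2.2 0 1
        have h4 : (θ 0 x 0 * θ 1 x 1 - θ 0 x 1 * θ 1 x 0) *
            conj (θ 0 x 0 * θ 1 x 1 - θ 0 x 1 * θ 1 x 0) =
            hp (θ 0 x) (θ 0 x) * hp (θ 1 x) (θ 1 x) -
              hp (θ 0 x) (θ 1 x) * hp (θ 1 x) (θ 0 x) := by
          simp only [hp2, map_sub, map_mul]
          ring
        rw [h4, h1, h2, h3]
        norm_num
      refine hNO p m t N hP 2 (Or.inr rfl)
        (fun x => θ 0 x 0 * θ 1 x 1 - θ 0 x 1 * θ 1 x 0) ⟨?_, ?_⟩ ?_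
      · exact ((hθm 0 0).mul (hθm 1 1)).sub ((hθm 0 1).mul (hθm 1 0))
      · filter_upwards [hδ] with x hx
        rw [Complex.mul_conj, Complex.normSq_eq_norm_sq] at hx
        have h1 : ‖θ 0 x 0 * θ 1 x 1 - θ 0 x 1 * θ 1 x 0‖ ^ 2 = 1 := by exact_mod_cast hx
        have h2 := norm_nonneg (θ 0 x 0 * θ 1 x 1 - θ 0 x 1 * θ 1 x 0)
        nlinarith
      · intro k g hg
        have hcm : ∀ a b, AEStronglyMeasurable
            (fun x => hp (θ b x) (ww3 m t N k g x • θ a (x + g))) mu := fun a b =>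
          sm_hp (fun j => hθm b j) (fun j => (hww k g).1.mul (sm_shift (hθm a j) g))
        have hcb : ∀ a b, ∀ᵐ x ∂mu, ‖hp (θ b x) (ww3 m t N k g x • θ a (x + g))‖ ≤ 2 := by
          intro a b
          filter_upwards [hθ1, ae_shift g hθ1, (hww k g).2] with x h1 h2 h3
          refine hp_bound _ _ (h1 b) (fun j => ?_)
          show ‖ww3 m t N k g x * θ a (x + g) j‖ ≤ 1
          rw [norm_mul, h3, one_mul]
          exact h2 a j
        have hpr : ∀ a b a' b', MemLp (fun x => hp (θ b x) (ww3 m t N k g x • θ a (x + g)) *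
            hp (θ b' x) (ww3 m t N k g x • θ a' (x + g))) 2 mu ∧
            An (fun x => hp (θ b x) (ww3 m t N k g x • θ a (x + g)) *
            hp (θ b' x) (ww3 m t N k g x • θ a' (x + g))) := by
          intro a b a' b'
          exact hH1 _ _ (MemLp.of_bound (hcm a b) 2 (hcb a b)) ((hcoc k g hg a).2 b)
            ⟨hcm a' b', 2, hcb a' b'⟩ ((hcoc k g hg a').2 b')
        have hA1 := hpr 0 0 1 1
        have hA2 := hpr 0 1 1 0
        have hA3 := An_sub hA1.1 hA2.1 hA1.2 hA2.2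
        refine An_congr ?_ hA3
        filter_upwards [(hcoc k g hg 0).1, (hcoc k g hg 1).1, hδ] with x h1 h2 h3
        rw [Fin.sum_univ_two] at h1 h2
        generalize hp (θ 0 x) (ww3 m t N k g x • θ 0 (x + g)) = c00 at h1 h2 ⊢
        generalize hp (θ 1 x) (ww3 m t N k g x • θ 0 (x + g)) = c10 at h1 h2 ⊢
        generalize hp (θ 0 x) (ww3 m t N k g x • θ 1 (x + g)) = c01 at h1 h2 ⊢
        generalize hp (θ 1 x) (ww3 m t N k g x • θ 1 (x + g)) = c11 at h1 h2 ⊢
        have e00 := congrFun h1 0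
        have e01 := congrFun h1 1
        have e10 := congrFun h2 0
        have e11 := congrFun h2 1
        simp only [Pi.smul_apply, Pi.add_apply, smul_eq_mul] at e00 e01 e10 e11
        calc c00 * c11 - c10 * c01 = (c00 * c11 - c10 * c01) *
              ((θ 0 x 0 * θ 1 x 1 - θ 0 x 1 * θ 1 x 0) *
              conj (θ 0 x 0 * θ 1 x 1 - θ 0 x 1 * θ 1 x 0)) := by rw [h3, mul_one]
          _ = ((c00 * θ 0 x 0 + c10 * θ 1 x 0) * (c01 * θ 0 x 1 + c11 * θ 1 x 1) -
              (c00 * θ 0 x 1 + c10 * θ 1 x 1) * (c01 * θ 0 x 0 + c11 * θ 1 x 0)) *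
              conj (θ 0 x 0 * θ 1 x 1 - θ 0 x 1 * θ 1 x 0) := by ring
          _ = _ := by
            rw [← e00, ← e01, ← e10, ← e11]
            ring
    · obtain ⟨x, hx⟩ := hall.exists
      have h := hx.2.2.2
      have a01 : (⟨0, by omega⟩ : Fin r) ≠ ⟨1, by omega⟩ := by simp
      have a02 : (⟨0, by omega⟩ : Fin r) ≠ ⟨2, by omega⟩ := by simp
      have a12 : (⟨1, by omega⟩ : Fin r) ≠ ⟨2, by omega⟩ := by simp
      have h00 := h ⟨0, by omega⟩ ⟨0, by omega⟩
      have h11 := h ⟨1, by omega⟩ ⟨1, by omega⟩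
      have h22 := h ⟨2, by omega⟩ ⟨2, by omega⟩
      have h01 := h ⟨0, by omega⟩ ⟨1, by omega⟩
      have h02 := h ⟨0, by omega⟩ ⟨2, by omega⟩
      have h12 := h ⟨1, by omega⟩ ⟨2, by omega⟩
      rw [if_pos rfl] at h00 h11 h22
      rw [if_neg a01] at h01
      rw [if_neg a02] at h02
      rw [if_neg a12] at h12
      have hgram : ∀ u v w : Fin 2 → ℂ,
          hp u u * (hp v v * hp w w - hp v w * hp w v) -
          hp u v * (hp v u * hp w w - hp v w * hp w u) +
          hp u w * (hp v u * hp w v - hp v v * hp w u) = 0 := by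
        intro u v w
        simp only [hp2]
        ring
      have h9 := hgram (θ ⟨0, by omega⟩ x) (θ ⟨1, by omega⟩ x) (θ ⟨2, by omega⟩ x)
      rw [h00, h11, h22, h01, h02, h12] at h9
      norm_num at h9

end

end Pool.Agent.H460U
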