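import Pool.Agent.H460U.TR.All
import Pool.Agent.H460U.TR.AG3
import Pool.Agent.H460U.TR.AP
import Pool.Agent.H460U.TR.AU3
import Pool.Agent.H460U.TR.BH3
import Pool.Agent.H460U.TR.BLK
import Pool.Agent.H460U.TR.CON3
import Pool.Agent.H460U.TR.ERG3
import Pool.Agent.H460U.TR.FA3
import Pool.Agent.H460U.TR.FIN3
import Pool.Agent.H460U.TR.FR
import Pool.Agent.H460U.TR.GL3
import Pool.Agent.H460U.TR.LP
import Pool.Agent.H460U.TR.NO3
import Pool.Agent.H460U.TR.PAN3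
import Pool.Agent.H460U.TR.PAR3
import Pool.Agent.H460U.TR.PHI3
import Pool.Agent.H460U.TR.STEP3
import Pool.Agent.H460U.TR.TD3
import Pool.Agent.H460U.TR.TRA3

/-! Project TR, part 2: assembly (helper460). -/

set_option autoImplicit false

namespace Pool.Agent.H460U

theorem all_BLK : S_BLK := t_BLK t_FR t_AP
theorem all_LP : S_LP := t_LP all_BLK t_H4
theorem all_PAR3 : S_PAR3 := t_PAR3 all_LP
theorem all_TD3 : S_TD3 := t_TD3 t_H1 t_H3 t_H4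
theorem all_PHI3 : S_PHI3 := t_PHI3 all_TD3 t_H4
theorem all_PAN3 : S_PAN3 := t_PAN3 t_H1 t_H2 t_H3 t_H4
theorem all_AG3 : S_AG3 := t_AG3 all_PAN3 t_H1 t_H2
theorem all_AU3 : S_AU3 := t_AU3 t_H1
theorem all_STEP3 : S_STEP3 := t_STEP3 all_K1 all_K2 all_DIV all_RED t_H1 t_H2 t_H4 all_TD3
theorem all_CON3 : S_CON3 := t_CON3 all_KAP t_TC
theorem all_NO3 : S_NO3 := t_NO3 all_STEP3 (t_FA3 all_TD3 t_H4) all_CON3
theorem all_TRA3 : S_TRA3 :=
  t_TRA3 t_BH3 all_AG3 all_AU3 t_OP t_ERG3 all_NO3 all_TD3 t_H1 t_H2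
theorem all_FIN3 : S_FIN3 := t_FIN3 all_PAR3 all_PHI3 t_GL3 all_AU3 t_OP all_TRA3

end Pool.Agent.H460U
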