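import Pool.Agent.H460U.TR.Defs

set_option autoImplicit false

open MeasureTheory Complex Filter
open scoped ComplexConjugate Matrix Topology InnerProductSpace

namespace Pool.Agent.H460U

theorem H2_arg (n : ℤ) (x y : X) :
    (fourier n (x + y) : ℂ) = (fourier n x : ℂ) * (fourier n y : ℂ) := by
  rw [fourier_apply, fourier_apply, fourier_apply, smul_add, AddCircle.toCircle_add, Circle.coe_mul]

theorem H2_coeff (f : X → ℂ) (g : X) (n : ℤ) :
    fourierCoeff (fun x => f (x + g)) n = (fourier n g : ℂ) * fourierCoeff f n := by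
  unfold fourierCoeff
  rw [← integral_const_mul]
  have h := integral_add_right_eq_self (μ := mu)
    (fun x : X => (fourier n g : ℂ) * ((fourier (-n) x : ℂ) • f x)) g
  rw [← h]
  refine integral_congr_ae (Filter.Eventually.of_forall fun x => ?_)
  simp only [smul_eq_mul]
  rw [H2_arg (-n) x g]
  have e1 : (fourier n g : ℂ) * (fourier (-n) g : ℂ) = 1 := by
    rw [← fourier_add, add_neg_cancel, fourier_zero]
  calc (fourier (-n) x : ℂ) * f (x + g) =
      ((fourier n g : ℂ) * (fourier (-n) g : ℂ)) * ((fourier (-n) x : ℂ) * f (x + g)) := by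
        rw [e1, one_mul]
    _ = _ := by ring

/-- H2 -/
theorem t_H2 : S_H2 := by
  intro f g hf n hn
  rw [H2_coeff, hf n hn, mul_zero]

end Pool.Agent.H460U
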