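import Pool.Agent.H460U.TR.Defs3

set_option autoImplicit false

open MeasureTheory Complex Filter
open scoped ComplexConjugate Matrix Topology InnerProductSpace

namespace Pool.Agent.H460U

noncomputable section

namespace PAN3

lemma bd_of_cont {f : X → ℂ} (hf : Continuous f) : Bd f := by
  refine ⟨hf.aestronglyMeasurable, ?_⟩
  obtain ⟨C, hC⟩ := isCompact_univ.exists_bound_of_continuousOn (f := f) hf.continuousOn
  exact ⟨C, Filter.Eventually.of_forall fun x => hC x trivial⟩

lemma memLp_of_cont {f : X → ℂ} (hf : Continuous f) : MemLp f 2 mu := by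
  obtain ⟨_, C, hC⟩ := bd_of_cont hf
  exact MemLp.of_bound hf.aestronglyMeasurable C hC

lemma int_of_cont {f : X → ℂ} (hf : Continuous f) : Integrable f mu :=
  (memLp_of_cont hf).integrable (by norm_num)

lemma An_one : An (fun _ : X => (1 : ℂ)) := by
  intro n hn
  have h := fourierCoeff_fourier (T := 1) (0 : ℤ)
  have h1 : fourierCoeff (fun _ : X => (1 : ℂ)) = fourierCoeff (⇑(fourier (T := 1) (0 : ℤ))) := by
    congr 1
    funext x
    exact (fourier_zero (x := x)).symm
  rw [h1, h, Pi.single_eq_of_ne (by omega)]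

lemma An_const (c : ℂ) : An (fun _ : X => c) := by
  intro n hn
  have h := fourierCoeff.const_mul (T := 1) (fun _ : X => (1 : ℂ)) c n
  have h2 := An_one n hn
  rw [h2, mul_zero] at h
  simpa using h

lemma An_add {f g : X → ℂ} (hf : Continuous f) (hg : Continuous g) (h1 : An f) (h2 : An g) :
    An (f + g) := by
  intro n hn
  rw [fourierCoeff.add (int_of_cont hf) (int_of_cont hg)]
  simp [h1 n hn, h2 n hn]

/-- the algebra of good functions -/
def GA (h1 : S_H1) : Subalgebra ℂ (X → ℂ) where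
  carrier := {f | Continuous f ∧ An f}
  mul_mem' := by
    rintro f g ⟨hf, af⟩ ⟨hg, ag⟩
    exact ⟨hf.mul hg, (h1 f g (memLp_of_cont hf) af (bd_of_cont hg) ag).2⟩
  add_mem' := by
    rintro f g ⟨hf, af⟩ ⟨hg, ag⟩
    exact ⟨hf.add hg, An_add hf hg af ag⟩
  algebraMap_mem' := by
    intro c
    exact ⟨continuous_const, An_const c⟩

lemma mem_GA (h1 : S_H1) (f : X → ℂ) : f ∈ GA h1 ↔ Continuous f ∧ An f := Iff.rfl

lemma trans_mem (h1 : S_H1) (h2 : S_H2) {f : X → ℂ} (hf : f ∈ GA h1) (g : X) :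
    (fun x => f (x + g)) ∈ GA h1 := by
  refine ⟨hf.1.comp (continuous_id.add continuous_const), h2 f g hf.2⟩

lemma dil_mem (h1 : S_H1) (h3 : S_H3) {f : X → ℂ} (hf : f ∈ GA h1) {N : ℕ} (hN : 0 < N) :
    (fun x : X => f (N • x)) ∈ GA h1 := by
  refine ⟨hf.1.comp (continuous_nsmul N), ?_⟩
  intro m hm
  obtain ⟨ha, hb⟩ := h3 f N hN (bd_of_cont hf.1)
  by_cases hd : (N : ℤ) ∣ m
  · obtain ⟨n, rfl⟩ := hd
    rw [ha n]
    apply hf.2
    by_contra hn
    have hn' : 0 ≤ n := by omega
    have : (0 : ℤ) ≤ (N : ℤ) * n := by positivity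
    omega
  · exact hb m hd

lemma poly_mem (h1 : S_H1) {f : X → ℂ} (hf : f ∈ GA h1) (q : Polynomial ℂ) :
    (fun x : X => q.eval (f x)) ∈ GA h1 := by
  have : (fun x : X => q.eval (f x)) = Polynomial.aeval f q := by
    funext x
    rw [Polynomial.aeval_eq_sum_range, Polynomial.eval_eq_sum_range]
    simp [Finset.sum_apply]
  rw [this]
  rw [Polynomial.aeval_eq_sum_range]
  exact Subalgebra.sum_mem _ fun i _ => Subalgebra.smul_mem _ (Subalgebra.pow_mem _ hf i) _

lemma PP_mem (h1 : S_H1) (h3 : S_H3) (h4 : S_H4) (p : ℕ → P3) (N : ℕ → ℕ) (hN : ∀ k, 0 < N k) :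
    ∀ k (i j : Fin 3), (fun x => PP3 p N k x i j) ∈ GA h1 := by
  intro k
  induction k with
  | zero =>
    intro i j
    exact ⟨continuous_const, An_const _⟩
  | succ k ih =>
    intro i j
    have e : (fun x => PP3 p N (k + 1) x i j) =
        ∑ l : Fin 3, (fun x => (p k i l).eval (bl (N k • x))) * (fun x => PP3 p N k x l j) := by
      funext x
      simp [PP3, ev3, Matrix.mul_apply, Finset.sum_apply]
    rw [e]
    apply Subalgebra.sum_mem
    intro l _
    apply Subalgebra.mul_mem _ _ (ih l j)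
    have hb : bl ∈ GA h1 := ⟨h4.1, h4.2.2.1⟩
    have := poly_mem h1 (dil_mem h1 h3 hb (hN k)) (p k i l)
    exact this

lemma adj_mem (h1 : S_H1) (M : X → M3) (hM : ∀ i j, (fun x => M x i j) ∈ GA h1) (i j : Fin 3) :
    (fun x => (M x).adjugate i j) ∈ GA h1 := by
  have e : (fun x => (M x).adjugate i j) = (Matrix.adjugate (Matrix.of fun i j => (fun x => M x i j)) : Matrix (Fin 3) (Fin 3) (X → ℂ)) i j := by
    funext x
    rw [Matrix.adjugate_fin_three, Matrix.adjugate_fin_three]
    fin_cases i <;> fin_cases j <;> simp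
  rw [e, Matrix.adjugate_fin_three]
  fin_cases i <;> fin_cases j <;> simp <;>
    first
    | exact Subalgebra.sub_mem _ (Subalgebra.mul_mem _ (hM _ _) (hM _ _)) (Subalgebra.mul_mem _ (hM _ _) (hM _ _))
    | exact Subalgebra.add_mem _ (Subalgebra.neg_mem _ (Subalgebra.mul_mem _ (hM _ _) (hM _ _))) (Subalgebra.mul_mem _ (hM _ _) (hM _ _))

end PAN3

open PAN3

theorem t_PAN3 (h1 : S_H1) (h2 : S_H2) (h3 : S_H3) (h4 : S_H4) : S_PAN3 := by
  intro p N hN k g i j
  have hP := PP_mem h1 h3 h4 p N hN k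
  have key : (fun x => ((PP3 p N k x).adjugate * PP3 p N k (x + g)) i j) ∈ GA h1 := by
    have e : (fun x => ((PP3 p N k x).adjugate * PP3 p N k (x + g)) i j) =
        ∑ l : Fin 3, (fun x => (PP3 p N k x).adjugate i l) * (fun x => PP3 p N k (x + g) l j) := by
      funext x
      simp [Matrix.mul_apply, Finset.sum_apply]
    rw [e]
    apply Subalgebra.sum_mem
    intro l _
    exact Subalgebra.mul_mem _ (adj_mem h1 _ hP i l) (trans_mem h1 h2 (hP l j) g)
  exact key

end

end Pool.Agent.H460U
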